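import Pool.Agent.Lib.MP_2f3286_ag.GU.CM
import Pool.Agent.Lib.MP_2f3286_ag.Gen.Fin

/-!
# Sufficiently many closed points of the affine line give enough units
-/

open IsDedekindDomain NumberField Polynomial
open scoped TensorProduct

namespace Pool.Agent.Lib.MP_2f3286_ag.GU

universe u w₁

/-- an element of an algebra over a field which is algebraic in all fields is a root of a polynomial -/
theorem exists_poly_of_fields {E : Type*} {A : Type u} [Field E] [CommRing A] [Algebra E A] (a : A)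
    (h : ∀ (L : Type u) [Field L] [Algebra E L] (π : A →ₐ[E] L), IsAlgebraic E (π a)) :
    ∃ χ : E[X], χ ≠ 0 ∧ aeval a χ = 0 := by
  classical
  by_contra hcon
  push Not at hcon
  let S : Submonoid A := (nonZeroDivisors E[X]).map (aeval a : E[X] →ₐ[E] A)
  have hdisj : Disjoint ((⊥ : Ideal A) : Set A) S := by
    rw [Set.disjoint_left]
    rintro b hb ⟨χ, hχ, rfl⟩
    exact hcon χ (nonZeroDivisors.ne_zero hχ) hb
  obtain ⟨𝔭, h𝔭, -, hd⟩ := Ideal.exists_le_prime_disjoint ⊥ S hdisj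
  let L := FractionRing (A ⧸ 𝔭)
  let π : A →ₐ[E] L := (IsScalarTower.toAlgHom E (A ⧸ 𝔭) L).comp (Ideal.Quotient.mkₐ E 𝔭)
  obtain ⟨χ, hχ, hχa⟩ := h L π
  rw [aeval_algHom_apply] at hχa
  have h5 : Ideal.Quotient.mk 𝔭 (aeval a χ) = 0 :=
    (IsFractionRing.injective (A ⧸ 𝔭) L) (by rw [map_zero]; exact hχa)
  rw [Ideal.Quotient.eq_zero_iff_mem] at h5
  exact (Set.disjoint_left.mp hd) h5 ⟨χ, mem_nonZeroDivisors_of_ne_zero hχ, rfl⟩

/-- finitely many points with given products of values, up to powers of one number -/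
theorem fin_of_polys {I : Type w₁} {J : Type*} [Fintype I] [Fintype J] (P : J → I → ℂ[X])
    (hdeg : ∀ j i, 0 < (P j i).natDegree)
    (hcop : ∀ i, Pairwise fun j j' => IsCoprime (P j i) (P j' i)) (ρ : J → ℂ) (hρ : ∀ j, ρ j ≠ 0)
    (m : J → ℤ) (hcard : (m = 0 ∧ Fintype.card I ≤ Fintype.card J) ∨
      2 * Fintype.card I ≤ Fintype.card J) :
    {x : I → ℂ | ∃ z : ℂ, z ≠ 0 ∧ ∀ j, ∏ i, (P j i).eval (x i) = ρ j * z ^ m j}.Finite := by
  classical
  let 𝒮 := {q : (I → ℂ) × ℂ // q.2 ≠ 0 ∧ ∀ j, ∏ i, (P j i).eval (q.1 i) = ρ j * q.2 ^ m j}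
  let Xi : I → (𝒮 → ℂ) := fun i q => q.1.1 i
  let Z : (𝒮 → ℂ)ˣ := Units.mkOfMulEqOne (fun q : 𝒮 => q.1.2) (fun q : 𝒮 => (q.1.2)⁻¹)
    (funext fun q => mul_inv_cancel₀ q.2.1)
  have hZ : ∀ (q : 𝒮) (n : ℤ), ((Z ^ n : (𝒮 → ℂ)ˣ) : 𝒮 → ℂ) q = q.1.2 ^ n := by
    intro q n
    have h1 : (Pi.evalMonoidHom (fun _ : 𝒮 => ℂ) q) ((Z ^ n : (𝒮 → ℂ)ˣ) : 𝒮 → ℂ) =
        ((Units.map (Pi.evalMonoidHom (fun _ : 𝒮 => ℂ) q) (Z ^ n) : ℂˣ) : ℂ) := rfl
    change (Pi.evalMonoidHom (fun _ : 𝒮 => ℂ) q) ((Z ^ n : (𝒮 → ℂ)ˣ) : 𝒮 → ℂ) = _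
    rw [h1, map_zpow, Units.val_zpow_eq_zpow_val]
    rfl
  have hev : ∀ i (q : 𝒮) (r : ℂ[X]), (aeval (Xi i) r) q = r.eval (q.1.1 i) := by
    intro i q r
    have h1 := aeval_algHom_apply (Pi.evalAlgHom ℂ (fun _ : 𝒮 => ℂ) q) (Xi i) r
    have h2 : (Pi.evalAlgHom ℂ (fun _ : 𝒮 => ℂ) q) (Xi i) = q.1.1 i := rfl
    rw [h2] at h1
    rw [← coe_aeval_eq_eval]
    exact h1.symm
  have heq : ∀ j, ∏ i, aeval (Xi i) (P j i) = algebraMap ℂ (𝒮 → ℂ) (ρ j) * ((Z ^ m j : (𝒮 → ℂ)ˣ) : 𝒮 → ℂ) := by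
    intro j
    funext q
    rw [Finset.prod_apply, Pi.mul_apply, hZ]
    refine Eq.trans ?_ (q.2.2 j)
    exact Finset.prod_congr rfl fun i _ => hev i q (P j i)
  have key : ∀ i, ∃ χ : ℂ[X], χ ≠ 0 ∧ aeval (Xi i) χ = 0 := by
    intro i
    refine exists_poly_of_fields (Xi i) fun L _ _ π => ?_
    have h1 : ∀ j, ∏ i, aeval (π (Xi i)) (P j i) = algebraMap ℂ L (ρ j) * (π Z) ^ m j := by
      intro j
      have h2 := congrArg π (heq j)
      rw [map_prod, map_mul, AlgHom.commutes] at h2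
      have h3 : π ((Z ^ m j : (𝒮 → ℂ)ˣ) : 𝒮 → ℂ) = (π Z) ^ m j := by
        have h4 : π ((Z ^ m j : (𝒮 → ℂ)ˣ) : 𝒮 → ℂ) =
            ((Units.map (π : (𝒮 → ℂ) →* L) (Z ^ m j) : Lˣ) : L) := rfl
        rw [h4, map_zpow, Units.val_zpow_eq_zpow_val]
        rfl
      rw [h3] at h2
      rw [← h2]
      exact Finset.prod_congr rfl fun i _ => aeval_algHom_apply π (Xi i) (P j i)
    have hcase : ∀ (hm : m = 0) (hc : Fintype.card I ≤ Fintype.card J), IsAlgebraic ℂ (π (Xi i)) := by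
      intro hm hc
      refine (Gen.isIntegral_of_norms P hdeg hcop hc ρ (fun i => π (Xi i)) (fun j => ?_) i).isAlgebraic
      rw [h1 j, hm, Pi.zero_apply, zpow_zero, mul_one]
    rcases hcard with ⟨hm, hc⟩ | hc
    · exact hcase hm hc
    · by_cases hm : m = 0
      · exact hcase hm (by omega)
      · have hz : IsAlgebraic ℂ (π (Z : 𝒮 → ℂ)) := by
          by_contra hz
          apply hm
          funext j
          exact Gen.no_curve_aux P hdeg hcop hc hz ρ hρ m (fun i => π (Xi i)) h1 j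
        obtain ⟨z₀, hz₀⟩ : ∃ z₀ : ℂ, algebraMap ℂ L z₀ = π (Z : 𝒮 → ℂ) := by
          obtain ⟨q, hq, hqz⟩ := hz
          refine (IsAlgClosed.splits q).mem_range_of_isRoot hq ?_
          rw [IsRoot.def, eval_map_algebraMap]
          exact hqz
        refine (Gen.isIntegral_of_norms P hdeg hcop (by omega) (fun j => ρ j * z₀ ^ m j)
          (fun i => π (Xi i)) (fun j => ?_) i).isAlgebraic
        rw [h1 j, map_mul, map_zpow₀, hz₀]
  choose χ hχ0 hχ using key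
  refine (Set.Finite.pi' fun i => ((χ i).roots.toFinset.finite_toSet)).subset ?_
  rintro x ⟨z, hz, hx⟩ i
  rw [Finset.mem_coe, Multiset.mem_toFinset, mem_roots (hχ0 i), IsRoot.def]
  have h1 := congrFun (hχ i) ⟨(x, z), hz, hx⟩
  rw [hev] at h1
  exact h1

/-- The values of sufficiently many coprime polynomials over `L`, dividing the `P i`: there are enough units. -/
theorem enough_of_many {k : Type u} [Field k] [NumberField k] {R : Type*} [CommRing R] [Nontrivial R]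
    [Algebra k R] {L : Type w₁} [Field L] [NumberField L] [Algebra k L]
    {I : Type*} (p : I → Rˣ) (f : R) (P : I → k[X])
    (hp : ∀ i, (p i : R) = aeval f (P i))
    (hgen : ∀ r : R, r ∈ Algebra.adjoin k (insert f (Set.range fun i => (((p i)⁻¹ : Rˣ) : R))))
    (hP0 : ∀ i, P i ≠ 0) (S : Finset (HeightOneSpectrum (𝓞 k)))
    {F : Type*} [Field F] [NumberField F] [Algebra F L] (S₀ : Finset (HeightOneSpectrum (𝓞 F)))
    (hS : ∀ W : HeightOneSpectrum (𝓞 L), (∃ v ∈ S, W.asIdeal.LiesOver v.asIdeal) →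
      ∃ w ∈ S₀, W.asIdeal.LiesOver w.asIdeal)
    {J : Type} [Fintype J] (Q : J → L[X]) (hdeg : ∀ j, 0 < (Q j).natDegree)
    (hcop : Pairwise fun j j' => IsCoprime (Q j) (Q j'))
    (hdvd : ∀ j, ∃ i, Q j ∣ (P i).map (algebraMap k L))
    (hJ : (Fintype.card (InfinitePlace F) + S₀.card ≤ 1 ∧ Module.finrank F L ≤ Fintype.card J) ∨
      (Fintype.card (InfinitePlace F) + S₀.card ≤ 2 ∧ 2 * Module.finrank F L ≤ Fintype.card J)) :
    EnoughUnits.{u, w₁} k R S p := by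
  classical
  choose i₀ hi₀ using hdvd
  choose U hU hU1 hU2 using fun j => exists_unit p f P hp (i₀ j) (hP0 _) (Q j) (hdeg j) (hi₀ j)
  obtain ⟨τ⟩ : Nonempty (F →+* ℂ) := inferInstance
  let _ : Algebra F ℂ := τ.toAlgebra
  have hLF : FiniteDimensional F L := Module.Finite.of_restrictScalars_finite ℚ F L
  have hLA : Algebra.IsAlgebraic F L := Algebra.IsAlgebraic.of_finite F L
  have hinj : Function.Injective (fun σ : L →ₐ[F] ℂ => (σ : L →+* ℂ)) := by
    intro σ σ' h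
    exact AlgHom.coe_ringHom_injective h
  let Sg : Finset (L →+* ℂ) := Finset.univ.image (fun σ : L →ₐ[F] ℂ => (σ : L →+* ℂ))
  have hcardSg : Fintype.card Sg = Module.finrank F L := by
    rw [Fintype.card_coe, Finset.card_image_of_injective _ hinj, Finset.card_univ]
    exact AlgHom.card F L ℂ
  obtain ⟨ε, hε1, hε⟩ := exists_gen S₀ (by
    rcases hJ with h | h
    · omega
    · exact h.1)
  refine ⟨L, inferInstance, inferInstance, inferInstance, J, inferInstance, U, Sg, fun _ _ => 1,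
    τ ε, ?_, ?_, fun j => ⟨hU1 j, hU2 j⟩, ?_, ?_⟩
  · obtain ⟨σ⟩ : Nonempty (L →ₐ[F] ℂ) := ⟨IsAlgClosed.lift⟩
    exact ⟨_, Finset.mem_image_of_mem _ (Finset.mem_univ σ)⟩
  · rw [_root_.map_ne_zero]; exact ε.ne_zero
  · intro e he j
    have heΓ : e ∈ (placesOf (finite_above (F := L) S).toFinset).Γ := by
      rw [Places.mem_Γ]
      have h1 : ∀ w ∉ (finite_above (F := L) S).toFinset, w.valuation L (e : L) = 1 := by
        intro w hw
        rw [Set.Finite.mem_toFinset] at hw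
        exact he w fun v hv hl => hw ⟨v, hv, hl⟩
      refine ⟨fun w hw => (h1 w hw).le, fun w hw => ?_⟩
      rw [Units.val_inv_eq_inv_val, map_inv₀, h1 w hw, inv_one]
    obtain ⟨ζ, hζ, n, hn⟩ := hε _ (norm_mem_Γ (k := L) (F := F) (finite_above (F := L) S).toFinset S₀
      (fun W hW => hS W (by
        rw [Set.Finite.mem_toFinset] at hW
        exact hW)) heΓ)
    obtain ⟨a, ha, haζ⟩ := hζ.exists_pow_eq_one
    refine ⟨τ ζ, ⟨a, ha, ?_⟩, n, ?_⟩
    · rw [← map_pow, ← Units.val_pow_eq_pow_val, haζ, Units.val_one, map_one]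
    · rw [Finset.prod_image fun σ _ σ' _ h => hinj h]
      simp only [zpow_one]
      have h2 : τ (Algebra.norm F (e : L)) = ∏ σ : L →ₐ[F] ℂ, σ (e : L) :=
        Algebra.norm_eq_prod_embeddings F ℂ (e : L)
      have h3 : Algebra.norm F (e : L) = (ζ : F) * (ε : F) ^ n := by
        have h4 := congrArg (Units.val) hn
        rw [Units.val_mul, Units.val_zpow_eq_zpow_val] at h4
        exact h4
      rw [h3, map_mul, map_zpow₀] at h2
      exact h2.symm
  · intro ρ m hρ hm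
    have hcard : (m = 0 ∧ Fintype.card Sg ≤ Fintype.card J) ∨
        2 * Fintype.card Sg ≤ Fintype.card J := by
      rw [hcardSg]
      rcases hJ with ⟨h1, h2⟩ | ⟨h1, h2⟩
      · left
        refine ⟨hm ?_, h2⟩
        rw [hε1 h1, Units.val_one, map_one]
      · right; exact h2
    have hfin := fin_of_polys (I := Sg) (J := J) (fun j σ => (Q j).map (σ : L →+* ℂ))
      (fun j σ => by rw [natDegree_map]; exact hdeg j)
      (fun σ j j' hjj => (hcop hjj).map (mapRingHom (σ : L →+* ℂ))) ρ hρ m hcard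
    refine Set.Finite.of_finite_image (f := fun X σ => X σ (1 ⊗ₜ f)) (hfin.subset ?_) ?_
    · rintro _ ⟨X, ⟨hX, z, hz, hX'⟩, rfl⟩
      refine ⟨z, hz, fun j => ?_⟩
      rw [← hX' j]
      refine Finset.prod_congr rfl fun σ _ => ?_
      rw [zpow_one, hU, cfam_aeval f hX]
    · rintro X ⟨hX, -⟩ X' ⟨hX', -⟩ hXX
      exact cfam_ext p f P hp hgen hX hX' fun σ => congrFun hXX σ

end Pool.Agent.Lib.MP_2f3286_ag.GU
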