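import Pool.Agent.Lib.MP_2f3286_ag.GU.Explicit
import Pool.Agent.Lib.MP_2f3286_ag.GU.Many

/-!
# Conditions on the closed points for there to be enough units
-/

open IsDedekindDomain NumberField Polynomial
open scoped TensorProduct

namespace Pool.Agent.Lib.MP_2f3286_ag.GU

universe u w₁

/-- The zeros of the `P i` contain sufficiently many closed points over an extension `L` of `k`, the zeros of coprime
factors `Q j` of the `P i` over `L`:

* at least `m [L:F]` of them, for a field `F ⊂ L` and a finite set `S₀` of finite places of `F`, below all places of `L`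
  above `S`, where `m ≤ 2` is the number of all places of `F` that are archimedean or in `S₀`; or

* one of them which is not its own complex conjugate, if `L` is a CM field whose complex conjugation `c` is the identity
  on `k` and fixes the places above `S`; or three of them, of degree one, with a ratio that is not real, if `L` is a CM
  field whose complex conjugation `c` fixes the places above `S`. -/
def EnoughPoints (k : Type u) [Field k] [NumberField k] (S : Finset (HeightOneSpectrum (𝓞 k))) {I : Type*}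
    (P : I → k[X]) : Prop :=
  ∃ (L : Type w₁) (_ : Field L) (_ : NumberField L) (_ : Algebra k L),
    (∃ (F : Type w₁) (_ : Field F) (_ : NumberField F) (_ : Algebra F L)
      (S₀ : Finset (HeightOneSpectrum (𝓞 F))) (n : ℕ) (Q : Fin n → L[X]),
      (∀ w : HeightOneSpectrum (𝓞 L), (∃ v ∈ S, w.asIdeal.LiesOver v.asIdeal) →
        ∃ w₀ ∈ S₀, w.asIdeal.LiesOver w₀.asIdeal) ∧
      (∀ j, 0 < (Q j).natDegree ∧ ∃ i, Q j ∣ (P i).map (algebraMap k L)) ∧
      (Pairwise fun j j' => IsCoprime (Q j) (Q j')) ∧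
      Fintype.card (InfinitePlace F) + S₀.card ≤ 2 ∧
      (Fintype.card (InfinitePlace F) + S₀.card) * Module.finrank F L ≤ n) ∨
    ∃ c : L ≃+* L, (∀ (σ : L →+* ℂ) (x : L), σ (c x) = starRingEnd ℂ (σ x)) ∧
      (∀ w : HeightOneSpectrum (𝓞 L), (∃ v ∈ S, w.asIdeal.LiesOver v.asIdeal) →
        ∀ x : L, w.valuation L (c x) = w.valuation L x) ∧
      (((∀ x : k, c (algebraMap k L x) = algebraMap k L x) ∧ ∃ (i : I) (Q : L[X]),
          0 < Q.natDegree ∧ IsCoprime Q (Q.map (c : L →+* L)) ∧ Q ∣ (P i).map (algebraMap k L)) ∨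
        ∃ (a : Fin 3 → L) (i : Fin 3 → I), (∀ t, aeval (a t) (P (i t)) = 0) ∧
          (a 0 - a 2) * c (a 1 - a 2) ≠ c (a 0 - a 2) * (a 1 - a 2))

theorem enough_of_points {k : Type u} [Field k] [NumberField k] {K : Type*} [Field K] [Algebra k K]
    {I : Type*} (S : Finset (HeightOneSpectrum (𝓞 k))) (t : K) (P : I → k[X])
    (h : ∀ j, aeval t (P j) ≠ 0) (hm : EnoughPoints.{u, w₁} k S P) :
    EnoughUnits.{u, w₁} k (polyAlg t P) S (polyUnit t P h) := by
  have hP : ∀ j, P j ≠ 0 := by
    intro j h1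
    apply h j
    rw [h1, map_zero]
  obtain ⟨L, _, _, _, ⟨F, _, _, _, S₀, n, Q, hS, hQ, hcop, hn⟩ | ⟨c, hc⟩⟩ := hm
  · have h1 : 0 < Fintype.card (InfinitePlace F) := Fintype.card_pos
    refine enough_of_many (polyUnit t P h) (polyVar t P) P (polyUnit_eq t P h) (polyAlg_gen t P h) hP S S₀ hS
      Q (fun j => (hQ j).1) hcop (fun j => (hQ j).2) ?_
    rw [Fintype.card_fin]
    obtain ⟨h2, h3⟩ := hn
    rcases (by omega : Fintype.card (InfinitePlace F) + S₀.card = 1 ∨
      Fintype.card (InfinitePlace F) + S₀.card = 2) with h4 | h4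
    · left
      rw [h4, one_mul] at h3
      exact ⟨h4.le, h3⟩
    · right
      rw [h4] at h3
      exact ⟨h4.le, h3⟩
  · exact enough_of_CMZeros S t P hP h ⟨L, inferInstance, inferInstance, inferInstance, c, hc⟩

theorem deg_of_points {k : Type u} [Field k] [NumberField k] {I : Type*}
    (S : Finset (HeightOneSpectrum (𝓞 k))) (P : I → k[X]) (hP : ∀ j, P j ≠ 0)
    (hm : EnoughPoints.{u, w₁} k S P) : ∃ j, 0 < (P j).natDegree := by
  obtain ⟨L, _, _, _, ⟨F, _, _, _, S₀, n, Q, hS, hQ, hcop, hn⟩ | ⟨c, hc, hcS, h⟩⟩ := hm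
  · have hLF : FiniteDimensional F L := Module.Finite.of_restrictScalars_finite ℚ F L
    have h1 : 0 < Module.finrank F L := Module.finrank_pos
    have h6 : 0 < Fintype.card (InfinitePlace F) := Fintype.card_pos
    have h2 : 0 < n := lt_of_lt_of_le (Nat.mul_pos (by omega) h1) hn.2
    obtain ⟨h3, i, h4⟩ := hQ ⟨0, h2⟩
    refine ⟨i, ?_⟩
    have h5 := natDegree_le_of_dvd h4 ((Polynomial.map_ne_zero_iff (algebraMap k L).injective).mpr (hP i))
    rw [natDegree_map] at h5
    omega
  · rcases h with ⟨hck, j, Q, hQ, hQc, hQP⟩ | ⟨a, i, ha, hnr⟩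
    · refine ⟨j, ?_⟩
      have h5 := natDegree_le_of_dvd hQP ((Polynomial.map_ne_zero_iff (algebraMap k L).injective).mpr (hP j))
      rw [natDegree_map] at h5
      omega
    · refine ⟨i 0, ?_⟩
      by_contra h1
      have h2 : (P (i 0)).natDegree = 0 := by omega
      obtain ⟨c', hc'⟩ : ∃ c' : k, P (i 0) = C c' := ⟨_, eq_C_of_natDegree_eq_zero h2⟩
      have h3 := ha 0
      rw [hc', aeval_C] at h3
      have h4 : c' = 0 := by
        apply (algebraMap k L).injective
        rw [h3, map_zero]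
      exact hP (i 0) (by rw [hc', h4, C_0])

end Pool.Agent.Lib.MP_2f3286_ag.GU
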