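import Pool.Agent.Lib.MP_2f3286_ag.GU.LClass
import Pool.Agent.Lib.MP_2f3286_ag.CoreD
import Pool.Agent.Lib.MP_2f3286_ag.NormPoly

/-!
# A global point on the divisible units agrees with the local points
-/

open IsDedekindDomain NumberField IntermediateField

namespace Pool.Agent.Lib.MP_2f3286_ag.GU

universe u

theorem local_agree {k : Type u} [Field k] [NumberField k]
    {K : Type*} [Field K] [Algebra k K] (R : Subalgebra k K)
    {M : Type*} [Field M] [Algebra K M] [Algebra.IsAlgebraic K M]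
    [Algebra (AlgebraicClosure k) M] [Algebra k M]
    [IsScalarTower k K M] [IsScalarTower k (AlgebraicClosure k) M]
    (s : Gal(AlgebraicClosure k/k) →* Gal(M/K)) (hs : Continuous s)
    (hsec : ∀ σ a, s σ (algebraMap (AlgebraicClosure k) M a) =
      algebraMap (AlgebraicClosure k) M (σ a))
    (ψ : divUnitRing R M →+* AlgebraicClosure k) (hψ : Respects s k (RingHom.id _) ψ)
    (v : HeightOneSpectrum (𝓞 k))
    (ι : AlgebraicClosure k →ₐ[k] AlgebraicClosure (v.adicCompletion k))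
    (φ : integralClosure R M →+* AlgebraicClosure (v.adicCompletion k))
    (hφ : Respects s (v.adicCompletion k) (ι : _ →+* AlgebraicClosure (v.adicCompletion k)) φ)
    (c : divUnitRing R M) (b : integralClosure R M) (hbc : (b : M) = c) : φ b = ι (ψ c) := by
  classical
  have hBk : ∀ a : AlgebraicClosure k, IsIntegral R (algebraMap (AlgebraicClosure k) M a) := by
    intro a
    have htow' : IsScalarTower k R M := IsScalarTower.of_algebraMap_eq fun x => by
      rw [IsScalarTower.algebraMap_apply k K M]; rfl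
    have h1 : IsIntegral k a := Algebra.IsIntegral.isIntegral a
    have h2 : IsIntegral k (algebraMap (AlgebraicClosure k) M a) := h1.algebraMap
    exact h2.tower_top
  have hBs : ∀ σ, ∀ b : M, IsIntegral R b → IsIntegral R (s σ b) := by
    intro σ b hb
    exact hb.map (((s σ).toAlgHom.restrictScalars R : M →ₐ[R] M))
  have hDs : ∀ σ, ∀ b : M, IsDivUnit R b → IsDivUnit R (s σ b) := by
    intro σ b hb
    refine ⟨hBs σ b hb.1, by rw [← map_inv₀]; exact hBs σ _ hb.2.1, fun n hn => ?_⟩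
    obtain ⟨c, hc⟩ := hb.2.2 n hn
    exact ⟨s σ c, by rw [← map_pow, hc]⟩
  obtain ⟨x, hx⟩ := exists_local_point R s v ι φ hφ
  -- the generators
  have key : ∀ (b₁ : M) (hb₁ : IsDivUnit R b₁), b₁ ≠ 0 →
      φ ⟨b₁, hb₁.1⟩ = ι (ψ ⟨b₁, Subring.subset_closure hb₁⟩) := by
    intro b₁ hb₁ hb₁0
    have hopen : {σ : Gal(AlgebraicClosure k/k) | s σ b₁ = b₁} ∈ nhds 1 := by
      have hTalg : IsIntegral K b₁ := hb₁.1.tower_top
      have hfin : FiniteDimensional K K⟮b₁⟯ := adjoin.finiteDimensional hTalg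
      have ho := IntermediateField.fixingSubgroup_isOpen (K⟮b₁⟯ : IntermediateField K M)
      have hmem : ((K⟮b₁⟯ : IntermediateField K M).fixingSubgroup : Set Gal(M/K)) ∈ nhds (s 1) := by
        rw [map_one]
        exact ho.mem_nhds (one_mem _)
      refine Filter.mem_of_superset (hs.continuousAt hmem) fun σ hσ => ?_
      have h7 : s σ ∈ (K⟮b₁⟯ : IntermediateField K M).fixingSubgroup := hσ
      rw [IntermediateField.mem_fixingSubgroup_iff] at h7
      exact h7 b₁ (IntermediateField.mem_adjoin_simple_self _ _)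
    obtain ⟨L, hLfin, hLn, hLs⟩ := (krullTopology_mem_nhds_one_iff_of_normal k _ _).mp hopen
    have hLnf : NumberField L := NumberField.of_module_finite k L
    obtain ⟨W, j, hj, -⟩ := exists_place_above (F := ℚ) (E := L) v
    have hcharW : CharZero (W.adicCompletion L) := charZero_of_injective_algebraMap
      (algebraMap L (W.adicCompletion L)).injective
    obtain ⟨ι', φ', h1, h2, h3, j', ρ, h4, h5⟩ := exists_pair_E' R L.val s hsec v ι φ hφ x hx
      (algebraMap L (W.adicCompletion L)) j hj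
    let b₂ : M := s ρ⁻¹ b₁
    have hb₂D : IsDivUnit R b₂ := hDs _ _ hb₁
    have hb₂0 : b₂ ≠ 0 := by
      simp only [b₂]
      rw [_root_.map_ne_zero]; exact hb₁0
    have hρb : s ρ b₂ = b₁ := by
      simp only [b₂]
      rw [← AlgEquiv.mul_apply, ← map_mul, mul_inv_cancel, map_one, AlgEquiv.one_apply]
    have hfix : ∀ σ ∈ L.fixingSubgroup, s σ b₂ = b₂ := by
      intro σ hσ
      have h6 : ρ * σ * ρ⁻¹ ∈ L.fixingSubgroup := by
        rw [IntermediateField.mem_fixingSubgroup_iff] at hσ ⊢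
        intro y hy
        have h7 : ρ⁻¹ y ∈ L := by
          have h8 := (IntermediateField.normal_iff_forall_map_le' (K := L)).mp hLn ρ⁻¹
          exact h8 ⟨y, hy, rfl⟩
        rw [AlgEquiv.mul_apply, AlgEquiv.mul_apply, hσ _ h7, ← AlgEquiv.mul_apply, mul_inv_cancel,
          AlgEquiv.one_apply]
      have h9 : s (ρ * σ * ρ⁻¹) b₁ = b₁ := hLs h6
      have h10 : σ * ρ⁻¹ = ρ⁻¹ * (ρ * σ * ρ⁻¹) := by group
      simp only [b₂]
      rw [← AlgEquiv.mul_apply, ← map_mul, h10, map_mul, AlgEquiv.mul_apply, h9]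
    have hL : ∀ x : L, ∃ y : W.adicCompletion L,
        algebraMap (W.adicCompletion L) (AlgebraicClosure (W.adicCompletion L)) y = ι' x :=
      fun x => ⟨_, (h2 x).symm⟩
    have hψ0 : ∀ (β : M) (hβ : IsDivUnit R β), β ≠ 0 →
        ψ ⟨β, Subring.subset_closure hβ⟩ ≠ 0 := by
      intro β hβ hβ0 h0
      have h6 : ψ (⟨β, Subring.subset_closure hβ⟩ * ⟨β⁻¹, Subring.subset_closure hβ.inv⟩) = 1 := by
        have h7 : ((⟨β, Subring.subset_closure hβ⟩ : divUnitRing R M) *
            ⟨β⁻¹, Subring.subset_closure hβ.inv⟩) = 1 := Subtype.ext (mul_inv_cancel₀ hβ0)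
        rw [h7, map_one]
      rw [map_mul, h0, zero_mul] at h6
      exact zero_ne_one h6
    have hquot : ∀ n : ℕ, 1 ≤ n → ∃ w : W.adicCompletion L,
        algebraMap (W.adicCompletion L) (AlgebraicClosure (W.adicCompletion L)) w ^ n =
          φ' ⟨b₂, hb₂D.1⟩ / ι' (ψ ⟨b₂, Subring.subset_closure hb₂D⟩) := by
      intro n hn
      obtain ⟨β, hβ⟩ := hb₂D.2.2 n hn
      have hβ0 : β ≠ 0 := by
        rintro rfl
        rw [zero_pow (by omega)] at hβ
        exact hb₂0 hβ.symm
      have hβD : IsDivUnit R β := IsDivUnit.of_pow (kb := AlgebraicClosure k) hβ0 hn (by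
        rw [hβ]; exact hb₂D)
      have hζ : ∀ σ ∈ L.fixingSubgroup, ∃ ζ : AlgebraicClosure k,
          s σ β = algebraMap (AlgebraicClosure k) M ζ * β := by
        intro σ hσ
        have h6 : (s σ β / β) ^ n = 1 := by
          rw [div_pow, ← map_pow, hβ, hfix σ hσ, div_self hb₂0]
        obtain ⟨ζ, hζ⟩ := root_of_unity_mem (AlgebraicClosure k) M hn h6
        exact ⟨ζ, by rw [hζ, div_mul_cancel₀ _ hβ0]⟩
      obtain ⟨w, hw⟩ := quot_mem (B := integralClosure R M) s hBk h1 L hL ⟨β, hβD.1⟩ hζ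
        (Units.mk0 _ (hψ0 β hβD hβ0)) (by
          intro σ hσ ζ hσζ
          rw [Units.val_mk0]
          have h6 := hψ.2 σ σ (fun _ => rfl) ⟨β, Subring.subset_closure hβD⟩
            (⟨algebraMap (AlgebraicClosure k) M ζ, Subring.subset_closure
              (IsDivUnit.const (fun a => hBk a) ζ)⟩ * ⟨β, Subring.subset_closure hβD⟩) hσζ.symm
          rw [← h6, map_mul, hψ.1 ζ _ rfl]
          rfl)
      refine ⟨w, ?_⟩
      rw [hw, Units.val_mk0, div_pow, ← map_pow, ← map_pow, ← map_pow]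
      congr 3
      · exact Subtype.ext hβ
      · exact Subtype.ext hβ
    choose! w hw using hquot
    have hy0 : φ' ⟨b₂, hb₂D.1⟩ / ι' (ψ ⟨b₂, Subring.subset_closure hb₂D⟩) ≠ 0 := by
      refine div_ne_zero ?_ ?_
      · intro h0
        have h6 : φ' (⟨b₂, hb₂D.1⟩ * ⟨b₂⁻¹, hb₂D.2.1⟩) = 1 := by
          have h7 : ((⟨b₂, hb₂D.1⟩ : integralClosure R M) * ⟨b₂⁻¹, hb₂D.2.1⟩) = 1 :=
            Subtype.ext (mul_inv_cancel₀ hb₂0)
          rw [h7, map_one]
        rw [map_mul, h0, zero_mul] at h6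
        exact zero_ne_one h6
      · rw [_root_.map_ne_zero]; exact hψ0 _ hb₂D hb₂0
    have hw1 : w 1 = 1 := by
      refine eq_one_of_divisible W ?_ fun n hn => ⟨w n, ?_⟩
      · intro h0
        have h6 := hw 1 le_rfl
        rw [h0, map_zero, pow_one] at h6
        exact hy0 h6.symm
      · apply (algebraMap (W.adicCompletion L) (AlgebraicClosure (W.adicCompletion L))).injective
        rw [map_pow, hw n hn, ← hw 1 le_rfl, pow_one]
    have h6 := hw 1 le_rfl
    rw [hw1, map_one, one_pow] at h6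
    have h7 : φ' ⟨b₂, hb₂D.1⟩ = ι' (ψ ⟨b₂, Subring.subset_closure hb₂D⟩) := by
      have h8 : ι' (ψ ⟨b₂, Subring.subset_closure hb₂D⟩) ≠ 0 := by
        rw [_root_.map_ne_zero]; exact hψ0 _ hb₂D hb₂0
      rw [eq_div_iff h8, one_mul] at h6
      exact h6.symm
    apply j'.injective
    rw [← h5 ⟨b₂, hb₂D.1⟩ ⟨b₁, hb₁.1⟩ hρb.symm, h7, h4]
    congr 2
    exact (hψ.2 ρ ρ (fun _ => rfl) ⟨b₂, Subring.subset_closure hb₂D⟩
      ⟨b₁, Subring.subset_closure hb₁⟩ hρb.symm).symm
  -- all elements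
  have hle : divUnitRing R M ≤ (integralClosure R M).toSubring := by
    rw [divUnitRing, Subring.closure_le]
    intro b hb
    exact hb.1
  let inc : divUnitRing R M →+* integralClosure R M :=
    { toFun := fun c => ⟨c, hle c.2⟩
      map_one' := rfl
      map_mul' := fun _ _ => rfl
      map_zero' := rfl
      map_add' := fun _ _ => rfl }
  have hb : b = inc c := Subtype.ext hbc
  rw [hb]
  obtain ⟨c, hc⟩ := c
  change φ (inc ⟨c, hc⟩) = ι (ψ ⟨c, hc⟩)
  have hc' := hc
  rw [divUnitRing] at hc'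
  clear hb hbc
  induction hc' using Subring.closure_induction with
  | mem a ha =>
    by_cases ha0 : a = 0
    · subst ha0
      have h1 : (⟨0, hc⟩ : divUnitRing R M) = 0 := rfl
      rw [h1, map_zero, map_zero, map_zero, map_zero]
    · exact key a ha ha0
  | zero =>
    have h1 : (⟨0, hc⟩ : divUnitRing R M) = 0 := rfl
    rw [h1, map_zero, map_zero, map_zero, map_zero]
  | one =>
    have h1 : (⟨1, hc⟩ : divUnitRing R M) = 1 := rfl
    rw [h1, map_one, map_one, map_one, map_one]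
  | add a a' ha ha' iha iha' =>
    have h2 : a ∈ divUnitRing R M := ha
    have h3 : a' ∈ divUnitRing R M := ha'
    have h1 : (⟨a + a', hc⟩ : divUnitRing R M) = ⟨a, h2⟩ + ⟨a', h3⟩ := rfl
    rw [h1, map_add, map_add, map_add, map_add, iha h2, iha' h3]
  | neg a ha iha =>
    have h2 : a ∈ divUnitRing R M := ha
    have h1 : (⟨-a, hc⟩ : divUnitRing R M) = -⟨a, h2⟩ := rfl
    rw [h1, map_neg, map_neg, map_neg, map_neg, iha h2]
  | mul a a' ha ha' iha iha' =>
    have h2 : a ∈ divUnitRing R M := ha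
    have h3 : a' ∈ divUnitRing R M := ha'
    have h1 : (⟨a * a', hc⟩ : divUnitRing R M) = ⟨a, h2⟩ * ⟨a', h3⟩ := rfl
    rw [h1, map_mul, map_mul, map_mul, map_mul, iha h2, iha' h3]

end Pool.Agent.Lib.MP_2f3286_ag.GU
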