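import Pool.Agent.Lib.MP_2f3286_ag.GU.ExtHom

/-!
# Complex points of finitely generated algebras
-/

open Polynomial

namespace Pool.Agent.Lib.MP_2f3286_ag.GU

variable {E A : Type*} [Field E] [Algebra E ℂ] [CommRing A] [Algebra E A] [Algebra.FiniteType E A]

/-- extension of points along a homomorphism with domain a polynomial ring -/
theorem exists_ext_points {P : Type*} [CommRing P] [IsDomain P] [Algebra E P] (h : P →ₐ[E] A)
    (hne : ∀ χ : P, h χ = 0 → χ = 0) : ∃ u : P, u ≠ 0 ∧ ∀ f : P →ₐ[E] ℂ, f u ≠ 0 →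
      ∃ ψ : A →ₐ[E] ℂ, ∀ c, ψ (h c) = f c := by
  classical
  let S : Submonoid A := (nonZeroDivisors P).map (h : P →+* A)
  have hdisj : Disjoint ((⊥ : Ideal A) : Set A) S := by
    rw [Set.disjoint_left]
    rintro a ha ⟨χ, hχ, rfl⟩
    exact nonZeroDivisors.ne_zero hχ (hne χ ha)
  obtain ⟨𝔮, h𝔮, -, hd⟩ := Ideal.exists_le_prime_disjoint ⊥ S hdisj
  let B := A ⧸ 𝔮
  let i : P →+* B := (Ideal.Quotient.mk 𝔮).comp (h : P →+* A)
  let _ : Algebra P B := i.toAlgebra
  have _ : IsScalarTower E P B := IsScalarTower.of_algebraMap_eq fun c => by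
    change algebraMap E B c = Ideal.Quotient.mk 𝔮 (h (algebraMap E P c))
    rw [h.commutes]
    rfl
  have hBf : Algebra.FiniteType E B := inferInstance
  have _ : Algebra.FiniteType P B := Algebra.FiniteType.of_restrictScalars_finiteType E P B
  have hinj : Function.Injective (algebraMap P B) := by
    rw [injective_iff_map_eq_zero]
    intro χ hχ
    by_contra hne'
    have h1 : h χ ∈ 𝔮 := Ideal.Quotient.eq_zero_iff_mem.mp hχ
    exact (Set.disjoint_left.mp hd) h1 ⟨χ, mem_nonZeroDivisors_of_ne_zero hne', rfl⟩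
  obtain ⟨u, hu, hext⟩ := ext_hom (Ω := ℂ) hinj (one_ne_zero (α := B))
  refine ⟨u, hu, fun f hf => ?_⟩
  obtain ⟨g, hg, -⟩ := hext f hf
  refine ⟨{ g.comp (Ideal.Quotient.mk 𝔮) with commutes' := fun e => ?_ }, fun c => hg c⟩
  change g (Ideal.Quotient.mk 𝔮 (algebraMap E A e)) = _
  have h1 := hg (algebraMap E P e)
  have h2 : algebraMap P B (algebraMap E P e) = Ideal.Quotient.mk 𝔮 (algebraMap E A e) := by
    change Ideal.Quotient.mk 𝔮 (h (algebraMap E P e)) = _
    rw [h.commutes]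
  rw [h2] at h1
  rw [h1]
  exact f.commutes e

/-- if a function takes finitely many values at complex points, then it is algebraic -/
theorem exists_poly_of_finite (a : A) (hfin : {c : ℂ | ∃ ψ : A →ₐ[E] ℂ, ψ a = c}.Finite) :
    ∃ χ : E[X], χ ≠ 0 ∧ aeval a χ = 0 := by
  by_cases hne : ∀ χ : E[X], (aeval a : E[X] →ₐ[E] A) χ = 0 → χ = 0
  · exfalso
    obtain ⟨u, hu, hext⟩ := exists_ext_points (aeval a : E[X] →ₐ[E] A) hne
    have hu' : u.map (algebraMap E ℂ) ≠ 0 := (Polynomial.map_ne_zero_iff (algebraMap E ℂ).injective).mpr hu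
    obtain ⟨c, hc⟩ := (hfin.union (u.map (algebraMap E ℂ)).roots.toFinset.finite_toSet).infinite_compl.nonempty
    rw [Set.mem_compl_iff, Set.mem_union, not_or] at hc
    obtain ⟨h1, h2⟩ := hc
    apply h1
    have h3 : (aeval c : E[X] →ₐ[E] ℂ) u ≠ 0 := by
      intro h0
      apply h2
      rw [Finset.mem_coe, Multiset.mem_toFinset, mem_roots hu', IsRoot.def, eval_map, ← aeval_def]
      exact h0
    obtain ⟨ψ, hψ⟩ := hext (aeval c) h3
    refine ⟨ψ, ?_⟩
    have h4 := hψ X
    rwa [aeval_X, aeval_X] at h4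
  · push Not at hne
    obtain ⟨χ, h1, h2⟩ := hne
    exact ⟨χ, h2, h1⟩

/-- algebraically independent functions: complex points with all but one of the values fixed -/
theorem exists_line {J : Type*} [Finite J] (z : J → A)
    (hind : ∀ Φ : MvPolynomial J E, MvPolynomial.aeval z Φ = 0 → Φ = 0) (j₀ : J) :
    ∃ t : J → ℂ, (∀ j, t j ≠ 0) ∧
      {w : ℂ | w ≠ 0 ∧ ∃ ψ : A →ₐ[E] ℂ, ψ (z j₀) = w ∧ ∀ j, j ≠ j₀ → ψ (z j) = t j}.Infinite := by
  classical
  have := Fintype.ofFinite J
  obtain ⟨u, hu, hext⟩ := exists_ext_points (MvPolynomial.aeval z : MvPolynomial J E →ₐ[E] A) hind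
  have hu1 : MvPolynomial.map (algebraMap E ℂ) (u * ∏ j, MvPolynomial.X j) ≠ 0 := by
    intro h0
    have h1 := MvPolynomial.map_injective (algebraMap E ℂ) (algebraMap E ℂ).injective
      (h0.trans (map_zero _).symm)
    refine mul_ne_zero hu (Finset.prod_ne_zero_iff.mpr fun j _ => MvPolynomial.X_ne_zero j) h1
  obtain ⟨t, ht⟩ : ∃ t : J → ℂ, MvPolynomial.eval t
      (MvPolynomial.map (algebraMap E ℂ) (u * ∏ j, MvPolynomial.X j)) ≠ 0 := by
    by_contra hcon
    push Not at hcon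
    exact hu1 (MvPolynomial.funext fun t => by rw [hcon t, map_zero])
  rw [MvPolynomial.eval_map, ← MvPolynomial.aeval_def, map_mul, map_prod] at ht
  have ht1 : MvPolynomial.aeval t u ≠ 0 := left_ne_zero_of_mul ht
  have ht2 : ∀ j, t j ≠ 0 := by
    intro j
    have h1 := Finset.prod_ne_zero_iff.mp (right_ne_zero_of_mul ht) j (Finset.mem_univ j)
    rwa [MvPolynomial.aeval_X] at h1
  refine ⟨t, ht2, ?_⟩
  -- the polynomial in one variable
  let q : ℂ[X] := MvPolynomial.aeval (fun j => if j = j₀ then (X : ℂ[X]) else Polynomial.C (t j)) u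
  have hq : ∀ w : ℂ, q.eval w = MvPolynomial.aeval (fun j => if j = j₀ then w else t j) u := by
    intro w
    have h1 : ((aeval w : ℂ[X] →ₐ[ℂ] ℂ).restrictScalars E).comp
        (MvPolynomial.aeval (fun j => if j = j₀ then (X : ℂ[X]) else Polynomial.C (t j)) :
          MvPolynomial J E →ₐ[E] ℂ[X]) =
        (MvPolynomial.aeval (fun j => if j = j₀ then w else t j) : MvPolynomial J E →ₐ[E] ℂ) := by
      apply MvPolynomial.algHom_ext
      intro j
      rw [AlgHom.comp_apply, MvPolynomial.aeval_X, MvPolynomial.aeval_X]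
      change (aeval w : ℂ[X] →ₐ[ℂ] ℂ) (if j = j₀ then (X : ℂ[X]) else Polynomial.C (t j)) = _
      split_ifs
      · rw [aeval_X]
      · rw [aeval_C]; rfl
    have h2 := congrArg (fun g : MvPolynomial J E →ₐ[E] ℂ => g u) h1
    change (aeval w : ℂ[X] →ₐ[ℂ] ℂ) q = _ at h2
    rw [← h2, ← Polynomial.coe_aeval_eq_eval]
  have hq0 : q ≠ 0 := by
    intro h0
    apply ht1
    have h1 := hq (t j₀)
    rw [h0, eval_zero] at h1
    have h2 : (fun j => if j = j₀ then t j₀ else t j) = t := by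
      funext j
      split_ifs with h
      · rw [h]
      · rfl
    rw [h2] at h1
    exact h1.symm
  refine Set.Infinite.mono ?_ ((Set.finite_singleton (0 : ℂ)).union
    q.roots.toFinset.finite_toSet).infinite_compl
  intro w hw
  rw [Set.mem_compl_iff, Set.mem_union, not_or] at hw
  obtain ⟨h1, h2⟩ := hw
  refine ⟨h1, ?_⟩
  have h3 : (MvPolynomial.aeval (fun j => if j = j₀ then w else t j) : MvPolynomial J E →ₐ[E] ℂ) u ≠ 0 := by
    rw [← hq]
    intro h0
    apply h2
    rw [Finset.mem_coe, Multiset.mem_toFinset, mem_roots hq0]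
    exact h0
  obtain ⟨ψ, hψ⟩ := hext _ h3
  refine ⟨ψ, ?_, fun j hj => ?_⟩
  · have h4 := hψ (MvPolynomial.X j₀)
    rw [MvPolynomial.aeval_X, MvPolynomial.aeval_X, if_pos rfl] at h4
    exact h4
  · have h4 := hψ (MvPolynomial.X j)
    rw [MvPolynomial.aeval_X, MvPolynomial.aeval_X, if_neg hj] at h4
    exact h4

end Pool.Agent.Lib.MP_2f3286_ag.GU
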