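import Pool.Agent.Lib.MP_2f3286_ag.GU.UVal
import Pool.Agent.Lib.MP_2f3286_ag.NormStage

/-!
# The classes of the units over `L` are products of a fixed element, an `S`-unit and a power
-/

open IsDedekindDomain NumberField
open scoped TensorProduct

namespace Pool.Agent.Lib.MP_2f3286_ag.GU

universe u w₁

theorem exists_tensor_hom {k L R F : Type*} [Field k] [CommRing L] [Algebra k L] [CommRing R]
    [Algebra k R] [CommRing F] (σ : L →+* F) (y : R →+* F)
    (h : ∀ a : k, σ (algebraMap k L a) = y (algebraMap k R a)) :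
    ∃ X : L ⊗[k] R →+* F, (∀ l : L, X (l ⊗ₜ 1) = σ l) ∧ ∀ r : R, X (1 ⊗ₜ r) = y r := by
  let _ : Algebra k F := (σ.comp (algebraMap k L)).toAlgebra
  let f : L →ₐ[k] F := { σ with commutes' := fun a => rfl }
  let g : R →ₐ[k] F := { y with commutes' := fun a => (h a).symm }
  refine ⟨(Algebra.TensorProduct.lift f g fun _ _ => Commute.all _ _ : L ⊗[k] R →ₐ[k] F),
    fun l => ?_, fun r => ?_⟩
  · change Algebra.TensorProduct.lift f g (fun _ _ => Commute.all _ _) (l ⊗ₜ 1) = _
    rw [Algebra.TensorProduct.lift_tmul, map_one, mul_one]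
    rfl
  · change Algebra.TensorProduct.lift f g (fun _ _ => Commute.all _ _) (1 ⊗ₜ r) = _
    rw [Algebra.TensorProduct.lift_tmul, map_one, one_mul]
    rfl

theorem exists_alpha_L {k : Type u} [Field k] [NumberField k]
    {K : Type*} [Field K] [Algebra k K] (R : Subalgebra k K)
    {M : Type*} [Field M] [Algebra K M] [Algebra (AlgebraicClosure k) M] [Algebra k M]
    [IsScalarTower k K M] [IsScalarTower k (AlgebraicClosure k) M]
    {L : Type w₁} [Field L] [NumberField L] [Algebra k L]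
    (lam : L →ₐ[k] AlgebraicClosure k)
    (S : Finset (HeightOneSpectrum (𝓞 k)))
    {ι₀ : Type*} [Fintype ι₀] (p : ι₀ → Rˣ)
    {J : Type*} [Fintype J] (u : J → (L ⊗[k] R)ˣ)
    (hint₁ : ∀ j, IsIntOver k (Algebra.TensorProduct.includeRight : R →ₐ[k] L ⊗[k] R).toRingHom p
      (u j : L ⊗[k] R))
    (hint₂ : ∀ j, IsIntOver k (Algebra.TensorProduct.includeRight : R →ₐ[k] L ⊗[k] R).toRingHom p
      (((u j)⁻¹ : (L ⊗[k] R)ˣ) : L ⊗[k] R))
    (s : Gal(AlgebraicClosure k/k) →* Gal(M/K)) (hs : Continuous s)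
    (hsec : ∀ σ a, s σ (algebraMap (AlgebraicClosure k) M a) =
      algebraMap (AlgebraicClosure k) M (σ a))
    (ι : ∀ v : {v : HeightOneSpectrum (𝓞 k) // v ∉ S},
      AlgebraicClosure k →ₐ[k] AlgebraicClosure (v.1.adicCompletion k))
    (φ : ∀ v : {v : HeightOneSpectrum (𝓞 k) // v ∉ S},
      integralClosure R M →+* AlgebraicClosure (v.1.adicCompletion k))
    (hφ : ∀ v, Respects s (v.1.adicCompletion k)
      (ι v : _ →+* AlgebraicClosure (v.1.adicCompletion k)) (φ v))
    (x : ∀ v : {v : HeightOneSpectrum (𝓞 k) // v ∉ S}, R →ₐ[k] v.1.adicCompletion k)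
    (hx : ∀ v r, algebraMap _ (AlgebraicClosure (v.1.adicCompletion k)) (x v r) =
      φ v (algebraMap R (integralClosure R M) r))
    (hproots : ∀ i, ∀ n : ℕ, 1 ≤ n → ∃ b : M, b ^ n = algebraMap R M (p i))
    (T : Finset (HeightOneSpectrum (𝓞 k))) (N : ℕ) (hN : 1 ≤ N)
    (hcont : ∀ v, v.1 ∉ T → ∀ i, ∀ y z : v.1.adicCompletion k,
      φ v (algebraMap R (integralClosure R M) (p i)) = algebraMap _ _ y →
      Valued.v y = Valued.v z ^ N → Valued.v y = 1)
    (G : J → ℕ → Lˣ) (hcompat : ∀ j n m, 1 ≤ n → 1 ≤ m → ∃ w : Lˣ, G j (n * m) = G j n * w ^ n)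
    (hG : ∀ (F : Type w₁) [Field F] [CharZero F], ClassAt R lam u s G F) :
    ∃ α : J → Lˣ, ∀ j n, 1 ≤ n →
      ∃ e ∈ (placesOf (finite_above (F := L) S).toFinset).Γ, ∃ β : Lˣ, G j n = α j * e * β ^ n := by
  classical
  have halg : Algebra.IsAlgebraic k L := Algebra.IsAlgebraic.tower_top (K := ℚ) k
  have hBk : ∀ a : AlgebraicClosure k, IsIntegral R (algebraMap (AlgebraicClosure k) M a) := by
    intro a
    have htow' : IsScalarTower k R M := IsScalarTower.of_algebraMap_eq fun x => by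
      rw [IsScalarTower.algebraMap_apply k K M]; rfl
    have h1 : IsIntegral k a := Algebra.IsIntegral.isIntegral a
    have h2 : IsIntegral k (algebraMap (AlgebraicClosure k) M a) := h1.algebraMap
    exact h2.tower_top
  -- the classes of the `p i`
  choose T' hT1 hTn hTc using fun i => exists_roots_compatible (hproots i)
  have hTint : ∀ i n, 1 ≤ n → T' i n ∈ integralClosure R M := fun i n hn =>
    IsIntegral.of_pow hn (by rw [hTn i n hn]; exact isIntegral_algebraMap)
  let t : ∀ v : HeightOneSpectrum (𝓞 k), ι₀ → v.adicCompletion k := fun v i =>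
    if hv : v ∉ S then x ⟨v, hv⟩ (p i) else 0
  have ht : ∀ v (hv : v ∉ S) i, t v i = x ⟨v, hv⟩ (p i) := fun v hv i => dif_pos hv
  obtain ⟨e, he1, he2⟩ := exists_classes R p T' hTn hTc s hs hsec S t
    (fun v hv => by
      refine ⟨ι ⟨v, hv⟩, fun i n => if h : T' i n ∈ integralClosure R M then
        φ ⟨v, hv⟩ ⟨T' i n, h⟩ else 0, fun i n hn => ?_, fun σ τ hστ i n hn ζ hζ => ?_⟩
      · beta_reduce
        rw [dif_pos (hTint i n hn), ← map_pow, ht v hv]
        refine Eq.trans ?_ (hx ⟨v, hv⟩ (p i)).symm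
        congr 1
        apply Subtype.ext
        exact hTn i n hn
      · beta_reduce
        rw [dif_pos (hTint i n hn)]
        have h1 := (hφ ⟨v, hv⟩).2 σ τ hστ ⟨T' i n, hTint i n hn⟩
          ((⟨algebraMap (AlgebraicClosure k) M ζ, hBk ζ⟩ : integralClosure R M) *
            ⟨T' i n, hTint i n hn⟩) (by
            rw [hζ]; rfl)
        rw [← h1, map_mul, (hφ ⟨v, hv⟩).1 ζ ⟨algebraMap (AlgebraicClosure k) M ζ, hBk ζ⟩ rfl]
        rfl)
  let T₁ : Finset (HeightOneSpectrum (𝓞 k)) := T ∪ S ∪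
    Finset.univ.biUnion fun i : ι₀ => (finite_val_ne_one (e i N).ne_zero).toFinset
  have hval : ∀ v ∉ T₁, ∀ (hv : v ∉ S) i, Valued.v (x ⟨v, hv⟩ (p i)) = 1 := by
    intro v hv hvS i
    simp only [T₁, Finset.mem_union, Finset.mem_biUnion, Finset.mem_univ, true_and,
      Set.Finite.mem_toFinset, Set.mem_ofPred_eq, not_or, not_exists, not_not] at hv
    obtain ⟨z, hz⟩ := he2 v hvS i N hN
    rw [ht v hvS] at hz
    refine hcont ⟨v, hvS⟩ hv.1.1 i _ z (hx _ _).symm ?_
    rw [← hz, map_mul, map_pow, val_alg, hv.2 i, one_mul]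
  -- the places of `L`
  choose vb hvb using exists_below (L := k) (F := L)
  choose θ hθ using fun w : HeightOneSpectrum (𝓞 L) =>
    @exists_completion_hom k L _ _ _ _ _ (vb w) w (hvb w)
  choose X hX1 hX2 using fun (w : HeightOneSpectrum (𝓞 L)) (h : vb w ∉ S) =>
    exists_tensor_hom (k := k) (R := R) (algebraMap L (w.adicCompletion L))
      ((θ w).comp (x ⟨vb w, h⟩ : R →+* (vb w).adicCompletion k)) (by
        intro a
        rw [← hθ]
        exact congrArg (θ w) ((x ⟨vb w, h⟩).commutes a).symm)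
  have hclass : ∀ (w : HeightOneSpectrum (𝓞 L)) (h : vb w ∉ S), ∀ j n, 1 ≤ n →
      ∃ z : w.adicCompletion L, algebraMap L _ (G j n : L) * z ^ n = X w h (u j) := by
    intro w h
    have : CharZero (w.adicCompletion L) := charZero_of_injective_algebraMap
      (algebraMap L (w.adicCompletion L)).injective
    obtain ⟨ι', φ', h1, h2, h3⟩ := exists_pair_E R lam s hsec (vb w) (ι ⟨vb w, h⟩) (φ ⟨vb w, h⟩)
      (hφ _) (x ⟨vb w, h⟩) (hx _) (algebraMap L (w.adicCompletion L)) (θ w) (hθ w)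
    exact hG (w.adicCompletion L) (algebraMap L (w.adicCompletion L))
      ((θ w).comp (x ⟨vb w, h⟩ : R →+* (vb w).adicCompletion k)) ι' φ' h1 h2 h3 (X w h)
      (hX1 w h) (hX2 w h)
  choose T₂ hT₂ using fun j => exists_val_one p (u j) (hint₁ j) (hint₂ j)
  set SL : Finset (HeightOneSpectrum (𝓞 L)) := (finite_above (F := L) S).toFinset with hSL
  have hSL' : ∀ w, w ∉ SL → vb w ∉ S := by
    intro w hw hS
    apply hw
    rw [hSL, Set.Finite.mem_toFinset]
    exact ⟨vb w, hS, hvb w⟩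
  let T₃ : Finset (HeightOneSpectrum (𝓞 L)) := SL ∪ (finite_above (F := L) T₁).toFinset ∪
    Finset.univ.biUnion T₂
  have hα : ∀ j, ∃ α : Lˣ, ∀ n, 1 ≤ n → ∃ e ∈ (placesOf SL).Γ, ∃ β : Lˣ, G j n = α * e * β ^ n := by
    intro j
    refine exists_alpha SL (G j) (hcompat j)
      (fun w => if h : vb w ∉ S then X w h (u j) else 1) T₃ ?_ ?_ ?_
    · intro w hw
      rw [dif_pos (hSL' w hw)]
      exact ((u j).isUnit.map (X w (hSL' w hw))).ne_zero
    · intro w hw
      simp only [T₃, Finset.mem_union, Finset.mem_biUnion, Finset.mem_univ, true_and,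
        Set.Finite.mem_toFinset, Set.mem_ofPred_eq, not_or, not_exists, not_and] at hw
      have hS' := hSL' w hw.1.1
      rw [dif_pos hS']
      refine hT₂ j w (hw.2 j) (X w hS') (hX1 w hS') fun i => ?_
      rw [hX2]
      have h1 : vb w ∉ T₁ := fun h => hw.1.2 _ h (hvb w)
      refine val_one_of_classes (vb w) w (hvb w) (θ w) (hθ w) (e i) (x ⟨vb w, hS'⟩ (p i))
        (hval _ h1 hS' i) fun n hn => ?_
      obtain ⟨z, hz⟩ := he2 _ hS' i n hn
      rw [ht _ hS'] at hz
      exact ⟨z, hz⟩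
    · intro w hw n hn
      rw [dif_pos (hSL' w hw)]
      exact hclass w (hSL' w hw) j n hn
  choose α hα using hα
  exact ⟨α, hα⟩

end Pool.Agent.Lib.MP_2f3286_ag.GU
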