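import Pool.Agent.Lib.MP_2f3286_ag.GU.Units
import Pool.Agent.Lib.MP_2f3286_ag.GU.Agree
import Pool.Agent.Lib.MP_2f3286_bir.Uniq

/-!
# The birational section conjecture with bounded contact: curves with enough units
-/

open IsDedekindDomain NumberField Polynomial
open Pool.Agent.Lib.MP_2f3286_ag
open Pool.Agent.Lib.MP_2f3286_bir

namespace Pool.Agent.Lib.MP_2f3286_ag.GU

universe u w₁

/-- A birational section whose local places are finite on a curve with enough units, with bounded contact, comes from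
exactly one rational place. -/
theorem bir_units {k : Type u} [Field k] [NumberField k]
    {K : Type*} [Field K] [Algebra k K] (htr : Algebra.trdeg k K = 1)
    {Ω : Type*} [Field Ω] [Algebra K Ω] [IsAlgClosure K Ω]
    [Algebra (AlgebraicClosure k) Ω] [Algebra k Ω]
    [IsScalarTower k K Ω] [IsScalarTower k (AlgebraicClosure k) Ω]
    (R : Subalgebra k K) (hfg : R.FG) (t : R) (ht : ∀ c : k, t ≠ algebraMap k R c)
    (S : Finset (HeightOneSpectrum (𝓞 k))) {I : Type*} [Fintype I] (p : I → Rˣ)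
    (hU : EnoughUnits.{u, w₁} k R S p)
    (s : Gal(AlgebraicClosure k/k) →* Gal(Ω/K)) (hs : Continuous s)
    (hsec : ∀ σ a, s σ (algebraMap (AlgebraicClosure k) Ω a) =
      algebraMap (AlgebraicClosure k) Ω (σ a))
    (ι : ∀ v : {v : HeightOneSpectrum (𝓞 k) // v ∉ S},
      AlgebraicClosure k →ₐ[k] AlgebraicClosure (v.1.adicCompletion k))
    (A : {v : HeightOneSpectrum (𝓞 k) // v ∉ S} → ValuationSubring Ω)
    (φ : ∀ v : {v : HeightOneSpectrum (𝓞 k) // v ∉ S},
      A v →+* AlgebraicClosure (v.1.adicCompletion k))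
    (hφ : ∀ v, IsPlaceOf s (v.1.adicCompletion k)
      (ι v : _ →+* AlgebraicClosure (v.1.adicCompletion k)) (A v) (φ v))
    (hRA : ∀ v, ∀ r : R, algebraMap K Ω (r : K) ∈ A v)
    (T : Finset (HeightOneSpectrum (𝓞 k))) (N : ℕ) (hN : 1 ≤ N)
    (hcont : ∀ v, v.1 ∉ T → ∀ i, ∀ y z : v.1.adicCompletion k,
      φ v ⟨_, hRA v (p i)⟩ = algebraMap _ _ y →
      Valued.v y = Valued.v z ^ N → Valued.v y = 1) :
    ∃ (A₀ : ValuationSubring Ω) (ψ₀ : A₀ →+* AlgebraicClosure k),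
      IsPlaceOf s k (RingHom.id _) A₀ ψ₀ ∧
      (∀ v, A v = A₀ ∧ ∀ (a : A v) (b : A₀), (a : Ω) = b → φ v a = ι v (ψ₀ b)) ∧
      (∀ (f : K) (h : algebraMap K Ω f ∈ A₀),
        ∃ a : k, ψ₀ ⟨algebraMap K Ω f, h⟩ = algebraMap k (AlgebraicClosure k) a) ∧
      ∀ (A₁ : ValuationSubring Ω) (ψ₁ : A₁ →+* AlgebraicClosure k),
        IsPlaceOf s k (RingHom.id _) A₁ ψ₁ →
        A₁ = A₀ ∧ ∀ (a : A₁) (b : A₀), (a : Ω) = b → ψ₁ a = ψ₀ b := by
  classical
  have hcl : IsAlgClosed Ω := IsAlgClosure.isAlgClosed K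
  have halg : Algebra.IsAlgebraic K Ω := IsAlgClosure.isAlgebraic
  have hBA : ∀ v, ∀ b : Ω, IsIntegral R b → b ∈ A v := by
    intro v b hb
    let g : R →+* A v := ((algebraMap K Ω).comp (algebraMap R K)).codRestrict (A v).toSubring
      (fun r => hRA v r)
    have h1 : IsIntegral (A v) ((RingHom.id Ω) b) := by
      refine IsIntegral.map_of_comp_eq g (RingHom.id Ω) ?_ hb
      ext r
      rfl
    obtain ⟨y, hy⟩ := (IsIntegrallyClosed.isIntegral_iff (R := A v) (K := Ω)).mp h1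
    have h2 : (y : Ω) = b := hy
    rw [← h2]
    exact y.2
  let φ' : ∀ v : {v : HeightOneSpectrum (𝓞 k) // v ∉ S},
      integralClosure R Ω →+* AlgebraicClosure (v.1.adicCompletion k) := fun v =>
    (φ v).comp ((algebraMap (integralClosure R Ω) Ω).codRestrict (A v).toSubring
      (fun b => hBA v b b.2))
  have hφ'1 : ∀ v, ∀ b : integralClosure R Ω, φ' v b = φ v ⟨b, hBA v b b.2⟩ := fun v b => rfl
  have hφ' : ∀ v, Respects s (v.1.adicCompletion k)
      (ι v : _ →+* AlgebraicClosure (v.1.adicCompletion k)) (φ' v) := by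
    intro v
    refine ⟨fun a b hab => ?_, fun σ τ hστ b b' hb => ?_⟩
    · obtain ⟨h, h'⟩ := (hφ v).1 a
      rw [hφ'1, ← h']
      congr 1
      exact Subtype.ext hab
    · obtain ⟨h, h'⟩ := (hφ v).2.2 σ τ hστ ⟨b, hBA v b b.2⟩
      rw [hφ'1, hφ'1, ← h']
      congr 1
      exact Subtype.ext hb
  obtain ⟨S', χ, hSS', hχ, hvan⟩ := exists_poly_of_units R hfg S p hU
    (fun b _ _ n hn => IsAlgClosed.exists_pow_nat_eq b hn) s hs hsec ι φ' hφ' T N hN
    (fun v hv i y z hy hyz => hcont v hv i y z hy hyz) t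
  have hh : aeval t χ ≠ 0 := transcendental_of_section R t ht s hsec hχ
  let inj : {v : HeightOneSpectrum (𝓞 k) // v ∉ S'} → {v : HeightOneSpectrum (𝓞 k) // v ∉ S} :=
    fun v => ⟨v.1, fun h => v.2 (hSS' h)⟩
  obtain ⟨⟨ψ, hψ1, hψ2, -⟩, -⟩ := core_div htr R s hs hsec S' (fun v => ι (inj v))
    (fun v => φ' (inj v)) (fun v => hφ' (inj v)) (aeval t χ) hh (fun v => hvan (inj v) v.2)
  have hagree : ∀ v, ∀ c : divUnitRing R Ω, ∀ b : integralClosure R Ω, (b : Ω) = c →
      φ' v b = ι v (ψ c) := fun v c b hb =>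
    local_agree R s hs hsec ψ hψ1 v.1 (ι v) (φ' v) (hφ' v) c b hb
  -- the point on the integral closure
  have hmem : ∀ b : Ω, IsIntegral R b → b ∈ divUnitRing R Ω := by
    intro b hb
    have h1 : b ∈ unitRing R Ω := mem_unitRing hb
    have h2 : unitRing R Ω ≤ divUnitRing R Ω := by
      rw [unitRing, Subring.closure_le]
      intro b hb
      exact Subring.subset_closure ⟨hb.1, hb.2, fun n hn => IsAlgClosed.exists_pow_nat_eq b hn⟩
    exact h2 h1
  let θ : integralClosure R Ω →+* AlgebraicClosure k :=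
    ψ.comp ((algebraMap (integralClosure R Ω) Ω).codRestrict (divUnitRing R Ω)
      (fun b => hmem b b.2))
  have hθ : Respects s k (RingHom.id _) θ := by
    refine ⟨fun a b hab => hψ1.1 a _ hab, fun σ τ hστ b b' hb => hψ1.2 σ τ hστ _ _ hb⟩
  have htt : Transcendental k ((t : R) : K) := by
    rintro ⟨q, hq, hqt⟩
    refine transcendental_of_section R t ht s hsec hq ?_
    apply Subtype.ext
    rw [ZeroMemClass.coe_zero, ← hqt]
    exact (Polynomial.aeval_algHom_apply R.val t q).symm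
  obtain ⟨v₀, hv₀⟩ := exists_notMem S
  have hV : Nonempty {v : HeightOneSpectrum (𝓞 k) // v ∉ S} := ⟨⟨v₀, hv₀⟩⟩
  obtain ⟨A₀, ψ₀, h1, h2⟩ := place_layer htr s R t htt
    (V := {v : HeightOneSpectrum (𝓞 k) // v ∉ S}) (fun v => v.1) ι A φ hφ θ hθ (by
      intro v b
      refine ⟨hBA v b b.2, ?_⟩
      exact hagree v _ b rfl)
  refine ⟨A₀, ψ₀, h1, h2, fun g hg => ?_, fun A₁ ψ₁ h₁ => place_unique s hs h1 h₁⟩
  obtain ⟨a, ha⟩ := mem_of_fixed (F := k) (Fb := AlgebraicClosure k)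
    (y := ψ₀ ⟨algebraMap K Ω g, hg⟩) (by
      intro τ
      obtain ⟨h3, h4⟩ := h1.2.2 τ τ (fun _ => rfl) ⟨algebraMap K Ω g, hg⟩
      rw [← h4]
      congr 1
      apply Subtype.ext
      exact AlgEquiv.commutes (s τ) g)
  exact ⟨a, ha.symm⟩

end Pool.Agent.Lib.MP_2f3286_ag.GU
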