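import Pool.Agent.Lib.MP_2f3286_ag.GU.Units

/-!
# A closed point with residue field a CM field gives enough units over a totally real field
-/

open IsDedekindDomain NumberField Polynomial
open scoped TensorProduct

namespace Pool.Agent.Lib.MP_2f3286_ag.GU

universe u w₁

/-- the place below, along an embedding, and its valuation -/
theorem exists_below_val {L₁ L₂ : Type*} [Field L₁] [NumberField L₁]
    [Field L₂] [NumberField L₂] (σ : L₁ →+* L₂) (w : HeightOneSpectrum (𝓞 L₂)) :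
    ∃ (w' : HeightOneSpectrum (𝓞 L₁)) (n : ℕ),
      ∀ x : L₁, w'.valuation L₁ x ^ n = w.valuation L₂ (σ x) := by
  let _ : Algebra L₁ L₂ := σ.toAlgebra
  obtain ⟨w', hw'⟩ := exists_below (L := L₁) w
  exact ⟨w', _, fun x => HeightOneSpectrum.valuation_liesOver L₂ w' w x⟩

/-- `e / c(e)` is a root of unity, if `c` is complex conjugation in all embeddings and fixes the places above `S`. -/
theorem exists_pow_eq_one_of_conj {k L : Type*} [Field k] [NumberField k] [Field L] [NumberField L]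
    [Algebra k L] (c : L ≃+* L) (hc : ∀ (σ : L →+* ℂ) (x : L), σ (c x) = starRingEnd ℂ (σ x))
    (S : Finset (HeightOneSpectrum (𝓞 k)))
    (hcS : ∀ w : HeightOneSpectrum (𝓞 L), (∃ v ∈ S, w.asIdeal.LiesOver v.asIdeal) →
      ∀ x : L, w.valuation L (c x) = w.valuation L x)
    (e : Lˣ) (he : ∀ w : HeightOneSpectrum (𝓞 L), (∀ v ∈ S, ¬ w.asIdeal.LiesOver v.asIdeal) →
      w.valuation L (e : L) = 1) : ∃ m : ℕ, 0 < m ∧ ((e : L) * (c e)⁻¹) ^ m = 1 := by
  have hce : c (e : L) ≠ 0 := by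
    rw [ne_eq, EmbeddingLike.map_eq_zero_iff]; exact e.ne_zero
  have hcc : ∀ x, c (c x) = x := by
    intro x
    obtain ⟨σ⟩ : Nonempty (L →+* ℂ) := inferInstance
    apply σ.injective
    rw [hc, hc, RingHomCompTriple.comp_apply, RingHom.id_apply]
  have h1 : ∀ w : HeightOneSpectrum (𝓞 L), w.valuation L ((e : L) * (c e)⁻¹) = 1 := by
    intro w
    have hw0 : w.valuation L (c (e : L)) ≠ 0 := (Valuation.ne_zero_iff _).mpr hce
    have h2 : w.valuation L (e : L) = w.valuation L (c (e : L)) := by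
      by_cases hw : ∃ v ∈ S, w.asIdeal.LiesOver v.asIdeal
      · exact (hcS w hw _).symm
      · obtain ⟨w', n, h3⟩ := exists_below_val (c : L →+* L) w
        have h3' : ∀ x : L, w'.valuation L x ^ n = w.valuation L (c x) := h3
        by_cases hw' : ∃ v ∈ S, w'.asIdeal.LiesOver v.asIdeal
        · rw [← h3', ← hcS w' hw', h3', hcc]
        · push Not at hw hw'
          rw [he w hw, ← h3', he w' hw', one_pow]
    rw [map_mul, map_inv₀, h2, mul_inv_cancel₀ hw0]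
  obtain ⟨r, hr⟩ := HeightOneSpectrum.mem_integers_of_valuation_le_one L ((e : L) * (c e)⁻¹)
    (fun w => (h1 w).le)
  obtain ⟨m, hm, h2⟩ := NumberField.Embeddings.pow_eq_one_of_norm_eq_one L ℂ
    (x := (e : L) * (c e)⁻¹) (by rw [← hr]; exact r.2) (fun σ => by
      rw [map_mul, map_inv₀, hc, norm_mul, norm_inv, RCLike.norm_conj, mul_inv_cancel₀]
      rw [norm_ne_zero_iff, _root_.map_ne_zero]
      exact e.ne_zero)
  exact ⟨m, hm, h2⟩

/-- homomorphisms on `L ⊗ R` with the same restrictions -/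
theorem tensor_hom_ext {k L R F : Type*} [Field k] [CommRing L] [Algebra k L] [CommRing R]
    [Algebra k R] [CommRing F] (X X' : L ⊗[k] R →+* F) (h1 : ∀ l : L, X (l ⊗ₜ 1) = X' (l ⊗ₜ 1))
    (h2 : ∀ r : R, X (1 ⊗ₜ r) = X' (1 ⊗ₜ r)) : X = X' := by
  refine RingHom.ext fun t => ?_
  induction t using TensorProduct.induction_on with
  | zero => rw [map_zero, map_zero]
  | tmul l r =>
    have h3 : (l ⊗ₜ r : L ⊗[k] R) = (l ⊗ₜ 1) * (1 ⊗ₜ r) := by
      rw [Algebra.TensorProduct.tmul_mul_tmul, mul_one, one_mul]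
    rw [h3, map_mul, map_mul, h1, h2]
  | add x y hx hy => rw [map_add, map_add, hx, hy]

section

variable {k : Type u} [Field k] [NumberField k] {R : Type*} [CommRing R] [Nontrivial R] [Algebra k R]
  {L : Type w₁} [Field L] [NumberField L] [Algebra k L]

/-- polynomials in `f` over `L` are integral over the `k`-algebra generated by the `p i` and their inverses, if one of
them is a nonconstant polynomial in `f` over `k` -/
theorem isIntOver_aeval {I : Type*} (p : I → Rˣ) (f : R) (P : k[X]) (hP : 0 < P.natDegree) (i : I)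
    (hp : (p i : R) = aeval f P) (Q : L[X]) :
    IsIntOver k (Algebra.TensorProduct.includeRight : R →ₐ[k] L ⊗[k] R).toRingHom p
      (aeval ((1 : L) ⊗ₜ[k] f) Q) := by
  let A := Algebra.adjoin k (Set.range (fun i => ((p i : Rˣ) : R)) ∪
      Set.range fun i => (((p i)⁻¹ : Rˣ) : R))
  let h : A →+* L ⊗[k] R :=
    (Algebra.TensorProduct.includeRight : R →ₐ[k] L ⊗[k] R).toRingHom.comp A.val.toRingHom
  let _ : Algebra A (L ⊗[k] R) := h.toAlgebra
  have hh : ∀ a : A, algebraMap A (L ⊗[k] R) a = 1 ⊗ₜ (a : R) := fun a => rfl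
  have hk : ∀ a : k, algebraMap A (L ⊗[k] R) (algebraMap k A a) = algebraMap k (L ⊗[k] R) a := by
    intro a
    rw [hh]
    exact ((Algebra.TensorProduct.includeRight : R →ₐ[k] L ⊗[k] R).commutes a)
  have htow : IsScalarTower k A (L ⊗[k] R) := IsScalarTower.of_algebraMap_eq fun a => (hk a).symm
  have halg : Algebra.IsAlgebraic k L := Algebra.IsAlgebraic.tower_top (K := ℚ) k
  -- `f` is integral
  have hpA : (p i : R) ∈ A := Algebra.subset_adjoin (Or.inl ⟨i, rfl⟩)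
  have hP0 : P.leadingCoeff ≠ 0 := leadingCoeff_ne_zero.mpr (by rintro rfl; simp at hP)
  have hfint : IsIntegral A ((1 : L) ⊗ₜ[k] f) := by
    let P₁ : k[X] := C P.leadingCoeff⁻¹ * P
    have hP₁ : P₁.Monic := by
      simp only [P₁, Monic]
      rw [leadingCoeff_mul, leadingCoeff_C, inv_mul_cancel₀ hP0]
    have hdeg : 0 < P₁.natDegree := by
      simp only [P₁]
      rw [natDegree_C_mul (inv_ne_zero hP0)]; exact hP
    let a₀ : A := algebraMap k A P.leadingCoeff⁻¹ * ⟨p i, hpA⟩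
    refine ⟨P₁.map (algebraMap k A) - C a₀, ?_, ?_⟩
    · refine (hP₁.map _).sub_of_left ?_
      refine lt_of_le_of_lt degree_C_le ?_
      rw [hP₁.degree_map, degree_eq_natDegree hP₁.ne_zero]
      exact_mod_cast hdeg
    · rw [eval₂_sub, eval₂_map, eval₂_C]
      have h1 : (algebraMap A (L ⊗[k] R)).comp (algebraMap k A) = algebraMap k (L ⊗[k] R) :=
        RingHom.ext fun a => hk a
      rw [h1, ← aeval_def, map_mul, hh]
      have h2 : aeval ((1 : L) ⊗ₜ[k] f) P = (1 : L) ⊗ₜ[k] (aeval f P) :=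
        aeval_algHom_apply (Algebra.TensorProduct.includeRight : R →ₐ[k] L ⊗[k] R) f P
      rw [aeval_C, h2, ← hp, ← hk, hh, Algebra.TensorProduct.tmul_mul_tmul, one_mul, sub_eq_zero]
      rfl
  rw [aeval_eq_sum_range]
  change IsIntegral A _
  refine IsIntegral.sum _ fun j _ => ?_
  rw [Algebra.smul_def]
  refine IsIntegral.mul ?_ (hfint.pow j)
  have h2 : IsIntegral k (Q.coeff j) := (Algebra.IsAlgebraic.isAlgebraic _).isIntegral
  have h3 : IsIntegral k (algebraMap L (L ⊗[k] R) (Q.coeff j)) := h2.algebraMap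
  exact h3.tower_top

/-- values of divisors of the polynomials are units -/
theorem exists_unit {I : Type*} (p : I → Rˣ) (f : R) (P : I → k[X])
    (hp : ∀ i, (p i : R) = aeval f (P i)) (i₀ : I) (hP0 : P i₀ ≠ 0) (Q : L[X])
    (hQ : 0 < Q.natDegree) (hQP : Q ∣ (P i₀).map (algebraMap k L)) :
    ∃ U : (L ⊗[k] R)ˣ, (U : L ⊗[k] R) = aeval ((1 : L) ⊗ₜ[k] f) Q ∧
      IsIntOver k (Algebra.TensorProduct.includeRight : R →ₐ[k] L ⊗[k] R).toRingHom p
        (U : L ⊗[k] R) ∧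
      IsIntOver k (Algebra.TensorProduct.includeRight : R →ₐ[k] L ⊗[k] R).toRingHom p
        ((U⁻¹ : (L ⊗[k] R)ˣ) : L ⊗[k] R) := by
  obtain ⟨Q', hQ'⟩ := hQP
  have hP : 0 < (P i₀).natDegree := by
    have h1 : ((P i₀).map (algebraMap k L)).natDegree = (P i₀).natDegree := natDegree_map _
    have h2 : (P i₀).map (algebraMap k L) ≠ 0 :=
      (Polynomial.map_ne_zero_iff (algebraMap k L).injective).mpr hP0
    rw [← h1, hQ']
    rw [hQ'] at h2
    rw [natDegree_mul (left_ne_zero_of_mul h2) (right_ne_zero_of_mul h2)]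
    omega
  let F : L ⊗[k] R := (1 : L) ⊗ₜ[k] f
  have hF : aeval F ((P i₀).map (algebraMap k L)) = (1 : L) ⊗ₜ[k] (p i₀ : R) := by
    rw [aeval_map_algebraMap, hp]
    exact aeval_algHom_apply (Algebra.TensorProduct.includeRight : R →ₐ[k] L ⊗[k] R) f (P i₀)
  have hinv : aeval F Q * (aeval F Q' * ((1 : L) ⊗ₜ[k] (((p i₀)⁻¹ : Rˣ) : R))) = 1 := by
    rw [← mul_assoc, ← map_mul, ← hQ', hF, Algebra.TensorProduct.tmul_mul_tmul, one_mul,
      Units.mul_inv]
    rfl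
  refine ⟨Units.mkOfMulEqOne _ _ hinv, rfl, ?_, ?_⟩
  · exact isIntOver_aeval p f (P i₀) hP i₀ (hp i₀) Q
  · have h1 : IsIntOver k (Algebra.TensorProduct.includeRight : R →ₐ[k] L ⊗[k] R).toRingHom p
        ((1 : L) ⊗ₜ[k] (((p i₀)⁻¹ : Rˣ) : R)) := by
      have h2 := RingHom.isIntegralElem_map
        ((Algebra.TensorProduct.includeRight : R →ₐ[k] L ⊗[k] R).toRingHom.comp
          (Algebra.adjoin k (Set.range (fun i => ((p i : Rˣ) : R)) ∪
            Set.range fun i => (((p i)⁻¹ : Rˣ) : R))).val.toRingHom)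
        (x := ⟨(((p i₀)⁻¹ : Rˣ) : R), Algebra.subset_adjoin (Or.inr ⟨i₀, rfl⟩)⟩)
      exact h2
    exact RingHom.IsIntegralElem.mul _ (isIntOver_aeval p f (P i₀) hP i₀ (hp i₀) Q') h1

omit [NumberField k] [Nontrivial R] [NumberField L] in
/-- the values of polynomials in `f` at a family of complex points -/
theorem cfam_aeval (f : R) {Sg : Finset (L →+* ℂ)} {X : Sg → (L ⊗[k] R →+* ℂ)} (hX : CFam k R Sg X)
    (s : Sg) (q : L[X]) :
    X s (aeval ((1 : L) ⊗ₜ[k] f) q) = (q.map (s : L →+* ℂ)).eval (X s (1 ⊗ₜ f)) := by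
  rw [aeval_def, hom_eval₂, eval_map]
  congr 1
  exact RingHom.ext fun l => hX.1 s l

omit [NumberField k] [Nontrivial R] [NumberField L] in
/-- the values at `f` determine a family of complex points, if `f` and the `(p i)⁻¹` generate `R` -/
theorem cfam_ext {I : Type*} (p : I → Rˣ) (f : R) (P : I → k[X])
    (hp : ∀ i, (p i : R) = aeval f (P i))
    (hgen : ∀ r : R, r ∈ Algebra.adjoin k (insert f (Set.range fun i => (((p i)⁻¹ : Rˣ) : R))))
    {Sg : Finset (L →+* ℂ)} {X X' : Sg → (L ⊗[k] R →+* ℂ)} (hX : CFam k R Sg X)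
    (hX' : CFam k R Sg X') (h : ∀ s, X s (1 ⊗ₜ f) = X' s (1 ⊗ₜ f)) : X = X' := by
  funext s
  refine tensor_hom_ext _ _ (fun l => by rw [hX.1, hX'.1]) fun r => ?_
  have hr := hgen r
  induction hr using Algebra.adjoin_induction with
  | mem r hr =>
    rcases hr with rfl | ⟨i, rfl⟩
    · exact h s
    · have h1 : ∀ Y : Sg → (L ⊗[k] R →+* ℂ), CFam k R Sg Y →
          Y s (1 ⊗ₜ (((p i)⁻¹ : Rˣ) : R)) =
            ((((P i).map (algebraMap k L)).map (s : L →+* ℂ)).eval (Y s (1 ⊗ₜ f)))⁻¹ := by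
        intro Y hY
        have h2 : Y s (1 ⊗ₜ (((p i)⁻¹ : Rˣ) : R)) * Y s (1 ⊗ₜ (p i : R)) = 1 := by
          rw [← map_mul, Algebra.TensorProduct.tmul_mul_tmul, Units.inv_mul, one_mul]
          exact map_one _
        have h3 : Y s (1 ⊗ₜ (p i : R)) =
            ((((P i).map (algebraMap k L)).map (s : L →+* ℂ)).eval (Y s (1 ⊗ₜ f))) := by
          rw [← cfam_aeval f hY s, aeval_map_algebraMap, hp]
          congr 1
          exact (aeval_algHom_apply (Algebra.TensorProduct.includeRight : R →ₐ[k] L ⊗[k] R)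
            f (P i)).symm
        rw [← h3]
        exact eq_inv_of_mul_eq_one_left h2
      beta_reduce
      rw [h1 X hX, h1 X' hX', h s]
  | algebraMap a =>
    have h1 : ((1 : L) ⊗ₜ[k] (algebraMap k R a)) = (algebraMap k L a) ⊗ₜ[k] (1 : R) := by
      rw [Algebra.algebraMap_eq_smul_one, Algebra.algebraMap_eq_smul_one,
        TensorProduct.smul_tmul]
    rw [h1, hX.1, hX'.1]
  | add a b _ _ ha hb => rw [TensorProduct.tmul_add, map_add, map_add, ha, hb]
  | mul a b _ _ ha hb =>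
    have h1 : ((1 : L) ⊗ₜ[k] (a * b)) = ((1 : L) ⊗ₜ[k] a) * ((1 : L) ⊗ₜ[k] b) := by
      rw [Algebra.TensorProduct.tmul_mul_tmul, one_mul]
    rw [h1, map_mul, map_mul, ha, hb]

omit [NumberField k] [Nontrivial R] [NumberField L] in
/-- the product over two embeddings -/
theorem prod_two {σ₁ σ₂ : L →+* ℂ} (hne : σ₁ ≠ σ₂) [DecidableEq (L →+* ℂ)]
    (X : ({σ₁, σ₂} : Finset (L →+* ℂ)) → (L ⊗[k] R →+* ℂ)) (U : L ⊗[k] R)
    (n : (L →+* ℂ) → ℤ) (h₁ : n σ₁ = 1) (h₂ : n σ₂ = -1) :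
    ∏ σ : ({σ₁, σ₂} : Finset (L →+* ℂ)), X σ U ^ n σ =
      X ⟨σ₁, Finset.mem_insert_self _ _⟩ U *
        (X ⟨σ₂, Finset.mem_insert_of_mem (Finset.mem_singleton_self _)⟩ U)⁻¹ := by
  let s₁ : ({σ₁, σ₂} : Finset (L →+* ℂ)) := ⟨σ₁, Finset.mem_insert_self _ _⟩
  let s₂ : ({σ₁, σ₂} : Finset (L →+* ℂ)) :=
    ⟨σ₂, Finset.mem_insert_of_mem (Finset.mem_singleton_self _)⟩
  have h3 : s₁ ≠ s₂ := fun h => hne (congrArg Subtype.val h)
  have h4 : (Finset.univ : Finset ({σ₁, σ₂} : Finset (L →+* ℂ))) = {s₁, s₂} := by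
    ext ⟨τ, hτ⟩
    simp only [Finset.mem_univ, Finset.mem_insert, Finset.mem_singleton, true_iff]
    rcases Finset.mem_insert.mp hτ with h | h
    · left; exact Subtype.ext h
    · right; exact Subtype.ext (Finset.mem_singleton.mp h)
  rw [h4, Finset.prod_pair h3]
  change X s₁ U ^ n σ₁ * X s₂ U ^ n σ₂ = _
  rw [h₁, h₂, zpow_one, zpow_neg_one]

/-- A closed point of the affine line over a totally real field with a zero in a CM field that is not conjugate to its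
complex conjugate: there are enough units. -/
theorem enough_of_cm {I : Type*} (p : I → Rˣ) (f : R) (P : I → k[X])
    (hp : ∀ i, (p i : R) = aeval f (P i))
    (hgen : ∀ r : R, r ∈ Algebra.adjoin k (insert f (Set.range fun i => (((p i)⁻¹ : Rˣ) : R))))
    (i₀ : I) (S : Finset (HeightOneSpectrum (𝓞 k))) (c : L ≃+* L)
    (hck : ∀ a : k, c (algebraMap k L a) = algebraMap k L a)
    (hc : ∀ (σ : L →+* ℂ) (x : L), σ (c x) = starRingEnd ℂ (σ x))
    (hcS : ∀ w : HeightOneSpectrum (𝓞 L), (∃ v ∈ S, w.asIdeal.LiesOver v.asIdeal) →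
      ∀ x : L, w.valuation L (c x) = w.valuation L x)
    (Q : L[X]) (hQ : 0 < Q.natDegree) (hQc : IsCoprime Q (Q.map (c : L →+* L)))
    (hP0 : P i₀ ≠ 0) (hQP : Q ∣ (P i₀).map (algebraMap k L)) :
    EnoughUnits.{u, w₁} k R S p := by
  classical
  obtain ⟨U, hU, hU1, hU2⟩ := exists_unit p f P hp i₀ hP0 Q hQ hQP
  obtain ⟨σ₁⟩ : Nonempty (L →+* ℂ) := inferInstance
  let σ₂ : L →+* ℂ := σ₁.comp (c : L →+* L)
  have hσ₂ : ∀ x, σ₂ x = σ₁ (c x) := fun x => rfl
  have hQ0 : Q ≠ 0 := by rintro rfl; simp at hQ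
  have hne : σ₁ ≠ σ₂ := by
    intro h
    have h1 : (c : L →+* L) = RingHom.id L := by
      refine RingHom.ext fun x => ?_
      apply σ₁.injective
      exact (congrArg (fun τ : L →+* ℂ => τ x) h).symm
    rw [h1, Polynomial.map_id, isCoprime_self] at hQc
    have h2 := natDegree_eq_zero_of_isUnit hQc
    omega
  let n : Unit → (L →+* ℂ) → ℤ := fun _ σ => if σ = σ₁ then 1 else -1
  have hn₁ : ∀ j, n j σ₁ = 1 := fun j => if_pos rfl
  have hn₂ : ∀ j, n j σ₂ = -1 := fun j => if_neg hne.symm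
  refine ⟨L, inferInstance, inferInstance, inferInstance, Unit, inferInstance, fun _ => U,
    {σ₁, σ₂}, n, 1, ⟨σ₁, Finset.mem_insert_self _ _⟩, one_ne_zero, fun _ => ⟨hU1, hU2⟩, ?_, ?_⟩
  · intro e he j
    obtain ⟨m, hm, h1⟩ := exists_pow_eq_one_of_conj c hc S hcS e he
    refine ⟨σ₁ ((e : L) * (c e)⁻¹), ⟨m, hm, by rw [← map_pow, h1, map_one]⟩, 0, ?_⟩
    rw [Finset.prod_pair hne, hn₁ j, hn₂ j, zpow_one, zpow_neg_one, zpow_zero, mul_one, hσ₂, map_mul,
      map_inv₀]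
  · intro ρ m hρ hm
    have hm0 : m = 0 := hm rfl
    subst hm0
    let D : ℂ[X] := Q.map σ₁ - C (ρ ()) * Q.map σ₂
    have hQσ₂ : Q.map σ₂ = (Q.map (c : L →+* L)).map σ₁ := by
      rw [Polynomial.map_map]
    have hD : D ≠ 0 := by
      intro h0
      have h1 : Q.map σ₁ = C (ρ ()) * Q.map σ₂ := sub_eq_zero.mp h0
      have h2 : IsCoprime (Q.map σ₁) (Q.map σ₂) := by
        rw [hQσ₂]
        exact hQc.map (mapRingHom σ₁)
      have h3 : Q.map σ₂ ∣ Q.map σ₁ := ⟨C (ρ ()), by rw [h1, mul_comm]⟩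
      have h4 : IsUnit (Q.map σ₂) := h2.isUnit_of_dvd' h3 dvd_rfl
      have h5 := natDegree_eq_zero_of_isUnit h4
      rw [natDegree_map] at h5
      omega
    let s₁ : ({σ₁, σ₂} : Finset (L →+* ℂ)) := ⟨σ₁, Finset.mem_insert_self _ _⟩
    let s₂ : ({σ₁, σ₂} : Finset (L →+* ℂ)) :=
      ⟨σ₂, Finset.mem_insert_of_mem (Finset.mem_singleton_self _)⟩
    have hall : ∀ s : ({σ₁, σ₂} : Finset (L →+* ℂ)), s = s₁ ∨ s = s₂ := by
      rintro ⟨τ, hτ⟩
      rcases Finset.mem_insert.mp hτ with h | h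
      · left; exact Subtype.ext h
      · right; exact Subtype.ext (Finset.mem_singleton.mp h)
    have hsame : ∀ X : ({σ₁, σ₂} : Finset (L →+* ℂ)) → (L ⊗[k] R →+* ℂ), CFam k R {σ₁, σ₂} X →
        ∀ s r, X s (1 ⊗ₜ r) = X s₁ (1 ⊗ₜ r) := by
      intro X hX s r
      rcases hall s with rfl | rfl
      · rfl
      · refine hX.2 s₂ s₁ (fun a => ?_) r
        change σ₁ (c (algebraMap k L a)) = σ₁ (algebraMap k L a)
        rw [hck]
    refine Set.Finite.of_finite_image (f := fun X => X s₁ (1 ⊗ₜ f)) ?_ ?_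
    · refine (D.roots.toFinset.finite_toSet).subset ?_
      rintro t ⟨X, ⟨hX, z, hz, hX'⟩, rfl⟩
      rw [Finset.mem_coe, Multiset.mem_toFinset, mem_roots hD, IsRoot.def]
      have h1 := hX' ()
      rw [Pi.zero_apply, zpow_zero, mul_one, prod_two hne X _ (n ()) (hn₁ ()) (hn₂ ())] at h1
      have h5 : X s₂ (U : L ⊗[k] R) ≠ 0 := (U.isUnit.map (X s₂)).ne_zero
      have h6 : X s₁ (U : L ⊗[k] R) = ρ () * X s₂ (U : L ⊗[k] R) := by
        rw [← h1, inv_mul_cancel_right₀ h5]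
      rw [hU, cfam_aeval f hX, cfam_aeval f hX] at h6
      have h7 : X s₂ (1 ⊗ₜ f) = X s₁ (1 ⊗ₜ f) := hsame X hX s₂ f
      rw [h7] at h6
      simp only [D]
      rw [eval_sub, eval_mul, eval_C, sub_eq_zero]
      exact h6
    · rintro X ⟨hX, -⟩ X' ⟨hX', -⟩ hXX
      have hXX' : X s₁ (1 ⊗ₜ f) = X' s₁ (1 ⊗ₜ f) := hXX
      exact cfam_ext p f P hp hgen hX hX' fun s => by rw [hsame X hX, hsame X' hX', hXX']

/-- Closed points of the affine line over a CM field with three zeros, in a CM field, whose ratio of differences is not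
real: there are enough units. -/
theorem enough_of_cm3 {I : Type*} (p : I → Rˣ) (f : R) (P : I → k[X])
    (hp : ∀ i, (p i : R) = aeval f (P i))
    (hgen : ∀ r : R, r ∈ Algebra.adjoin k (insert f (Set.range fun i => (((p i)⁻¹ : Rˣ) : R))))
    (S : Finset (HeightOneSpectrum (𝓞 k))) (c : L ≃+* L)
    (hc : ∀ (σ : L →+* ℂ) (x : L), σ (c x) = starRingEnd ℂ (σ x))
    (hcS : ∀ w : HeightOneSpectrum (𝓞 L), (∃ v ∈ S, w.asIdeal.LiesOver v.asIdeal) →
      ∀ x : L, w.valuation L (c x) = w.valuation L x)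
    (a : Fin 3 → L) (i : Fin 3 → I) (hP0 : ∀ t, P (i t) ≠ 0) (ha : ∀ t, aeval (a t) (P (i t)) = 0)
    (hnr : (a 0 - a 2) * c (a 1 - a 2) ≠ c (a 0 - a 2) * (a 1 - a 2)) :
    EnoughUnits.{u, w₁} k R S p := by
  classical
  have hu : ∀ t : Fin 3, ∃ U : (L ⊗[k] R)ˣ, (U : L ⊗[k] R) = aeval ((1 : L) ⊗ₜ[k] f) (X - C (a t)) ∧
      IsIntOver k (Algebra.TensorProduct.includeRight : R →ₐ[k] L ⊗[k] R).toRingHom p
        (U : L ⊗[k] R) ∧
      IsIntOver k (Algebra.TensorProduct.includeRight : R →ₐ[k] L ⊗[k] R).toRingHom p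
        ((U⁻¹ : (L ⊗[k] R)ˣ) : L ⊗[k] R) := by
    intro t
    refine exists_unit p f P hp (i t) (hP0 t) (X - C (a t)) (by rw [natDegree_X_sub_C]; exact one_pos) ?_
    rw [dvd_iff_isRoot, IsRoot.def, eval_map_algebraMap]
    exact ha t
  choose U hU hU1 hU2 using hu
  obtain ⟨σ₁⟩ : Nonempty (L →+* ℂ) := inferInstance
  let σ₂ : L →+* ℂ := σ₁.comp (c : L →+* L)
  have hσ₂ : ∀ x, σ₂ x = σ₁ (c x) := fun x => rfl
  have hne : σ₁ ≠ σ₂ := by
    intro h
    have h1 : ∀ x, c x = x := by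
      intro x
      apply σ₁.injective
      exact (congrArg (fun τ : L →+* ℂ => τ x) h).symm
    apply hnr
    rw [h1, h1]
  let n : Fin 3 → (L →+* ℂ) → ℤ := fun _ σ => if σ = σ₁ then 1 else -1
  have hn₁ : ∀ j, n j σ₁ = 1 := fun j => if_pos rfl
  have hn₂ : ∀ j, n j σ₂ = -1 := fun j => if_neg hne.symm
  refine ⟨L, inferInstance, inferInstance, inferInstance, Fin 3, inferInstance, U,
    {σ₁, σ₂}, n, 1, ⟨σ₁, Finset.mem_insert_self _ _⟩, one_ne_zero, fun j => ⟨hU1 j, hU2 j⟩, ?_, ?_⟩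
  · intro e he j
    obtain ⟨m, hm, h1⟩ := exists_pow_eq_one_of_conj c hc S hcS e he
    refine ⟨σ₁ ((e : L) * (c e)⁻¹), ⟨m, hm, by rw [← map_pow, h1, map_one]⟩, 0, ?_⟩
    rw [Finset.prod_pair hne, hn₁ j, hn₂ j, zpow_one, zpow_neg_one, zpow_zero, mul_one, hσ₂, map_mul,
      map_inv₀]
  · intro ρ m hρ hm
    have hm0 : m = 0 := hm rfl
    subst hm0
    let s₁ : ({σ₁, σ₂} : Finset (L →+* ℂ)) := ⟨σ₁, Finset.mem_insert_self _ _⟩
    let s₂ : ({σ₁, σ₂} : Finset (L →+* ℂ)) :=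
      ⟨σ₂, Finset.mem_insert_of_mem (Finset.mem_singleton_self _)⟩
    have hall : ∀ s : ({σ₁, σ₂} : Finset (L →+* ℂ)), s = s₁ ∨ s = s₂ := by
      rintro ⟨τ, hτ⟩
      rcases Finset.mem_insert.mp hτ with h | h
      · left; exact Subtype.ext h
      · right; exact Subtype.ext (Finset.mem_singleton.mp h)
    -- the equations
    have heq : ∀ Y : ({σ₁, σ₂} : Finset (L →+* ℂ)) → (L ⊗[k] R →+* ℂ), CFam k R {σ₁, σ₂} Y →
        (∃ z : ℂ, z ≠ 0 ∧ ∀ j, ∏ σ : ({σ₁, σ₂} : Finset (L →+* ℂ)), Y σ (U j) ^ n j σ =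
          ρ j * z ^ (0 : Fin 3 → ℤ) j) →
        ∀ t, Y s₁ (1 ⊗ₜ f) - σ₁ (a t) = ρ t * (Y s₂ (1 ⊗ₜ f) - σ₁ (c (a t))) := by
      rintro Y hY ⟨z, hz, hY'⟩ t
      have h1 := hY' t
      rw [Pi.zero_apply, zpow_zero, mul_one, prod_two hne Y _ (n t) (hn₁ t) (hn₂ t)] at h1
      have h5 : Y s₂ (U t : L ⊗[k] R) ≠ 0 := ((U t).isUnit.map (Y s₂)).ne_zero
      have h6 : Y s₁ (U t : L ⊗[k] R) = ρ t * Y s₂ (U t : L ⊗[k] R) := by
        rw [← h1, inv_mul_cancel_right₀ h5]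
      rw [hU, cfam_aeval f hY, cfam_aeval f hY, Polynomial.map_sub, Polynomial.map_sub, map_X, map_X,
        map_C, map_C, eval_sub, eval_sub, eval_X, eval_X, eval_C, eval_C] at h6
      exact h6
    refine Set.Subsingleton.finite ?_
    rintro Y ⟨hY, hY'⟩ Z ⟨hZ, hZ'⟩
    have h1 := heq Y hY hY'
    have h2 := heq Z hZ hZ'
    have h3 : Y s₂ (1 ⊗ₜ f) = Z s₂ (1 ⊗ₜ f) := by
      by_contra hne'
      have h4 : ∀ t, ρ t = ρ 2 := by
        intro t
        have h5 : (ρ t - ρ 2) * (Y s₂ (1 ⊗ₜ f) - Z s₂ (1 ⊗ₜ f)) = 0 := by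
          linear_combination h2 t - h1 t + h1 2 - h2 2
        rcases mul_eq_zero.mp h5 with h | h
        · exact sub_eq_zero.mp h
        · exact absurd (sub_eq_zero.mp h) hne'
      apply hnr
      apply σ₁.injective
      have h5 : ∀ t, σ₁ (a t) - σ₁ (a 2) = ρ 2 * (σ₁ (c (a t)) - σ₁ (c (a 2))) := by
        intro t
        have h6 := h1 t
        have h7 := h1 2
        rw [h4 t] at h6
        linear_combination h7 - h6
      simp only [map_mul, map_sub]
      rw [h5 0, h5 1]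
      ring
    have h4 : Y s₁ (1 ⊗ₜ f) = Z s₁ (1 ⊗ₜ f) := by
      have h5 := h1 0
      have h6 := h2 0
      rw [h3] at h5
      linear_combination h5 - h6
    refine cfam_ext p f P hp hgen hY hZ fun s => ?_
    rcases hall s with rfl | rfl
    · exact h4
    · exact h3

end

end Pool.Agent.Lib.MP_2f3286_ag.GU
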