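import Pool.Agent.Lib.MP_2f3286_ag.Gen.Rel

/-!
# Multiplicatively independent rank-one profinite classes are algebraically independent
-/

open IsDedekindDomain NumberField WithZero

namespace Pool.Agent.Lib.MP_2f3286_ag.GU

open Gen

variable {E : Type*} [Field E] [NumberField E]

theorem alg_indep {J : Type*} [Fintype J]
    (g : J → ℕ → Eˣ) (r : J → Eˣ) (ε : Eˣ)
    (hcompat : ∀ i, ∀ n m, 1 ≤ n → 1 ≤ m → ∃ y : Eˣ, g i (n * m) = g i n * y ^ n)
    (hform : ∀ i, ∀ n, 1 ≤ n → ∃ ζ : Eˣ, IsOfFinOrder ζ ∧ ∃ j : ℤ, ∃ y : Eˣ,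
      g i n = r i * (ζ * ε ^ j * y ^ n))
    (T : Finset (HeightOneSpectrum (𝓞 E)))
    (Q : ∀ W : HeightOneSpectrum (𝓞 E), J → W.adicCompletion E)
    (hQ : ∀ W ∉ T, ∀ i, Q W i ≠ 0)
    (hloc : ∀ W ∉ T, ∀ i, ∀ n, 1 ≤ n → ∃ z : W.adicCompletion E,
      algebraMap E (W.adicCompletion E) (g i n) * z ^ n = Q W i)
    (hind : ∀ l : J → ℤ, (∃ ρ : Eˣ, ∀ n, 1 ≤ n → ∃ z : Eˣ, ∏ j, g j n ^ l j = ρ * z ^ n) → l = 0)
    (Φ : MvPolynomial J E) (hΦ : ∀ W ∉ T, MvPolynomial.aeval (Q W) Φ = 0) : Φ = 0 := by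
  classical
  by_contra hΦ0
  let A : Finset (J →₀ ℕ) := Φ.support
  have hA : A.Nonempty := MvPolynomial.support_nonempty.mpr hΦ0
  let T' : Finset (HeightOneSpectrum (𝓞 E)) := T ∪ (finite_val_ne_one ε.ne_zero).toFinset
  have hT' : ∀ W ∉ T', W ∉ T ∧ W.valuation E (ε : E) = 1 := by
    intro W hW
    simp only [T', Finset.mem_union, Set.Finite.mem_toFinset, Set.mem_ofPred_eq, not_or,
      not_not] at hW
    exact hW
  let c : (J →₀ ℕ) → Eˣ := fun μ =>
    (if h : Φ.coeff μ ≠ 0 then Units.mk0 _ h else 1) * ∏ j, r j ^ μ j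
  let G : (J →₀ ℕ) → ℕ → Eˣ := fun μ m => ∏ j, (g j m * (r j)⁻¹) ^ μ j
  let y : ∀ W : HeightOneSpectrum (𝓞 E), (J →₀ ℕ) → W.adicCompletion E := fun W μ =>
    ∏ j, (Q W j * algebraMap E (W.adicCompletion E) ((r j)⁻¹ : Eˣ)) ^ μ j
  have hGcompat : ∀ μ : J →₀ ℕ, ∀ a b, 1 ≤ a → 1 ≤ b → ∃ y : Eˣ, G μ (a * b) = G μ a * y ^ a := by
    intro μ a b ha hb
    choose y hy using fun j => hcompat j a b ha hb
    refine ⟨∏ j, y j ^ μ j, ?_⟩
    simp only [G]
    rw [← Finset.prod_pow, ← Finset.prod_mul_distrib]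
    refine Finset.prod_congr rfl fun j _ => ?_
    rw [hy j, mul_right_comm, mul_pow, pow_right_comm]
  have hGform : ∀ μ : J →₀ ℕ, ∀ a, 1 ≤ a → ∃ ζ : Eˣ, IsOfFinOrder ζ ∧ ∃ j : ℤ, ∃ y : Eˣ,
      G μ a = ζ * ε ^ j * y ^ a := by
    intro μ a ha
    choose ζ hζ e y hy using fun j => hform j a ha
    refine ⟨∏ j, ζ j ^ (μ j : ℤ), ?_, ∑ j, e j * (μ j : ℤ), ∏ j, y j ^ (μ j : ℤ), ?_⟩
    · have h1 : ∏ j, ζ j ^ (μ j : ℤ) ∈ CommGroup.torsion Eˣ :=
        prod_mem fun j _ => zpow_mem ((CommGroup.mem_torsion _).mpr (hζ j)) _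
      exact (CommGroup.mem_torsion _).mp h1
    · rw [← zpow_prod_form]
      refine Finset.prod_congr rfl fun j _ => ?_
      rw [hy j, mul_comm (r j), mul_inv_cancel_right, zpow_natCast]
  have hGloc : ∀ W ∉ T, ∀ μ : J →₀ ℕ, ∀ a, 1 ≤ a → ∃ z : W.adicCompletion E,
      algebraMap E (W.adicCompletion E) (G μ a) * z ^ a = y W μ := by
    intro W hW μ a ha
    choose z hz using fun j => hloc W hW j a ha
    refine ⟨∏ j, z j ^ μ j, ?_⟩
    simp only [G, y]
    rw [Units.coe_prod, map_prod, ← Finset.prod_pow, ← Finset.prod_mul_distrib]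
    refine Finset.prod_congr rfl fun j _ => ?_
    rw [← hz j, Units.val_pow_eq_pow_val, map_pow, Units.val_mul, map_mul, pow_right_comm, ← mul_pow,
      mul_right_comm]
  have hy1 : ∀ W ∉ T', ∀ μ : J →₀ ℕ, Valued.v (y W μ) = 1 := by
    intro W hW μ
    obtain ⟨hWT, hWε⟩ := hT' W hW
    simp only [y]
    rw [map_prod]
    refine Finset.prod_eq_one fun j _ => ?_
    rw [map_pow]
    have hy0 : Q W j * algebraMap E (W.adicCompletion E) ((r j)⁻¹ : Eˣ) ≠ 0 := by
      refine mul_ne_zero (hQ W hWT j) ?_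
      rw [_root_.map_ne_zero]; exact Units.ne_zero _
    have h1 : Valued.v (Q W j * algebraMap E (W.adicCompletion E) ((r j)⁻¹ : Eˣ)) = 1 := by
      refine eq_one_of_pow ((Valuation.ne_zero_iff _).mpr hy0) fun a ha => ?_
      obtain ⟨ζ, hζ, e, u, hu⟩ := hform j a ha
      obtain ⟨z, hz⟩ := hloc W hWT j a ha
      refine ⟨Valued.v (algebraMap E (W.adicCompletion E) u * z), ?_⟩
      have h2 : Q W j * algebraMap E (W.adicCompletion E) ((r j)⁻¹ : Eˣ) =
          algebraMap E (W.adicCompletion E) ((ζ * ε ^ e * u ^ a : Eˣ) : E) * z ^ a := by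
        rw [← hz, hu, mul_right_comm, ← map_mul, ← Units.val_mul, mul_comm (r j),
          mul_inv_cancel_right]
      rw [h2, map_mul, map_mul, map_pow, val_alg, val_alg, Units.val_mul, Units.val_mul,
        map_mul, map_mul, val_of_finOrder hζ, Units.val_zpow_eq_zpow_val, map_zpow₀, hWε, one_zpow,
        Units.val_pow_eq_pow_val, map_pow, one_mul, one_mul, mul_pow]
    rw [h1, one_pow]
  obtain ⟨α, hα, α', hα', hne, γ, hγ⟩ := key_lemma (k := E) A hA c ε G
    (fun μ _ => hGcompat μ) (fun μ _ => hGform μ) T' y (fun W hW μ _ => hy1 W hW μ)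
    (fun W hW μ _ => hGloc W (hT' W hW).1 μ)
    (by
      intro W hW
      have hWT := (hT' W hW).1
      have h1 := hΦ W hWT
      rw [MvPolynomial.aeval_def, MvPolynomial.eval₂_eq'] at h1
      rw [← h1]
      refine Finset.sum_congr rfl fun μ hμ => ?_
      have h3 : Φ.coeff μ ≠ 0 := MvPolynomial.mem_support_iff.mp hμ
      simp only [c, y]
      rw [dif_pos h3, Units.val_mul, Units.val_mk0, map_mul, mul_assoc, Units.coe_prod, map_prod,
        ← Finset.prod_mul_distrib]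
      congr 1
      refine Finset.prod_congr rfl fun j _ => ?_
      have h4 : algebraMap E (W.adicCompletion E) (r j) ≠ 0 := by
        rw [_root_.map_ne_zero]; exact Units.ne_zero _
      rw [Units.val_pow_eq_pow_val, map_pow, Units.val_inv_eq_inv_val, map_inv₀, ← mul_pow]
      congr 1
      field_simp)
  -- contradiction with independence
  have h1 := hind (fun j => (α j : ℤ) - α' j)
    ⟨γ * ∏ j, r j ^ ((α j : ℤ) - α' j), fun m hm => by
      obtain ⟨z, hz⟩ := hγ m hm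
      refine ⟨z, ?_⟩
      have h2 : ∏ j, g j m ^ ((α j : ℤ) - α' j) = G α m * (G α' m)⁻¹ * ∏ j, r j ^ ((α j : ℤ) - α' j) := by
        simp only [G]
        rw [← Finset.prod_inv_distrib, ← Finset.prod_mul_distrib, ← Finset.prod_mul_distrib]
        refine Finset.prod_congr rfl fun j _ => ?_
        rw [← zpow_natCast, ← zpow_natCast, ← zpow_neg, ← zpow_add, ← sub_eq_add_neg, ← mul_zpow,
          inv_mul_cancel_right]
      rw [h2, hz]
      rw [mul_right_comm γ, mul_assoc (γ * z ^ m), mul_inv_cancel, mul_one, mul_right_comm]⟩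
  apply hne
  ext j
  have h2 := congrFun h1 j
  simp only [Pi.zero_apply] at h2
  omega

end Pool.Agent.Lib.MP_2f3286_ag.GU
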