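import Pool.Agent.Lib.MP_2f3286_ag.GU.AlgPts
import Pool.Agent.Lib.MP_2f3286_ag.GU.Indep
import Pool.Agent.Lib.MP_2f3286_ag.Gen.Rat

/-!
# Families of points at which products of conjugates of units are rank-one classes

`Λ` is a finitely generated algebra over `L`, `u j` are units of `Λ`, `s i` are embeddings of `L` into a number field `E`
contained in `ℂ`. A family of points is a family of homomorphisms `Y i` on `Λ` over the `s i` that satisfies some
coincidences. If there are only finitely many families of complex points with given products of the `Y i (u j)`, up to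
powers of one variable, then at the families of local points with classes in a group of rank one the functions take
finitely many values.
-/

open IsDedekindDomain NumberField Polynomial

namespace Pool.Agent.Lib.MP_2f3286_ag.GU

open Gen

/-- `Y` is a family of homomorphisms over the `s i` that satisfies the coincidences `rel` on `R₀`. -/
def IsFam {E L Λ I : Type*} [Field E] [Field L] [CommRing Λ] [Algebra L Λ] (s : I → (L →+* E))
    (rel : I → I → Prop) (R₀ : Set Λ) {Ω : Type*} [CommRing Ω] [Algebra E Ω] (Y : I → (Λ →+* Ω)) : Prop :=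
  (∀ i l, Y i (algebraMap L Λ l) = algebraMap E Ω (s i l)) ∧ ∀ i i', rel i i' → ∀ x ∈ R₀, Y i x = Y i' x

/-- `∏ i, Y i (u j) ^ n j i` as a unit -/
noncomputable def yu {Λ I J : Type*} [CommRing Λ] [Fintype I] (u : J → Λˣ) (n : J → I → ℤ) {A : Type*} [CommRing A]
    (Y : I → (Λ →+* A)) (j : J) : Aˣ := ∏ i, Units.map (Y i : Λ →* A) (u j) ^ n j i

theorem map_yu {Λ I J : Type*} [CommRing Λ] [Fintype I] (u : J → Λˣ) (n : J → I → ℤ) {A : Type*} [CommRing A]
    {F : Type*} [Field F] (ψ : A →+* F) (Y : I → (Λ →+* A)) (j : J) :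
    ψ (yu u n Y j : Aˣ) = ∏ i, ψ (Y i (u j)) ^ n j i := by
  have h1 : ψ (yu u n Y j : Aˣ) = ((Units.map (ψ : A →* F) (yu u n Y j) : Fˣ) : F) := rfl
  rw [h1, yu, map_prod, Units.coe_prod]
  refine Finset.prod_congr rfl fun i _ => ?_
  rw [map_zpow, Units.val_zpow_eq_zpow_val]
  rfl

/-- the classes have rational powers, or there are infinitely many families of complex points -/
theorem core_rational {E : Type*} [Field E] [NumberField E] [Algebra E ℂ]
    {L : Type*} [Field L] {Λ : Type*} [CommRing Λ] [Algebra L Λ]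
    {I : Type*} [Fintype I] (s : I → (L →+* E)) (rel : I → I → Prop) (R₀ : Set Λ)
    {J : Type*} [Fintype J] (u : J → Λˣ) (n : J → I → ℤ)
    (g : J → ℕ → Eˣ) (r : J → Eˣ) (ε : Eˣ)
    (hcompat : ∀ i, ∀ n m, 1 ≤ n → 1 ≤ m → ∃ y : Eˣ, g i (n * m) = g i n * y ^ n)
    (hform : ∀ i, ∀ n, 1 ≤ n → ∃ ζ : Eˣ, IsOfFinOrder ζ ∧ ∃ j : ℤ, ∃ y : Eˣ,
      g i n = r i * (ζ * ε ^ j * y ^ n))
    (TE : Finset (HeightOneSpectrum (𝓞 E)))
    {P : Type*} (W : P → HeightOneSpectrum (𝓞 E)) (hW' : ∀ W₀ ∉ TE, ∃ p, W p = W₀)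
    {A : Type*} [CommRing A] [Algebra E A] [Algebra.FiniteType E A]
    (ev : ∀ p, A →ₐ[E] (W p).adicCompletion E) (hev : ∀ a, (∀ p, ev p a = 0) → a = 0)
    (Y : I → (Λ →+* A)) (hY : IsFam s rel R₀ Y)
    (hloc : ∀ p j m, 1 ≤ m → ∃ z : (W p).adicCompletion E,
      algebraMap E _ (g j m : E) * z ^ m = ev p (yu u n Y j : Aˣ))
    (hfin : ∀ (ρ : J → ℂ) (m : J → ℤ), (∀ j, ρ j ≠ 0) → (ε = 1 → m = 0) →
      {Z : I → (Λ →+* ℂ) | IsFam s rel R₀ Z ∧ ∃ z : ℂ, z ≠ 0 ∧
        ∀ j, ∏ i, Z i (u j) ^ n j i = ρ j * z ^ m j}.Finite) (j : J) :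
    ∃ e : ℕ, 0 < e ∧ IsRat fun n => g j n ^ e := by
  classical
  have hY0 : ∀ p j, ev p (yu u n Y j : Aˣ) ≠ 0 := fun p j => ((yu u n Y j).isUnit.map (ev p)).ne_zero
  let Ind : Finset J → Prop := fun J' => ∀ l : J → ℤ, (∀ j ∉ J', l j = 0) →
      (∃ ρ : Eˣ, ∀ n, 1 ≤ n → ∃ z : Eˣ, ∏ j, g j n ^ l j = ρ * z ^ n) → l = 0
  have hne : ((Finset.univ : Finset (Finset J)).filter Ind).Nonempty :=
    ⟨∅, Finset.mem_filter.mpr ⟨Finset.mem_univ _, fun l hl _ => funext fun j => hl j (by simp)⟩⟩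
  obtain ⟨J', hJ', hmax⟩ := Finset.exists_max_image _ Finset.card hne
  have hInd : Ind J' := (Finset.mem_filter.mp hJ').2
  -- the relations
  have hrel : ∀ i, i ∉ J' → ∃ (l : J → ℤ) (e : ℕ) (ρ : Eˣ), 0 < e ∧ l i = e ∧
      (∀ j ∉ J', j ≠ i → l j = 0) ∧ ∀ n, 1 ≤ n → ∃ z : Eˣ, ∏ j, g j n ^ l j = ρ * z ^ n := by
    intro i hi
    have h1 : ¬ Ind (insert i J') := by
      intro h
      have h2 := hmax (insert i J') (Finset.mem_filter.mpr ⟨Finset.mem_univ _, h⟩)
      rw [Finset.card_insert_of_notMem hi] at h2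
      omega
    simp only [Ind] at h1
    push Not at h1
    obtain ⟨l, hl, ⟨ρ, hρ⟩, hl0⟩ := h1
    have hli : l i ≠ 0 := by
      intro h0
      apply hl0
      refine hInd l (fun j hj => ?_) ⟨ρ, hρ⟩
      by_cases hji : j = i
      · rw [hji, h0]
      · exact hl j (by simp [hji, hj])
    have hsupp : ∀ j ∉ J', j ≠ i → l j = 0 := fun j hj hji => hl j (by simp [hji, hj])
    rcases lt_or_gt_of_ne hli with hneg | hpos
    · refine ⟨fun j => -l j, (l i).natAbs, ρ⁻¹, Int.natAbs_pos.mpr hli, ?_, fun j hj hji => by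
        beta_reduce; rw [hsupp j hj hji, neg_zero], fun n hn => ?_⟩
      · beta_reduce; omega
      · obtain ⟨z, hz⟩ := hρ n hn
        refine ⟨z⁻¹, ?_⟩
        simp only [zpow_neg]
        rw [Finset.prod_inv_distrib, hz, mul_inv, inv_pow]
    · exact ⟨l, (l i).natAbs, ρ, Int.natAbs_pos.mpr hli, by omega, hsupp, hρ⟩
  have hemp : J' = ∅ := by
    by_contra hne'
    obtain ⟨j₀, hj₀⟩ := Finset.nonempty_iff_ne_empty.mpr hne'
    -- rank zero
    by_cases hε : ε = 1
    · have hfinT : {ζ : Eˣ | IsOfFinOrder ζ}.Finite :=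
        (K0_finite (k := E) ∅).subset fun ζ hζ => mem_K0_of_finOrder ∅ hζ
      let m := ∏ ζ ∈ hfinT.toFinset, orderOf ζ
      have hm : ∀ ζ : Eˣ, IsOfFinOrder ζ → ζ ^ m = 1 := by
        intro ζ hζ
        apply orderOf_dvd_iff_pow_eq_one.mp
        exact Finset.dvd_prod_of_mem _ (by rw [Set.Finite.mem_toFinset]; exact hζ)
      have hm0 : 0 < m := by
        rw [Nat.pos_iff_ne_zero, Finset.prod_ne_zero_iff]
        intro ζ hζ
        apply Nat.pos_iff_ne_zero.mp
        rw [Set.Finite.mem_toFinset] at hζ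
        exact IsOfFinOrder.orderOf_pos hζ
      have h1 := hInd (Pi.single j₀ (m : ℤ)) (fun j hj => by
        rw [Pi.single_apply, if_neg]
        rintro rfl
        exact hj hj₀) ⟨r j₀ ^ m, fun a ha => by
          obtain ⟨ζ, hζ, j, y, hy⟩ := hform j₀ a ha
          refine ⟨y ^ m, ?_⟩
          rw [Finset.prod_eq_single j₀]
          · rw [Pi.single_apply, if_pos rfl, zpow_natCast, hy, hε, one_zpow, mul_one, mul_pow, mul_pow,
              hm ζ hζ, one_mul, ← pow_mul, ← pow_mul, mul_comm a m]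
          · intro j _ hj
            rw [Pi.single_apply, if_neg hj, zpow_zero]
          · intro h; exact absurd (Finset.mem_univ _) h⟩
      have h2 := congrFun h1 j₀
      rw [Pi.single_apply, if_pos rfl, Pi.zero_apply] at h2
      have : (m : ℤ) ≠ 0 := by exact_mod_cast hm0.ne'
      exact this h2
    -- rank one
    choose! l e ρ he hle hls hlr using hrel
    let e' : J → ℕ := fun i => if i ∈ J' then 1 else e i
    let ρ' : J → Eˣ := fun i => if i ∈ J' then 1 else ρ i
    let N : J → J → ℤ := fun i j => if i ∈ J' then (if j = i then 1 else 0) else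
      (if j ∈ J' then -l i j else 0)
    have he' : ∀ i, 0 < e' i := by
      intro i
      simp only [e']
      split_ifs with h
      · exact one_pos
      · exact he i h
    have hN : ∀ i, ∀ j ∉ J', N i j = 0 := by
      intro i j hj
      simp only [N]
      split_ifs with h1 h2
      · rw [h2] at hj; exact absurd h1 hj
      · rfl
      · rfl
    -- the powers of the products
    have hM : ∀ p i, (ev p (yu u n Y i : Aˣ)) ^ e' i =
        algebraMap E ((W p).adicCompletion E) (ρ' i) * ∏ j, (ev p (yu u n Y j : Aˣ)) ^ N i j := by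
      intro p i
      by_cases hi : i ∈ J'
      · simp only [e', ρ', N, if_pos hi]
        rw [pow_one, Units.val_one, map_one, one_mul, Finset.prod_eq_single i]
        · rw [if_pos rfl, zpow_one]
        · intro j _ hji
          rw [if_neg hji, zpow_zero]
        · intro h; exact absurd (Finset.mem_univ _) h
      · simp only [e', ρ', N, if_neg hi]
        have h1 := ratio_eq TE (g := fun m => ∏ j, g j m ^ l i j) (g' := fun _ => 1) (ρ := ρ i)
          (by
            intro m hm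
            obtain ⟨z, hz⟩ := hlr i hi m hm
            exact ⟨z, by rw [mul_one]; exact hz⟩)
          (W := W p) (Q := ∏ j, (ev p (yu u n Y j : Aˣ)) ^ l i j) (Q' := 1)
          (Finset.prod_ne_zero_iff.mpr fun j _ => zpow_ne_zero _ (hY0 p j)) one_ne_zero
          (by
            intro m hm
            choose z hz using fun j => hloc p j m hm
            refine ⟨∏ j, z j ^ l i j, ?_⟩
            rw [Units.coe_prod, map_prod, ← Finset.prod_pow, ← Finset.prod_mul_distrib]
            refine Finset.prod_congr rfl fun j _ => ?_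
            have h2 : (z j ^ l i j) ^ m = (z j ^ m) ^ l i j := by
              rw [← zpow_natCast, ← zpow_natCast, zpow_comm]
            rw [← hz j, Units.val_zpow_eq_zpow_val, map_zpow₀, h2, ← mul_zpow])
          (fun m hm => ⟨1, by simp⟩)
        rw [mul_one, ← Finset.mul_prod_erase _ _ (Finset.mem_univ i), hle i hi, zpow_natCast] at h1
        have h3 : ∏ j ∈ Finset.univ.erase i, (ev p (yu u n Y j : Aˣ)) ^ l i j ≠ 0 :=
          Finset.prod_ne_zero_iff.mpr fun j _ => zpow_ne_zero _ (hY0 p j)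
        have h4 : ∏ j, (ev p (yu u n Y j : Aˣ)) ^ (if j ∈ J' then -l i j else 0) =
            (∏ j ∈ Finset.univ.erase i, (ev p (yu u n Y j : Aˣ)) ^ l i j)⁻¹ := by
          rw [← Finset.mul_prod_erase _ _ (Finset.mem_univ i), if_neg hi, zpow_zero, one_mul,
            ← Finset.prod_inv_distrib]
          refine Finset.prod_congr rfl fun j hj => ?_
          by_cases hj' : j ∈ J'
          · rw [if_pos hj', zpow_neg]
          · rw [if_neg hj', hls i hi j hj' (Finset.ne_of_mem_erase hj), zpow_zero, inv_one]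
        rw [h4, ← h1, mul_inv_cancel_right₀ h3]
    -- in `A`
    have hMA : ∀ i, (yu u n Y i) ^ e' i =
        Units.map (algebraMap E A : E →* A) (ρ' i) * ∏ j, (yu u n Y j) ^ N i j := by
      intro i
      ext
      rw [← sub_eq_zero]
      apply hev
      intro p
      rw [map_sub, sub_eq_zero, Units.val_pow_eq_pow_val, map_pow, hM, Units.val_mul, map_mul, Units.coe_prod,
        map_prod]
      congr 1
      · exact ((ev p).commutes _).symm
      · refine Finset.prod_congr rfl fun j _ => ?_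
        have h1 : ∀ (x : Aˣ) (a : ℤ), ev p ((x ^ a : Aˣ) : A) = (ev p (x : A)) ^ a := by
          intro x a
          have h2 : ev p ((x ^ a : Aˣ) : A) =
              ((Units.map (ev p : A →* (W p).adicCompletion E) (x ^ a) : ((W p).adicCompletion E)ˣ) :
                (W p).adicCompletion E) := rfl
          rw [h2, map_zpow, Units.val_zpow_eq_zpow_val]
          rfl
        rw [h1]
    -- algebraic independence
    choose p₀ hp₀ using hW'
    let Q : ∀ W₀ : HeightOneSpectrum (𝓞 E), J → W₀.adicCompletion E := fun W₀ j =>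
      if h : W₀ ∉ TE then (hp₀ W₀ h) ▸ (ev (p₀ W₀ h) (yu u n Y j : Aˣ)) else 1
    have hQ : ∀ p : P, ∀ h : W p ∉ TE, ∀ (Φ : ∀ W₀ : HeightOneSpectrum (𝓞 E), (J → W₀.adicCompletion E) → Prop),
        (∀ q, Φ (W q) (fun j => ev q (yu u n Y j : Aˣ))) → Φ (W p) (Q (W p)) := by
      intro p h Φ hΦ
      have h1 : Q (W p) = fun j => (hp₀ (W p) h) ▸ (ev (p₀ (W p) h) (yu u n Y j : Aˣ)) := by
        funext j
        simp only [Q]
        rw [dif_pos h]
      rw [h1]
      have h2 := hΦ (p₀ (W p) h)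
      have h3 : ∀ (W₁ : HeightOneSpectrum (𝓞 E)) (hW₁ : W (p₀ (W p) h) = W₁),
          Φ W₁ (fun j => hW₁ ▸ (ev (p₀ (W p) h) (yu u n Y j : Aˣ))) := by
        intro W₁ hW₁
        subst hW₁
        exact h2
      exact h3 _ (hp₀ (W p) h)
    have hQ' : ∀ W₀ ∉ TE, ∀ (Φ : ∀ W₀ : HeightOneSpectrum (𝓞 E), (J → W₀.adicCompletion E) → Prop),
        (∀ q, Φ (W q) (fun j => ev q (yu u n Y j : Aˣ))) → Φ W₀ (Q W₀) := by
      intro W₀ hW₀ Φ hΦ
      have h1 := hp₀ W₀ hW₀
      have h2 := hQ (p₀ W₀ hW₀) (by rw [h1]; exact hW₀) Φ hΦ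
      rwa [h1] at h2
    let z : {j // j ∈ J'} → A := fun j => (yu u n Y j.1 : Aˣ)
    have hind : ∀ Φ : MvPolynomial {j // j ∈ J'} E, MvPolynomial.aeval z Φ = 0 → Φ = 0 := by
      intro Φ hΦ
      refine alg_indep (fun j : {j // j ∈ J'} => g j.1) (fun j => r j.1) ε (fun i => hcompat i.1)
        (fun i => hform i.1) TE (fun W₀ j => Q W₀ j.1) ?_ ?_ ?_ Φ ?_
      · intro W₀ hW₀ i
        exact hQ' W₀ hW₀ (fun W₀ q => ∀ i, q i ≠ 0) (fun p i => hY0 p i) i.1
      · intro W₀ hW₀ i a ha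
        exact hQ' W₀ hW₀ (fun W₀ q => ∀ i, ∃ z : W₀.adicCompletion E,
          algebraMap E (W₀.adicCompletion E) (g i a) * z ^ a = q i) (fun p i => hloc p i a ha) i.1
      · intro l' hl'
        obtain ⟨ρ₁, hρ₁⟩ := hl'
        have h1 := hInd (fun j => if h : j ∈ J' then l' ⟨j, h⟩ else 0) (fun j hj => dif_neg hj)
          ⟨ρ₁, fun a ha => by
            obtain ⟨z, hz⟩ := hρ₁ a ha
            refine ⟨z, ?_⟩
            rw [← hz, ← Finset.prod_subtype J' (p := fun j => j ∈ J') (fun _ => Iff.rfl)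
              (fun j => g j a ^ (if h : j ∈ J' then l' ⟨j, h⟩ else 0)) |>.trans
              (Finset.prod_congr rfl fun j _ => by
                rw [dif_pos j.2] : _ = ∏ j : {j // j ∈ J'}, g j.1 a ^ l' j)]
            symm
            refine Finset.prod_subset (Finset.subset_univ _) fun j _ hj => ?_
            rw [dif_neg hj, zpow_zero]⟩
        funext j
        have h2 := congrFun h1 j.1
        rw [dif_pos j.2, Pi.zero_apply] at h2
        exact h2
      · intro W₀ hW₀
        refine hQ' W₀ hW₀ (fun W₀ q => MvPolynomial.aeval (fun j : {j // j ∈ J'} => q j.1) Φ = 0) (fun p => ?_)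
        have h1 := congrArg (ev p) hΦ
        rw [map_zero] at h1
        have h2 := congrArg (fun F : MvPolynomial {j // j ∈ J'} E →ₐ[E] (W p).adicCompletion E => F Φ)
          (MvPolynomial.comp_aeval z (ev p))
        exact h2.symm.trans h1
    obtain ⟨t, ht0, htinf⟩ := exists_line z hind ⟨j₀, hj₀⟩
    -- the constants
    let eT : ℕ := ∏ i, e' i
    have heT : ∀ i, ∃ q : ℕ, eT = q * e' i := by
      intro i
      obtain ⟨q, hq⟩ := Finset.dvd_prod_of_mem e' (Finset.mem_univ i)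
      exact ⟨q, by rw [mul_comm]; exact hq⟩
    have heT0 : 0 < eT := Finset.prod_pos fun i _ => he' i
    choose q hq using heT
    let C : J → ℂ := fun i => algebraMap E ℂ (ρ' i) *
      ∏ j : {j // j ∈ J'}, if j = ⟨j₀, hj₀⟩ then 1 else t j ^ N i j.1
    have hC0 : ∀ i, C i ≠ 0 := by
      intro i
      refine mul_ne_zero (by rw [_root_.map_ne_zero]; exact (ρ' i).ne_zero)
        (Finset.prod_ne_zero_iff.mpr fun j _ => ?_)
      split_ifs
      · exact one_ne_zero
      · exact zpow_ne_zero _ (ht0 j)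
    let m : J → ℤ := fun i => q i * N i j₀
    let G : Set (J → ℂ) := {γ | ∀ i, γ i ^ e' i = C i}
    have hG : G.Finite := by
      refine Set.Finite.pi' (t := fun i => {x : ℂ | x ^ e' i = C i}) fun i => ?_
      have h2 : {x : ℂ | x ^ e' i = C i} ⊆ ((nthRoots (e' i) (C i)).toFinset : Set ℂ) := by
        intro x hx
        rw [Finset.mem_coe, Multiset.mem_toFinset, mem_nthRoots (he' i)]
        exact hx
      exact (Finset.finite_toSet _).subset h2
    have hGfin : (⋃ γ ∈ G, {Z : I → (Λ →+* ℂ) | IsFam s rel R₀ Z ∧ ∃ z : ℂ, z ≠ 0 ∧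
        ∀ j, ∏ i, Z i (u j) ^ n j i = γ j * z ^ m j}).Finite := by
      refine Set.Finite.biUnion hG fun γ hγ => hfin γ m (fun j h0 => ?_) (fun h => absurd h hε)
      have h1 : γ j ^ e' j = C j := hγ j
      rw [h0, zero_pow (he' j).ne'] at h1
      exact hC0 j h1.symm
    apply htinf
    refine Set.Finite.subset ((hGfin.image fun Z => ∏ i, Z i (u j₀) ^ n j₀ i)) ?_
    rintro w ⟨hw0, ψ, hψ0, hψ⟩
    obtain ⟨ζ, hζ⟩ := IsAlgClosed.exists_pow_nat_eq w heT0
    have hζ0 : ζ ≠ 0 := by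
      rintro rfl
      rw [zero_pow heT0.ne'] at hζ
      exact hw0 hζ.symm
    let Z : I → (Λ →+* ℂ) := fun i => (ψ : A →+* ℂ).comp (Y i)
    have hZ : ∀ j, ∏ i, Z i (u j) ^ n j i = ψ (yu u n Y j : Aˣ) := fun j =>
      (map_yu u n (ψ : A →+* ℂ) Y j).symm
    have hψu : ∀ (x : Aˣ) (a : ℤ), ψ ((x ^ a : Aˣ) : A) = (ψ (x : A)) ^ a := by
      intro x a
      have h2 : ψ ((x ^ a : Aˣ) : A) = ((Units.map (ψ : A →* ℂ) (x ^ a) : ℂˣ) : ℂ) := rfl
      rw [h2, map_zpow, Units.val_zpow_eq_zpow_val]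
      rfl
    -- the values
    have hval : ∀ i, ψ (yu u n Y i : Aˣ) ^ e' i = C i * (ζ ^ m i) ^ e' i := by
      intro i
      have h1 := congrArg (fun x : Aˣ => ψ (x : A)) (hMA i)
      simp only [Units.val_pow_eq_pow_val, map_pow, Units.val_mul, map_mul, Units.coe_prod, map_prod, hψu] at h1
      rw [h1]
      have h2 : ψ (Units.map (algebraMap E A : E →* A) (ρ' i) : Aˣ) = algebraMap E ℂ (ρ' i) := ψ.commutes _
      rw [h2]
      simp only [C]
      rw [mul_assoc]
      congr 1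
      have h3 : ∏ j, ψ (yu u n Y j : Aˣ) ^ N i j = ∏ j : {j // j ∈ J'}, ψ (yu u n Y j.1 : Aˣ) ^ N i j.1 := by
        rw [← Finset.prod_subtype J' (p := fun j => j ∈ J') (fun _ => Iff.rfl)
          (fun j => ψ (yu u n Y j : Aˣ) ^ N i j)]
        symm
        refine Finset.prod_subset (Finset.subset_univ _) fun j _ hj => ?_
        rw [hN i j hj, zpow_zero]
      rw [h3, ← Finset.mul_prod_erase _ _ (Finset.mem_univ (⟨j₀, hj₀⟩ : {j // j ∈ J'})),
        ← Finset.mul_prod_erase _ (fun j : {j // j ∈ J'} => if j = ⟨j₀, hj₀⟩ then (1 : ℂ) else t j ^ N i j.1)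
          (Finset.mem_univ (⟨j₀, hj₀⟩ : {j // j ∈ J'})), if_pos rfl, one_mul, mul_comm]
      congr 1
      · refine Finset.prod_congr rfl fun j hj => ?_
        rw [if_neg (Finset.ne_of_mem_erase hj)]
        congr 1
        exact hψ j (Finset.ne_of_mem_erase hj)
      · have h4 : ψ (yu u n Y j₀ : Aˣ) = w := hψ0
        change ψ (yu u n Y j₀ : Aˣ) ^ N i j₀ = _
        rw [h4, ← hζ, ← zpow_natCast, ← zpow_natCast, ← zpow_mul, ← zpow_mul]
        congr 1
        simp only [m]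
        rw [hq i]
        push_cast
        ring
    refine ⟨Z, ?_, ?_⟩
    · rw [Set.mem_iUnion₂]
      refine ⟨fun i => ψ (yu u n Y i : Aˣ) / ζ ^ m i, fun i => ?_, ?_, ζ, hζ0, fun j => ?_⟩
      · rw [div_pow, hval, mul_div_cancel_right₀]
        exact pow_ne_zero _ (zpow_ne_zero _ hζ0)
      · refine ⟨fun i l => ?_, fun i i' hi x hx => ?_⟩
        · change ψ (Y i (algebraMap L Λ l)) = _
          rw [hY.1 i l]
          exact ψ.commutes _
        · change ψ (Y i x) = ψ (Y i' x)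
          rw [hY.2 i i' hi x hx]
      · rw [hZ, div_mul_cancel₀]
        exact zpow_ne_zero _ hζ0
    · change ∏ i, Z i (u j₀) ^ n j₀ i = w
      rw [hZ]
      exact hψ0
  obtain ⟨l, e, ρ, he, hle, hls, hlr⟩ := hrel j (by rw [hemp]; simp)
  refine ⟨e, he, ρ, fun n hn => ?_⟩
  obtain ⟨z, hz⟩ := hlr n hn
  refine ⟨z, ?_⟩
  rw [← hz, Finset.prod_eq_single j]
  · rw [hle, zpow_natCast]
  · intro i _ hij
    rw [hls i (by rw [hemp]; simp) hij, zpow_zero]
  · intro h; exact absurd (Finset.mem_univ _) h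

/-- the functions take finitely many values at the families of local points -/
theorem core_values {E : Type*} [Field E] [NumberField E] [Algebra E ℂ]
    {L : Type*} [Field L] {Λ : Type*} [CommRing Λ] [Algebra L Λ]
    {I : Type*} [Fintype I] (s : I → (L →+* E)) (rel : I → I → Prop) (R₀ : Set Λ)
    {J : Type*} [Fintype J] (u : J → Λˣ) (n : J → I → ℤ)
    (g : J → ℕ → Eˣ) (r : J → Eˣ) (ε : Eˣ)
    (hcompat : ∀ i, ∀ n m, 1 ≤ n → 1 ≤ m → ∃ y : Eˣ, g i (n * m) = g i n * y ^ n)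
    (hform : ∀ i, ∀ n, 1 ≤ n → ∃ ζ : Eˣ, IsOfFinOrder ζ ∧ ∃ j : ℤ, ∃ y : Eˣ,
      g i n = r i * (ζ * ε ^ j * y ^ n))
    (TE : Finset (HeightOneSpectrum (𝓞 E)))
    {P : Type*} (W : P → HeightOneSpectrum (𝓞 E)) (hW' : ∀ W₀ ∉ TE, ∃ p, W p = W₀)
    {A : Type*} [CommRing A] [Algebra E A] [Algebra.FiniteType E A]
    (ev : ∀ p, A →ₐ[E] (W p).adicCompletion E) (hev : ∀ a, (∀ p, ev p a = 0) → a = 0)
    (Y : I → (Λ →+* A)) (hY : IsFam s rel R₀ Y)
    (hloc : ∀ p j m, 1 ≤ m → ∃ z : (W p).adicCompletion E,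
      algebraMap E _ (g j m : E) * z ^ m = ev p (yu u n Y j : Aˣ))
    (hfin : ∀ (ρ : J → ℂ) (m : J → ℤ), (∀ j, ρ j ≠ 0) → (ε = 1 → m = 0) →
      {Z : I → (Λ →+* ℂ) | IsFam s rel R₀ Z ∧ ∃ z : ℂ, z ≠ 0 ∧
        ∀ j, ∏ i, Z i (u j) ^ n j i = ρ j * z ^ m j}.Finite) (i₀ : I) (a : Λ) :
    ∃ χ : E[X], χ ≠ 0 ∧ ∀ p, aeval (ev p (Y i₀ a)) χ = 0 := by
  classical
  have hY0 : ∀ p j, ev p (yu u n Y j : Aˣ) ≠ 0 := fun p j => ((yu u n Y j).isUnit.map (ev p)).ne_zero
  choose e he ρ hρ using fun j => core_rational s rel R₀ u n g r ε hcompat hform TE W hW' ev hev Y hY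
    hloc hfin j
  have hpow : ∀ j, (yu u n Y j) ^ e j = Units.map (algebraMap E A : E →* A) (ρ j) := by
    intro j
    ext
    rw [← sub_eq_zero]
    apply hev
    intro p
    rw [map_sub, sub_eq_zero, Units.val_pow_eq_pow_val, map_pow]
    have h2 := ratio_eq TE (g := fun n => g j n ^ e j) (g' := fun _ => 1) (ρ := ρ j) (by
        intro n hn
        obtain ⟨z, hz⟩ := hρ j n hn
        exact ⟨z, by rw [mul_one]; exact hz⟩)
      (W := W p) (Q := (ev p (yu u n Y j : Aˣ)) ^ e j)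
      (pow_ne_zero _ (hY0 p j))
      (one_ne_zero (α := (W p).adicCompletion E))
      (fun n hn => by
        obtain ⟨z, hz⟩ := hloc p j n hn
        refine ⟨z ^ e j, ?_⟩
        rw [← hz, Units.val_pow_eq_pow_val, map_pow, mul_pow, ← pow_mul, ← pow_mul, mul_comm (e j) n])
      (fun n hn => ⟨1, by simp⟩)
    rw [h2, mul_one]
    exact ((ev p).commutes _).symm
  let G : Set (J → ℂ) := {γ | ∀ j, γ j ^ e j = algebraMap E ℂ (ρ j)}
  have hG : G.Finite := by
    refine Set.Finite.pi' (t := fun j => {x : ℂ | x ^ e j = algebraMap E ℂ (ρ j)}) fun j => ?_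
    have h2 : {x : ℂ | x ^ e j = algebraMap E ℂ (ρ j)} ⊆
        ((nthRoots (e j) (algebraMap E ℂ (ρ j))).toFinset : Set ℂ) := by
      intro x hx
      rw [Finset.mem_coe, Multiset.mem_toFinset, mem_nthRoots (he j)]
      exact hx
    exact (Finset.finite_toSet _).subset h2
  have hGfin : (⋃ γ ∈ G, {Z : I → (Λ →+* ℂ) | IsFam s rel R₀ Z ∧ ∃ z : ℂ, z ≠ 0 ∧
      ∀ j, ∏ i, Z i (u j) ^ n j i = γ j * z ^ (0 : J → ℤ) j}).Finite := by
    refine Set.Finite.biUnion hG fun γ hγ => hfin γ 0 (fun j h0 => ?_) (fun h => rfl)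
    have h1 : γ j ^ e j = algebraMap E ℂ (ρ j) := hγ j
    rw [h0, zero_pow (he j).ne'] at h1
    exact (ρ j).ne_zero ((map_eq_zero _).mp h1.symm)
  obtain ⟨χ, hχ0, hχ⟩ := exists_poly_of_finite (E := E) (Y i₀ a) (by
    refine Set.Finite.subset (hGfin.image fun Z => Z i₀ a) ?_
    rintro c ⟨ψ, hψ⟩
    let Z : I → (Λ →+* ℂ) := fun i => (ψ : A →+* ℂ).comp (Y i)
    have hZ : ∀ j, ∏ i, Z i (u j) ^ n j i = ψ (yu u n Y j : Aˣ) := fun j =>
      (map_yu u n (ψ : A →+* ℂ) Y j).symm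
    refine ⟨Z, ?_, hψ⟩
    rw [Set.mem_iUnion₂]
    refine ⟨fun j => ψ (yu u n Y j : Aˣ), fun j => ?_, ⟨fun i l => ?_, fun i i' hi x hx => ?_⟩, 1,
      one_ne_zero, fun j => ?_⟩
    · have h1 := congrArg (fun x : Aˣ => ψ (x : A)) (hpow j)
      simp only [Units.val_pow_eq_pow_val, map_pow] at h1
      rw [h1]
      exact ψ.commutes _
    · change ψ (Y i (algebraMap L Λ l)) = _
      rw [hY.1 i l]
      exact ψ.commutes _
    · change ψ (Y i x) = ψ (Y i' x)
      rw [hY.2 i i' hi x hx]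
    · rw [hZ, one_zpow, mul_one])
  refine ⟨χ, hχ0, fun p => ?_⟩
  rw [aeval_algHom_apply, hχ, map_zero]

end Pool.Agent.Lib.MP_2f3286_ag.GU
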