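import Pool.Agent.Lib.MP_2f3286_ag.GU.Many

/-!
# Units which vanish at the cusps: valuations
-/

open Polynomial

namespace Pool.Agent.Lib.MP_2f3286_ag.GU

/-- a valuation ring over `κ` which does not contain a transcendental element -/
theorem exists_val_notMem {κ L' : Type*} [Field κ] [Field L'] [Algebra κ L'] (y : L') (hy : ¬ IsAlgebraic κ y) :
    ∃ V : ValuationSubring L', (∀ c : κ, algebraMap κ L' c ∈ V) ∧ y ∉ V := by
  have hy0 : y ≠ 0 := by
    rintro rfl
    exact hy isAlgebraic_zero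
  let B : Subalgebra κ L' := Algebra.adjoin κ {y⁻¹}
  let t : B := ⟨y⁻¹, Algebra.subset_adjoin rfl⟩
  have hI : Ideal.span {t} ≠ ⊤ := by
    intro h
    rw [Ideal.eq_top_iff_one, Ideal.mem_span_singleton] at h
    obtain ⟨⟨c, hc⟩, hc'⟩ := h
    have h1 : (1 : L') = y⁻¹ * c := congrArg Subtype.val hc'
    have h2 : c = y := by
      rw [← mul_one y, h1, ← mul_assoc, mul_inv_cancel₀ hy0, one_mul]
    rw [h2] at hc
    have hc1 : y ∈ Algebra.adjoin κ {y⁻¹} := hc
    rw [Algebra.adjoin_singleton_eq_range_aeval] at hc1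
    obtain ⟨P, hP⟩ := hc1
    have hP' : aeval y⁻¹ P = y := hP
    apply hy
    have h3 : aeval y⁻¹ (X * P - 1) = 0 := by
      rw [map_sub, map_mul, aeval_X, hP', map_one, inv_mul_cancel₀ hy0, sub_self]
    have h4 : IsAlgebraic κ y⁻¹ := by
      refine ⟨X * P - 1, ?_, h3⟩
      intro h0
      have h5 := congrArg (fun q : κ[X] => q.coeff 0) h0
      simp at h5
    rw [← inv_inv y]
    exact h4.inv
  obtain ⟨V, hV1, hV2⟩ := Ideal.image_subset_nonunits_valuationSubring (A := B.toSubring) _ hI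
  refine ⟨V, fun c => hV1 (B.algebraMap_mem c), ?_⟩
  have h1 : y⁻¹ ∈ V.nonunits := hV2 ⟨t, Ideal.subset_span rfl, rfl⟩
  rw [V.inv_mem_nonunits_iff] at h1
  exact h1.resolve_left hy0

/-- elements that are algebraic over the constants are in the valuation ring -/
theorem mem_val_of_algebraic {κ L' : Type*} [Field κ] [Field L'] [Algebra κ L'] (V : ValuationSubring L')
    (hV : ∀ c : κ, algebraMap κ L' c ∈ V) (y : L') (hy : IsAlgebraic κ y) : y ∈ V := by
  let f : κ →+* V := (algebraMap κ L').codRestrict V.toSubring hV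
  obtain ⟨P, hP, h⟩ := hy.isIntegral
  have h1 : IsIntegral V y := by
    refine ⟨P.map f, hP.map f, ?_⟩
    rw [eval₂_map]
    exact h
  obtain ⟨z, hz⟩ := (IsIntegrallyClosed.isIntegral_iff (R := V) (K := L')).mp h1
  rw [← hz]
  exact z.2

/-- transport of a valuation ring -/
theorem exists_val_ext {Λ N L' : Type*} [CommRing Λ] [IsDomain Λ] [Field N] [Field L'] (i : Λ →+* N)
    (hi : Function.Injective i) (X : Λ →+* L') (hX : Function.Injective X) (V : ValuationSubring L') :
    ∃ A : ValuationSubring N, (∀ a, X a ∈ V → i a ∈ A) ∧ (∀ a, X a ∉ V → i a ∉ A) ∧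
      ∀ a, i a ∈ A.nonunits → X a ∈ V.nonunits := by
  let KΛ := FractionRing Λ
  let g : KΛ →+* L' := IsFractionRing.lift hX
  let h : KΛ →+* N := IsFractionRing.lift hi
  have hg : ∀ a, g (algebraMap Λ KΛ a) = X a := fun a => IsFractionRing.lift_algebraMap hX a
  have hh : ∀ a, h (algebraMap Λ KΛ a) = i a := fun a => IsFractionRing.lift_algebraMap hi a
  let VK : ValuationSubring KΛ := V.comap g
  obtain ⟨A, hA, hloc⟩ := IsLocalRing.exists_factor_valuationRing (h.comp VK.subtype)
  have hmem : ∀ x : KΛ, g x ∈ V → h x ∈ A := fun x hx => hA ⟨x, hx⟩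
  have hunit : ∀ x : KΛ, g x ∈ V → h x ∈ A → (h x)⁻¹ ∈ A → x ≠ 0 → (g x)⁻¹ ∈ V := by
    intro x hx hx1 hx2 hx0
    have hhx : h x ≠ 0 := (map_ne_zero h).mpr hx0
    have h1 : IsUnit (((h.comp VK.subtype).codRestrict A.toSubring hA) (⟨x, hx⟩ : VK)) := by
      refine IsUnit.of_mul_eq_one (⟨(h x)⁻¹, hx2⟩ : A.toSubring) ?_
      apply Subtype.ext
      exact mul_inv_cancel₀ hhx
    have h2 := hloc.map_nonunit _ h1
    obtain ⟨y, hy⟩ := isUnit_iff_exists_inv.mp h2
    have h3 : x * (y : KΛ) = 1 := congrArg Subtype.val hy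
    have h4 : (g x)⁻¹ = g (y : KΛ) := by
      refine inv_eq_of_mul_eq_one_right ?_
      rw [← map_mul, h3, map_one]
    rw [h4]
    exact y.2
  have hb : ∀ a, X a ∉ V → i a ∉ A := by
    intro a ha hia
    have h0 : X a ≠ 0 := by
      intro h0
      rw [h0] at ha
      exact ha V.zero_mem
    have h1 : (X a)⁻¹ ∈ V := (V.mem_or_inv_mem (X a)).resolve_left ha
    let x : KΛ := (algebraMap Λ KΛ a)⁻¹
    have hx : g x = (X a)⁻¹ := by
      simp only [x]
      rw [map_inv₀, hg]
    have hx' : h x = (i a)⁻¹ := by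
      simp only [x]
      rw [map_inv₀, hh]
    have hx0 : x ≠ 0 := by
      intro h2
      rw [h2, map_zero] at hx
      exact inv_ne_zero h0 hx.symm
    have h3 := hunit x (by rw [hx]; exact h1) (hmem x (by rw [hx]; exact h1)) (by
      rw [hx', inv_inv]; exact hia) hx0
    rw [hx, inv_inv] at h3
    exact ha h3
  refine ⟨A, fun a ha => ?_, hb, fun a ha => ?_⟩
  · have h1 := hmem (algebraMap Λ KΛ a) (by rw [hg]; exact ha)
    rwa [hh] at h1
  · have h1 : i a ∈ A := A.nonunits_le ha
    have h2 : X a ∈ V := by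
      by_contra h3
      exact hb a h3 h1
    rw [ValuationSubring.mem_nonunits_iff_or] at ha ⊢
    by_cases h0 : X a = 0
    · exact Or.inl h0
    refine Or.inr fun h3 => ?_
    have ha0 : a ≠ 0 := by
      rintro rfl
      exact h0 (map_zero X)
    rcases ha with ha | ha
    · exact ha0 (hi (ha.trans (map_zero i).symm))
    · apply ha
      let x : KΛ := (algebraMap Λ KΛ a)⁻¹
      have hx : g x = (X a)⁻¹ := by
        simp only [x]
        rw [map_inv₀, hg]
      have hx' : h x = (i a)⁻¹ := by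
        simp only [x]
        rw [map_inv₀, hh]
      rw [← hx']
      exact hmem x (by rw [hx]; exact h3)

end Pool.Agent.Lib.MP_2f3286_ag.GU
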