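import Pool.Agent.Lib.MP_2f3286_ag.GU.CuspA
import Pool.Agent.Lib.MP_2f3286_ag.PA.UBiv

/-!
# Units which vanish at the cusps: the families of points over a function field are constant
-/

open Polynomial

namespace Pool.Agent.Lib.MP_2f3286_ag.GU

open PA

section rel

variable {L Λ Ω L' : Type*} [Field L] [CommRing Λ] [IsDomain Λ] [Algebra L Λ] [Field Ω] [Field L']
  [Algebra Ω L']

omit [Field Ω] [Field L'] [Algebra Ω L'] in
/-- division of a relation by powers of the second variable -/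
theorem exists_rel_coeff (a p : Λ) (hp : p ≠ 0) (P : L[X][X]) (hP : P ≠ 0)
    (h : biv (algebraMap L Λ) a p P = 0) :
    ∃ Q : L[X][X], Q.coeff 0 ≠ 0 ∧ biv (algebraMap L Λ) a p Q = 0 := by
  induction hn : P.natDegree using Nat.strong_induction_on generalizing P with
  | _ n ih =>
    by_cases h0 : P.coeff 0 = 0
    · have h1 : P.divX * X = P := by
        have h2 := divX_mul_X_add P
        rw [h0, map_zero, add_zero] at h2
        exact h2
      have h2 : P.divX ≠ 0 := by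
        intro h3
        rw [h3, zero_mul] at h1
        exact hP h1.symm
      have h3 : biv (algebraMap L Λ) a p P.divX = 0 := by
        have h4 : biv (algebraMap L Λ) a p P = biv (algebraMap L Λ) a p P.divX * p := by
          conv_lhs => rw [← h1]
          unfold biv
          rw [eval₂_mul, eval₂_X]
        rw [h4] at h
        exact (mul_eq_zero.mp h).resolve_right hp
      have h4 : P.natDegree = P.divX.natDegree + 1 := by
        conv_lhs => rw [← h1]
        exact natDegree_mul_X h2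
      exact ih P.divX.natDegree (by omega) P.divX h2 h3 rfl
    · exact ⟨P, h0, h⟩

theorem injective_of_transcendental (s : L →+* Ω) (Y : Λ →+* L')
    (hY : ∀ l, Y (algebraMap L Λ l) = algebraMap Ω L' (s l))
    (hdep : ∀ a b : Λ, ∃ P : L[X][X], P ≠ 0 ∧ biv (algebraMap L Λ) a b P = 0)
    (a : Λ) (ha : ¬ IsAlgebraic Ω (Y a)) : Function.Injective Y := by
  rw [injective_iff_map_eq_zero]
  intro p hp
  by_contra hp0
  obtain ⟨P, hP, hPa⟩ := hdep a p
  obtain ⟨Q, hQ, hQa⟩ := exists_rel_coeff a p hp0 P hP hPa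
  apply ha
  refine ⟨(Q.coeff 0).map s, (Polynomial.map_ne_zero_iff s.injective).mpr hQ, ?_⟩
  have h1 := congrArg Y hQa
  rw [map_zero, map_biv, hp] at h1
  have h2 : biv (Y.comp (algebraMap L Λ)) (Y a) 0 Q = (Q.coeff 0).eval₂ (Y.comp (algebraMap L Λ)) (Y a) := by
    unfold biv
    rw [eval₂_at_zero]
    rfl
  have h3 : Y.comp (algebraMap L Λ) = (algebraMap Ω L').comp s := RingHom.ext hY
  rw [h2, h3] at h1
  rw [aeval_def, eval₂_map]
  exact h1

theorem not_algebraic_of_transcendental [IsAlgClosed Ω] (s : L →+* Ω) (Y : Λ →+* L')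
    (hY : ∀ l, Y (algebraMap L Λ l) = algebraMap Ω L' (s l))
    (hdep : ∀ a b : Λ, ∃ P : L[X][X], P ≠ 0 ∧ biv (algebraMap L Λ) a b P = 0)
    (a : Λ) (ha : ¬ IsAlgebraic Ω (Y a)) (e : Λ) (he : Transcendental L e) :
    ¬ IsAlgebraic Ω (Y e) := by
  have hinj := injective_of_transcendental s Y hY hdep a ha
  have h3 : Y.comp (algebraMap L Λ) = (algebraMap Ω L').comp s := RingHom.ext hY
  intro halg
  obtain ⟨c, hc⟩ : ∃ c : Ω, algebraMap Ω L' c = Y e := by
    obtain ⟨q, hq, hqz⟩ := halg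
    refine (IsAlgClosed.splits q).mem_range_of_isRoot hq ?_
    rw [IsRoot.def, eval_map_algebraMap]
    exact hqz
  obtain ⟨P, hP, hPa⟩ := hdep e a
  have h1 := congrArg Y hPa
  rw [map_zero, map_biv, h3, ← hc] at h1
  apply ha
  refine ⟨P.map (eval₂RingHom s c), fun h0 => ?_, ?_⟩
  · obtain ⟨n, hn⟩ : ∃ n, P.coeff n ≠ 0 := by
      by_contra hcon
      push Not at hcon
      exact hP (Polynomial.ext fun n => by rw [hcon n, coeff_zero])
    have h4 : (P.coeff n).eval₂ s c = 0 := by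
      have h5 := congrArg (fun q : Polynomial Ω => q.coeff n) h0
      simp only [coeff_map, coeff_zero] at h5
      exact h5
    apply he
    refine ⟨P.coeff n, hn, ?_⟩
    apply hinj
    rw [map_zero, aeval_def, hom_eval₂, h3, ← hc, ← hom_eval₂, h4, map_zero]
  · rw [aeval_def, eval₂_map]
    refine Eq.trans ?_ h1
    unfold biv
    congr 1
    refine Polynomial.ringHom_ext (fun d => ?_) ?_
    · simp
    · simp

end rel

section cusp

variable {L Λ Ω N L' : Type*} [Field L] [CommRing Λ] [IsDomain Λ] [Algebra L Λ] [Field Ω] [IsAlgClosed Ω]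
  [Field N] [Field L'] [Algebra Ω L'] {I J : Type*} [Fintype I]

omit [IsAlgClosed Ω] in
/-- the poles of the functions in `D` for a family of points at a valuation ring -/
theorem exists_cusps (s : I → (L →+* Ω)) (i : Λ →+* N) (hi : Function.Injective i) (D : Set Λ)
    (hdep : ∀ a b : Λ, ∃ P : L[X][X], P ≠ 0 ∧ biv (algebraMap L Λ) a b P = 0)
    (Y : I → (Λ →+* L')) (hY : ∀ i l, Y i (algebraMap L Λ l) = algebraMap Ω L' (s i l))
    (V : ValuationSubring L') (hV : ∀ c : Ω, algebraMap Ω L' c ∈ V) :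
    ∃ C : Finset (ValuationSubring N), C.card ≤ Fintype.card I ∧
      (∀ A ∈ C, (∀ l : L, i (algebraMap L Λ l) ∈ A) ∧ ∃ a ∈ D, i a ∉ A) ∧
      ∀ t, (∃ b ∈ D, Y t b ∉ V) → ∃ A ∈ C, (∀ a, Y t a ∉ V → i a ∉ A) ∧
        ∀ a, i a ∈ A.nonunits → Y t a ∈ V.nonunits := by
  classical
  have hex : ∀ t, (∃ b ∈ D, Y t b ∉ V) → ∃ A : ValuationSubring N, (∀ a, Y t a ∈ V → i a ∈ A) ∧
      (∀ a, Y t a ∉ V → i a ∉ A) ∧ ∀ a, i a ∈ A.nonunits → Y t a ∈ V.nonunits := by
    rintro t ⟨b, -, hb⟩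
    have h1 : ¬ IsAlgebraic Ω (Y t b) := fun h => hb (mem_val_of_algebraic V hV _ h)
    exact exists_val_ext i hi (Y t) (injective_of_transcendental (s t) (Y t) (hY t) hdep b h1) V
  choose A hA1 hA2 hA3 using hex
  let T : Finset I := Finset.univ.filter fun t => ∃ b ∈ D, Y t b ∉ V
  have hT : ∀ t : T, ∃ b ∈ D, Y t b ∉ V := fun t => (Finset.mem_filter.mp t.2).2
  refine ⟨T.attach.image fun t : T => A (t : I) (hT t), ?_, fun A' hA' => ?_, fun t ht => ?_⟩
  · refine Finset.card_image_le.trans ?_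
    rw [Finset.card_attach]
    exact Finset.card_le_univ T
  · rw [Finset.mem_image] at hA'
    obtain ⟨t, -, rfl⟩ := hA'
    refine ⟨fun l => hA1 _ _ _ ?_, ?_⟩
    · rw [hY]; exact hV _
    · obtain ⟨b, hbD, hb⟩ := hT t
      exact ⟨b, hbD, hA2 _ _ _ hb⟩
  · refine ⟨A t ht, ?_, hA2 t ht, hA3 t ht⟩
    rw [Finset.mem_image]
    exact ⟨⟨t, Finset.mem_filter.mpr ⟨Finset.mem_univ _, ht⟩⟩, Finset.mem_attach _ _, rfl⟩

omit [IsAlgClosed Ω] in
theorem val_const_eq_one (V : ValuationSubring L') (hV : ∀ c : Ω, algebraMap Ω L' c ∈ V) (c : Ω)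
    (hc : c ≠ 0) : V.valuation (algebraMap Ω L' c) = 1 := by
  have h1 := (V.valuation_le_one_iff _).mpr (hV c)
  have h2 := (V.valuation_le_one_iff _).mpr (hV c⁻¹)
  rw [map_inv₀, map_inv₀] at h2
  refine le_antisymm h1 ?_
  have h3 : V.valuation (algebraMap Ω L' c) ≠ 0 := by
    rw [Valuation.ne_zero_iff, _root_.map_ne_zero]
    exact hc
  exact (inv_le_one₀ (zero_lt_iff.mpr h3)).mp h2

/-- a family of points over a field, with the products of the units powers of one element, is constant -/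
theorem algebraic_of_cusp (s : I → (L →+* Ω)) (i : Λ →+* N) (hi : Function.Injective i)
    (u : J → Λˣ) (j₀ : J) (hu : Transcendental L (u j₀ : Λ))
    (hdep : ∀ a b : Λ, ∃ P : L[X][X], P ≠ 0 ∧ biv (algebraMap L Λ) a b P = 0) (B : ℕ)
    (hcusp : ∀ C : Finset (ValuationSubring N), C.card ≤ B →
      (∀ A ∈ C, (∀ l : L, i (algebraMap L Λ l) ∈ A) ∧ ∃ j, i (u j) ∉ A) →
      (∃ A ∈ C, i (u j₀) ∉ A) → ∃ j, ∀ A ∈ C, i (u j) ∈ A.nonunits)
    (Y : I → (Λ →+* L')) (hY : ∀ i l, Y i (algebraMap L Λ l) = algebraMap Ω L' (s i l))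
    (ρ : J → Ω) (hρ : ∀ j, ρ j ≠ 0) (m : J → ℤ) (z : L') (hz : z ≠ 0)
    (hprod : ∀ j, ∏ i, Y i (u j) = algebraMap Ω L' (ρ j) * z ^ m j)
    (hcard : (m = 0 ∧ Fintype.card I ≤ B) ∨ 2 * Fintype.card I ≤ B) (i₀ : I) (a : Λ) :
    IsAlgebraic Ω (Y i₀ a) := by
  classical
  by_contra ha
  have he := not_algebraic_of_transcendental (s i₀) (Y i₀) (hY i₀) hdep a ha (u j₀) hu
  obtain ⟨V, hV, hVe⟩ := exists_val_notMem (κ := Ω) (Y i₀ (u j₀)) he
  let D : Set Λ := Set.range fun j => (u j : Λ)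
  have hD : ∀ j, (u j : Λ) ∈ D := fun j => ⟨j, rfl⟩
  have hD' : ∀ A : ValuationSubring N, (∃ a ∈ D, i a ∉ A) → ∃ j, i (u j) ∉ A := by
    rintro A ⟨_, ⟨j, rfl⟩, h⟩
    exact ⟨j, h⟩
  obtain ⟨C, hC1, hC2, hC3⟩ := exists_cusps s i hi D hdep Y hY V hV
  obtain ⟨A₀, hA₀, hA₀', -⟩ := hC3 i₀ ⟨_, hD j₀, hVe⟩
  have hpole : i (u j₀) ∉ A₀ := hA₀' _ hVe
  have hcardI : Fintype.card I ≤ B := by
    rcases hcard with ⟨-, h⟩ | h
    · exact h
    · omega
  -- the products
  have hfac : ∀ (V : ValuationSubring L') (C' : Finset (ValuationSubring N)),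
      (∀ t, (∃ b ∈ D, Y t b ∉ V) → ∃ A ∈ C', (∀ a, Y t a ∉ V → i a ∉ A) ∧
        ∀ a, i a ∈ A.nonunits → Y t a ∈ V.nonunits) → ∀ j, (∀ A ∈ C', i (u j) ∈ A.nonunits) →
      ∀ t, V.valuation (Y t (u j)) ≤ 1 ∧ ((∃ b ∈ D, Y t b ∉ V) → V.valuation (Y t (u j)) < 1) := by
    intro V C' hC' j hj t
    have h1 : (∃ b ∈ D, Y t b ∉ V) → V.valuation (Y t (u j)) < 1 := by
      intro hb
      obtain ⟨A, hA, -, hA2⟩ := hC' t hb
      have h2 := hA2 _ (hj A hA)
      rwa [ValuationSubring.mem_nonunits_iff] at h2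
    refine ⟨?_, h1⟩
    by_cases hb : ∃ b ∈ D, Y t b ∉ V
    · exact (h1 hb).le
    · push Not at hb
      exact (V.valuation_le_one_iff _).mpr (hb _ (hD j))
  have hpr : ∀ (V : ValuationSubring L') (hV : ∀ c : Ω, algebraMap Ω L' c ∈ V) (j : J),
      ∏ t, V.valuation (Y t (u j)) = V.valuation z ^ m j := by
    intro V hV j
    rw [← map_prod, hprod j, map_mul, map_zpow₀, val_const_eq_one V hV _ (hρ j), one_mul]
  have hlt : ∀ j, (∀ A ∈ C, i (u j) ∈ A.nonunits) → V.valuation z ^ m j < 1 := by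
    intro j hj
    rw [← hpr V hV j, ← Finset.mul_prod_erase _ _ (Finset.mem_univ i₀)]
    have h1 := hfac V C hC3 j hj
    have h2 : ∏ t ∈ Finset.univ.erase i₀, V.valuation (Y t (u j)) ≤ 1 :=
      Finset.prod_le_one' fun t _ => (h1 t).1
    exact (mul_le_of_le_one_right' h2).trans_lt ((h1 i₀).2 ⟨_, hD j₀, hVe⟩)
  by_cases hone : m = 0 ∨ V.valuation z = 1
  · obtain ⟨j, hj⟩ := hcusp C (hC1.trans hcardI) (fun A hA => ⟨(hC2 A hA).1, hD' A (hC2 A hA).2⟩)
      ⟨A₀, hA₀, hpole⟩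
    have h1 := hlt j hj
    rcases hone with h | h
    · rw [h, Pi.zero_apply, zpow_zero] at h1
      exact lt_irrefl _ h1
    · rw [h, one_zpow] at h1
      exact lt_irrefl _ h1
  · push Not at hone
    obtain ⟨hm, hz1⟩ := hone
    have hB : 2 * Fintype.card I ≤ B := by
      rcases hcard with ⟨h, -⟩ | h
      · exact absurd h hm
      · exact h
    -- the element `z` or its inverse
    have key : ∀ (z' : L') (m' : J → ℤ), V.valuation z' < 1 → z' ≠ 0 →
        (∀ (V : ValuationSubring L') (j : J), V.valuation z ^ m j = V.valuation z' ^ m' j) → False := by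
      intro z' m' hz' hz0' hzz'
      have htr : ¬ IsAlgebraic Ω z' := by
        intro halg
        have h1 := (V.valuation_le_one_iff _).mpr (mem_val_of_algebraic V hV _ halg.inv)
        rw [map_inv₀] at h1
        have h3 : V.valuation z' ≠ 0 := (Valuation.ne_zero_iff _).mpr hz0'
        exact absurd ((inv_le_one₀ (zero_lt_iff.mpr h3)).mp h1) (not_le.mpr hz')
      obtain ⟨V', hV', hV'z⟩ := exists_val_notMem (κ := Ω) z' htr
      obtain ⟨C', hC1', hC2', hC3'⟩ := exists_cusps s i hi D hdep Y hY V' hV'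
      obtain ⟨j, hj⟩ := hcusp (C ∪ C') ((Finset.card_union_le _ _).trans (by omega)) (fun A hA => by
        rcases Finset.mem_union.mp hA with h | h
        · exact ⟨(hC2 A h).1, hD' A (hC2 A h).2⟩
        · exact ⟨(hC2' A h).1, hD' A (hC2' A h).2⟩) ⟨A₀, Finset.mem_union_left _ hA₀, hpole⟩
      have h1 := hlt j fun A hA => hj A (Finset.mem_union_left _ hA)
      have h2 : V'.valuation z ^ m j ≤ 1 := by
        rw [← hpr V' hV' j]
        exact Finset.prod_le_one' fun t _ =>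
          (hfac V' C' hC3' j (fun A hA => hj A (Finset.mem_union_right _ hA)) t).1
      rw [hzz'] at h1 h2
      have h3 : 1 < V'.valuation z' := by
        rw [← not_le, V'.valuation_le_one_iff]
        exact hV'z
      have hv0 : V.valuation z' ≠ 0 := (Valuation.ne_zero_iff _).mpr hz0'
      have hv0' : V'.valuation z' ≠ 0 := (Valuation.ne_zero_iff _).mpr hz0'
      rcases lt_or_ge 0 (m' j) with h4 | h4
      · obtain ⟨d, hd⟩ := Int.eq_ofNat_of_zero_le h4.le
        rw [hd, zpow_natCast] at h2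
        have hd0 : d ≠ 0 := by
          rintro rfl
          rw [hd] at h4
          exact lt_irrefl _ h4
        exact absurd (one_lt_pow₀ h3 hd0) (not_lt.mpr h2)
      · obtain ⟨d, hd⟩ := Int.eq_ofNat_of_zero_le (neg_nonneg.mpr h4)
        have hd' : m' j = -(d : ℤ) := by omega
        rw [hd', zpow_neg, zpow_natCast] at h1
        have h5 : V.valuation z' ^ d ≤ 1 := pow_le_one' hz'.le d
        have h6 : 0 < V.valuation z' ^ d := zero_lt_iff.mpr (pow_ne_zero _ hv0)
        exact absurd ((one_le_inv₀ h6).mpr h5) (not_le.mpr h1)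
    rcases lt_or_gt_of_ne hz1 with h | h
    · exact key z m h hz fun _ _ => rfl
    · refine key z⁻¹ (fun j => -m j) ?_ (inv_ne_zero hz) fun V j => ?_
      · rw [map_inv₀]
        exact inv_lt_one_of_one_lt₀ h
      · rw [map_inv₀, inv_zpow', neg_neg]

end cusp

end Pool.Agent.Lib.MP_2f3286_ag.GU
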