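import Pool.Agent.Lib.MP_2f3286_ag.GU.CuspB

/-!
# Units which vanish at the cusps: finiteness of the families of points
-/

open Polynomial

namespace Pool.Agent.Lib.MP_2f3286_ag.GU

open PA

/-- finitely many families of complex points with given products of the units, up to powers of one number -/
theorem fin_of_cusp {L Λ N : Type*} [Field L] [CommRing Λ] [IsDomain Λ] [Algebra L Λ]
    [Algebra.FiniteType L Λ] [Field N] {I J : Type*} [Fintype I]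
    (s : I → (L →+* ℂ)) (i : Λ →+* N) (hi : Function.Injective i)
    (u : J → Λˣ) (j₀ : J) (hu : Transcendental L (u j₀ : Λ))
    (hdep : ∀ a b : Λ, ∃ P : L[X][X], P ≠ 0 ∧ biv (algebraMap L Λ) a b P = 0) (B : ℕ)
    (hcusp : ∀ C : Finset (ValuationSubring N), C.card ≤ B →
      (∀ A ∈ C, (∀ l : L, i (algebraMap L Λ l) ∈ A) ∧ ∃ j, i (u j) ∉ A) →
      (∃ A ∈ C, i (u j₀) ∉ A) → ∃ j, ∀ A ∈ C, i (u j) ∈ A.nonunits)
    (ρ : J → ℂ) (hρ : ∀ j, ρ j ≠ 0) (m : J → ℤ)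
    (hcard : (m = 0 ∧ Fintype.card I ≤ B) ∨ 2 * Fintype.card I ≤ B) :
    {Z : I → (Λ →+* ℂ) | (∀ i l, Z i (algebraMap L Λ l) = s i l) ∧ ∃ z : ℂ, z ≠ 0 ∧
      ∀ j, ∏ i, Z i (u j) = ρ j * z ^ m j}.Finite := by
  classical
  obtain ⟨t, ht⟩ := (inferInstance : Algebra.FiniteType L Λ).out
  let 𝒮 := {q : (I → (Λ →+* ℂ)) × ℂ // (∀ i l, q.1 i (algebraMap L Λ l) = s i l) ∧ q.2 ≠ 0 ∧
    ∀ j, ∏ i, q.1 i (u j) = ρ j * q.2 ^ m j}
  let Yi : I → (Λ →+* (𝒮 → ℂ)) := fun i => RingHom.pi fun q => q.1.1 i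
  have hYi : ∀ i a q, Yi i a q = q.1.1 i a := fun _ _ _ => rfl
  let Z : (𝒮 → ℂ)ˣ := Units.mkOfMulEqOne (fun q : 𝒮 => q.1.2) (fun q : 𝒮 => (q.1.2)⁻¹)
    (funext fun q => mul_inv_cancel₀ q.2.2.1)
  have hZ : ∀ (q : 𝒮) (n : ℤ), ((Z ^ n : (𝒮 → ℂ)ˣ) : 𝒮 → ℂ) q = q.1.2 ^ n := by
    intro q n
    have h1 : (Pi.evalMonoidHom (fun _ : 𝒮 => ℂ) q) ((Z ^ n : (𝒮 → ℂ)ˣ) : 𝒮 → ℂ) =
        ((Units.map (Pi.evalMonoidHom (fun _ : 𝒮 => ℂ) q) (Z ^ n) : ℂˣ) : ℂ) := rfl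
    change (Pi.evalMonoidHom (fun _ : 𝒮 => ℂ) q) ((Z ^ n : (𝒮 → ℂ)ˣ) : 𝒮 → ℂ) = _
    rw [h1, map_zpow, Units.val_zpow_eq_zpow_val]
    rfl
  have heq : ∀ j, ∏ i, Yi i (u j) = algebraMap ℂ (𝒮 → ℂ) (ρ j) * ((Z ^ m j : (𝒮 → ℂ)ˣ) : 𝒮 → ℂ) := by
    intro j
    funext q
    rw [Finset.prod_apply, Pi.mul_apply, hZ]
    exact q.2.2.2 j
  have key : ∀ i₀ a, ∃ χ : ℂ[X], χ ≠ 0 ∧ aeval (Yi i₀ a) χ = 0 := by
    intro i₀ a
    refine exists_poly_of_fields (Yi i₀ a) fun L' _ _ π => ?_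
    have h3 : ∀ n : ℤ, π ((Z ^ n : (𝒮 → ℂ)ˣ) : 𝒮 → ℂ) = (π Z) ^ n := by
      intro n
      have h4 : π ((Z ^ n : (𝒮 → ℂ)ˣ) : 𝒮 → ℂ) =
          ((Units.map (π : (𝒮 → ℂ) →* L') (Z ^ n) : L'ˣ) : L') := rfl
      rw [h4, map_zpow, Units.val_zpow_eq_zpow_val]
      rfl
    refine algebraic_of_cusp s i hi u j₀ hu hdep B hcusp
      (fun i => (π : (𝒮 → ℂ) →+* L').comp (Yi i)) (fun i l => ?_) ρ hρ m (π Z)
      ((Z.isUnit.map π).ne_zero) (fun j => ?_) hcard i₀ a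
    · change π (Yi i (algebraMap L Λ l)) = _
      have h1 : Yi i (algebraMap L Λ l) = algebraMap ℂ (𝒮 → ℂ) (s i l) := by
        funext q
        exact q.2.1 i l
      rw [h1, AlgHom.commutes]
    · have h2 := congrArg π (heq j)
      rw [map_prod, map_mul, AlgHom.commutes, h3] at h2
      exact h2
  choose χ hχ0 hχ using key
  refine Set.Finite.of_finite_image (f := fun Z : I → (Λ →+* ℂ) => fun p : I × t => Z p.1 (p.2 : Λ)) ?_ ?_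
  · refine (Set.Finite.pi' fun p : I × t => ((χ p.1 p.2).roots.toFinset.finite_toSet)).subset ?_
    rintro _ ⟨Z, ⟨h1, z, hz, h2⟩, rfl⟩ p
    rw [Finset.mem_coe, Multiset.mem_toFinset, mem_roots (hχ0 _ _), IsRoot.def]
    have h3 := congrFun (hχ p.1 p.2) ⟨(Z, z), h1, hz, h2⟩
    have h4 := aeval_algHom_apply (Pi.evalAlgHom ℂ (fun _ : 𝒮 => ℂ) ⟨(Z, z), h1, hz, h2⟩) (Yi p.1 p.2)
      (χ p.1 p.2)
    rw [← coe_aeval_eq_eval]
    refine Eq.trans h4 h3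
  · rintro Z ⟨h1, -⟩ Z' ⟨h1', -⟩ hZZ
    funext i
    have h2 : ∀ x ∈ Algebra.adjoin L (t : Set Λ), Z i x = Z' i x := by
      intro x hx
      induction hx using Algebra.adjoin_induction with
      | mem x hx => exact congrFun hZZ (i, ⟨x, hx⟩)
      | algebraMap l => rw [h1, h1']
      | add x y _ _ hx hy => rw [map_add, map_add, hx, hy]
      | mul x y _ _ hx hy => rw [map_mul, map_mul, hx, hy]
    exact RingHom.ext fun x => h2 x (by rw [ht]; exact Algebra.mem_top)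

end Pool.Agent.Lib.MP_2f3286_ag.GU
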