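import Pool.Agent.Lib.MP_2f3286_ag.GU.Core

/-!
# Families of local points: the algebra they generate
-/

open IsDedekindDomain NumberField Polynomial

namespace Pool.Agent.Lib.MP_2f3286_ag.GU

open Gen

theorem values_of_families {E : Type*} [Field E] [NumberField E] [Algebra E ℂ]
    {L : Type*} [Field L] {Λ : Type*} [CommRing Λ] [Algebra L Λ] [Algebra.FiniteType L Λ]
    {I : Type*} [Fintype I] (s : I → (L →+* E)) (rel : I → I → Prop) (R₀ : Set Λ)
    {J : Type*} [Fintype J] (u : J → Λˣ) (n : J → I → ℤ)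
    (g : J → ℕ → Eˣ) (r : J → Eˣ) (ε : Eˣ)
    (hcompat : ∀ i, ∀ n m, 1 ≤ n → 1 ≤ m → ∃ y : Eˣ, g i (n * m) = g i n * y ^ n)
    (hform : ∀ i, ∀ n, 1 ≤ n → ∃ ζ : Eˣ, IsOfFinOrder ζ ∧ ∃ j : ℤ, ∃ y : Eˣ,
      g i n = r i * (ζ * ε ^ j * y ^ n))
    (TE : Finset (HeightOneSpectrum (𝓞 E)))
    {P : Type*} (W : P → HeightOneSpectrum (𝓞 E)) (hW' : ∀ W₀ ∉ TE, ∃ p, W p = W₀)
    (X : ∀ p, I → (Λ →+* (W p).adicCompletion E)) (hX : ∀ p, IsFam s rel R₀ (X p))
    (hloc : ∀ p j m, 1 ≤ m → ∃ z : (W p).adicCompletion E,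
      algebraMap E _ (g j m : E) * z ^ m = ∏ i, X p i (u j) ^ n j i)
    (hfin : ∀ (ρ : J → ℂ) (m : J → ℤ), (∀ j, ρ j ≠ 0) → (ε = 1 → m = 0) →
      {Z : I → (Λ →+* ℂ) | IsFam s rel R₀ Z ∧ ∃ z : ℂ, z ≠ 0 ∧
        ∀ j, ∏ i, Z i (u j) ^ n j i = ρ j * z ^ m j}.Finite) (i₀ : I) (a : Λ) :
    ∃ χ : E[X], χ ≠ 0 ∧ ∀ p, aeval (X p i₀ a) χ = 0 := by
  classical
  obtain ⟨t, ht⟩ := (inferInstance : Algebra.FiniteType L Λ).out
  let X' : I → (Λ →+* (∀ p, (W p).adicCompletion E)) := fun i => RingHom.pi fun p => X p i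
  have hX' : ∀ i x p, X' i x p = X p i x := fun i x p => rfl
  let G : Finset (∀ p, (W p).adicCompletion E) := (Finset.univ ×ˢ t).image fun q => X' q.1 q.2
  let A : Subalgebra E (∀ p, (W p).adicCompletion E) := Algebra.adjoin E (G : Set (∀ p, (W p).adicCompletion E))
  have hAf : Algebra.FiniteType E A := by
    rw [← Subalgebra.fg_iff_finiteType]
    exact ⟨G, rfl⟩
  have hmem : ∀ i x, X' i x ∈ A := by
    intro i x
    have h1 : x ∈ Algebra.adjoin L (t : Set Λ) := by rw [ht]; exact Algebra.mem_top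
    induction h1 using Algebra.adjoin_induction with
    | mem x hx =>
      refine Algebra.subset_adjoin ?_
      rw [Finset.mem_coe, Finset.mem_image]
      exact ⟨(i, x), Finset.mem_product.mpr ⟨Finset.mem_univ _, hx⟩, rfl⟩
    | algebraMap l =>
      have h2 : X' i (algebraMap L Λ l) = algebraMap E (∀ p, (W p).adicCompletion E) (s i l) := by
        funext p
        rw [hX', (hX p).1 i l]
        rfl
      rw [h2]
      exact A.algebraMap_mem _
    | add x y _ _ hx hy => rw [map_add]; exact add_mem hx hy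
    | mul x y _ _ hx hy => rw [map_mul]; exact mul_mem hx hy
  let Y : I → (Λ →+* A) := fun i => (X' i).codRestrict A (hmem i)
  let ev : ∀ p, A →ₐ[E] (W p).adicCompletion E := fun p =>
    (Pi.evalAlgHom E (fun p => (W p).adicCompletion E) p).comp A.val
  have hev : ∀ a, (∀ p, ev p a = 0) → a = 0 := by
    intro a ha
    apply Subtype.ext
    funext p
    exact ha p
  have hevY : ∀ p i x, ev p (Y i x) = X p i x := fun p i x => rfl
  obtain ⟨χ, hχ0, hχ⟩ := core_values s rel R₀ u n g r ε hcompat hform TE W hW' ev hev Y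
    ⟨fun i l => by
      apply Subtype.ext
      funext p
      exact (hX p).1 i l, fun i i' hi x hx => by
      apply Subtype.ext
      funext p
      exact (hX p).2 i i' hi x hx⟩
    (fun p j m hm => by
      obtain ⟨z, hz⟩ := hloc p j m hm
      refine ⟨z, ?_⟩
      rw [hz]
      exact (map_yu u n (ev p : A →+* (W p).adicCompletion E) Y j).symm) hfin i₀ a
  exact ⟨χ, hχ0, fun p => hχ p⟩

end Pool.Agent.Lib.MP_2f3286_ag.GU
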