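import Pool.Agent.Lib.MP_2f3286_ag.GU.Alpha
import Pool.Agent.Lib.MP_2f3286_ag.GU.Prod
import Pool.Agent.Lib.MP_2f3286_ag.NormPoly

/-!
# Functions take finitely many values at the local points of a section, if there are enough units
-/

open IsDedekindDomain NumberField Polynomial
open scoped TensorProduct

namespace Pool.Agent.Lib.MP_2f3286_ag.GU

universe u w₁

/-- reduction to an algebraic base `ε` -/
theorem exists_algebraic_base {L : Type*} [Field L] [NumberField L] {J : Type*}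
    (Sg : Finset (L →+* ℂ)) (n : J → (L →+* ℂ) → ℤ) (ε : ℂ) (hε : ε ≠ 0) (U : Set Lˣ)
    (hchar : ∀ e ∈ U, ∀ j, ∃ ζ : ℂ, (∃ m : ℕ, 0 < m ∧ ζ ^ m = 1) ∧ ∃ m : ℤ,
      ∏ σ ∈ Sg, σ (e : L) ^ n j σ = ζ * ε ^ m)
    (Q : (J → ℂ) → (J → ℤ) → Prop)
    (hfin : ∀ (ρ : J → ℂ) (m : J → ℤ), (∀ j, ρ j ≠ 0) → (ε = 1 → m = 0) → Q ρ m) :
    ∃ ε' : ℂ, ε' ≠ 0 ∧ IsAlgebraic ℚ ε' ∧
      (∀ e ∈ U, ∀ j, ∃ ζ : ℂ, (∃ m : ℕ, 0 < m ∧ ζ ^ m = 1) ∧ ∃ m : ℤ,
        ∏ σ ∈ Sg, σ (e : L) ^ n j σ = ζ * ε' ^ m) ∧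
      ∀ (ρ : J → ℂ) (m : J → ℤ), (∀ j, ρ j ≠ 0) → (ε' = 1 → m = 0) → Q ρ m := by
  by_cases halg : IsAlgebraic ℚ ε
  · exact ⟨ε, hε, halg, hchar, hfin⟩
  · have hε1 : ε ≠ 1 := by
      rintro rfl
      exact halg isAlgebraic_one
    refine ⟨1, one_ne_zero, isAlgebraic_one, fun e he j => ?_, fun ρ m hρ _ => hfin ρ m hρ
      fun h => absurd h hε1⟩
    obtain ⟨ζ, ⟨a, ha, haζ⟩, m, hm⟩ := hchar e he j
    have hζ0 : ζ ≠ 0 := by
      rintro rfl
      rw [zero_pow ha.ne'] at haζ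
      exact zero_ne_one haζ
    have h1 : IsAlgebraic ℚ (∏ σ ∈ Sg, σ (e : L) ^ n j σ) := by
      have h2 : ∏ σ ∈ Sg, σ (e : L) ^ n j σ ∈ algebraicClosure ℚ ℂ := by
        refine prod_mem fun σ _ => zpow_mem ?_ _
        rw [mem_algebraicClosure_iff]
        exact IsAlgebraic.algHom σ.toRatAlgHom (Algebra.IsAlgebraic.isAlgebraic (R := ℚ) (e : L))
      exact mem_algebraicClosure_iff.mp h2
    have h3 : IsAlgebraic ℚ ζ := IsAlgebraic.of_pow ha (by rw [haζ]; exact isAlgebraic_one)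
    have h4 : IsAlgebraic ℚ (ε ^ m) := by
      have h5 : ε ^ m = (∏ σ ∈ Sg, σ (e : L) ^ n j σ) * ζ⁻¹ := by
        rw [hm, mul_comm ζ, mul_assoc, mul_inv_cancel₀ hζ0, mul_one]
      rw [h5]
      exact h1.mul h3.inv
    have hm0 : m = 0 := by
      by_contra hm0
      apply halg
      rcases Int.lt_or_gt_of_ne hm0 with h | h
      · have h6 : IsAlgebraic ℚ (ε ^ m.natAbs) := by
          have h7 : ε ^ m.natAbs = (ε ^ m)⁻¹ := by
            rw [← zpow_natCast, ← zpow_neg]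
            congr 1
            omega
          rw [h7]; exact h4.inv
        exact IsAlgebraic.of_pow (Int.natAbs_pos.mpr hm0) h6
      · have h6 : IsAlgebraic ℚ (ε ^ m.natAbs) := by
          have h7 : ε ^ m.natAbs = ε ^ m := by
            rw [← zpow_natCast]
            congr 1
            omega
          rw [h7]; exact h4
        exact IsAlgebraic.of_pow (Int.natAbs_pos.mpr hm0) h6
    refine ⟨ζ, ⟨a, ha, haζ⟩, 0, ?_⟩
    rw [hm, hm0, zpow_zero, zpow_zero]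

/-- families of complex points, one for each of the embeddings in `Sg`, depending only on the restriction to `k` -/
def CFam (k : Type*) [Field k] {L : Type*} [Field L] [Algebra k L] (R : Type*) [CommRing R] [Algebra k R]
    (Sg : Finset (L →+* ℂ)) (X : Sg → (L ⊗[k] R →+* ℂ)) : Prop :=
  (∀ (σ : Sg) (l : L), X σ (l ⊗ₜ 1) = (σ : L →+* ℂ) l) ∧
  ∀ σ σ' : Sg, (∀ a : k, (σ : L →+* ℂ) (algebraMap k L a) = (σ' : L →+* ℂ) (algebraMap k L a)) →
    ∀ r : R, X σ (1 ⊗ₜ r) = X σ' (1 ⊗ₜ r)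

theorem values_finite {k : Type u} [Field k] [NumberField k]
    {K : Type*} [Field K] [Algebra k K] (R : Subalgebra k K) (hfg : R.FG)
    {M : Type*} [Field M] [Algebra K M] [Algebra (AlgebraicClosure k) M] [Algebra k M]
    [IsScalarTower k K M] [IsScalarTower k (AlgebraicClosure k) M]
    {L : Type w₁} [Field L] [NumberField L] [Algebra k L]
    (lam : L →ₐ[k] AlgebraicClosure k)
    (S : Finset (HeightOneSpectrum (𝓞 k)))
    {ι₀ : Type*} [Fintype ι₀] (p : ι₀ → Rˣ)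
    {J : Type*} [Fintype J] (u : J → (L ⊗[k] R)ˣ)
    (hint₁ : ∀ j, IsIntOver k (Algebra.TensorProduct.includeRight : R →ₐ[k] L ⊗[k] R).toRingHom p
      (u j : L ⊗[k] R))
    (hint₂ : ∀ j, IsIntOver k (Algebra.TensorProduct.includeRight : R →ₐ[k] L ⊗[k] R).toRingHom p
      (((u j)⁻¹ : (L ⊗[k] R)ˣ) : L ⊗[k] R))
    (Sg : Finset (L →+* ℂ)) (n : J → (L →+* ℂ) → ℤ) (ε : ℂ) (hε : ε ≠ 0)
    (hchar : ∀ e : Lˣ, (∀ w : HeightOneSpectrum (𝓞 L), (∀ v ∈ S, ¬ w.asIdeal.LiesOver v.asIdeal) →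
      w.valuation L (e : L) = 1) → ∀ j, ∃ ζ : ℂ, (∃ m : ℕ, 0 < m ∧ ζ ^ m = 1) ∧ ∃ m : ℤ,
        ∏ σ ∈ Sg, σ (e : L) ^ n j σ = ζ * ε ^ m)
    (hfin : ∀ (ρ : J → ℂ) (m : J → ℤ), (∀ j, ρ j ≠ 0) → (ε = 1 → m = 0) →
      {X : Sg → (L ⊗[k] R →+* ℂ) | CFam k R Sg X ∧ ∃ z : ℂ, z ≠ 0 ∧
        ∀ j, ∏ σ : Sg, X σ (u j) ^ n j σ = ρ j * z ^ m j}.Finite)
    (s : Gal(AlgebraicClosure k/k) →* Gal(M/K)) (hs : Continuous s)
    (hsec : ∀ σ a, s σ (algebraMap (AlgebraicClosure k) M a) =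
      algebraMap (AlgebraicClosure k) M (σ a))
    (ι : ∀ v : {v : HeightOneSpectrum (𝓞 k) // v ∉ S},
      AlgebraicClosure k →ₐ[k] AlgebraicClosure (v.1.adicCompletion k))
    (φ : ∀ v : {v : HeightOneSpectrum (𝓞 k) // v ∉ S},
      integralClosure R M →+* AlgebraicClosure (v.1.adicCompletion k))
    (hφ : ∀ v, Respects s (v.1.adicCompletion k)
      (ι v : _ →+* AlgebraicClosure (v.1.adicCompletion k)) (φ v))
    (x : ∀ v : {v : HeightOneSpectrum (𝓞 k) // v ∉ S}, R →ₐ[k] v.1.adicCompletion k)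
    (hx : ∀ v r, algebraMap _ (AlgebraicClosure (v.1.adicCompletion k)) (x v r) =
      φ v (algebraMap R (integralClosure R M) r))
    (hproots : ∀ i, ∀ n : ℕ, 1 ≤ n → ∃ b : M, b ^ n = algebraMap R M (p i))
    (hroots : ∀ j, ∀ n : ℕ, 1 ≤ n → ∃ b : M, b ^ n = toM R lam (u j : L ⊗[k] R))
    (T : Finset (HeightOneSpectrum (𝓞 k))) (N : ℕ) (hN : 1 ≤ N)
    (hcont : ∀ v, v.1 ∉ T → ∀ i, ∀ y z : v.1.adicCompletion k,
      φ v (algebraMap R (integralClosure R M) (p i)) = algebraMap _ _ y →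
      Valued.v y = Valued.v z ^ N → Valued.v y = 1)
    (hSg : Sg.Nonempty) (f : R) :
    ∃ (S' : Finset (HeightOneSpectrum (𝓞 k))) (χ : k[X]), S ⊆ S' ∧ χ ≠ 0 ∧
      ∀ v (hv : v ∉ S), v ∉ S' → aeval (x ⟨v, hv⟩ f) χ = 0 := by
  classical
  have halg : Algebra.IsAlgebraic k L := Algebra.IsAlgebraic.tower_top (K := ℚ) k
  have hLfin : FiniteDimensional k L := Module.Finite.of_restrictScalars_finite ℚ k L
  obtain ⟨G, hcompat, hG₁, hG₂⟩ := exists_classes_units.{u, w₁, 0} R lam u hroots s hs hsec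
  obtain ⟨α, hα⟩ := exists_alpha_L R lam S p u hint₁ hint₂ s hs hsec ι φ hφ x hx hproots T N hN hcont
    G hcompat hG₁
  -- the set of `S`-units
  set U : Set Lˣ := {e | ∀ w : HeightOneSpectrum (𝓞 L), (∀ v ∈ S, ¬ w.asIdeal.LiesOver v.asIdeal) →
      w.valuation L (e : L) = 1} with hU
  obtain ⟨ε', hε'0, hε'alg, hchar', hfin'⟩ := exists_algebraic_base Sg n ε hε U
    (fun e he => hchar e he) (fun ρ m => {X : Sg → (L ⊗[k] R →+* ℂ) | CFam k R Sg X ∧ ∃ z : ℂ, z ≠ 0 ∧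
        ∀ j, ∏ σ : Sg, X σ (u j) ^ n j σ = ρ j * z ^ m j}.Finite) hfin
  -- the number field `E`
  let E₀ : IntermediateField ℚ ℂ := ⨆ σ ∈ Sg, (σ.toRatAlgHom : L →ₐ[ℚ] ℂ).fieldRange
  let E : IntermediateField ℚ ℂ := E₀ ⊔ IntermediateField.adjoin ℚ {ε'}
  have hfd : ∀ σ : L →+* ℂ, FiniteDimensional ℚ (σ.toRatAlgHom : L →ₐ[ℚ] ℂ).fieldRange := fun σ =>
    LinearEquiv.finiteDimensional (AlgEquiv.ofInjectiveField (σ.toRatAlgHom : L →ₐ[ℚ] ℂ)).toLinearEquiv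
  have hE₀ : FiniteDimensional ℚ E₀ := IntermediateField.finiteDimensional_iSup_of_finset
  have hEε : FiniteDimensional ℚ (IntermediateField.adjoin ℚ {ε'}) :=
    IntermediateField.adjoin.finiteDimensional hε'alg.isIntegral
  have hEfin : FiniteDimensional ℚ E := IntermediateField.finiteDimensional_sup _ _
  have hEnf : NumberField E := ⟨⟩
  have hmemσ : ∀ (σ : Sg) (l : L), (σ : L →+* ℂ) l ∈ E := by
    intro σ l
    have h1 : ((σ : L →+* ℂ).toRatAlgHom : L →ₐ[ℚ] ℂ).fieldRange ≤ E₀ :=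
      le_iSup₂_of_le (σ : L →+* ℂ) σ.2 le_rfl
    exact (le_sup_left : E₀ ≤ E) (h1 ⟨l, rfl⟩)
  have hmemε : ε' ∈ E := (le_sup_right : IntermediateField.adjoin ℚ {ε'} ≤ E)
    (IntermediateField.mem_adjoin_simple_self ℚ ε')
  let sE : Sg → (L →+* E) := fun σ => (σ : L →+* ℂ).codRestrict E (hmemσ σ)
  have hsE : ∀ σ l, ((sE σ l : E) : ℂ) = (σ : L →+* ℂ) l := fun σ l => rfl
  let εE : Eˣ := Units.mk0 ⟨ε', hmemε⟩ (fun h => hε'0 (congrArg Subtype.val h))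
  have hεE : ((εE : E) : ℂ) = ε' := rfl
  let n' : J → Sg → ℤ := fun j σ => n j σ
  -- the classes
  let nm : J → (Lˣ →* Eˣ) := fun j =>
    { toFun := fun a => ∏ σ : Sg, Units.map (sE σ : L →* E) a ^ n' j σ
      map_one' := by simp
      map_mul' := fun a b => by
        simp only [map_mul, mul_zpow, Finset.prod_mul_distrib] }
  have hnm : ∀ j a, nm j a = ∏ σ : Sg, Units.map (sE σ : L →* E) a ^ n' j σ := fun j a => rfl
  let g : J → ℕ → Eˣ := fun j m => nm j (G j m)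
  let r : J → Eˣ := fun j => nm j (α j)
  have hgcompat : ∀ j a b, 1 ≤ a → 1 ≤ b → ∃ y : Eˣ, g j (a * b) = g j a * y ^ a := by
    intro j a b ha hb
    obtain ⟨w, hw⟩ := hcompat j a b ha hb
    exact ⟨nm j w, by simp only [g]; rw [hw, map_mul, map_pow]⟩
  have hgform : ∀ j a, 1 ≤ a → ∃ ζ : Eˣ, IsOfFinOrder ζ ∧ ∃ m : ℤ, ∃ y : Eˣ,
      g j a = r j * (ζ * εE ^ m * y ^ a) := by
    intro j a ha
    obtain ⟨e, he, β, hβ⟩ := hα j a ha
    have heU : e ∈ U := by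
      intro w hw
      rw [Places.mem_Γ] at he
      have hwS : w ∉ (finite_above (F := L) S).toFinset := by
        rw [Set.Finite.mem_toFinset]
        rintro ⟨v, hv, hl⟩
        exact hw v hv hl
      have h1 : w.valuation L (e : L) ≤ 1 := he.1 w hwS
      have h2 : w.valuation L ((e⁻¹ : Lˣ) : L) ≤ 1 := he.2 w hwS
      refine le_antisymm h1 ?_
      have h3 : w.valuation L (e : L) * w.valuation L ((e⁻¹ : Lˣ) : L) = 1 := by
        rw [← map_mul, Units.mul_inv, map_one]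
      rw [← h3]
      exact mul_le_of_le_one_right' h2
    obtain ⟨ζ, ⟨b, hb, hζ⟩, m, hm⟩ := hchar' e heU j
    have h4 : (((nm j e : Eˣ) : E) : ℂ) = ζ * ε' ^ m := by
      rw [← hm, hnm, Units.coe_prod]
      refine Eq.trans ?_ (Finset.prod_coe_sort Sg fun σ => σ (e : L) ^ n j σ)
      refine (map_prod (algebraMap E ℂ) _ _).trans ?_
      refine Finset.prod_congr rfl fun σ _ => ?_
      rw [Units.val_zpow_eq_zpow_val, map_zpow₀]
      rfl
    refine ⟨nm j e * (εE ^ m)⁻¹, ?_, m, nm j β, ?_⟩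
    · rw [isOfFinOrder_iff_pow_eq_one]
      refine ⟨b, hb, ?_⟩
      apply Units.ext
      apply Subtype.ext
      change algebraMap E ℂ (((nm j e * (εE ^ m)⁻¹) ^ b : Eˣ) : E) = 1
      rw [Units.val_pow_eq_pow_val, map_pow, Units.val_mul, map_mul]
      have h5 : algebraMap E ℂ (nm j e : Eˣ) = ζ * ε' ^ m := h4
      have h6 : algebraMap E ℂ (((εE ^ m)⁻¹ : Eˣ) : E) = (ε' ^ m)⁻¹ := by
        rw [Units.val_inv_eq_inv_val, map_inv₀, Units.val_zpow_eq_zpow_val, map_zpow₀]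
        rfl
      rw [h5, h6, mul_assoc, mul_inv_cancel₀ (zpow_ne_zero m hε'0), mul_one, hζ]
    · simp only [g, r]
      rw [hβ, map_mul, map_mul, map_pow, inv_mul_cancel_right, mul_assoc]
  -- the places
  choose bq hbq using exists_below (L := ℚ) (F := k)
  let Sq : Finset (HeightOneSpectrum (𝓞 ℚ)) := S.image bq
  let TE : Finset (HeightOneSpectrum (𝓞 E)) := (finite_above (L := ℚ) (F := E) Sq).toFinset
  let S' : Finset (HeightOneSpectrum (𝓞 k)) := (finite_above (L := ℚ) (F := k) Sq).toFinset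
  have hSS' : S ⊆ S' := by
    intro v hv
    rw [Set.Finite.mem_toFinset]
    exact ⟨bq v, Finset.mem_image_of_mem _ hv, hbq v⟩
  choose p₀ hp₀ hp₀' using fun (W : HeightOneSpectrum (𝓞 E)) (τ : k →+* E) =>
    exists_place_below (F := ℚ) (τ.toRatAlgHom) W
  have hp₀S : ∀ W ∉ TE, ∀ τ, (p₀ W τ).1 ∉ S := by
    intro W hW τ hS
    apply hW
    rw [Set.Finite.mem_toFinset]
    exact ⟨bq (p₀ W τ).1, Finset.mem_image_of_mem _ hS, hp₀' W τ _ (hbq _)⟩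
  let P := {q : Σ W : HeightOneSpectrum (𝓞 E), ((k →+* E) →
    Σ v : HeightOneSpectrum (𝓞 k), (v.adicCompletion k →+* W.adicCompletion E)) //
      ∀ τ, (q.2 τ).1 ∉ S ∧ ∀ a : k, (q.2 τ).2 (algebraMap k _ a) = algebraMap E _ (τ a)}
  let W : P → HeightOneSpectrum (𝓞 E) := fun q => q.1.1
  let val : ∀ (q : P) (τ : k →+* E), R →+* (W q).adicCompletion E := fun q τ =>
    (q.1.2 τ).2.comp (x ⟨(q.1.2 τ).1, (q.2 τ).1⟩ : R →+* (q.1.2 τ).1.adicCompletion k)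
  have hvalk : ∀ q τ (a : k), val q τ (algebraMap k R a) = algebraMap E _ (τ a) := by
    intro q τ a
    rw [← (q.2 τ).2 a]
    exact congrArg (q.1.2 τ).2 ((x ⟨(q.1.2 τ).1, (q.2 τ).1⟩).commutes a)
  let τE : Sg → (k →+* E) := fun σ => (sE σ).comp (algebraMap k L)
  choose X hX1 hX2 using fun (q : P) (σ : Sg) =>
    exists_tensor_hom (k := k) (R := R) ((algebraMap E ((W q).adicCompletion E)).comp (sE σ))
      (val q (τE σ)) (fun a => (hvalk q (τE σ) a).symm)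
  let rel : Sg → Sg → Prop := fun σ σ' => τE σ = τE σ'
  let R₀ : Set (L ⊗[k] R) := Set.range fun r : R => ((1 : L) ⊗ₜ[k] r)
  have hL1 : ∀ l : L, algebraMap L (L ⊗[k] R) l = l ⊗ₜ 1 := fun l => rfl
  have hXfam : ∀ q, IsFam sE rel R₀ (X q) := by
    intro q
    refine ⟨fun σ l => ?_, fun σ σ' hσ t ht => ?_⟩
    · rw [hL1, hX1]
      rfl
    · obtain ⟨r, rfl⟩ := ht
      have h1 : τE σ = τE σ' := hσ
      beta_reduce
      rw [hX2, hX2, h1]
  have hft : Algebra.FiniteType k R := (Subalgebra.fg_iff_finiteType R).mp hfg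
  have hftL : Algebra.FiniteType L (L ⊗[k] R) := inferInstance
  have hcl : ∀ (q : P) (σ : Sg) j m, 1 ≤ m → ∃ z : (W q).adicCompletion E,
      algebraMap E _ (sE σ (G j m)) * z ^ m = X q σ (u j) := by
    intro q σ j m hm
    have : CharZero ((W q).adicCompletion E) := charZero_of_injective_algebraMap
      (algebraMap E ((W q).adicCompletion E)).injective
    let v := (q.1.2 (τE σ)).1
    have hv : v ∉ S := (q.2 (τE σ)).1
    obtain ⟨ι', φ', h1, h2, h3⟩ := exists_pair_E R lam s hsec v (ι ⟨v, hv⟩) (φ ⟨v, hv⟩)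
      (hφ _) (x ⟨v, hv⟩) (hx _) ((algebraMap E ((W q).adicCompletion E)).comp (sE σ))
      (q.1.2 (τE σ)).2 (fun a => (q.2 (τE σ)).2 a)
    exact hG₂ ((W q).adicCompletion E) ((algebraMap E ((W q).adicCompletion E)).comp (sE σ))
      (val q (τE σ)) ι' φ' h1 h2 h3 (X q σ) (hX1 q σ) (hX2 q σ) j m hm
  obtain ⟨i₀, hi₀⟩ := hSg
  obtain ⟨χ, hχ0, hχ⟩ := values_of_families (L := L) (Λ := L ⊗[k] R) sE rel R₀ u n' g r εE hgcompat
    hgform TE W (fun W₀ hW₀ => ⟨⟨⟨W₀, p₀ W₀⟩, fun τ => ⟨hp₀S W₀ hW₀ τ, hp₀ W₀ τ⟩⟩, rfl⟩)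
    X hXfam (fun q j m hm => by
      choose z hz using fun σ => hcl q σ j m hm
      refine ⟨∏ σ, z σ ^ n' j σ, ?_⟩
      have h1 : ((g j m : Eˣ) : E) = ∏ σ : Sg, (sE σ (G j m : L)) ^ n' j σ := by
        simp only [g]
        rw [hnm, Units.coe_prod]
        refine Finset.prod_congr rfl fun σ _ => ?_
        rw [Units.val_zpow_eq_zpow_val]
        rfl
      rw [h1, map_prod, ← Finset.prod_pow, ← Finset.prod_mul_distrib]
      refine Finset.prod_congr rfl fun σ _ => ?_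
      rw [← hz σ, map_zpow₀, mul_zpow, ← zpow_natCast, ← zpow_natCast, ← zpow_mul, ← zpow_mul,
        mul_comm (m : ℤ)])
    (fun ρ m hρ hm => by
      refine (hfin' ρ m hρ (fun h => hm ?_)).subset ?_
      · apply Units.ext
        apply Subtype.ext
        exact h
      · rintro Z ⟨⟨hZ1, hZ2⟩, hZ3⟩
        refine ⟨⟨fun σ l => ?_, fun σ σ' h r => ?_⟩, hZ3⟩
        · rw [← hL1, hZ1]
          rfl
        · refine hZ2 σ σ' ?_ _ ⟨r, rfl⟩
          refine RingHom.ext fun a => ?_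
          apply Subtype.ext
          exact h a)
    ⟨i₀, hi₀⟩ (1 ⊗ₜ f)
  let τ₀ : k →+* E := τE ⟨i₀, hi₀⟩
  let _ : Algebra k E := τ₀.toAlgebra
  obtain ⟨P', hP'0, hP'⟩ := exists_ground_poly (k := k) hχ0
  refine ⟨S', P', hSS', hP'0, fun v hv hvS' => ?_⟩
  obtain ⟨W₁, j₀, hj₀, hW₁⟩ := exists_place_above (F := ℚ) (E := E) v
  have hW₁T : W₁ ∉ TE := by
    intro h
    apply hvS'
    rw [Set.Finite.mem_toFinset] at h ⊢
    obtain ⟨w, hw, hl⟩ := h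
    exact ⟨w, hw, hW₁ w hl⟩
  let c : (k →+* E) → Σ v : HeightOneSpectrum (𝓞 k), (v.adicCompletion k →+* W₁.adicCompletion E) :=
    Function.update (p₀ W₁) τ₀ ⟨v, j₀⟩
  have hcτ₀ : c τ₀ = ⟨v, j₀⟩ := Function.update_self _ _ _
  have hc : ∀ τ, (c τ).1 ∉ S ∧ ∀ a : k, (c τ).2 (algebraMap k _ a) = algebraMap E _ (τ a) := by
    intro τ
    by_cases h : τ = τ₀
    · subst h
      rw [hcτ₀]
      exact ⟨hv, hj₀⟩
    · have h1 : c τ = p₀ W₁ τ := Function.update_of_ne h _ _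
      rw [h1]
      exact ⟨hp₀S W₁ hW₁T τ, hp₀ W₁ τ⟩
  let q : P := ⟨⟨W₁, c⟩, hc⟩
  have h1 := hχ q
  have h2 : X q ⟨i₀, hi₀⟩ (1 ⊗ₜ f) = j₀ (x ⟨v, hv⟩ f) := by
    rw [hX2]
    have key : ∀ (d : Σ v : HeightOneSpectrum (𝓞 k), (v.adicCompletion k →+* W₁.adicCompletion E))
        (hd : d.1 ∉ S), d = ⟨v, j₀⟩ → d.2 (x ⟨d.1, hd⟩ f) = j₀ (x ⟨v, hv⟩ f) := by
      rintro d hd rfl
      rfl
    exact key (c τ₀) (hc τ₀).1 hcτ₀
  rw [h2, aeval_def] at h1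
  have h3 := hP' _ (algebraMap E (W₁.adicCompletion E)) _ h1
  apply j₀.injective
  rw [map_zero, aeval_def, hom_eval₂]
  have h5 : j₀.comp (algebraMap k (v.adicCompletion k)) =
      (algebraMap E (W₁.adicCompletion E)).comp (algebraMap k E) :=
    RingHom.ext fun a => hj₀ a
  rw [h5]
  exact h3

end Pool.Agent.Lib.MP_2f3286_ag.GU
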