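import Pool.Agent.Lib.MP_2f3286_ag.Val
import Pool.Agent.Lib.MP_2f3286_ag.NormStage

/-!
# Kummer classes of a locally geometric section along units defined over a finite extension
-/

open IsDedekindDomain NumberField IntermediateField
open scoped TensorProduct

namespace Pool.Agent.Lib.MP_2f3286_ag.GU

section classes

variable {k K M kb : Type*} [Field k] [Field kb] [Algebra k kb] [IsGalois k kb]
  [Field K] [Field M] [Algebra K M] [Algebra kb M]

theorem exists_classes_L [IsAlgClosed kb] (s : Gal(kb/k) →* Gal(M/K)) (hs : Continuous s)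
    (hsec : ∀ σ a, s σ (algebraMap kb M a) = algebraMap kb M (σ a)) (L : IntermediateField k kb)
    [FiniteDimensional k L] {J : Type*} (U : J → M) (hU0 : ∀ j, U j ≠ 0) (T : J → ℕ → M)
    (hT : ∀ i n, 1 ≤ n → T i n ^ n = U i)
    (hT' : ∀ i n m, 1 ≤ n → 1 ≤ m → T i (n * m) ^ m = T i n)
    (hTalg : ∀ i n, 1 ≤ n → IsIntegral K (T i n))
    (hfix : ∀ σ ∈ L.fixingSubgroup, ∀ j, s σ (U j) = U j) :
    ∃ (z : J → ℕ → kbˣ) (e : J → ℕ → Lˣ), (∀ i n, 1 ≤ n → (z i n : kb) ^ n = algebraMap L kb (e i n)) ∧
      (∀ i n, 1 ≤ n → ∀ σ ∈ L.fixingSubgroup, ∀ ζ : kb, s σ (T i n) = algebraMap kb M ζ * T i n →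
        σ (z i n) = ζ * z i n) ∧
      (∀ i n, 1 ≤ n → ∀ σ ∈ L.fixingSubgroup, ∃ ζ : kb, s σ (T i n) = algebraMap kb M ζ * T i n) ∧
      ∀ i n m, 1 ≤ n → 1 ≤ m → ∃ w : Lˣ, e i (n * m) = e i n * w ^ n := by
  classical
  have hT0 : ∀ i n, 1 ≤ n → T i n ≠ 0 := by
    intro i n hn h
    have := hT i n hn
    rw [h, zero_pow (by omega)] at this
    exact hU0 i this.symm
  have hk := fun i n (hn : 1 ≤ n) => exists_kummer_L s hs hsec L (hT0 i n hn) (hTalg i n hn) hn
    (fun σ hσ => by rw [hT i n hn]; exact hfix σ hσ i)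
  choose! z e hz he using hk
  have hex : ∀ i n, 1 ≤ n → ∀ σ ∈ L.fixingSubgroup, ∃ ζ : kb, s σ (T i n) = algebraMap kb M ζ * T i n := by
    intro i n hn σ hσ
    have h2 : (s σ (T i n) / T i n) ^ n = 1 := by
      rw [div_pow, ← map_pow, hT i n hn, hfix σ hσ i, div_self (hU0 i)]
    obtain ⟨c, hc⟩ := root_of_unity_mem kb M hn h2
    exact ⟨c, by rw [hc, div_mul_cancel₀ _ (hT0 i n hn)]⟩
  refine ⟨z, e, hz, he, hex, fun i n m hn hm => ?_⟩
  have hnm : 1 ≤ n * m := Nat.mul_pos hn hm
  have h1 : ((z i (n * m) : kb) ^ m / z i n) ∈ L := by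
    apply mem_of_fixed_L
    intro σ hσ
    obtain ⟨ζ, hζ⟩ := hex i (n * m) hnm σ hσ
    have h2 := he i (n * m) hnm σ hσ ζ hζ
    have h3 : s σ (T i n) = algebraMap kb M (ζ ^ m) * T i n := by
      rw [← hT' i n m hn hm, map_pow, hζ, mul_pow, map_pow]
    have h4 := he i n hn σ hσ _ h3
    have hζ0 : ζ ≠ 0 := by
      rintro rfl
      rw [zero_mul] at h2
      exact (z i (n * m)).ne_zero ((map_eq_zero _).mp h2)
    rw [map_div₀, map_pow, h2, h4, mul_pow, mul_div_mul_left _ _ (pow_ne_zero m hζ0)]
  have hw0 : (⟨_, h1⟩ : L) ≠ 0 := by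
    intro h
    have h2 := congrArg Subtype.val h
    exact (div_ne_zero (pow_ne_zero m (z i (n * m)).ne_zero) (z i n).ne_zero) h2
  refine ⟨Units.mk0 ⟨_, h1⟩ hw0, ?_⟩
  ext
  change algebraMap L kb (e i (n * m)) = algebraMap L kb (e i n) * ((z i (n * m) : kb) ^ m / z i n) ^ n
  rw [← hz i (n * m) hnm, ← hz i n hn, div_pow, mul_div_cancel₀ _ (pow_ne_zero n (z i n).ne_zero), ← pow_mul,
    mul_comm m n]

end classes

section points

universe u

variable {k : Type u} [Field k] [NumberField k]
    {K : Type*} [Field K] [Algebra k K]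
    (R : Subalgebra k K)
    {M : Type*} [Field M] [Algebra K M]
    [Algebra (AlgebraicClosure k) M] [Algebra k M]
    [IsScalarTower k K M] [IsScalarTower k (AlgebraicClosure k) M]
    {L : Type*} [Field L] [Algebra k L]

/-- the functions on `U` over `L` as elements of `M` -/
noncomputable def toM (lam : L →ₐ[k] AlgebraicClosure k) : L ⊗[k] R →ₐ[k] M :=
  Algebra.TensorProduct.lift ((IsScalarTower.toAlgHom k (AlgebraicClosure k) M).comp lam)
    ((IsScalarTower.toAlgHom k K M).comp R.val) fun _ _ => Commute.all _ _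

omit [NumberField k] in
theorem toM_tmul (lam : L →ₐ[k] AlgebraicClosure k) (l : L) (r : R) :
    toM R (M := M) lam (l ⊗ₜ r) = algebraMap (AlgebraicClosure k) M (lam l) * algebraMap R M r := by
  rw [toM, Algebra.TensorProduct.lift_tmul]
  rfl

omit [NumberField k] in
theorem toM_integral (lam : L →ₐ[k] AlgebraicClosure k) (t : L ⊗[k] R) :
    IsIntegral R (toM R (M := M) lam t) := by
  have hBk : ∀ a : AlgebraicClosure k, IsIntegral R (algebraMap (AlgebraicClosure k) M a) := by
    intro a
    have htow' : IsScalarTower k R M := IsScalarTower.of_algebraMap_eq fun x => by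
      rw [IsScalarTower.algebraMap_apply k K M]; rfl
    have h1 : IsIntegral k a := Algebra.IsIntegral.isIntegral a
    have h2 : IsIntegral k (algebraMap (AlgebraicClosure k) M a) := h1.algebraMap
    exact h2.tower_top
  induction t using TensorProduct.induction_on with
  | zero => rw [map_zero]; exact isIntegral_zero
  | tmul l r => rw [toM_tmul]; exact (hBk _).mul isIntegral_algebraMap
  | add x y hx hy => rw [map_add]; exact hx.add hy

/-- the functions on `U` over `L` as elements of the integral closure -/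
noncomputable def toB (lam : L →ₐ[k] AlgebraicClosure k) : L ⊗[k] R →+* integralClosure R M :=
  (toM R (M := M) lam : L ⊗[k] R →+* M).codRestrict (integralClosure R M) (toM_integral R lam)

omit [NumberField k] in
theorem toB_coe (lam : L →ₐ[k] AlgebraicClosure k) (t : L ⊗[k] R) :
    ((toB R (M := M) lam t : integralClosure R M) : M) = toM R lam t := rfl

omit [Algebra k M] [IsScalarTower k K M] [IsScalarTower k (AlgebraicClosure k) M] in
/-- transport of a local point to a place of a number field over an embedding, with the relation to the given local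
point -/
theorem exists_pair_E' (lam : L →ₐ[k] AlgebraicClosure k)
    (s : Gal(AlgebraicClosure k/k) →* Gal(M/K))
    (hsec : ∀ σ a, s σ (algebraMap (AlgebraicClosure k) M a) =
      algebraMap (AlgebraicClosure k) M (σ a))
    (v : HeightOneSpectrum (𝓞 k))
    (ι : AlgebraicClosure k →ₐ[k] AlgebraicClosure (v.adicCompletion k))
    (φ : integralClosure R M →+* AlgebraicClosure (v.adicCompletion k))
    (hφ : Respects s (v.adicCompletion k) (ι : _ →+* AlgebraicClosure (v.adicCompletion k)) φ)
    (x : R →ₐ[k] v.adicCompletion k)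
    (hx : ∀ r, algebraMap _ (AlgebraicClosure (v.adicCompletion k)) (x r) =
        φ (algebraMap R (integralClosure R M) r))
    {F : Type*} [Field F] [CharZero F] (σ : L →+* F) (θ : v.adicCompletion k →+* F)
    (hθ : ∀ a : k, θ (algebraMap k (v.adicCompletion k) a) = σ (algebraMap k L a))
    [Algebra.IsAlgebraic k L] :
    ∃ (ι' : AlgebraicClosure k →+* AlgebraicClosure F)
      (φ' : integralClosure R M →+* AlgebraicClosure F),
      Respects s F ι' φ' ∧ (∀ l, ι' (lam l) = algebraMap F _ (σ l)) ∧
      (∀ r, φ' (algebraMap R (integralClosure R M) r) = algebraMap F _ (θ (x r))) ∧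
      ∃ (j : AlgebraicClosure (v.adicCompletion k) →+* AlgebraicClosure F)
        (ρ : Gal(AlgebraicClosure k/k)), (∀ a, ι' a = j (ι (ρ a))) ∧
        ∀ b b' : integralClosure R M, (b' : M) = s ρ b → φ' b = j (φ b') := by
  have : CharZero (v.adicCompletion k) := charZero_of_injective_algebraMap
    (algebraMap k (v.adicCompletion k)).injective
  let _ : Algebra (v.adicCompletion k) F := θ.toAlgebra
  let j : AlgebraicClosure (v.adicCompletion k) →ₐ[v.adicCompletion k] AlgebraicClosure F :=
    IsAlgClosed.lift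
  have hj : ∀ a : v.adicCompletion k, j (algebraMap _ _ a) = algebraMap F (AlgebraicClosure F) (θ a) := by
    intro a
    rw [AlgHom.commutes]
    rfl
  -- the embedding of the algebraic closure over `L`
  let _ : Algebra L (AlgebraicClosure k) := (lam : L →+* AlgebraicClosure k).toAlgebra
  let _ : Algebra L (AlgebraicClosure F) := ((algebraMap F (AlgebraicClosure F)).comp σ).toAlgebra
  have _ : IsScalarTower k L (AlgebraicClosure k) :=
    IsScalarTower.of_algebraMap_eq fun a => (lam.commutes a).symm
  have : Algebra.IsAlgebraic L (AlgebraicClosure k) := Algebra.IsAlgebraic.tower_top (K := k) L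
  let ι'' : AlgebraicClosure k →ₐ[L] AlgebraicClosure F := IsAlgClosed.lift
  have hι'' : ∀ l : L, ι'' (lam l) = algebraMap F (AlgebraicClosure F) (σ l) := fun l => ι''.commutes l
  obtain ⟨ρ, hρ⟩ := exists_aut_of_embeddings (k := k)
    ((j : _ →+* AlgebraicClosure F).comp (ι : AlgebraicClosure k →+* AlgebraicClosure (v.adicCompletion k)))
    (ι'' : AlgebraicClosure k →+* _) (by
      intro a
      change j (ι (algebraMap k _ a)) = ι'' (algebraMap k _ a)
      rw [ι.commutes, IsScalarTower.algebraMap_apply k (v.adicCompletion k)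
        (AlgebraicClosure (v.adicCompletion k)), hj, hθ, ← hι'', lam.commutes])
  have hρ' : ∀ x, j (ι (ρ x)) = ι'' x := hρ
  have hBs : ∀ σ, ∀ b ∈ integralClosure R M, s σ b ∈ integralClosure R M := by
    intro σ b hb
    exact hb.map (((s σ).toAlgHom.restrictScalars R : M →ₐ[R] M))
  have h1 := Resp.translate (B := integralClosure R M) hsec hBs hφ ρ
  let φ₁ : integralClosure R M →+* AlgebraicClosure (v.adicCompletion k) :=
    φ.comp ((s ρ : M →+* M).restrict (integralClosure R M) (integralClosure R M) (hBs ρ))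
  refine ⟨ι'', (j : _ →+* AlgebraicClosure F).comp φ₁, ⟨?_, ?_⟩, hι'', fun r => ?_,
    (j : AlgebraicClosure (v.adicCompletion k) →+* AlgebraicClosure F), ρ, fun a => (hρ' a).symm,
    fun b b' hb => ?_⟩
  · intro a b hab
    change j (φ₁ b) = ι'' a
    rw [← hρ', h1.1 a b hab]
    rfl
  · intro σ' τ hστ b b' hb
    obtain ⟨τ', hτ'⟩ := exists_restrict' (k := v.adicCompletion k)
      (j : AlgebraicClosure (v.adicCompletion k) →+* AlgebraicClosure F)
      (τ : AlgebraicClosure F →+* AlgebraicClosure F) (by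
      intro a
      change τ (j (algebraMap _ _ a)) = j (algebraMap _ _ a)
      rw [hj, AlgEquiv.commutes])
    have h2 : ∀ a, ((ι : AlgebraicClosure k →+* _).comp (ρ : AlgebraicClosure k →+* AlgebraicClosure k)) (σ' a) =
        τ' (((ι : AlgebraicClosure k →+* _).comp (ρ : AlgebraicClosure k →+* AlgebraicClosure k)) a) := by
      intro a
      apply (j : AlgebraicClosure (v.adicCompletion k) →+* AlgebraicClosure F).injective
      have h3 : j (ι (ρ (σ' a))) = τ (j (ι (ρ a))) := by
        rw [hρ', hρ']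
        exact hστ a
      exact h3.trans (hτ' (ι (ρ a))).symm
    have h4 := h1.2 σ' τ' h2 b b' hb
    change j (φ₁ b') = τ (j (φ₁ b))
    rw [h4]
    exact hτ' (φ₁ b)
  · change j (φ₁ (algebraMap R (integralClosure R M) r)) = _
    have h2 : φ₁ (algebraMap R (integralClosure R M) r) = φ (algebraMap R (integralClosure R M) r) := by
      change φ _ = _
      congr 1
      apply Subtype.ext
      exact AlgEquiv.commutes (s ρ) (r : K)
    rw [h2, ← hx, hj]
  · change j (φ _) = j (φ b')
    congr 2
    exact Subtype.ext hb.symm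

omit [Algebra k M] [IsScalarTower k K M] [IsScalarTower k (AlgebraicClosure k) M] in
/-- transport of a local point to a place of a number field over an embedding -/
theorem exists_pair_E (lam : L →ₐ[k] AlgebraicClosure k)
    (s : Gal(AlgebraicClosure k/k) →* Gal(M/K))
    (hsec : ∀ σ a, s σ (algebraMap (AlgebraicClosure k) M a) =
      algebraMap (AlgebraicClosure k) M (σ a))
    (v : HeightOneSpectrum (𝓞 k))
    (ι : AlgebraicClosure k →ₐ[k] AlgebraicClosure (v.adicCompletion k))
    (φ : integralClosure R M →+* AlgebraicClosure (v.adicCompletion k))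
    (hφ : Respects s (v.adicCompletion k) (ι : _ →+* AlgebraicClosure (v.adicCompletion k)) φ)
    (x : R →ₐ[k] v.adicCompletion k)
    (hx : ∀ r, algebraMap _ (AlgebraicClosure (v.adicCompletion k)) (x r) =
        φ (algebraMap R (integralClosure R M) r))
    {F : Type*} [Field F] [CharZero F] (σ : L →+* F) (θ : v.adicCompletion k →+* F)
    (hθ : ∀ a : k, θ (algebraMap k (v.adicCompletion k) a) = σ (algebraMap k L a))
    [Algebra.IsAlgebraic k L] :
    ∃ (ι' : AlgebraicClosure k →+* AlgebraicClosure F)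
      (φ' : integralClosure R M →+* AlgebraicClosure F),
      Respects s F ι' φ' ∧ (∀ l, ι' (lam l) = algebraMap F _ (σ l)) ∧
      ∀ r, φ' (algebraMap R (integralClosure R M) r) = algebraMap F _ (θ (x r)) := by
  obtain ⟨ι', φ', h1, h2, h3, -⟩ := exists_pair_E' R lam s hsec v ι φ hφ x hx σ θ hθ
  exact ⟨ι', φ', h1, h2, h3⟩

omit [NumberField k] in
/-- the local values of functions over `L` -/
theorem eval_eq (lam : L →ₐ[k] AlgebraicClosure k) {F : Type*} [Field F] (σ : L →+* F) (y : R →+* F)
    {ι' : AlgebraicClosure k →+* AlgebraicClosure F} {φ' : integralClosure R M →+* AlgebraicClosure F}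
    (hφ' : ∀ (a : AlgebraicClosure k) (b : integralClosure R M),
      (b : M) = algebraMap (AlgebraicClosure k) M a → φ' b = ι' a)
    (hσ : ∀ l, ι' (lam l) = algebraMap F _ (σ l))
    (hy : ∀ r, φ' (algebraMap R (integralClosure R M) r) = algebraMap F _ (y r))
    (X : L ⊗[k] R →+* F) (hX1 : ∀ l, X (l ⊗ₜ 1) = σ l) (hX2 : ∀ r, X (1 ⊗ₜ r) = y r) (t : L ⊗[k] R) :
    algebraMap F (AlgebraicClosure F) (X t) = φ' (toB R lam t) := by
  have hBk : ∀ a : AlgebraicClosure k, IsIntegral R (algebraMap (AlgebraicClosure k) M a) := by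
    intro a
    have htow' : IsScalarTower k R M := IsScalarTower.of_algebraMap_eq fun x => by
      rw [IsScalarTower.algebraMap_apply k K M]; rfl
    have h1 : IsIntegral k a := Algebra.IsIntegral.isIntegral a
    have h2 : IsIntegral k (algebraMap (AlgebraicClosure k) M a) := h1.algebraMap
    exact h2.tower_top
  induction t using TensorProduct.induction_on with
  | zero => rw [map_zero, map_zero, map_zero, map_zero]
  | tmul l r =>
    have h1 : (l ⊗ₜ r : L ⊗[k] R) = (l ⊗ₜ 1) * (1 ⊗ₜ r) := by
      rw [Algebra.TensorProduct.tmul_mul_tmul, mul_one, one_mul]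
    rw [h1, map_mul, map_mul, hX1, hX2, map_mul, map_mul, ← hσ, ← hy]
    congr 1
    · refine (hφ' (lam l) _ ?_).symm
      rw [toB_coe, toM_tmul, map_one, mul_one]
    · congr 1
      apply Subtype.ext
      rw [toB_coe, toM_tmul, map_one, map_one, one_mul]
      rfl
  | add x y hx hy => rw [map_add, map_add, map_add, map_add, hx, hy]

end points

end Pool.Agent.Lib.MP_2f3286_ag.GU
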