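import Pool.Agent.Lib.MP_2f3286_ag.GU.CuspC
import Pool.Agent.Lib.MP_2f3286_ag.GU.UMain
import Pool.Agent.Lib.MP_2f3286_ag.PA.Cls

/-!
# Units which vanish at the cusps: the functions take finitely many values at the local points
-/

open IsDedekindDomain NumberField Polynomial

namespace Pool.Agent.Lib.MP_2f3286_ag.GU

open PA

universe u w w₁ w₂

/-- a homomorphism with values in a subfield -/
theorem exists_factor {Λ F F' : Type*} [CommRing Λ] [Field F] [Field F'] [Algebra F F'] (g : Λ →+* F')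
    (h : ∀ a, ∃ y : F, algebraMap F F' y = g a) : ∃ X : Λ →+* F, ∀ a, algebraMap F F' (X a) = g a := by
  choose X hX using h
  have hinj := (algebraMap F F').injective
  refine ⟨{ toFun := X
            map_one' := hinj (by rw [hX, map_one, map_one])
            map_zero' := hinj (by rw [hX, map_zero, map_zero])
            map_add' := fun a b => hinj (by rw [hX, map_add, map_add, hX, hX])
            map_mul' := fun a b => hinj (by rw [hX, map_mul, map_mul, hX, hX]) }, hX⟩

section

variable {k : Type u} [Field k]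
    {K : Type*} [Field K] [Algebra k K]
    (R : Subalgebra k K)
    {M : Type*} [Field M] [Algebra K M]
    [Algebra (AlgebraicClosure k) M]

/-- The classes `G n` of the unit `e` give its values at all points at which the section comes from
a point. -/
def ClsAt (L : IntermediateField k (AlgebraicClosure k))
    (s : Gal(AlgebraicClosure k/k) →* Gal(M/K)) (e : integralClosure R M) (G : ℕ → Lˣ)
    (F : Type w) [Field F] : Prop :=
  ∀ (σ : L →+* F) (ι' : AlgebraicClosure k →+* AlgebraicClosure F)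
    (φ' : integralClosure R M →+* AlgebraicClosure F),
    Respects s F ι' φ' → (∀ l : L, ι' (l : AlgebraicClosure k) = algebraMap F _ (σ l)) →
    ∀ n, 1 ≤ n → ∃ h : F, φ' e = algebraMap F (AlgebraicClosure F) (σ (G n : L) * h ^ n)

variable [NumberField k] [Algebra k M]
    [IsScalarTower k K M] [IsScalarTower k (AlgebraicClosure k) M]

theorem clsAt_of_data (s : Gal(AlgebraicClosure k/k) →* Gal(M/K))
    (L : IntermediateField k (AlgebraicClosure k))
    (e : integralClosure R M) (T : ℕ → M) (hTn : ∀ n, 1 ≤ n → T n ^ n = (e : M))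
    (hTint : ∀ n, 1 ≤ n → IsIntegral R (T n)) (z : ℕ → (AlgebraicClosure k)ˣ) (g : ℕ → Lˣ)
    (hz : ∀ n, 1 ≤ n → (z n : AlgebraicClosure k) ^ n = algebraMap L _ (g n))
    (hzσ : ∀ n, 1 ≤ n → ∀ σ ∈ L.fixingSubgroup, ∀ ζ : AlgebraicClosure k,
      s σ (T n) = algebraMap (AlgebraicClosure k) M ζ * T n → σ (z n) = ζ * z n)
    (hζ : ∀ n, 1 ≤ n → ∀ σ ∈ L.fixingSubgroup, ∃ ζ : AlgebraicClosure k,
      s σ (T n) = algebraMap (AlgebraicClosure k) M ζ * T n)
    (F : Type w) [Field F] [CharZero F] : ClsAt R L s e g F := by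
  intro σ ι' φ' hres hι n hn
  have hL : ∀ x : L, ∃ y : F, algebraMap F (AlgebraicClosure F) y = ι' x := fun x => ⟨σ x, (hι x).symm⟩
  obtain ⟨w, hw⟩ := quot_mem (B := integralClosure R M) s (fun a => const_int R a) hres L hL
    ⟨T n, hTint n hn⟩ (hζ n hn) (z n) (hzσ n hn)
  refine ⟨w, ?_⟩
  have hz0 : ι' (z n) ≠ 0 := by
    rw [_root_.map_ne_zero]; exact (z n).ne_zero
  have h1 : φ' e = φ' ⟨T n, hTint n hn⟩ ^ n := by
    rw [← map_pow]
    congr 1
    apply Subtype.ext
    exact (hTn n hn).symm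
  have h2 : φ' ⟨T n, hTint n hn⟩ = algebraMap F (AlgebraicClosure F) w * ι' (z n) := by
    rw [hw, div_mul_cancel₀ _ hz0]
  have h3 : ι' (z n) ^ n = algebraMap F (AlgebraicClosure F) (σ (g n : L)) := by
    rw [← map_pow, hz n hn, ← hι]
    rfl
  rw [h1, h2, mul_pow, h3, map_mul, map_pow, mul_comm]

theorem exists_clsAt (s : Gal(AlgebraicClosure k/k) →* Gal(M/K)) (hs : Continuous s)
    (hsec : ∀ σ a, s σ (algebraMap (AlgebraicClosure k) M a) =
      algebraMap (AlgebraicClosure k) M (σ a))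
    (L : IntermediateField k (AlgebraicClosure k)) [FiniteDimensional k L]
    (e : integralClosure R M) (he0 : (e : M) ≠ 0)
    (hroots : ∀ n : ℕ, 1 ≤ n → ∃ b : M, b ^ n = (e : M))
    (hfix : ∀ σ ∈ L.fixingSubgroup, s σ (e : M) = e) :
    ∃ G : ℕ → Lˣ, (∀ n m, 1 ≤ n → 1 ≤ m → ∃ y : Lˣ, G (n * m) = G n * y ^ n) ∧
      (∀ (F : Type w₁) [Field F] [CharZero F], ClsAt R L s e G F) ∧
      ∀ (F : Type w₂) [Field F] [CharZero F], ClsAt R L s e G F := by
  classical
  obtain ⟨T, hT1, hTn, hTc⟩ := exists_roots_compatible hroots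
  have hTint : ∀ n, 1 ≤ n → IsIntegral R (T n) := fun n hn =>
    IsIntegral.of_pow hn (by rw [hTn n hn]; exact e.2)
  obtain ⟨z, g, hz, hzσ, hζ, hcompat⟩ := GU.exists_classes_L s hs hsec L
    (fun _ : Unit => (e : M)) (fun _ => he0) (fun _ => T) (fun _ => hTn) (fun _ => hTc)
    (fun _ n hn => (hTint n hn).tower_top) (fun σ hσ _ => hfix σ hσ)
  exact ⟨g (), fun n m hn hm => hcompat () n m hn hm,
    fun F _ _ => clsAt_of_data R s L e T hTn hTint (z ()) (g ()) (hz ()) (hzσ ()) (hζ ()) F,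
    fun F _ _ => clsAt_of_data R s L e T hTn hTint (z ()) (g ()) (hz ()) (hzσ ()) (hζ ()) F⟩

end

end Pool.Agent.Lib.MP_2f3286_ag.GU
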