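import Pool.Agent.Lib.MP_2f3286_ag.GU.CuspD

/-!
# Units which vanish at the cusps: finitely many values at the local points
-/

open IsDedekindDomain NumberField Polynomial

namespace Pool.Agent.Lib.MP_2f3286_ag.GU

open PA

universe u

theorem cusp_chi {k : Type u} [Field k] [NumberField k]
    {K : Type*} [Field K] [Algebra k K] (R : Subalgebra k K)
    {M : Type*} [Field M] [Algebra K M] [Algebra (AlgebraicClosure k) M] [Algebra k M]
    [IsScalarTower k K M] [IsScalarTower k (AlgebraicClosure k) M]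
    (s : Gal(AlgebraicClosure k/k) →* Gal(M/K))
    (hsec : ∀ σ a, s σ (algebraMap (AlgebraicClosure k) M a) =
      algebraMap (AlgebraicClosure k) M (σ a))
    (S : Finset (HeightOneSpectrum (𝓞 k)))
    (ι : ∀ v : {v : HeightOneSpectrum (𝓞 k) // v ∉ S},
      AlgebraicClosure k →ₐ[k] AlgebraicClosure (v.1.adicCompletion k))
    (φ : ∀ v : {v : HeightOneSpectrum (𝓞 k) // v ∉ S},
      integralClosure R M →+* AlgebraicClosure (v.1.adicCompletion k))
    (hφ : ∀ v, Respects s (v.1.adicCompletion k)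
      (ι v : _ →+* AlgebraicClosure (v.1.adicCompletion k)) (φ v))
    (x : ∀ v : {v : HeightOneSpectrum (𝓞 k) // v ∉ S}, R →ₐ[k] v.1.adicCompletion k)
    (hx : ∀ v r, algebraMap _ (AlgebraicClosure (v.1.adicCompletion k)) (x v r) =
      φ v (algebraMap R (integralClosure R M) r))
    (L : IntermediateField k (AlgebraicClosure k)) [FiniteDimensional k L] [NumberField L]
    {F : Type*} [Field F] [NumberField F] [Algebra F L] (S₀ : Finset (HeightOneSpectrum (𝓞 F)))
    (hS : ∀ W : HeightOneSpectrum (𝓞 L), (∃ v ∈ S, W.asIdeal.LiesOver v.asIdeal) →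
      ∃ w ∈ S₀, W.asIdeal.LiesOver w.asIdeal)
    (hm : Fintype.card (InfinitePlace F) + S₀.card ≤ 2)
    {J : Type*} [Fintype J] (e e' : J → integralClosure R M) (hee' : ∀ j, (e j : M) * e' j = 1)
    (j₀ : J) (htr : Transcendental k (e j₀ : M))
    (hdep : ∀ a b : M, IsIntegral R a → IsIntegral R b →
      ∃ P : k[X][X], P ≠ 0 ∧ biv (algebraMap k M) a b P = 0)
    (hcusp : ∀ C : Finset (ValuationSubring M),
      C.card ≤ (Fintype.card (InfinitePlace F) + S₀.card) * Module.finrank F L →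
      (∀ A ∈ C, (∀ a : AlgebraicClosure k, algebraMap _ M a ∈ A) ∧ ∃ j, (e j : M) ∉ A) →
      (∃ A ∈ C, (e j₀ : M) ∉ A) → ∃ j, ∀ A ∈ C, (e j : M) ∈ A.nonunits)
    (G : J → ℕ → Lˣ)
    (hcompat : ∀ j n m, 1 ≤ n → 1 ≤ m → ∃ y : Lˣ, G j (n * m) = G j n * y ^ n)
    (hG : ∀ (F : Type) [Field F] [CharZero F], ∀ j, ClsAt R L s (e j) (G j) F)
    (α : J → Lˣ) (hα : ∀ j n, 1 ≤ n → ∃ ε ∈ (placesOf (finite_above (F := L) S).toFinset).Γ,
      ∃ β : Lˣ, G j n = α j * ε * β ^ n) (f : R) :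
    ∃ (S' : Finset (HeightOneSpectrum (𝓞 k))) (χ : k[X]), S ⊆ S' ∧ χ ≠ 0 ∧
      ∀ v (hv : v ∉ S), v ∉ S' → aeval (x ⟨v, hv⟩ f) χ = 0 := by
  classical
  have halgkL : Algebra.IsAlgebraic k L := Algebra.IsAlgebraic.of_finite k L
  obtain ⟨τ⟩ : Nonempty (F →+* ℂ) := inferInstance
  let _ : Algebra F ℂ := τ.toAlgebra
  have hLF : FiniteDimensional F L := Module.Finite.of_restrictScalars_finite ℚ F L
  have hLA : Algebra.IsAlgebraic F L := Algebra.IsAlgebraic.of_finite F L
  let I := L →ₐ[F] ℂ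
  have hcardI : Fintype.card I = Module.finrank F L := AlgHom.card F L ℂ
  obtain ⟨i₀⟩ : Nonempty I := ⟨IsAlgClosed.lift⟩
  obtain ⟨ε, hε1, hε⟩ := exists_gen S₀ hm
  -- the number field `E`
  let E : IntermediateField ℚ ℂ := ⨆ σ : I, ((σ : L →+* ℂ).toRatAlgHom : L →ₐ[ℚ] ℂ).fieldRange
  have hfd : ∀ σ : I, FiniteDimensional ℚ ((σ : L →+* ℂ).toRatAlgHom : L →ₐ[ℚ] ℂ).fieldRange := fun σ =>
    LinearEquiv.finiteDimensional
      (AlgEquiv.ofInjectiveField ((σ : L →+* ℂ).toRatAlgHom : L →ₐ[ℚ] ℂ)).toLinearEquiv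
  have hEfin : FiniteDimensional ℚ E := IntermediateField.finiteDimensional_iSup_of_finite
  have hEnf : NumberField E := ⟨⟩
  have hmemσ : ∀ (σ : I) (l : L), σ l ∈ E := by
    intro σ l
    have h1 : ((σ : L →+* ℂ).toRatAlgHom : L →ₐ[ℚ] ℂ).fieldRange ≤ E :=
      le_iSup (fun σ : I => ((σ : L →+* ℂ).toRatAlgHom : L →ₐ[ℚ] ℂ).fieldRange) σ
    exact h1 ⟨l, rfl⟩
  let sE : I → (L →+* E) := fun σ => (σ : L →+* ℂ).codRestrict E (hmemσ σ)
  have hsE : ∀ σ l, ((sE σ l : E) : ℂ) = σ l := fun σ l => rfl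
  let τF : F →+* E := (sE i₀).comp (algebraMap F L)
  have hτF : ∀ a, ((τF a : E) : ℂ) = τ a := fun a => i₀.commutes a
  let εE : Eˣ := Units.map (τF : F →* E) ε
  -- the classes
  let nm : Lˣ →* Eˣ :=
    { toFun := fun a => ∏ σ : I, Units.map (sE σ : L →* E) a
      map_one' := by simp
      map_mul' := fun a b => by simp only [map_mul, Finset.prod_mul_distrib] }
  have hnm : ∀ a, nm a = ∏ σ : I, Units.map (sE σ : L →* E) a := fun a => rfl
  have hnmN : ∀ a : Lˣ, nm a = Units.map (τF : F →* E) (Units.map (Algebra.norm F) a) := by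
    intro a
    apply Units.ext
    apply Subtype.ext
    rw [hnm, Units.coe_prod]
    have h1 : ((τF (Algebra.norm F (a : L)) : E) : ℂ) = ∏ σ : I, σ (a : L) := by
      rw [hτF]
      exact Algebra.norm_eq_prod_embeddings F ℂ (a : L)
    refine Eq.trans ?_ h1.symm
    refine (map_prod (algebraMap E ℂ) _ _).trans ?_
    exact Finset.prod_congr rfl fun σ _ => rfl
  let g : J → ℕ → Eˣ := fun j m => nm (G j m)
  let r : J → Eˣ := fun j => nm (α j)
  have hgcompat : ∀ j a b, 1 ≤ a → 1 ≤ b → ∃ y : Eˣ, g j (a * b) = g j a * y ^ a := by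
    intro j a b ha hb
    obtain ⟨w, hw⟩ := hcompat j a b ha hb
    exact ⟨nm w, by simp only [g]; rw [hw, map_mul, map_pow]⟩
  have hgform : ∀ j a, 1 ≤ a → ∃ ζ : Eˣ, IsOfFinOrder ζ ∧ ∃ m : ℤ, ∃ y : Eˣ,
      g j a = r j * (ζ * εE ^ m * y ^ a) := by
    intro j a ha
    obtain ⟨c, hc, β, hβ⟩ := hα j a ha
    obtain ⟨ζ, hζ, n, hn⟩ := hε _ (norm_mem_Γ (k := L) (F := F) (finite_above (F := L) S).toFinset S₀
      (fun W hW => hS W (by
        rw [Set.Finite.mem_toFinset] at hW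
        exact hW)) hc)
    refine ⟨Units.map (τF : F →* E) ζ, (Units.map (τF : F →* E)).isOfFinOrder hζ, n, nm β, ?_⟩
    simp only [g, r]
    rw [hβ, map_mul, map_mul, map_pow, hnmN c, hn, map_mul, map_zpow, mul_assoc]
  -- the ring
  have hΛgen : ∃ Λ : Subalgebra L M, Λ.FG ∧ (∀ a ∈ Λ, IsIntegral R a) ∧ (∀ j, (e j : M) ∈ Λ) ∧
      (∀ j, (e' j : M) ∈ Λ) ∧ algebraMap R M f ∈ Λ ∧
      ∀ (p : M → Prop), (∀ l : L, p (algebraMap L M l)) → (∀ j, p (e j)) → (∀ j, p (e' j)) →
        p (algebraMap R M f) → (∀ a ∈ Λ, ∀ b ∈ Λ, p a → p b → p (a + b)) →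
        (∀ a ∈ Λ, ∀ b ∈ Λ, p a → p b → p (a * b)) → ∀ a ∈ Λ, p a := by
    let G₀ : Set M := (Set.range fun j => (e j : M)) ∪ (Set.range fun j => (e' j : M)) ∪ {algebraMap R M f}
    refine ⟨Algebra.adjoin L G₀, ?_, fun a ha => ?_, fun j => Algebra.subset_adjoin (Or.inl (Or.inl ⟨j, rfl⟩)),
      fun j => Algebra.subset_adjoin (Or.inl (Or.inr ⟨j, rfl⟩)), Algebra.subset_adjoin (Or.inr rfl), ?_⟩
    · rw [Subalgebra.fg_def]
      exact ⟨G₀, ((Set.finite_range _).union (Set.finite_range _)).union (Set.finite_singleton _), rfl⟩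
    · induction ha using Algebra.adjoin_induction with
      | mem a ha =>
        rcases ha with (⟨j, rfl⟩ | ⟨j, rfl⟩) | rfl
        · exact (e j).2
        · exact (e' j).2
        · exact isIntegral_algebraMap
      | algebraMap l => exact const_int R (l : AlgebraicClosure k)
      | add a b _ _ ha hb => exact ha.add hb
      | mul a b _ _ ha hb => exact ha.mul hb
    · intro p h1 h2 h3 h4 h5 h6 a ha
      induction ha using Algebra.adjoin_induction with
      | mem a ha =>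
        rcases ha with (⟨j, rfl⟩ | ⟨j, rfl⟩) | rfl
        · exact h2 j
        · exact h3 j
        · exact h4
      | algebraMap l => exact h1 l
      | add a b h7 h8 ha hb => exact h5 a h7 b h8 ha hb
      | mul a b h7 h8 ha hb => exact h6 a h7 b h8 ha hb
  obtain ⟨Λ, hΛfg, hΛint, hΛe, hΛe', hΛf, hΛind⟩ := hΛgen
  have hft : Algebra.FiniteType L Λ := (Subalgebra.fg_iff_finiteType Λ).mp hΛfg
  let inc : Λ →+* integralClosure R M := (Λ.val : Λ →+* M).codRestrict (integralClosure R M)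
    fun a => hΛint a a.2
  have hinc : ∀ a, ((inc a : integralClosure R M) : M) = a := fun a => rfl
  let u : J → Λˣ := fun j => Units.mkOfMulEqOne (⟨e j, hΛe j⟩ : Λ) ⟨e' j, hΛe' j⟩ (Subtype.ext (hee' j))
  have hu : ∀ j, ((u j : Λ) : M) = e j := fun j => rfl
  have hincu : ∀ j, inc (u j) = e j := fun j => rfl
  let fΛ : Λ := ⟨algebraMap R M f, hΛf⟩
  have hincf : inc fΛ = algebraMap R (integralClosure R M) f := Subtype.ext rfl
  -- the places
  choose bq hbq using exists_below (L := ℚ) (F := k)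
  let Sq : Finset (HeightOneSpectrum (𝓞 ℚ)) := S.image bq
  let TE : Finset (HeightOneSpectrum (𝓞 E)) := (finite_above (L := ℚ) (F := E) Sq).toFinset
  let S' : Finset (HeightOneSpectrum (𝓞 k)) := (finite_above (L := ℚ) (F := k) Sq).toFinset
  have hSS' : S ⊆ S' := by
    intro v hv
    rw [Set.Finite.mem_toFinset]
    exact ⟨bq v, Finset.mem_image_of_mem _ hv, hbq v⟩
  choose p₀ hp₀ hp₀' using fun (W : HeightOneSpectrum (𝓞 E)) (τ : k →+* E) =>
    exists_place_below (F := ℚ) (τ.toRatAlgHom) W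
  have hp₀S : ∀ W ∉ TE, ∀ τ, (p₀ W τ).1 ∉ S := by
    intro W hW τ hS
    apply hW
    rw [Set.Finite.mem_toFinset]
    exact ⟨bq (p₀ W τ).1, Finset.mem_image_of_mem _ hS, hp₀' W τ _ (hbq _)⟩
  let τE : I → (k →+* E) := fun σ => (sE σ).comp (algebraMap k L)
  let P := {q : Σ W : HeightOneSpectrum (𝓞 E), (I →
    Σ v : HeightOneSpectrum (𝓞 k), (v.adicCompletion k →+* W.adicCompletion E)) //
      ∀ σ, (q.2 σ).1 ∉ S ∧ ∀ a : k, (q.2 σ).2 (algebraMap k _ a) = algebraMap E _ (τE σ a)}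
  let W : P → HeightOneSpectrum (𝓞 E) := fun q => q.1.1
  have hchar : ∀ q, CharZero ((W q).adicCompletion E) := fun q => charZero_of_injective_algebraMap
    (algebraMap E ((W q).adicCompletion E)).injective
  choose ι' φ' g1 g2 g3 using fun (q : P) (σ : I) =>
    @exists_pair_E k _ _ K _ _ R M _ _ _ L _ _ L.val s hsec (q.1.2 σ).1 (ι ⟨(q.1.2 σ).1, (q.2 σ).1⟩)
      (φ ⟨(q.1.2 σ).1, (q.2 σ).1⟩) (hφ _) (x ⟨(q.1.2 σ).1, (q.2 σ).1⟩) (hx _)
      ((W q).adicCompletion E) _ (hchar q)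
      ((algebraMap E ((W q).adicCompletion E)).comp (sE σ)) (q.1.2 σ).2 (fun a => (q.2 σ).2 a)
      inferInstance
  replace g2 : ∀ (q : P) (σ : I) (l : L), ι' q σ (l : AlgebraicClosure k) =
        algebraMap _ (AlgebraicClosure ((W q).adicCompletion E))
          (algebraMap E ((W q).adicCompletion E) (sE σ l)) := g2
  have hφΛ : ∀ (q : P) (σ : I) (a : Λ), ∃ y : (W q).adicCompletion E,
      algebraMap _ (AlgebraicClosure ((W q).adicCompletion E)) y = (φ' q σ).comp inc a := by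
    intro q σ
    have key : ∀ a ∈ Λ, ∀ b : integralClosure R M, (b : M) = a → ∃ y : (W q).adicCompletion E,
        algebraMap _ (AlgebraicClosure ((W q).adicCompletion E)) y = φ' q σ b := by
      have he : ∀ j, ∃ y : (W q).adicCompletion E, y ≠ 0 ∧
          algebraMap _ (AlgebraicClosure ((W q).adicCompletion E)) y = φ' q σ (e j) := by
        intro j
        obtain ⟨h, hh⟩ := @hG ((W q).adicCompletion E) _ (hchar q) j
          ((algebraMap E ((W q).adicCompletion E)).comp (sE σ)) (ι' q σ) (φ' q σ) (g1 q σ) (g2 q σ) 1 le_rfl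
        refine ⟨_, fun h0 => ?_, hh.symm⟩
        rw [h0, map_zero] at hh
        have h1 : φ' q σ (e j) * φ' q σ (e' j) = 1 := by
          rw [← map_mul, ← map_one (φ' q σ)]
          congr 1
          exact Subtype.ext (hee' j)
        rw [hh, zero_mul] at h1
        exact zero_ne_one h1
      refine hΛind (fun a => ∀ b : integralClosure R M, (b : M) = a → ∃ y : (W q).adicCompletion E,
        algebraMap _ (AlgebraicClosure ((W q).adicCompletion E)) y = φ' q σ b) ?_ ?_ ?_ ?_ ?_ ?_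
      · intro l b hb
        refine ⟨algebraMap E ((W q).adicCompletion E) (sE σ l), ?_⟩
        rw [← g2 q σ l]
        exact ((g1 q σ).1 _ _ hb).symm
      · intro j b hb
        obtain ⟨y, -, hy⟩ := he j
        refine ⟨y, ?_⟩
        rw [hy]
        congr 1
        exact Subtype.ext hb.symm
      · intro j b hb
        obtain ⟨y, hy0, hy⟩ := he j
        refine ⟨y⁻¹, ?_⟩
        have h1 : φ' q σ (e j) * φ' q σ b = 1 := by
          rw [← map_mul, ← map_one (φ' q σ)]
          congr 1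
          apply Subtype.ext
          change (e j : M) * (b : M) = 1
          rw [hb]
          exact hee' j
        rw [map_inv₀, hy]
        exact inv_eq_of_mul_eq_one_right h1
      · intro b hb
        refine ⟨(q.1.2 σ).2 (x ⟨(q.1.2 σ).1, (q.2 σ).1⟩ f), ?_⟩
        rw [← g3 q σ f]
        congr 1
        exact Subtype.ext hb.symm
      · intro a ha b hb h1 h2 c hc
        obtain ⟨y, hy⟩ := h1 ⟨a, hΛint a ha⟩ rfl
        obtain ⟨y', hy'⟩ := h2 ⟨b, hΛint b hb⟩ rfl
        refine ⟨y + y', ?_⟩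
        rw [map_add, hy, hy', ← map_add]
        congr 1
        exact Subtype.ext hc.symm
      · intro a ha b hb h1 h2 c hc
        obtain ⟨y, hy⟩ := h1 ⟨a, hΛint a ha⟩ rfl
        obtain ⟨y', hy'⟩ := h2 ⟨b, hΛint b hb⟩ rfl
        refine ⟨y * y', ?_⟩
        rw [map_mul, hy, hy', ← map_mul]
        congr 1
        exact Subtype.ext hc.symm
    exact fun a => key a a.2 (inc a) rfl
  choose Y hY using fun (q : P) (σ : I) => exists_factor ((φ' q σ).comp inc) (hφΛ q σ)
  replace hY : ∀ q σ a, algebraMap _ (AlgebraicClosure ((W q).adicCompletion E)) (Y q σ a) =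
    φ' q σ (inc a) := hY
  have hinjW : ∀ q, Function.Injective (algebraMap ((W q).adicCompletion E)
      (AlgebraicClosure ((W q).adicCompletion E))) := fun q =>
    (algebraMap ((W q).adicCompletion E) (AlgebraicClosure ((W q).adicCompletion E))).injective
  have hYL : ∀ q σ (l : L), Y q σ (algebraMap L Λ l) = algebraMap E _ (sE σ l) := by
    intro q σ l
    apply hinjW q
    rw [hY, ← g2 q σ l]
    exact (g1 q σ).1 _ _ rfl
  -- the values
  have hdepΛ : ∀ a b : Λ, ∃ P : L[X][X], P ≠ 0 ∧ biv (algebraMap L Λ) a b P = 0 := by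
    intro a b
    obtain ⟨P, hP, hPab⟩ := hdep a b (hΛint a a.2) (hΛint b b.2)
    refine ⟨P.map (mapRingHom (algebraMap k L)), ?_, ?_⟩
    · rw [Ne, Polynomial.map_eq_zero_iff]
      · exact hP
      · exact Polynomial.map_injective _ (algebraMap k L).injective
    · apply Subtype.ext
      have h1 : ((biv (algebraMap L Λ) a b (P.map (mapRingHom (algebraMap k L))) : Λ) : M) =
          biv ((Λ.val : Λ →+* M).comp (algebraMap L Λ)) (a : M) (b : M)
            (P.map (mapRingHom (algebraMap k L))) :=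
        map_biv (algebraMap L Λ) (Λ.val : Λ →+* M) a b _
      rw [h1]
      refine Eq.trans ?_ hPab
      unfold biv
      rw [eval₂_map]
      congr 1
      refine Polynomial.ringHom_ext (fun c => ?_) ?_
      · simp only [RingHom.coe_comp, Function.comp_apply, coe_mapRingHom, map_C, coe_eval₂RingHom, eval₂_C]
        change algebraMap (AlgebraicClosure k) M (algebraMap k (AlgebraicClosure k) c) = algebraMap k M c
        rw [← IsScalarTower.algebraMap_apply]
      · simp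
  have htrΛ : Transcendental L (u j₀ : Λ) := by
    intro halg
    apply htr
    have h1 : IsAlgebraic L (e j₀ : M) := by
      have h2 := halg.algHom Λ.val
      exact h2
    have : IsScalarTower k L M := IsScalarTower.of_algebraMap_eq fun a => by
      change _ = algebraMap (AlgebraicClosure k) M (algebraMap k (AlgebraicClosure k) a)
      rw [← IsScalarTower.algebraMap_apply]
    exact h1.restrictScalars k
  have hcuspΛ : ∀ C : Finset (ValuationSubring M),
      C.card ≤ (Fintype.card (InfinitePlace F) + S₀.card) * Module.finrank F L →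
      (∀ A ∈ C, (∀ l : L, (Λ.val : Λ →+* M) (algebraMap L Λ l) ∈ A) ∧
        ∃ j, (Λ.val : Λ →+* M) (u j) ∉ A) →
      (∃ A ∈ C, (Λ.val : Λ →+* M) (u j₀) ∉ A) → ∃ j, ∀ A ∈ C, (Λ.val : Λ →+* M) (u j) ∈ A.nonunits := by
    intro C hC1 hC2 hC3
    refine hcusp C hC1 (fun A hA => ?_) hC3
    obtain ⟨h1, h1'⟩ := hC2 A hA
    refine ⟨fun b => ?_, h1'⟩
    have : Algebra.IsAlgebraic L (AlgebraicClosure k) := Algebra.IsAlgebraic.tower_top (K := k) L
    have h2 : IsAlgebraic L (algebraMap (AlgebraicClosure k) M b) :=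
      (Algebra.IsAlgebraic.isAlgebraic (R := L) b).algebraMap
    exact mem_val_of_algebraic A h1 _ h2
  have hmpos : 1 ≤ Fintype.card (InfinitePlace F) := Fintype.card_pos
  obtain ⟨χ, hχ0, hχ⟩ := values_of_families (L := L) (Λ := Λ) sE (fun _ _ => False) ∅ u
    (fun _ _ => 1) g r εE hgcompat hgform TE W
    (fun W₀ hW₀ => ⟨⟨⟨W₀, fun σ => p₀ W₀ (τE σ)⟩, fun σ => ⟨hp₀S W₀ hW₀ (τE σ), hp₀ W₀ (τE σ)⟩⟩, rfl⟩)
    Y (fun q => ⟨fun σ l => hYL q σ l, fun _ _ h => h.elim⟩)
    (fun q j m hm => by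
      choose z hz using fun σ : I => @hG ((W q).adicCompletion E) _ (hchar q) j
        ((algebraMap E ((W q).adicCompletion E)).comp (sE σ)) (ι' q σ) (φ' q σ) (g1 q σ) (g2 q σ) m hm
      refine ⟨∏ σ, z σ, ?_⟩
      have h1 : ((g j m : Eˣ) : E) = ∏ σ : I, (sE σ (G j m : L)) := by
        simp only [g]
        rw [hnm, Units.coe_prod]
        exact Finset.prod_congr rfl fun σ _ => rfl
      rw [h1, map_prod, ← Finset.prod_pow, ← Finset.prod_mul_distrib]
      refine Finset.prod_congr rfl fun σ _ => ?_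
      rw [zpow_one]
      apply hinjW q
      rw [hY, hincu, hz σ]
      rfl)
    (fun ρ m hρ hm' => by
      have hcard : (m = 0 ∧ Fintype.card I ≤
          (Fintype.card (InfinitePlace F) + S₀.card) * Module.finrank F L) ∨
          2 * Fintype.card I ≤ (Fintype.card (InfinitePlace F) + S₀.card) * Module.finrank F L := by
        rw [hcardI]
        by_cases h1 : Fintype.card (InfinitePlace F) + S₀.card ≤ 1
        · left
          refine ⟨hm' ?_, Nat.le_mul_of_pos_left _ (by omega)⟩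
          simp only [εE]
          rw [hε1 h1, map_one]
        · right
          exact Nat.mul_le_mul_right _ (by omega)
      refine (fin_of_cusp (fun σ : I => (σ : L →+* ℂ)) (Λ.val : Λ →+* M) Subtype.val_injective u j₀ htrΛ
        hdepΛ _ hcuspΛ ρ hρ m hcard).subset ?_
      rintro Z ⟨⟨hZ1, -⟩, z, hz, hZ2⟩
      refine ⟨fun σ l => (hZ1 σ l).trans rfl, z, hz, fun j => ?_⟩
      rw [← hZ2 j]
      exact Finset.prod_congr rfl fun σ _ => (zpow_one _).symm)
    i₀ fΛ
  let τ₀ : k →+* E := τE i₀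
  let _ : Algebra k E := τ₀.toAlgebra
  obtain ⟨P', hP'0, hP'⟩ := exists_ground_poly (k := k) hχ0
  refine ⟨S', P', hSS', hP'0, fun v hv hvS' => ?_⟩
  obtain ⟨W₁, j₁, hj₁, hW₁⟩ := exists_place_above (F := ℚ) (E := E) v
  have hW₁T : W₁ ∉ TE := by
    intro h
    apply hvS'
    rw [Set.Finite.mem_toFinset] at h ⊢
    obtain ⟨w, hw, hl⟩ := h
    exact ⟨w, hw, hW₁ w hl⟩
  let c : I → Σ v : HeightOneSpectrum (𝓞 k), (v.adicCompletion k →+* W₁.adicCompletion E) :=
    Function.update (fun σ => p₀ W₁ (τE σ)) i₀ ⟨v, j₁⟩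
  have hci₀ : c i₀ = ⟨v, j₁⟩ := Function.update_self _ _ _
  have hc : ∀ σ, (c σ).1 ∉ S ∧ ∀ a : k, (c σ).2 (algebraMap k _ a) = algebraMap E _ (τE σ a) := by
    intro σ
    by_cases h : σ = i₀
    · subst h
      rw [hci₀]
      exact ⟨hv, hj₁⟩
    · have h1 : c σ = p₀ W₁ (τE σ) := Function.update_of_ne h _ _
      rw [h1]
      exact ⟨hp₀S W₁ hW₁T (τE σ), hp₀ W₁ (τE σ)⟩
  let q : P := ⟨⟨W₁, c⟩, hc⟩
  have h1 := hχ q
  have h2 : Y q i₀ fΛ = j₁ (x ⟨v, hv⟩ f) := by
    have h3 : Y q i₀ fΛ = (c i₀).2 (x ⟨(c i₀).1, (hc i₀).1⟩ f) := by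
      apply hinjW q
      rw [hY, hincf, g3 q i₀ f]
    rw [h3]
    have key : ∀ (d : Σ v : HeightOneSpectrum (𝓞 k), (v.adicCompletion k →+* W₁.adicCompletion E))
        (hd : d.1 ∉ S), d = ⟨v, j₁⟩ → d.2 (x ⟨d.1, hd⟩ f) = j₁ (x ⟨v, hv⟩ f) := by
      rintro d hd rfl
      rfl
    exact key (c i₀) (hc i₀).1 hci₀
  rw [h2, aeval_def] at h1
  have h3 := hP' _ (algebraMap E (W₁.adicCompletion E)) _ h1
  apply j₁.injective
  rw [map_zero, aeval_def, hom_eval₂]
  have h5 : j₁.comp (algebraMap k (v.adicCompletion k)) =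
      (algebraMap E (W₁.adicCompletion E)).comp (algebraMap k E) :=
    RingHom.ext fun a => hj₁ a
  rw [h5]
  exact h3

end Pool.Agent.Lib.MP_2f3286_ag.GU
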