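import Pool.Agent.Lib.MP_2f3286_ag.GU.CuspE
import Pool.Agent.Lib.MP_2f3286_ag.PA.VConA

/-!
# Units which vanish at the cusps: the classes are products of a fixed element, an `S`-unit and a power
-/

open IsDedekindDomain NumberField Polynomial

namespace Pool.Agent.Lib.MP_2f3286_ag.GU

open PA

universe u w₁

/-- two elements of a field of transcendence degree one satisfy a relation -/
theorem exists_biv_of_trdeg {k M : Type*} [Field k] [Field M] [Algebra k M] (htr : Algebra.trdeg k M = 1)
    (a b : M) : ∃ P : k[X][X], P ≠ 0 ∧ biv (algebraMap k M) a b P = 0 := by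
  obtain ⟨F, hF, h⟩ := exists_relation htr a b
  refine ⟨(Polynomial.Bivariate.equivMvPolynomial k).symm F, ?_, ?_⟩
  · rw [Ne, EmbeddingLike.map_eq_zero_iff]
    exact hF
  · have h1 : ∀ P : k[X][X], biv (algebraMap k M) a b P =
        MvPolynomial.aeval ![a, b] (Polynomial.Bivariate.equivMvPolynomial k P) := by
      intro P
      have h2 : eval₂RingHom (eval₂RingHom (algebraMap k M) a) b =
          ((MvPolynomial.aeval ![a, b] : MvPolynomial (Fin 2) k →ₐ[k] M) : MvPolynomial (Fin 2) k →+* M).comp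
            ((Polynomial.Bivariate.equivMvPolynomial k : k[X][X] ≃ₐ[k] MvPolynomial (Fin 2) k) :
              k[X][X] →+* MvPolynomial (Fin 2) k) := by
        refine Polynomial.ringHom_ext (fun c => ?_) ?_
        · induction c using Polynomial.induction_on with
          | C a => simp
          | add p q hp hq => simp only [map_add, hp, hq]
          | monomial n a h => simp [eval₂_pow]
        · simp
      exact congrArg (fun g : k[X][X] →+* M => g P) h2
    rw [h1, AlgEquiv.apply_symm_apply]
    exact h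

theorem exists_alpha_cusp {k : Type u} [Field k] [NumberField k]
    {K : Type*} [Field K] [Algebra k K] (R : Subalgebra k K)
    {M : Type*} [Field M] [Algebra K M] [Algebra (AlgebraicClosure k) M] [Algebra k M]
    [IsScalarTower k K M] [IsScalarTower k (AlgebraicClosure k) M]
    (s : Gal(AlgebraicClosure k/k) →* Gal(M/K)) (hs : Continuous s)
    (hsec : ∀ σ a, s σ (algebraMap (AlgebraicClosure k) M a) =
      algebraMap (AlgebraicClosure k) M (σ a))
    (S : Finset (HeightOneSpectrum (𝓞 k)))
    (ι : ∀ v : {v : HeightOneSpectrum (𝓞 k) // v ∉ S},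
      AlgebraicClosure k →ₐ[k] AlgebraicClosure (v.1.adicCompletion k))
    (φ : ∀ v : {v : HeightOneSpectrum (𝓞 k) // v ∉ S},
      integralClosure R M →+* AlgebraicClosure (v.1.adicCompletion k))
    (hφ : ∀ v, Respects s (v.1.adicCompletion k)
      (ι v : _ →+* AlgebraicClosure (v.1.adicCompletion k)) (φ v))
    (x : ∀ v : {v : HeightOneSpectrum (𝓞 k) // v ∉ S}, R →ₐ[k] v.1.adicCompletion k)
    (hx : ∀ v r, algebraMap _ (AlgebraicClosure (v.1.adicCompletion k)) (x v r) =
      φ v (algebraMap R (integralClosure R M) r))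
    (htr : Algebra.trdeg k M = 1)
    (L : IntermediateField k (AlgebraicClosure k)) [FiniteDimensional k L] [NumberField L]
    (e e' : integralClosure R M) (hee' : (e : M) * e' = 1)
    (hroots : ∀ n : ℕ, 1 ≤ n → ∃ b : M, b ^ n = (e : M))
    (hfix : ∀ σ ∈ L.fixingSubgroup, s σ (e : M) = e)
    (A : Finset R) (hA1 : IsIntegral (Algebra.adjoin k (algebraMap R M '' (A : Set R))) (e : M))
    (hA2 : IsIntegral (Algebra.adjoin k (algebraMap R M '' (A : Set R))) (e' : M))
    (T : Finset (HeightOneSpectrum (𝓞 k))) (N : ℕ) (hN : 1 ≤ N)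
    (hcont : ∀ v (hv : v ∉ S), v ∉ T → ∀ a ∈ A, ∀ z : v.adicCompletion k,
      Valued.v (x ⟨v, hv⟩ a) = Valued.v z ^ N → Valued.v (x ⟨v, hv⟩ a) ≤ 1) :
    ∃ G : ℕ → Lˣ, (∀ n m, 1 ≤ n → 1 ≤ m → ∃ y : Lˣ, G (n * m) = G n * y ^ n) ∧
      (∀ (F : Type w₁) [Field F] [CharZero F], ClsAt R L s e G F) ∧
      ∃ α : Lˣ, ∀ n, 1 ≤ n → ∃ ε ∈ (placesOf (finite_above (F := L) S).toFinset).Γ,
        ∃ β : Lˣ, G n = α * ε * β ^ n := by
  classical
  have halgkL : Algebra.IsAlgebraic k L := Algebra.IsAlgebraic.of_finite k L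
  have he0 : (e : M) ≠ 0 := fun h => one_ne_zero (α := M) (by rw [← hee', h, zero_mul])
  have htow' : IsScalarTower k R M := IsScalarTower.of_algebraMap_eq fun x => by
    rw [IsScalarTower.algebraMap_apply k K M]; rfl
  obtain ⟨G, hcompat, hG, hG'⟩ := exists_clsAt.{u, w₁, u} R s hs hsec L e he0 hroots hfix
  refine ⟨G, hcompat, hG, ?_⟩
  -- places
  choose vb hvb using exists_below (L := k) (F := L)
  choose θ hθ hθv using fun w : HeightOneSpectrum (𝓞 L) =>
    @exists_completion_hom_val k L _ _ _ _ _ (vb w) w (hvb w)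
  have hchar : ∀ w : HeightOneSpectrum (𝓞 L), CharZero (w.adicCompletion L) := fun w =>
    charZero_of_injective_algebraMap (algebraMap L (w.adicCompletion L)).injective
  choose ι' φ' g1 g2 g3 using fun (w : HeightOneSpectrum (𝓞 L)) (hw : vb w ∉ S) =>
    @GU.exists_pair_E k _ _ K _ _ R M _ _ _ L _ _ L.val s hsec (vb w) (ι ⟨vb w, hw⟩)
      (φ ⟨vb w, hw⟩) (hφ _) (x ⟨vb w, hw⟩) (hx _) (w.adicCompletion L) _ (hchar w)
      (algebraMap L (w.adicCompletion L)) (θ w) (hθ w) inferInstance
  replace g2 : ∀ (w : HeightOneSpectrum (𝓞 L)) (hw : vb w ∉ S) (l : L),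
      ι' w hw (l : AlgebraicClosure k) =
        algebraMap _ (AlgebraicClosure (w.adicCompletion L)) (algebraMap L (w.adicCompletion L) l) := g2
  choose h hh using fun (w : HeightOneSpectrum (𝓞 L)) (hw : vb w ∉ S) =>
    @hG' (w.adicCompletion L) _ (hchar w) (algebraMap L (w.adicCompletion L)) (ι' w hw)
      (φ' w hw) (g1 w hw) (g2 w hw) 1 le_rfl
  let y : ∀ w : HeightOneSpectrum (𝓞 L), w.adicCompletion L := fun w =>
    if hw : vb w ∉ S then algebraMap L _ (G 1 : L) * h w hw ^ 1 else 1
  have hy : ∀ w (hw : vb w ∉ S), φ' w hw e = algebraMap _ _ (y w) := by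
    intro w hw
    simp only [y]
    rw [dif_pos hw]
    exact hh w hw
  have hinj : ∀ w : HeightOneSpectrum (𝓞 L), Function.Injective
      (algebraMap (w.adicCompletion L) (AlgebraicClosure (w.adicCompletion L))) := fun w =>
    (algebraMap (w.adicCompletion L) (AlgebraicClosure (w.adicCompletion L))).injective
  have hee : ∀ w (hw : vb w ∉ S), φ' w hw e * φ' w hw e' = 1 := by
    intro w hw
    rw [← map_mul, ← map_one (φ' w hw)]
    congr 1
    exact Subtype.ext hee'
  have hy0 : ∀ w, vb w ∉ S → y w ≠ 0 := by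
    intro w hw h0
    have h4 := hee w hw
    rw [hy w hw, h0, map_zero, zero_mul] at h4
    exact zero_ne_one h4
  have hy' : ∀ w (hw : vb w ∉ S), φ' w hw e' = algebraMap _ _ (y w)⁻¹ := by
    intro w hw
    have h4 := hee w hw
    rw [hy w hw] at h4
    rw [map_inv₀]
    exact eq_inv_of_mul_eq_one_right h4
  -- the relations
  obtain ⟨P₁, hP₁, hc₁, hr₁⟩ := exists_monic_adjoin (k := k) (A : Set R) (e : M) hA1
  obtain ⟨P₂, hP₂, hc₂, hr₂⟩ := exists_monic_adjoin (k := k) (A : Set R) (e' : M) hA2
  choose F hF hFe using fun a : R => exists_relation htr (algebraMap R M a) (e : M)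
  have hmon : ∀ w (hw : vb w ∉ S) (b : integralClosure R M) (b' : w.adicCompletion L) (P : R[X]),
      φ' w hw b = algebraMap _ _ b' → P.eval₂ (algebraMap R M) (b : M) = 0 →
      P.eval₂ ((θ w).comp (x ⟨vb w, hw⟩ : R →+* (vb w).adicCompletion k)) b' = 0 := by
    intro w hw b b' P hb hP
    apply hinj w
    have h1 : P.eval₂ (algebraMap R (integralClosure R M)) b = 0 := by
      apply Subtype.ext
      have h2 := hom_eval₂ P (algebraMap R (integralClosure R M))
        ((integralClosure R M).val : integralClosure R M →+* M) b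
      exact h2.trans hP
    have h3 := congrArg (φ' w hw) h1
    rw [map_zero, hom_eval₂, hb] at h3
    rw [map_zero, hom_eval₂]
    have h4 : (φ' w hw).comp (algebraMap R (integralClosure R M)) =
        (algebraMap (w.adicCompletion L) (AlgebraicClosure (w.adicCompletion L))).comp
          ((θ w).comp (x ⟨vb w, hw⟩ : R →+* (vb w).adicCompletion k)) :=
      RingHom.ext fun r => g3 w hw r
    rw [← h4]
    exact h3
  have hrelF : ∀ w (hw : vb w ∉ S) (a : R), MvPolynomial.eval₂
      ((algebraMap L (w.adicCompletion L)).comp (algebraMap k L))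
      ![θ w (x ⟨vb w, hw⟩ a), y w] (F a) = 0 := by
    intro w hw a
    apply hinj w
    let κ : k →+* integralClosure R M := (algebraMap R (integralClosure R M)).comp (algebraMap k R)
    have h1 : MvPolynomial.eval₂ κ ![algebraMap R (integralClosure R M) a, e] (F a) = 0 := by
      apply Subtype.ext
      have h2 := MvPolynomial.map_eval₂Hom κ ![algebraMap R (integralClosure R M) a, e]
        ((integralClosure R M).val : integralClosure R M →+* M) (F a)
      refine h2.trans (Eq.trans ?_ (hFe a))
      rw [MvPolynomial.aeval_def]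
      change MvPolynomial.eval₂ _ _ _ = _
      congr 1
      · ext c
        change algebraMap K M (algebraMap k K c) = _
        rw [← IsScalarTower.algebraMap_apply]
      · funext i
        fin_cases i
        · rfl
        · rfl
    have h3 := congrArg (φ' w hw) h1
    rw [map_zero] at h3 ⊢
    rw [← h3]
    have h4 := MvPolynomial.map_eval₂Hom κ ![algebraMap R (integralClosure R M) a, e] (φ' w hw) (F a)
    have h5 := MvPolynomial.map_eval₂Hom ((algebraMap L (w.adicCompletion L)).comp (algebraMap k L))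
      ![θ w (x ⟨vb w, hw⟩ a), y w]
      (algebraMap (w.adicCompletion L) (AlgebraicClosure (w.adicCompletion L))) (F a)
    refine h5.trans (Eq.trans ?_ h4.symm)
    congr 2
    · ext c
      change algebraMap (w.adicCompletion L) _ (algebraMap L (w.adicCompletion L) (algebraMap k L c)) =
        φ' w hw (κ c)
      rw [← g2 w hw]
      refine ((g1 w hw).1 _ _ ?_).symm
      change algebraMap K M (algebraMap k K c) = algebraMap (AlgebraicClosure k) M (algebraMap k _ c)
      rw [← IsScalarTower.algebraMap_apply, ← IsScalarTower.algebraMap_apply]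
    · funext i
      fin_cases i
      · exact (g3 w hw a).symm
      · exact (hy w hw).symm
  have hGw : ∀ w, vb w ∉ S → ∀ n, 1 ≤ n → ∃ h : w.adicCompletion L,
      algebraMap L _ (G n : L) * h ^ n = y w := by
    intro w hw n hn
    obtain ⟨h, hh⟩ := @hG' (w.adicCompletion L) _ (hchar w) (algebraMap L (w.adicCompletion L))
      (ι' w hw) (φ' w hw) (g1 w hw) (g2 w hw) n hn
    refine ⟨h, hinj w ?_⟩
    rw [← hh, hy w hw]
  obtain ⟨T', hT'⟩ := exists_val_one_A S T vb hvb θ hθv A x y hy0 P₁ P₂ hP₁ hP₂ hc₁ hc₂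
    (fun w hw => hmon w hw e (y w) P₁ (hy w hw) hr₁)
    (fun w hw => hmon w hw e' (y w)⁻¹ P₂ (hy' w hw) hr₂) F (fun a _ => hF a)
    (fun a _ w hw => hrelF w hw a) N hN G hGw hcont
  set SL : Finset (HeightOneSpectrum (𝓞 L)) := (finite_above (F := L) S).toFinset with hSL
  have hSL' : ∀ w, w ∉ SL → vb w ∉ S := by
    intro w hw hS
    apply hw
    rw [hSL, Set.Finite.mem_toFinset]
    exact ⟨vb w, hS, hvb w⟩
  exact exists_alpha SL G hcompat y T' (fun w hw => hy0 w (hSL' w hw)) hT'
    (fun w hw n hn => hGw w (hSL' w hw) n hn)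

end Pool.Agent.Lib.MP_2f3286_ag.GU
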