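import Pool.Agent.Lib.MP_2f3286_ag.GU.Agree
import Pool.Agent.Lib.MP_2f3286_ag.Full.GenFinal

/-!
# Sections of the full fundamental group for which a function takes finitely many values at the local points
-/

open IsDedekindDomain NumberField Polynomial

namespace Pool.Agent.Lib.MP_2f3286_ag.GU

open Full

universe u in
/-- If the function `f`, in the ring generated by the units, takes at almost all local points values that are roots of
one polynomial over `k`, then the section comes from a point over a finite extension of `k`, and over `k` if the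
functions are sums of units. -/
theorem gu_final {k : Type u} [Field k] [NumberField k]
    {K : Type*} [Field K] [Algebra k K]
    (R : Subalgebra k K) (hRn : ∀ y : K, IsIntegral R y → y ∈ R) (hfg : R.FG)
    (f : R) (hf : Transcendental k (f : K))
    [FiniteDimensional (IntermediateField.adjoin k {(f : K)}) K]
    {M : Type*} [Field M] [Algebra K M] [IsGalois K M]
    [Algebra (AlgebraicClosure k) M] [Algebra k M]
    [IsScalarTower k K M] [IsScalarTower k (AlgebraicClosure k) M]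
    (hfU : algebraMap R M f ∈ Subring.closure {b : M | IsIntegral R b ∧ IsIntegral R b⁻¹})
    (hun : ∀ Ψ : integralClosure R M →+* AlgebraicClosure k,
      (∀ (a : AlgebraicClosure k) (b : integralClosure R M), (b : M) = algebraMap _ M a → Ψ b = a) →
      ∀ g ∈ geomGroup K M (AlgebraicClosure k),
        (∀ b b' : integralClosure R M, (b' : M) = g b → Ψ b' = Ψ b) → g = 1)
    (hmax : Pt.IsRadClosed R M (AlgebraicClosure k))
    (s : Gal(AlgebraicClosure k/k) →* Gal(M/K)) (hs : Continuous s)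
    (hsec : ∀ σ a, s σ (algebraMap (AlgebraicClosure k) M a) =
      algebraMap (AlgebraicClosure k) M (σ a))
    (S : Finset (HeightOneSpectrum (𝓞 k)))
    (ι : ∀ v : {v : HeightOneSpectrum (𝓞 k) // v ∉ S},
      AlgebraicClosure k →ₐ[k] AlgebraicClosure (v.1.adicCompletion k))
    (φ : ∀ v : {v : HeightOneSpectrum (𝓞 k) // v ∉ S},
      integralClosure R M →+* AlgebraicClosure (v.1.adicCompletion k))
    (hφ : ∀ v, Respects s (v.1.adicCompletion k)
      (ι v : _ →+* AlgebraicClosure (v.1.adicCompletion k)) (φ v))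
    (S' : Finset (HeightOneSpectrum (𝓞 k))) (hSS' : S ⊆ S') (χ : k[X]) (hχ : χ ≠ 0)
    (hvan : ∀ v : {v : HeightOneSpectrum (𝓞 k) // v ∉ S}, v.1 ∉ S' →
      φ v (algebraMap R (integralClosure R M) (aeval f χ)) = 0) :
    ∃ (c₀ : k) (Δ : Subgroup Gal(AlgebraicClosure k/k))
      (Ψ : integralClosure R M →+* AlgebraicClosure k),
      IsOpen (Δ : Set Gal(AlgebraicClosure k/k)) ∧
      (∀ (a : AlgebraicClosure k) (b : integralClosure R M), (b : M) = algebraMap _ M a → Ψ b = a) ∧
      (∀ σ ∈ Δ, ∀ b b' : integralClosure R M, (b' : M) = s σ b → Ψ b' = σ (Ψ b)) ∧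
      Ψ (algebraMap R _ f) = algebraMap k _ c₀ ∧
      (∀ v, φ v (algebraMap R _ f) = ι v (algebraMap k _ c₀)) ∧
      (∀ Ψ' : integralClosure R M →+* AlgebraicClosure k,
        (∀ (a : AlgebraicClosure k) (b : integralClosure R M), (b : M) = algebraMap _ M a →
          Ψ' b = a) → (∀ r : R, Ψ' (algebraMap R _ r) = Ψ (algebraMap R _ r)) →
        (∃ Δ' : Subgroup Gal(AlgebraicClosure k/k), IsOpen (Δ' : Set Gal(AlgebraicClosure k/k)) ∧
          ∀ σ ∈ Δ', ∀ b b' : integralClosure R M, (b' : M) = s σ b → Ψ' b' = σ (Ψ' b)) → Ψ' = Ψ) ∧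
      ((∀ r : R, ∃ c : k, Ψ (algebraMap R _ r) = algebraMap k _ c) →
        Respects s k (RingHom.id _) Ψ) ∧
      ((∀ r : R, algebraMap R M r ∈
        Subring.closure {b : M | IsIntegral R b ∧ IsIntegral R b⁻¹}) →
        (∀ r : R, ∃ c : k, Ψ (algebraMap R _ r) = algebraMap k _ c ∧
          ∀ v, φ v (algebraMap R _ r) = ι v (algebraMap k _ c)) ∧
        ∀ Ψ' : integralClosure R M →+* AlgebraicClosure k,
          Respects s k (RingHom.id _) Ψ' → Ψ' = Ψ) := by
  classical
  set kb := AlgebraicClosure k with hkb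
  have htr := trdeg_of_finite hf
  have hfree : ∀ A ≤ geomGroup K M kb, OpenIn (geomGroup K M kb) A → ∀ (ℓ : ℕ) [Fact ℓ.Prime],
      Finite (A →ₜ* Multiplicative (ZMod ℓ)) ∧
      ∀ f : A →ₜ* Multiplicative (ZMod ℓ), ∃ F : A →ₜ* Multiplicative ℤ_[ℓ], ∀ a,
        PadicInt.toZMod (F a).toAdd = (f a).toAdd := by
    intro B hBN hBo ℓ hℓ
    obtain ⟨O, hO, hON⟩ := hBo
    exact Pt.fin_lift (k := k) (f : K) hf R f.2 hfg (fun Ψ hΨ g hg h => hun Ψ hΨ g hg h) hmax _
      (fun g => Iff.rfl) B hBN O hO hON ℓ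
  -- the units are divisible
  have hUD : ∀ b : M, b ∈ Subring.closure {b : M | IsIntegral R b ∧ IsIntegral R b⁻¹} →
      b ∈ divUnitRing R M := by
    intro b hb
    have h1 : {b : M | IsIntegral R b ∧ IsIntegral R b⁻¹} ⊆ {b : M | IsDivUnit R b} :=
      fun b hb => ⟨hb.1, hb.2, fun n hn => root_of_unit hmax b hb.1 hb.2 n hn⟩
    exact Subring.closure_mono h1 hb
  have hsK : ∀ σ, ∀ r : R, s σ (algebraMap R M r) = algebraMap R M r := by
    intro σ r
    exact AlgEquiv.commutes (s σ) (r : K)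
  -- the point on the ring generated by the units
  let inj : {v : HeightOneSpectrum (𝓞 k) // v ∉ S'} → {v : HeightOneSpectrum (𝓞 k) // v ∉ S} :=
    fun v => ⟨v.1, fun h => v.2 (hSS' h)⟩
  have hh : aeval f χ ≠ 0 := by
    intro h0
    refine hf ⟨χ, hχ, ?_⟩
    have h1 : ((aeval f χ : R) : K) = aeval (f : K) χ := (aeval_algHom_apply R.val f χ).symm
    rw [← h1, h0]; rfl
  obtain ⟨⟨ψ, hψ1, hψ2, hψ3⟩, -⟩ := core_div htr R s hs hsec S' (fun v => ι (inj v))
    (fun v => φ (inj v)) (fun v => hφ (inj v)) (aeval f χ) hh (fun v => hvan (inj v) v.2)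
  have hagree : ∀ v, ∀ c : divUnitRing R M, ∀ b : integralClosure R M, (b : M) = c →
      φ v b = ι v (ψ c) := fun v c b hb =>
    local_agree R s hs hsec ψ hψ1 v.1 (ι v) (φ v) (hφ v) c b hb
  -- rational values
  have hrat : ∀ r : R, ∀ hr : algebraMap R M r ∈ divUnitRing R M, ∃ c : k,
      ψ ⟨algebraMap R M r, hr⟩ = algebraMap k kb c := by
    intro r hr
    obtain ⟨a, ha⟩ := mem_of_fixed (F := k) (Fb := kb) (y := ψ ⟨algebraMap R M r, hr⟩) (by
      intro τ
      exact (hψ1.2 τ τ (fun _ => rfl) _ _ (hsK τ r).symm).symm)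
    exact ⟨a, ha.symm⟩
  obtain ⟨c₀, hc₀⟩ := hrat f (hUD _ hfU)
  have hφf : ∀ v, φ v (algebraMap R _ f) = ι v (algebraMap k _ c₀) := by
    intro v
    rw [← hc₀]
    exact hagree v ⟨algebraMap R M f, hUD _ hfU⟩ _ rfl
  by_cases hRU : ∀ r : R, algebraMap R M r ∈
      Subring.closure {b : M | IsIntegral R b ∧ IsIntegral R b⁻¹}
  · choose θ hθ using fun r : R => hrat r (hUD _ (hRU r))
    have hφθ : ∀ v r, φ v (algebraMap R _ r) = ι v (algebraMap k _ (θ r)) := by
      intro v r
      rw [← hθ r]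
      exact hagree v ⟨algebraMap R M r, hUD _ (hRU r)⟩ _ rfl
    obtain ⟨Ψ, h1, h2, h3⟩ := full_core (f : K) hf R hRn hun hfree s hs hsec S ι φ hφ θ hφθ
    have hΨs : ∀ σ ∈ (⊤ : Subgroup Gal(AlgebraicClosure k/k)), ∀ b b' : integralClosure R M,
        (b' : M) = s σ b → Ψ b' = σ (Ψ b) := fun σ _ b b' hb => h1.2 σ σ (fun x => rfl) b b' hb
    have hθf : algebraMap k kb (θ f) = algebraMap k kb c₀ := by
      rw [← hθ f, ← hc₀]
    refine ⟨c₀, ⊤, Ψ, isOpen_univ, h1.1, hΨs, by rw [h2, hθf], hφf, fun Ψ' hΨ' hr hs' => ?_,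
      fun _ => h1, fun _ => ⟨fun r => ⟨θ r, h2 r, fun v => hφθ v r⟩, fun Ψ' hΨ' => ?_⟩⟩
    · obtain ⟨Δ', hΔ'o, hΔ'⟩ := hs'
      exact uniq_open (f : K) hf R hRn hun hfree s hsec Ψ Ψ' h1.1 hΨ' hr ⊤ Δ'
        isOpen_univ hΔ'o hΨs hΔ'
    · refine h3 Ψ' hΨ' ?_
      have hle : ∀ c : M, c ∈ divUnitRing R M → c ∈ (integralClosure R M) := by
        intro c hc
        have h1 : divUnitRing R M ≤ (integralClosure R M).toSubring := by
          rw [divUnitRing, Subring.closure_le]
          intro b hb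
          exact hb.1
        exact h1 hc
      let inc : divUnitRing R M →+* integralClosure R M :=
        { toFun := fun c => ⟨c, hle c c.2⟩
          map_one' := rfl
          map_mul' := fun _ _ => rfl
          map_zero' := rfl
          map_add' := fun _ _ => rfl }
      have h4 : Ψ'.comp inc = ψ := by
        refine hψ3 _ ⟨fun a b hb => ?_, fun σ τ hστ b b' hb => ?_⟩
        · exact hΨ'.1 a (inc b) hb
        · exact hΨ'.2 σ τ hστ (inc b) (inc b') hb
      intro r
      have h5 := congrArg (fun ψ => ψ ⟨algebraMap R M r, hUD _ (hRU r)⟩) h4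
      simp only [hθ] at h5
      exact h5
  · obtain ⟨Δ, Ψ, h1, h2, h3, h4, h5, h6⟩ := full_core_alt (f : K) hf R f.2 hRn hun hfree s hs hsec S
      ι φ hφ c₀ hφf
    exact ⟨c₀, Δ, Ψ, h1, h2, h4, h3, hφf, h5, h6, fun h => absurd h hRU⟩

end Pool.Agent.Lib.MP_2f3286_ag.GU
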