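import Pool.Agent.Lib.MP_2f3286_ag.GU.CuspF
import Pool.Agent.Lib.MP_2f3286_ag.GU.Final

/-!
# Units which vanish at the cusps: the data of the criterion
-/

open IsDedekindDomain NumberField Polynomial

namespace Pool.Agent.Lib.MP_2f3286_ag.GU

open PA Full

universe u

theorem isAlgebraic_adjoin_of_trdeg {k K : Type*} [Field k] [Field K] [Algebra k K]
    (htr : Algebra.trdeg k K = 1) {f : K} (hf : Transcendental k f) (x : K) :
    IsAlgebraic (IntermediateField.adjoin k {f}) x := by
  have hind : AlgebraicIndependent k ![(f : K)] := algebraicIndependent_iff_transcendental.mpr hf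
  have hbasis : IsTranscendenceBasis k ![(f : K)] :=
    hind.isTranscendenceBasis_of_lift_trdeg_le_of_finite (by rw [htr]; simp)
  have hKalg := hbasis.isAlgebraic
  have hrange : Set.range ![(f : K)] = {(f : K)} := by simp
  have hle : Algebra.adjoin k (Set.range ![(f : K)]) ≤ (IntermediateField.adjoin k {f}).toSubalgebra := by
    rw [hrange]
    exact IntermediateField.algebra_adjoin_le_adjoin k _
  obtain ⟨q, hq0, hq⟩ := hKalg.isAlgebraic x
  let φ : Algebra.adjoin k (Set.range ![(f : K)]) →ₐ[k] IntermediateField.adjoin k {f} :=
    Subalgebra.inclusion hle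
  have hinj : Function.Injective φ := Subalgebra.inclusion_injective hle
  refine ⟨q.map φ.toRingHom, ?_, ?_⟩
  · rwa [Ne, Polynomial.map_eq_zero_iff hinj]
  · rw [aeval_def, eval₂_map]
    exact hq

theorem fin_top {F K : Type*} [Field F] [Field K] [Algebra F K] (E : IntermediateField F K)
    (h : FiniteDimensional F E) (hE : E = ⊤) : FiniteDimensional F K := by
  subst hE
  exact LinearEquiv.finiteDimensional (IntermediateField.topEquiv (F := F) (E := K)).toLinearEquiv

/-- an algebraic extension which is finite over a simple extension is finite -/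
theorem fin_of_simple {k F E K : Type*} [Field k] [Field F] [Field E] [Field K] [Algebra k K] [Algebra k F]
    [Algebra F K] [IsScalarTower k F K] [Algebra.IsAlgebraic F K] [Algebra E K] (x₀ : K)
    (hE : ∀ a : E, algebraMap E K a ∈ IntermediateField.adjoin k {x₀}) [FiniteDimensional E K] :
    FiniteDimensional F K := by
  classical
  let b := Module.finBasis E K
  let s : Set K := insert x₀ (Set.range b)
  have hs : s.Finite := (Set.finite_range b).insert x₀
  have hfin : FiniteDimensional F (IntermediateField.adjoin F s) := by
    have := hs.to_subtype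
    exact IntermediateField.finiteDimensional_adjoin fun x _ => Algebra.IsIntegral.isIntegral x
  have hx : x₀ ∈ IntermediateField.adjoin F s := IntermediateField.subset_adjoin F s (Set.mem_insert _ _)
  have hle : IntermediateField.adjoin k {x₀} ≤ (IntermediateField.adjoin F s).restrictScalars k := by
    rw [IntermediateField.adjoin_le_iff, Set.singleton_subset_iff]
    exact hx
  refine fin_top _ hfin ?_
  rw [eq_top_iff]
  intro x _
  rw [← b.sum_repr x]
  have hb : ∀ i, b i ∈ IntermediateField.adjoin F s := fun i =>
    IntermediateField.subset_adjoin F s (Set.mem_insert_of_mem x₀ (Set.mem_range_self i))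
  have hc : ∀ a : E, algebraMap E K a ∈ IntermediateField.adjoin F s := fun a => hle (hE a)
  refine sum_mem fun i _ => ?_
  rw [Algebra.smul_def]
  exact (IntermediateField.adjoin F s).mul_mem (hc _) (hb i)

/-- a function field is finite over the field generated by any transcendental element -/
theorem finite_over {k K : Type*} [Field k] [Field K] [Algebra k K] {x₀ : K} (hx₀ : Transcendental k x₀)
    [FiniteDimensional (IntermediateField.adjoin k {x₀}) K] {f : K} (hf : Transcendental k f) :
    FiniteDimensional (IntermediateField.adjoin k {f}) K := by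
  have htr := trdeg_of_finite hx₀
  have halg : Algebra.IsAlgebraic (IntermediateField.adjoin k {f}) K :=
    ⟨fun x => isAlgebraic_adjoin_of_trdeg htr hf x⟩
  exact fin_of_simple (k := k) (F := IntermediateField.adjoin k {f})
    (E := IntermediateField.adjoin k {x₀}) x₀ (fun a => a.2)

section

variable {k : Type u} [Field k]
    {K : Type*} [Field K] [Algebra k K]
    (R : Subalgebra k K)
    {M : Type*} [Field M] [Algebra K M] [Algebra k M] [IsScalarTower k K M]

/-- a nonconstant function in the ring generated by the units -/
theorem exists_unit_fun [IsGalois K M] (hRn : ∀ y : K, IsIntegral R y → y ∈ R) (e : M)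
    (h1 : IsIntegral R e) (h2 : IsIntegral R e⁻¹) (h3 : Transcendental k e) :
    ∃ f : R, algebraMap R M f ∈ Subring.closure {b : M | IsIntegral R b ∧ IsIntegral R b⁻¹} ∧
      Transcendental k (f : K) := by
  classical
  set T := Subring.closure {b : M | IsIntegral R b ∧ IsIntegral R b⁻¹} with hT
  have hTint : ∀ b ∈ T, IsIntegral R b := by
    intro b hb
    have h4 : T ≤ (integralClosure R M).toSubring := by
      rw [hT, Subring.closure_le]
      exact fun b hb => hb.1
    exact h4 hb
  have hK : IsIntegral K e := h1.tower_top
  set P := minpoly K e with hP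
  have hsplit : (P.map (algebraMap K M)).Splits := Normal.splits inferInstance e
  have hmonic : (P.map (algebraMap K M)).Monic := (minpoly.monic hK).map _
  have hprod : P.map (algebraMap K M) = ((P.map (algebraMap K M)).roots.map fun a => X - C a).prod :=
    hsplit.eq_prod_roots_of_monic hmonic
  have hroot : ∀ a ∈ (P.map (algebraMap K M)).roots, a ∈ T := by
    intro a ha
    have h4 : aeval a P = 0 := by
      rw [mem_roots hmonic.ne_zero, IsRoot.def, eval_map_algebraMap] at ha
      exact ha
    have h5 : IsConjRoot K e a := by
      have h6 : minpoly K a = P := by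
        refine (minpoly.eq_of_irreducible_of_monic (minpoly.irreducible hK) h4 (minpoly.monic hK)).symm
      exact h6.symm
    obtain ⟨σ, hσ⟩ := isConjRoot_iff_exists_algEquiv.mp h5.symm
    apply Subring.subset_closure
    rw [← hσ]
    refine ⟨h1.map ((σ.toAlgHom.restrictScalars R : M →ₐ[R] M)), ?_⟩
    have h7 := h2.map ((σ.toAlgHom.restrictScalars R : M →ₐ[R] M))
    have h8 : (σ.toAlgHom.restrictScalars R : M →ₐ[R] M) e⁻¹ = (σ e)⁻¹ := map_inv₀ σ e
    rw [h8] at h7
    exact h7
  have hlift : P.map (algebraMap K M) ∈ lifts T.subtype := by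
    rw [hprod]
    refine multiset_prod_mem _ fun q hq => ?_
    obtain ⟨a, ha, rfl⟩ := Multiset.mem_map.mp hq
    refine ⟨X - C ⟨a, hroot a ha⟩, ?_⟩
    change (X - C ⟨a, hroot a ha⟩ : T[X]).map T.subtype = X - C a
    rw [Polynomial.map_sub, map_X, map_C]
    rfl
  have hcoef : ∀ i, algebraMap K M (P.coeff i) ∈ T := by
    intro i
    obtain ⟨q, hq⟩ := hlift
    rw [← coeff_map, ← hq]
    change (q.map T.subtype).coeff i ∈ T
    rw [coeff_map]
    exact (q.coeff i).2
  have hR : ∀ i, P.coeff i ∈ R := by
    intro i
    apply hRn
    have h4 := hTint _ (hcoef i)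
    exact (isIntegral_algebraMap_iff (algebraMap K M).injective).mp h4
  by_contra hcon
  push Not at hcon
  have halg : ∀ i, IsAlgebraic k (P.coeff i) := by
    intro i
    have h4 := hcon ⟨P.coeff i, hR i⟩ (hcoef i)
    unfold Transcendental at h4
    rwa [not_not] at h4
  apply h3
  let κ : IntermediateField k K := algebraicClosure k K
  have hP' : P ∈ lifts (algebraMap κ K) := by
    rw [lifts_iff_coeff_lifts]
    intro i
    exact ⟨⟨P.coeff i, mem_algebraicClosure_iff.mpr (halg i)⟩, rfl⟩
  obtain ⟨Q, hQ, -, hQm⟩ := lifts_and_natDegree_eq_and_monic hP' (minpoly.monic hK)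
  have h4 : IsIntegral κ e := by
    refine ⟨Q, hQm, ?_⟩
    have h5 : aeval e P = 0 := minpoly.aeval K e
    rw [← hQ, aeval_def, eval₂_map] at h5
    exact h5
  have : Algebra.IsIntegral k κ := by
    have : Algebra.IsAlgebraic k κ := algebraicClosure.isAlgebraic k K
    exact Algebra.IsAlgebraic.isIntegral
  have : IsScalarTower k κ M := IsScalarTower.of_algebraMap_eq fun a => by
    change algebraMap k M a = algebraMap K M (algebraMap k K a)
    rw [← IsScalarTower.algebraMap_apply]
  exact (isIntegral_trans (R := k) (A := κ) e h4).isAlgebraic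

end

end Pool.Agent.Lib.MP_2f3286_ag.GU
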