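import Pool.Agent.Lib.MP_2f3286_ag.GU.CuspG

/-!
# Units which vanish at the cusps: a function with finitely many values at the local points
-/

open IsDedekindDomain NumberField Polynomial

namespace Pool.Agent.Lib.MP_2f3286_ag.GU

open PA Full

universe u

theorem cusp_data {k : Type u} [Field k] [NumberField k]
    {K : Type*} [Field K] [Algebra k K] (R : Subalgebra k K) (hRn : ∀ y : K, IsIntegral R y → y ∈ R)
    (x₀ : K) (hx₀ : Transcendental k x₀) [FiniteDimensional (IntermediateField.adjoin k {x₀}) K]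
    {M : Type*} [Field M] [Algebra K M] [IsGalois K M] [Algebra (AlgebraicClosure k) M] [Algebra k M]
    [IsScalarTower k K M] [IsScalarTower k (AlgebraicClosure k) M]
    (hmax : Pt.IsRadClosed R M (AlgebraicClosure k))
    (s : Gal(AlgebraicClosure k/k) →* Gal(M/K)) (hs : Continuous s)
    (hsec : ∀ σ a, s σ (algebraMap (AlgebraicClosure k) M a) =
      algebraMap (AlgebraicClosure k) M (σ a))
    (S : Finset (HeightOneSpectrum (𝓞 k)))
    (ι : ∀ v : {v : HeightOneSpectrum (𝓞 k) // v ∉ S},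
      AlgebraicClosure k →ₐ[k] AlgebraicClosure (v.1.adicCompletion k))
    (φ : ∀ v : {v : HeightOneSpectrum (𝓞 k) // v ∉ S},
      integralClosure R M →+* AlgebraicClosure (v.1.adicCompletion k))
    (hφ : ∀ v, Respects s (v.1.adicCompletion k)
      (ι v : _ →+* AlgebraicClosure (v.1.adicCompletion k)) (φ v))
    (A : Finset R) (T : Finset (HeightOneSpectrum (𝓞 k))) (N : ℕ) (hN : 1 ≤ N)
    (hcont : ∀ v, v.1 ∉ T → ∀ a ∈ A, ∀ y z : v.1.adicCompletion k,
      φ v (algebraMap R (integralClosure R M) a) = algebraMap _ _ y →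
      Valued.v y = Valued.v z ^ N → Valued.v y ≤ 1)
    (L : IntermediateField k (AlgebraicClosure k)) [FiniteDimensional k L] [NumberField L]
    {F : Type*} [Field F] [NumberField F] [Algebra F L] (S₀ : Finset (HeightOneSpectrum (𝓞 F)))
    (hS : ∀ W : HeightOneSpectrum (𝓞 L), (∃ v ∈ S, W.asIdeal.LiesOver v.asIdeal) →
      ∃ w ∈ S₀, W.asIdeal.LiesOver w.asIdeal)
    (hm : Fintype.card (InfinitePlace F) + S₀.card ≤ 2)
    {J : Type*} [Fintype J] (e : J → M) (he0 : ∀ j, e j ≠ 0)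
    (hint : ∀ j, IsIntegral (Algebra.adjoin k (algebraMap R M '' (A : Set R))) (e j))
    (hint' : ∀ j, IsIntegral (Algebra.adjoin k (algebraMap R M '' (A : Set R))) (e j)⁻¹)
    (hfix : ∀ σ ∈ L.fixingSubgroup, ∀ j, s σ (e j) = e j)
    (j₀ : J) (htr : Transcendental k (e j₀))
    (hcusp : ∀ C : Finset (ValuationSubring M),
      C.card ≤ (Fintype.card (InfinitePlace F) + S₀.card) * Module.finrank F L →
      (∀ A ∈ C, (∀ a : AlgebraicClosure k, algebraMap _ M a ∈ A) ∧ ∃ j, e j ∉ A) →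
      (∃ A ∈ C, e j₀ ∉ A) → ∃ j, ∀ A ∈ C, e j ∈ A.nonunits) :
    ∃ f : R, algebraMap R M f ∈ Subring.closure {b : M | IsIntegral R b ∧ IsIntegral R b⁻¹} ∧
      Transcendental k (f : K) ∧ FiniteDimensional (IntermediateField.adjoin k {(f : K)}) K ∧
      ∃ (S' : Finset (HeightOneSpectrum (𝓞 k))) (χ : k[X]), S ⊆ S' ∧ χ ≠ 0 ∧
        ∀ v, v.1 ∉ S' → φ v (algebraMap R (integralClosure R M) (aeval f χ)) = 0 := by
  classical
  have htow' : IsScalarTower k R M := IsScalarTower.of_algebraMap_eq fun x => by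
    rw [IsScalarTower.algebraMap_apply k K M]; rfl
  have htrM : Algebra.trdeg k M = 1 := trdeg_top (K := K) (trdeg_of_finite hx₀)
  have hi : ∀ j, IsIntegral R (e j) := by
    intro j
    obtain ⟨P, hP, -, h⟩ := exists_monic_adjoin (k := k) (A : Set R) (e j) (hint j)
    exact ⟨P, hP, h⟩
  have hi' : ∀ j, IsIntegral R (e j)⁻¹ := by
    intro j
    obtain ⟨P, hP, -, h⟩ := exists_monic_adjoin (k := k) (A : Set R) (e j)⁻¹ (hint' j)
    exact ⟨P, hP, h⟩
  obtain ⟨f, hf1, hf2⟩ := exists_unit_fun (k := k) R hRn (e j₀) (hi j₀) (hi' j₀) htr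
  refine ⟨f, hf1, hf2, finite_over hx₀ hf2, ?_⟩
  choose x hx using fun v => exists_local_point R s v.1 (ι v) (φ v) (hφ v)
  let E : J → integralClosure R M := fun j => ⟨e j, hi j⟩
  let E' : J → integralClosure R M := fun j => ⟨(e j)⁻¹, hi' j⟩
  have hee' : ∀ j, (E j : M) * E' j = 1 := fun j => mul_inv_cancel₀ (he0 j)
  choose G hG1 hG2 α hα using fun j => exists_alpha_cusp.{u, 0} R s hs hsec S ι φ hφ x hx htrM L (E j) (E' j)
    (hee' j) (fun n hn => Full.root_of_unit hmax _ (hi j) (hi' j) n hn) (fun σ hσ => hfix σ hσ j) A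
    (hint j) (hint' j) T N hN (fun v hv hvT a ha z hz =>
      hcont ⟨v, hv⟩ hvT a ha _ z (hx ⟨v, hv⟩ a).symm hz)
  obtain ⟨S', χ, hSS', hχ, hvan⟩ := cusp_chi R s hsec S ι φ hφ x hx L S₀ hS hm E E' hee' j₀ htr
    (fun a b _ _ => exists_biv_of_trdeg htrM a b) hcusp G (fun j => hG1 j)
    (fun F _ _ j => hG2 j F) α (fun j => hα j) f
  refine ⟨S', χ, hSS', hχ, fun v hv => ?_⟩
  rw [← hx, ← aeval_algHom_apply, hvan v.1 v.2 hv, map_zero]

end Pool.Agent.Lib.MP_2f3286_ag.GU
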