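import Pool.Agent.Lib.MP_2f3286_ag.GU.CM
import Pool.Agent.Lib.MP_2f3286_ag.GU.Final
import Pool.Agent.Lib.MP_2f3286_ag.GU.Bir

/-!
# Complements of closed points of the affine line

The ring generated by a function `t` and the inverses of the values at `t` of polynomials `P j`.
-/

open IsDedekindDomain NumberField Polynomial
open scoped TensorProduct
open Pool.Agent.Lib.MP_2f3286_ag
open Pool.Agent.Lib.MP_2f3286_bir

namespace Pool.Agent.Lib.MP_2f3286_ag.GU

open Full

universe u w₁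

section

variable {k : Type u} [Field k] [NumberField k] {K : Type*} [Field K] [Algebra k K] {J : Type*}

/-- the algebra generated by `t` and the inverses of the `P j (t)` -/
def polyAlg (t : K) (P : J → k[X]) : Subalgebra k K :=
  Algebra.adjoin k (insert t (Set.range fun j => (aeval t (P j))⁻¹))

omit [NumberField k] in
theorem mem_polyAlg (t : K) (P : J → k[X]) : t ∈ polyAlg t P :=
  Algebra.subset_adjoin (Set.mem_insert _ _)

omit [NumberField k] in
theorem inv_mem_polyAlg (t : K) (P : J → k[X]) (j : J) : (aeval t (P j))⁻¹ ∈ polyAlg t P :=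
  Algebra.subset_adjoin (Set.mem_insert_of_mem _ ⟨j, rfl⟩)

omit [NumberField k] in
theorem aeval_mem_polyAlg (t : K) (P : J → k[X]) (q : k[X]) : aeval t q ∈ polyAlg t P := by
  have h1 : ((aeval (⟨t, mem_polyAlg t P⟩ : polyAlg t P) q : polyAlg t P) : K) = aeval t q :=
    (aeval_algHom_apply (polyAlg t P).val _ q).symm
  rw [← h1]
  exact (aeval (⟨t, mem_polyAlg t P⟩ : polyAlg t P) q).2

/-- the function `t` -/
noncomputable def polyVar (t : K) (P : J → k[X]) : polyAlg t P := ⟨t, mem_polyAlg t P⟩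

/-- the units `P j (t)` -/
noncomputable def polyUnit (t : K) (P : J → k[X]) (h : ∀ j, aeval t (P j) ≠ 0) (j : J) : (polyAlg t P)ˣ :=
  Units.mkOfMulEqOne ⟨_, aeval_mem_polyAlg t P (P j)⟩ ⟨_, inv_mem_polyAlg t P j⟩
    (Subtype.ext (mul_inv_cancel₀ (h j)))

omit [NumberField k] in
theorem coe_polyUnit (t : K) (P : J → k[X]) (h : ∀ j, aeval t (P j) ≠ 0) (j : J) :
    (((polyUnit t P h j : (polyAlg t P)ˣ) : polyAlg t P) : K) = aeval t (P j) := rfl

omit [NumberField k] in
theorem coe_polyUnit_inv (t : K) (P : J → k[X]) (h : ∀ j, aeval t (P j) ≠ 0) (j : J) :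
    ((((polyUnit t P h j)⁻¹ : (polyAlg t P)ˣ) : polyAlg t P) : K) = (aeval t (P j))⁻¹ := rfl

omit [NumberField k] in
theorem polyUnit_eq (t : K) (P : J → k[X]) (h : ∀ j, aeval t (P j) ≠ 0) (j : J) :
    ((polyUnit t P h j : (polyAlg t P)ˣ) : polyAlg t P) = aeval (polyVar t P) (P j) := by
  apply Subtype.ext
  rw [coe_polyUnit]
  exact aeval_algHom_apply (polyAlg t P).val (polyVar t P) (P j)

omit [NumberField k] in
theorem polyAlg_gen (t : K) (P : J → k[X]) (h : ∀ j, aeval t (P j) ≠ 0) (r : polyAlg t P) :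
    r ∈ Algebra.adjoin k (insert (polyVar t P)
      (Set.range fun j => (((polyUnit t P h j)⁻¹ : (polyAlg t P)ˣ) : polyAlg t P))) := by
  obtain ⟨r, hr⟩ := r
  have hr' := hr
  rw [polyAlg] at hr'
  induction hr' using Algebra.adjoin_induction with
  | mem r hr' =>
    refine Algebra.subset_adjoin ?_
    rcases hr' with rfl | ⟨j, rfl⟩
    · exact Or.inl rfl
    · exact Or.inr ⟨j, rfl⟩
  | algebraMap a => exact Subalgebra.algebraMap_mem _ a
  | add a b ha hb iha ihb => exact add_mem (iha ha) (ihb hb)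
  | mul a b ha hb iha ihb => exact mul_mem (iha ha) (ihb hb)

omit [NumberField k] in
theorem polyAlg_fg [Finite J] (t : K) (P : J → k[X]) : (polyAlg t P).FG := by
  classical
  have : Fintype J := Fintype.ofFinite J
  refine ⟨insert t (Finset.univ.image fun j => (aeval t (P j))⁻¹), ?_⟩
  rw [polyAlg]
  congr 1
  ext x
  simp

end

/-- There is a CM field `L ⊃ k`, with complex conjugation `c`, which fixes the places of `L` above `S`, such that
either `c` is the identity on `k` and a polynomial `Q` over `L`, not constant and prime to its conjugate, divides a `P j`,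
or some `P j` have zeros `a 0, a 1, a 2` in `L` with `(a 0 - a 2) / (a 1 - a 2)` not real. -/
def CMZeros (k : Type u) [Field k] [NumberField k] (S : Finset (HeightOneSpectrum (𝓞 k))) {J : Type*}
    (P : J → k[X]) : Prop :=
  ∃ (L : Type w₁) (_ : Field L) (_ : NumberField L) (_ : Algebra k L) (c : L ≃+* L),
    (∀ (σ : L →+* ℂ) (x : L), σ (c x) = starRingEnd ℂ (σ x)) ∧
    (∀ w : HeightOneSpectrum (𝓞 L), (∃ v ∈ S, w.asIdeal.LiesOver v.asIdeal) →
      ∀ x : L, w.valuation L (c x) = w.valuation L x) ∧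
    (((∀ a : k, c (algebraMap k L a) = algebraMap k L a) ∧ ∃ (j : J) (Q : L[X]), 0 < Q.natDegree ∧
      IsCoprime Q (Q.map (c : L →+* L)) ∧ Q ∣ (P j).map (algebraMap k L)) ∨
     ∃ (a : Fin 3 → L) (i : Fin 3 → J), (∀ t, aeval (a t) (P (i t)) = 0) ∧
      (a 0 - a 2) * c (a 1 - a 2) ≠ c (a 0 - a 2) * (a 1 - a 2))

theorem enough_of_CMZeros {k : Type u} [Field k] [NumberField k] {K : Type*} [Field K] [Algebra k K]
    {J : Type*} (S : Finset (HeightOneSpectrum (𝓞 k))) (t : K) (P : J → k[X])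
    (hP : ∀ j, P j ≠ 0) (h : ∀ j, aeval t (P j) ≠ 0) (hcm : CMZeros.{u, w₁} k S P) :
    EnoughUnits.{u, w₁} k (polyAlg t P) S (polyUnit t P h) := by
  obtain ⟨L, _, _, _, c, hc, hcS, ⟨hck, j, Q, hQ, hQc, hQP⟩ | ⟨a, i, ha, hnr⟩⟩ := hcm
  · exact enough_of_cm (polyUnit t P h) (polyVar t P) P (polyUnit_eq t P h) (polyAlg_gen t P h) j S c
      hck hc hcS Q hQ hQc (hP j) hQP
  · exact enough_of_cm3 (polyUnit t P h) (polyVar t P) P (polyUnit_eq t P h) (polyAlg_gen t P h) S c
      hc hcS a i (fun t => hP _) ha hnr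

/-- a function with a value of a polynomial a unit is a sum of units -/
theorem mem_units_of_unit {k : Type u} [Field k] [NumberField k]
    {K : Type*} [Field K] [Algebra k K] (R : Subalgebra k K) (f : R)
    {M : Type*} [Field M] [Algebra K M]
    [Algebra (AlgebraicClosure k) M] [Algebra k M]
    [IsScalarTower k K M] [IsScalarTower k (AlgebraicClosure k) M]
    (P : k[X]) (hdeg : 0 < P.natDegree) (hunit : IsUnit (aeval f P)) :
    algebraMap R M f ∈ Subring.closure {b : M | IsIntegral R b ∧ IsIntegral R b⁻¹} := by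
  set kb := AlgebraicClosure k with hkb
  have hBk : ∀ a : kb, IsIntegral R (algebraMap kb M a) := Pt.integral_const R
  have hfK : ∀ p : k[X], ((aeval f p : R) : K) = aeval (f : K) p := fun p =>
    (aeval_algHom_apply R.val f p).symm
  obtain ⟨u, hu⟩ := hunit
  have hconst : ∀ a : kb, algebraMap kb M a ∈ Subring.closure {b : M | IsIntegral R b ∧ IsIntegral R b⁻¹} :=
    fun a => Subring.subset_closure ⟨hBk _, by rw [← map_inv₀]; exact hBk _⟩
  -- a root of `P`
  obtain ⟨β, hβ⟩ : ∃ β : kb, aeval β P = 0 := by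
    refine IsAlgClosed.exists_aeval_eq_zero kb P ?_
    rw [degree_eq_natDegree (by rintro rfl; simp at hdeg)]
    exact_mod_cast hdeg.ne'
  have hdvd : (X - C β) ∣ P.map (algebraMap k kb) := by
    rw [dvd_iff_isRoot, IsRoot.def, eval_map, ← aeval_def]
    exact hβ
  obtain ⟨q, hq⟩ := hdvd
  let w : M := algebraMap K M (f : K) - algebraMap kb M β
  have hw1 : IsIntegral R w := by
    refine IsIntegral.sub ?_ (hBk β)
    have h1 : algebraMap K M (f : K) = algebraMap R M f := rfl
    rw [h1]; exact isIntegral_algebraMap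
  let q' : M := aeval (algebraMap K M (f : K)) q
  have hq1 : IsIntegral R q' := by
    simp only [q']
    rw [aeval_eq_sum_range]
    refine IsIntegral.sum _ fun i _ => ?_
    rw [Algebra.smul_def]
    refine (hBk _).mul (IsIntegral.pow ?_ i)
    have h1 : algebraMap K M (f : K) = algebraMap R M f := rfl
    rw [h1]; exact isIntegral_algebraMap
  have hwq : w * q' = algebraMap R M (u : R) := by
    have h1 : aeval (algebraMap K M (f : K)) (P.map (algebraMap k kb)) =
        algebraMap K M (aeval (f : K) P) := by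
      rw [aeval_map_algebraMap]
      exact aeval_algebraMap_apply M (f : K) P
    have h2 : algebraMap R M (u : R) = algebraMap K M (aeval (f : K) P) := by
      rw [hu]
      change algebraMap K M ((aeval f P : R) : K) = _
      rw [hfK]
    rw [h2, ← h1, hq, map_mul, map_sub, aeval_X, aeval_C]
  have huM : algebraMap R M (u : R) * algebraMap R M ((u⁻¹ : Rˣ) : R) = 1 := by
    rw [← map_mul, Units.mul_inv, map_one]
  have hw2 : IsIntegral R w⁻¹ := by
    have h1 : w⁻¹ = q' * algebraMap R M ((u⁻¹ : Rˣ) : R) := by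
      apply inv_eq_of_mul_eq_one_right
      rw [← mul_assoc, hwq, huM]
    rw [h1]
    exact hq1.mul isIntegral_algebraMap
  have h1 : algebraMap R M f = w + algebraMap kb M β := (sub_add_cancel _ _).symm
  rw [h1]
  exact add_mem (Subring.subset_closure ⟨hw1, hw2⟩) (hconst β)

/-- the theorem on sections of the full fundamental group, with enough units among the values of the polynomials -/
theorem final_of_enough {k : Type u} [Field k] [NumberField k]
    {K : Type*} [Field K] [Algebra k K]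
    (R : Subalgebra k K) (hRn : ∀ y : K, IsIntegral R y → y ∈ R) (hfg : R.FG)
    (f : R) (hf : Transcendental k (f : K))
    [FiniteDimensional (IntermediateField.adjoin k {(f : K)}) K]
    (S : Finset (HeightOneSpectrum (𝓞 k)))
    {J : Type*} [Fintype J] (P : J → k[X]) (j₀ : J) (hdeg : 0 < (P j₀).natDegree)
    (h0 : ∀ j, aeval (f : K) (P j) ≠ 0)
    (hE : EnoughUnits.{u, w₁} k (polyAlg (f : K) P) S (polyUnit (f : K) P h0))
    (hunit : ∀ j, IsUnit (aeval f (P j)))
    {M : Type*} [Field M] [Algebra K M] [IsGalois K M]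
    [Algebra (AlgebraicClosure k) M] [Algebra k M]
    [IsScalarTower k K M] [IsScalarTower k (AlgebraicClosure k) M]
    (hun : ∀ Ψ : integralClosure R M →+* AlgebraicClosure k,
      (∀ (a : AlgebraicClosure k) (b : integralClosure R M), (b : M) = algebraMap _ M a → Ψ b = a) →
      ∀ g ∈ geomGroup K M (AlgebraicClosure k),
        (∀ b b' : integralClosure R M, (b' : M) = g b → Ψ b' = Ψ b) → g = 1)
    (hmax : Pt.IsRadClosed R M (AlgebraicClosure k))
    (s : Gal(AlgebraicClosure k/k) →* Gal(M/K)) (hs : Continuous s)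
    (hsec : ∀ σ a, s σ (algebraMap (AlgebraicClosure k) M a) =
      algebraMap (AlgebraicClosure k) M (σ a))
    (ι : ∀ v : {v : HeightOneSpectrum (𝓞 k) // v ∉ S},
      AlgebraicClosure k →ₐ[k] AlgebraicClosure (v.1.adicCompletion k))
    (φ : ∀ v : {v : HeightOneSpectrum (𝓞 k) // v ∉ S},
      integralClosure R M →+* AlgebraicClosure (v.1.adicCompletion k))
    (hφ : ∀ v, Respects s (v.1.adicCompletion k)
      (ι v : _ →+* AlgebraicClosure (v.1.adicCompletion k)) (φ v))
    (T : Finset (HeightOneSpectrum (𝓞 k))) (N : ℕ) (hN : 1 ≤ N)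
    (hint : ∀ v, v.1 ∉ T → ∀ j, ∀ y z : v.1.adicCompletion k,
      φ v (algebraMap R (integralClosure R M) (aeval f (P j))) = algebraMap _ _ y →
      Valued.v y = Valued.v z ^ N → Valued.v y = 1) :
    ∃ (c₀ : k) (Δ : Subgroup Gal(AlgebraicClosure k/k))
      (Ψ : integralClosure R M →+* AlgebraicClosure k),
      IsOpen (Δ : Set Gal(AlgebraicClosure k/k)) ∧
      (∀ (a : AlgebraicClosure k) (b : integralClosure R M), (b : M) = algebraMap _ M a → Ψ b = a) ∧
      (∀ σ ∈ Δ, ∀ b b' : integralClosure R M, (b' : M) = s σ b → Ψ b' = σ (Ψ b)) ∧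
      Ψ (algebraMap R _ f) = algebraMap k _ c₀ ∧
      (∀ v, φ v (algebraMap R _ f) = ι v (algebraMap k _ c₀)) ∧
      (∀ Ψ' : integralClosure R M →+* AlgebraicClosure k,
        (∀ (a : AlgebraicClosure k) (b : integralClosure R M), (b : M) = algebraMap _ M a →
          Ψ' b = a) → (∀ r : R, Ψ' (algebraMap R _ r) = Ψ (algebraMap R _ r)) →
        (∃ Δ' : Subgroup Gal(AlgebraicClosure k/k), IsOpen (Δ' : Set Gal(AlgebraicClosure k/k)) ∧
          ∀ σ ∈ Δ', ∀ b b' : integralClosure R M, (b' : M) = s σ b → Ψ' b' = σ (Ψ' b)) → Ψ' = Ψ) ∧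
      ((∀ r : R, ∃ c : k, Ψ (algebraMap R _ r) = algebraMap k _ c) →
        Respects s k (RingHom.id _) Ψ) ∧
      ((∀ r : R, algebraMap R M r ∈
        Subring.closure {b : M | IsIntegral R b ∧ IsIntegral R b⁻¹}) →
        (∀ r : R, ∃ c : k, Ψ (algebraMap R _ r) = algebraMap k _ c ∧
          ∀ v, φ v (algebraMap R _ r) = ι v (algebraMap k _ c)) ∧
        ∀ Ψ' : integralClosure R M →+* AlgebraicClosure k,
          Respects s k (RingHom.id _) Ψ' → Ψ' = Ψ) := by
  have hfK : ∀ p : k[X], ((aeval f p : R) : K) = aeval (f : K) p := fun p =>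
    (aeval_algHom_apply R.val f p).symm
  have hle : polyAlg (f : K) P ≤ R := by
    refine Algebra.adjoin_le ?_
    rintro x (rfl | ⟨j, rfl⟩)
    · exact f.2
    · obtain ⟨w, hw⟩ := hunit j
      have h2 : ((w : R) : K) = aeval (f : K) (P j) := by rw [hw]; exact hfK _
      have h3 : ((↑w⁻¹ : R) : K) = (aeval (f : K) (P j))⁻¹ := by
        rw [← h2]
        refine eq_inv_of_mul_eq_one_left ?_
        have h4 := congrArg (Subtype.val : R → K) (w.inv_mul)
        exact h4
      beta_reduce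
      rw [← h3]; exact (↑w⁻¹ : R).2
  have hincf : Subalgebra.inclusion hle (polyVar (f : K) P) = f := rfl
  obtain ⟨S', χ, hSS', hχ, hvan⟩ := exists_poly_of_units_sub (polyAlg (f : K) P) R hle
    (polyAlg_fg (f : K) P) S (polyUnit (f : K) P h0) hE hmax s hs hsec ι φ hφ T N hN
    (fun v hv i y z hy hyz => hint v hv i y z (by
      rw [← hy]
      congr 1
      apply Subtype.ext
      change algebraMap K M ((aeval f (P i) : R) : K) = algebraMap K M (aeval (f : K) (P i))
      rw [hfK]) hyz) (polyVar (f : K) P)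
  exact gu_final R hRn hfg f hf (mem_units_of_unit R f (P j₀) hdeg (hunit j₀)) hun hmax s hs hsec S
    ι φ hφ S' hSS' χ hχ (fun v hv => hvan v hv)

/-- the birational theorem, with enough units among the values of the polynomials -/
theorem bir_of_enough {k : Type u} [Field k] [NumberField k]
    {K : Type*} [Field K] [Algebra k K] (htr : Algebra.trdeg k K = 1)
    {Ω : Type*} [Field Ω] [Algebra K Ω] [IsAlgClosure K Ω]
    [Algebra (AlgebraicClosure k) Ω] [Algebra k Ω]
    [IsScalarTower k K Ω] [IsScalarTower k (AlgebraicClosure k) Ω]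
    (t : K) (ht : ∀ c : k, t ≠ algebraMap k K c)
    (S : Finset (HeightOneSpectrum (𝓞 k)))
    {J : Type*} [Fintype J] (P : J → k[X])
    (hE : ∀ h0 : ∀ j, aeval t (P j) ≠ 0,
      EnoughUnits.{u, w₁} k (polyAlg t P) S (polyUnit t P h0))
    (s : Gal(AlgebraicClosure k/k) →* Gal(Ω/K)) (hs : Continuous s)
    (hsec : ∀ σ a, s σ (algebraMap (AlgebraicClosure k) Ω a) =
      algebraMap (AlgebraicClosure k) Ω (σ a))
    (ι : ∀ v : {v : HeightOneSpectrum (𝓞 k) // v ∉ S},
      AlgebraicClosure k →ₐ[k] AlgebraicClosure (v.1.adicCompletion k))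
    (A : {v : HeightOneSpectrum (𝓞 k) // v ∉ S} → ValuationSubring Ω)
    (φ : ∀ v : {v : HeightOneSpectrum (𝓞 k) // v ∉ S},
      A v →+* AlgebraicClosure (v.1.adicCompletion k))
    (hφ : ∀ v, IsPlaceOf s (v.1.adicCompletion k)
      (ι v : _ →+* AlgebraicClosure (v.1.adicCompletion k)) (A v) (φ v))
    (x : ∀ v : {v : HeightOneSpectrum (𝓞 k) // v ∉ S}, v.1.adicCompletion k)
    (hx : ∀ v, ∃ h : algebraMap K Ω t ∈ A v, φ v ⟨algebraMap K Ω t, h⟩ = algebraMap _ _ (x v))
    (hxC : ∀ v, ∀ j, aeval (x v) (P j) ≠ 0)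
    (T : Finset (HeightOneSpectrum (𝓞 k))) (N : ℕ) (hN : 1 ≤ N)
    (hint : ∀ v, v.1 ∉ T → ∀ j, ∀ z : v.1.adicCompletion k,
      Valued.v (aeval (x v) (P j)) = Valued.v z ^ N → Valued.v (aeval (x v) (P j)) = 1) :
    ∃ (A₀ : ValuationSubring Ω) (ψ₀ : A₀ →+* AlgebraicClosure k),
      IsPlaceOf s k (RingHom.id _) A₀ ψ₀ ∧
      (∀ v, A v = A₀ ∧ ∀ (a : A v) (b : A₀), (a : Ω) = b → φ v a = ι v (ψ₀ b)) ∧
      (∀ (f : K) (h : algebraMap K Ω f ∈ A₀),
        ∃ a : k, ψ₀ ⟨algebraMap K Ω f, h⟩ = algebraMap k (AlgebraicClosure k) a) ∧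
      ∀ (A₁ : ValuationSubring Ω) (ψ₁ : A₁ →+* AlgebraicClosure k),
        IsPlaceOf s k (RingHom.id _) A₁ ψ₁ →
        A₁ = A₀ ∧ ∀ (a : A₁) (b : A₀), (a : Ω) = b → ψ₁ a = ψ₀ b := by
  classical
  have hkA : ∀ v, ∀ c : k, ∃ h : algebraMap K Ω (algebraMap k K c) ∈ A v,
      φ v ⟨algebraMap K Ω (algebraMap k K c), h⟩ =
        algebraMap _ _ (algebraMap k (v.1.adicCompletion k) c) := by
    intro v c
    obtain ⟨h, h'⟩ := (hφ v).1 (algebraMap k _ c)
    have h1 : algebraMap (AlgebraicClosure k) Ω (algebraMap k _ c) =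
        algebraMap K Ω (algebraMap k K c) := by
      rw [← IsScalarTower.algebraMap_apply, ← IsScalarTower.algebraMap_apply]
    have h2 : algebraMap K Ω (algebraMap k K c) ∈ A v := by rw [← h1]; exact h
    refine ⟨h2, ?_⟩
    have h3 : (⟨algebraMap K Ω (algebraMap k K c), h2⟩ : A v) = ⟨_, h⟩ := Subtype.ext h1.symm
    rw [h3, h']
    change ι v (algebraMap k _ c) = _
    rw [AlgHom.commutes]
    rfl
  have htc : ∀ v, ∀ p : k[X], ∃ h : algebraMap K Ω (aeval t p) ∈ A v,
      φ v ⟨algebraMap K Ω (aeval t p), h⟩ = algebraMap _ _ (aeval (x v) p) := by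
    intro v p
    obtain ⟨h1, h2⟩ := hx v
    let κ : k →+* A v := ((algebraMap K Ω).comp (algebraMap k K)).codRestrict (A v).toSubring
      (fun c => (hkA v c).1)
    have h3 : ((eval₂ κ (⟨algebraMap K Ω t, h1⟩ : A v) p : A v) : Ω) = algebraMap K Ω (aeval t p) := by
      have h4 := hom_eval₂ p κ (A v).subtype (⟨algebraMap K Ω t, h1⟩ : A v)
      change (A v).subtype (eval₂ κ (⟨algebraMap K Ω t, h1⟩ : A v) p) = _
      rw [h4, aeval_def, hom_eval₂]
      rfl
    have h5 : algebraMap K Ω (aeval t p) ∈ A v := by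
      rw [← h3]; exact (eval₂ κ (⟨algebraMap K Ω t, h1⟩ : A v) p).2
    refine ⟨h5, ?_⟩
    have h6 : (⟨algebraMap K Ω (aeval t p), h5⟩ : A v) = eval₂ κ (⟨algebraMap K Ω t, h1⟩ : A v) p :=
      Subtype.ext h3.symm
    rw [h6, hom_eval₂, h2, aeval_def, hom_eval₂]
    congr 1
    refine RingHom.ext fun c => ?_
    exact (hkA v c).2
  obtain ⟨v₁, hv₁⟩ := exists_notMem S
  have h0 : ∀ j, aeval t (P j) ≠ 0 := by
    intro j h0
    obtain ⟨h1, h2⟩ := htc ⟨v₁, hv₁⟩ (P j)
    have h3 : (⟨algebraMap K Ω (aeval t (P j)), h1⟩ : A ⟨v₁, hv₁⟩) = 0 := by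
      apply Subtype.ext
      change algebraMap K Ω (aeval t (P j)) = 0
      rw [h0, map_zero]
    rw [h3, map_zero] at h2
    exact hxC ⟨v₁, hv₁⟩ j ((map_eq_zero _).mp h2.symm)
  have hRA : ∀ v, ∀ r : polyAlg t P, algebraMap K Ω (r : K) ∈ A v := by
    rintro v ⟨r, hr⟩
    change algebraMap K Ω r ∈ A v
    rw [polyAlg] at hr
    induction hr using Algebra.adjoin_induction with
    | mem r hr =>
      rcases hr with rfl | ⟨j, rfl⟩
      · exact (hx v).1
      · obtain ⟨h1, h2⟩ := htc v (P j)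
        beta_reduce
        rw [map_inv₀]
        refine (hφ v).2.1 _ (?_ : φ v ⟨_, h1⟩ ≠ 0)
        rw [h2, _root_.map_ne_zero]
        exact hxC v j
    | algebraMap c => exact (hkA v c).1
    | add a b _ _ ha hb => rw [map_add]; exact add_mem ha hb
    | mul a b _ _ ha hb => rw [map_mul]; exact mul_mem ha hb
  refine bir_units htr (polyAlg t P) (polyAlg_fg t P) (polyVar t P)
    (fun c h => ht c (congrArg (Subtype.val : polyAlg t P → K) h)) S (polyUnit t P h0) (hE h0) s hs hsec
    ι A φ hφ hRA T N hN (fun v hv j y z hy hyz => ?_)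
  obtain ⟨h1, h2⟩ := htc v (P j)
  have h3 : y = aeval (x v) (P j) := by
    apply (algebraMap (v.1.adicCompletion k) (AlgebraicClosure (v.1.adicCompletion k))).injective
    rw [← hy, ← h2]
    rfl
  rw [h3] at hyz ⊢
  exact hint v hv j z hyz

end Pool.Agent.Lib.MP_2f3286_ag.GU
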