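import Mathlib

/-!
# Extension of homomorphisms into algebraically closed fields

Let `A` be a subring of a domain `B` that is finitely generated over `A`, and `v ≠ 0` in `B`. There is `u ≠ 0` in `A`
such that every homomorphism `f` from `A` to an algebraically closed field with `f u ≠ 0` extends to a homomorphism `g`
on `B` with `g v ≠ 0`.
-/

open Polynomial

namespace Pool.Agent.Lib.MP_2f3286_ag.GU

theorem ext_step {Ω : Type*} [Field Ω] [IsAlgClosed Ω] {C D : Type*} [CommRing C] [IsDomain C] [CommRing D] [IsDomain D]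
    [Algebra C D] (hinj : Function.Injective (algebraMap C D)) (x : D) (hx : Algebra.adjoin C {x} = ⊤) {v : D}
    (hv : v ≠ 0) : ∃ u : C, u ≠ 0 ∧ ∀ f : C →+* Ω, f u ≠ 0 →
      ∃ g : D →+* Ω, (∀ c, g (algebraMap C D c) = f c) ∧ g v ≠ 0 := by
  classical
  have hsurj : Function.Surjective (aeval x : C[X] →ₐ[C] D) := by
    rw [← AlgHom.range_eq_top, ← Algebra.adjoin_singleton_eq_range_aeval, hx]
  have hext : ∀ (f : C →+* Ω) (ξ : Ω), (∀ q : C[X], aeval x q = 0 → q.eval₂ f ξ = 0) →
      ∃ g : D →+* Ω, ∀ q : C[X], g (aeval x q) = q.eval₂ f ξ := by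
    intro f ξ h
    refine ⟨RingHom.liftOfSurjective ((aeval x : C[X] →ₐ[C] D) : C[X] →+* D) hsurj
      ⟨eval₂RingHom f ξ, fun q hq => h q hq⟩, fun q => ?_⟩
    exact RingHom.liftOfRightInverse_comp_apply _ _ _ ⟨eval₂RingHom f ξ, fun q hq => h q hq⟩ q
  by_cases htr : ∀ q : C[X], aeval x q = 0 → q = 0
  · obtain ⟨q, hq⟩ := hsurj v
    have hq0 : q ≠ 0 := by
      rintro rfl
      rw [map_zero] at hq
      exact hv hq.symm
    refine ⟨q.leadingCoeff, leadingCoeff_ne_zero.mpr hq0, fun f hf => ?_⟩
    have hqf : q.map f ≠ 0 := by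
      intro h
      apply hf
      have h1 := congrArg (fun p => p.coeff q.natDegree) h
      simpa using h1
    obtain ⟨ξ, hξ⟩ := Infinite.exists_notMem_finset (q.map f).roots.toFinset
    rw [Multiset.mem_toFinset, mem_roots hqf, IsRoot.def, eval_map] at hξ
    obtain ⟨g, hg⟩ := hext f ξ (fun p hp => by rw [htr p hp, eval₂_zero])
    refine ⟨g, fun c => ?_, ?_⟩
    · have h1 := hg (Polynomial.C c)
      rwa [aeval_C, eval₂_C] at h1
    · rw [← hq, hg]
      exact hξ
  · push Not at htr
    obtain ⟨p, ⟨hp0, hpx⟩, hmin⟩ := exists_minimalFor_of_wellFoundedLT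
      (fun q : C[X] => q ≠ 0 ∧ aeval x q = 0) natDegree ⟨htr.choose, htr.choose_spec.2, htr.choose_spec.1⟩
    have hmin' : ∀ q : C[X], aeval x q = 0 → q.natDegree < p.natDegree → q = 0 := by
      intro q hq hlt
      by_contra hq0
      exact absurd (hmin ⟨hq0, hq⟩ hlt.le) (not_le.mpr hlt)
    have hdeg : 0 < p.natDegree := by
      rw [Nat.pos_iff_ne_zero]
      intro h0
      obtain ⟨c, hc⟩ := natDegree_eq_zero.mp h0
      rw [← hc, aeval_C, map_eq_zero_iff _ hinj] at hpx
      apply hp0
      rw [← hc, hpx, Polynomial.C_0]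
    have hxalg : IsAlgebraic C x := ⟨p, hp0, hpx⟩
    have hvalg : IsAlgebraic C v := by
      have h1 : Algebra.adjoin C {x} ≤ Subalgebra.algebraicClosure C D := by
        rw [Algebra.adjoin_le_iff, Set.singleton_subset_iff]
        exact hxalg
      have h2 : v ∈ Algebra.adjoin C {x} := by rw [hx]; exact Algebra.mem_top
      exact h1 h2
    obtain ⟨q, hq0, hq⟩ := hvalg.exists_nonzero_coeff_and_aeval_eq_zero (mem_nonZeroDivisors_of_ne_zero hv)
    refine ⟨p.leadingCoeff * q.coeff 0, mul_ne_zero (leadingCoeff_ne_zero.mpr hp0) hq0, fun f hf => ?_⟩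
    rw [map_mul] at hf
    have hf1 : f p.leadingCoeff ≠ 0 := left_ne_zero_of_mul hf
    have hf2 : f (q.coeff 0) ≠ 0 := right_ne_zero_of_mul hf
    obtain ⟨ξ, hξ⟩ := IsAlgClosed.exists_root (p.map f) (by
      rw [degree_map_eq_of_leadingCoeff_ne_zero f hf1, degree_eq_natDegree hp0]
      exact_mod_cast hdeg.ne')
    rw [IsRoot.def, eval_map] at hξ
    have key : ∀ (n : ℕ) (r : C[X]), r.natDegree < n → aeval x r = 0 → r.eval₂ f ξ = 0 := by
      intro n
      induction n with
      | zero => intro r hr; exact absurd hr (Nat.not_lt_zero _)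
      | succ n ih =>
        intro r hrn hrx
        by_cases hlt : r.natDegree < p.natDegree
        · rw [hmin' r hrx hlt, eval₂_zero]
        · push Not at hlt
          have hr0 : r ≠ 0 := by
            rintro rfl
            rw [natDegree_zero] at hlt
            omega
          let r' : C[X] := Polynomial.C p.leadingCoeff * r -
            Polynomial.C r.leadingCoeff * X ^ (r.natDegree - p.natDegree) * p
          have hr'x : aeval x r' = 0 := by
            simp only [r']
            rw [map_sub, map_mul, map_mul, hrx, hpx, mul_zero, mul_zero, sub_zero]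
          have hdA : (Polynomial.C p.leadingCoeff * r).degree = r.degree := by
            rw [degree_C_mul (leadingCoeff_ne_zero.mpr hp0)]
          have hdB : (Polynomial.C r.leadingCoeff * X ^ (r.natDegree - p.natDegree) * p).degree = r.degree := by
            rw [degree_mul, degree_mul, degree_C (leadingCoeff_ne_zero.mpr hr0), degree_X_pow, zero_add,
              degree_eq_natDegree hp0, degree_eq_natDegree hr0]
            norm_cast
            omega
          have hlt' : r'.degree < r.degree := by
            rw [← hdA]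
            refine degree_sub_lt_left (hdA.trans hdB.symm)
              (mul_ne_zero (C_ne_zero.mpr (leadingCoeff_ne_zero.mpr hp0)) hr0) ?_
            rw [leadingCoeff_mul, leadingCoeff_C, leadingCoeff_mul, leadingCoeff_mul, leadingCoeff_C,
              leadingCoeff_X_pow, mul_one, mul_comm]
          have hev : r'.eval₂ f ξ = 0 := by
            by_cases hr'0 : r' = 0
            · rw [hr'0, eval₂_zero]
            · refine ih r' ?_ hr'x
              have h1 := natDegree_lt_natDegree hr'0 hlt'
              omega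
          simp only [r'] at hev
          rw [eval₂_sub, eval₂_mul, eval₂_mul, hξ, mul_zero, sub_zero, eval₂_C] at hev
          exact (mul_eq_zero.mp hev).resolve_left hf1
    obtain ⟨g, hg⟩ := hext f ξ (fun r hr => key _ r (Nat.lt_succ_self _) hr)
    have hgc : ∀ c, g (algebraMap C D c) = f c := by
      intro c
      have h1 := hg (Polynomial.C c)
      rwa [aeval_C, eval₂_C] at h1
    refine ⟨g, hgc, fun h0 => hf2 ?_⟩
    rw [← divX_mul_X_add q, map_add, map_mul, aeval_X, aeval_C] at hq
    have h1 := congrArg g hq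
    rw [map_add, map_mul, h0, mul_zero, zero_add, hgc, map_zero] at h1
    exact h1

theorem ext_hom_card {Ω : Type*} [Field Ω] [IsAlgClosed Ω] {B : Type*} [CommRing B] [IsDomain B] (n : ℕ) :
    ∀ (A : Subring B) (s : Finset B), s.card = n → Algebra.adjoin A (s : Set B) = ⊤ → ∀ v : B, v ≠ 0 →
      ∃ u : A, u ≠ 0 ∧ ∀ f : A →+* Ω, f u ≠ 0 → ∃ g : B →+* Ω, (∀ c : A, g c = f c) ∧ g v ≠ 0 := by
  classical
  induction n with
  | zero =>
    intro A s hs hadj v hv
    rw [Finset.card_eq_zero] at hs
    rw [hs, Finset.coe_empty, Algebra.adjoin_empty] at hadj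
    have hsurj : Function.Bijective (algebraMap A B) := by
      refine ⟨Subtype.val_injective, fun b => ?_⟩
      have h1 : b ∈ (⊥ : Subalgebra A B) := by rw [hadj]; exact Algebra.mem_top
      exact Algebra.mem_bot.mp h1
    obtain ⟨u, hu⟩ := hsurj.2 v
    refine ⟨u, ?_, fun f hf => ?_⟩
    · rintro rfl
      rw [map_zero] at hu
      exact hv hu.symm
    · let e : A ≃+* B := RingEquiv.ofBijective (algebraMap A B) hsurj
      have he : ∀ a : A, e.symm a = a := fun a => e.symm_apply_apply a
      refine ⟨f.comp (e.symm : B →+* A), fun c => ?_, ?_⟩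
      · change f (e.symm c) = f c
        rw [he]
      · rw [← hu]
        change f (e.symm (u : B)) ≠ 0
        rw [he]
        exact hf
  | succ n ih =>
    intro A s hs hadj v hv
    obtain ⟨x, hx⟩ := Finset.card_pos.mp (by omega : 0 < s.card)
    let A₁ : Subring B := (Algebra.adjoin A {x}).toSubring
    have hA₁ : ∀ a : A, (a : B) ∈ A₁ := fun a => (Algebra.adjoin A {x}).algebraMap_mem a
    have hxA₁ : x ∈ A₁ := Algebra.subset_adjoin (Set.mem_singleton x)
    obtain ⟨u₁, hu₁, hext₁⟩ := ih A₁ (s.erase x) (by rw [Finset.card_erase_of_mem hx]; omega) (by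
      rw [eq_top_iff]
      intro b _
      have h1 : b ∈ Algebra.adjoin A (s : Set B) := by rw [hadj]; exact Algebra.mem_top
      induction h1 using Algebra.adjoin_induction with
      | mem y hy =>
        by_cases hyx : y = x
        · rw [hyx]
          exact (Algebra.adjoin A₁ _).algebraMap_mem ⟨x, hxA₁⟩
        · exact Algebra.subset_adjoin (Finset.mem_coe.mpr (Finset.mem_erase.mpr ⟨hyx, hy⟩))
      | algebraMap a => exact (Algebra.adjoin A₁ _).algebraMap_mem ⟨a, hA₁ a⟩
      | add a b _ _ ha hb => exact add_mem (ha trivial) (hb trivial)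
      | mul a b _ _ ha hb => exact mul_mem (ha trivial) (hb trivial)) v hv
    let _ : Algebra A A₁ := (Algebra.adjoin A {x}).algebra
    have hval : ∀ a : A, ((algebraMap A A₁ a : A₁) : B) = a := fun a => rfl
    obtain ⟨u, hu, hext⟩ := ext_step (Ω := Ω) (C := A) (D := A₁) (fun a b hab => by
        apply Subtype.ext
        rw [← hval a, ← hval b, hab]) ⟨x, hxA₁⟩ (by
      rw [eq_top_iff]
      rintro ⟨b, hb⟩ -
      have hb' : b ∈ Algebra.adjoin A {x} := hb
      refine Algebra.adjoin_induction
        (p := fun b (hb : b ∈ Algebra.adjoin A {x}) => (⟨b, hb⟩ : A₁) ∈ Algebra.adjoin A {(⟨x, hxA₁⟩ : A₁)})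
        ?_ ?_ ?_ ?_ hb'
      · intro y hy
        have hyx : y = x := hy
        subst hyx
        exact Algebra.subset_adjoin (Set.mem_singleton _)
      · exact fun a => (Algebra.adjoin A _).algebraMap_mem a
      · exact fun a b ha hb iha ihb => add_mem iha ihb
      · exact fun a b ha hb iha ihb => mul_mem iha ihb) hu₁
    refine ⟨u, hu, fun f hf => ?_⟩
    obtain ⟨g₁, hg₁, hg₁u⟩ := hext f hf
    obtain ⟨g, hg, hgv⟩ := hext₁ g₁ hg₁u
    refine ⟨g, fun c => ?_, hgv⟩
    have h1 := hg (algebraMap A A₁ c)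
    rw [hval] at h1
    rw [h1, hg₁]

/-- **Extension of homomorphisms.** -/
theorem ext_hom {Ω : Type*} [Field Ω] [IsAlgClosed Ω] {A B : Type*} [CommRing A] [CommRing B] [IsDomain B]
    [Algebra A B] (hinj : Function.Injective (algebraMap A B)) [Algebra.FiniteType A B] {v : B} (hv : v ≠ 0) :
    ∃ u : A, u ≠ 0 ∧ ∀ f : A →+* Ω, f u ≠ 0 →
      ∃ g : B →+* Ω, (∀ c, g (algebraMap A B c) = f c) ∧ g v ≠ 0 := by
  classical
  obtain ⟨s, hs⟩ := (inferInstance : Algebra.FiniteType A B).out
  let A' : Subring B := (algebraMap A B).range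
  let e : A ≃+* A' := RingEquiv.ofBijective (algebraMap A B).rangeRestrict
    ⟨fun a b h => hinj (congrArg Subtype.val h), (algebraMap A B).rangeRestrict_surjective⟩
  have he : ∀ a, ((e a : A') : B) = algebraMap A B a := fun a => rfl
  obtain ⟨u, hu, hext⟩ := ext_hom_card (Ω := Ω) s.card A' s rfl (by
    rw [eq_top_iff]
    intro b _
    have h1 : b ∈ Algebra.adjoin A (s : Set B) := by rw [hs]; exact Algebra.mem_top
    induction h1 using Algebra.adjoin_induction with
    | mem y hy => exact Algebra.subset_adjoin hy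
    | algebraMap a => exact (Algebra.adjoin A' _).algebraMap_mem ⟨_, a, rfl⟩
    | add a b _ _ ha hb => exact add_mem (ha trivial) (hb trivial)
    | mul a b _ _ ha hb => exact mul_mem (ha trivial) (hb trivial)) v hv
  refine ⟨e.symm u, ?_, fun f hf => ?_⟩
  · intro h
    apply hu
    rw [← e.apply_symm_apply u, h, map_zero]
  · obtain ⟨g, hg, hgv⟩ := hext (f.comp (e.symm : A' →+* A)) hf
    refine ⟨g, fun c => ?_, hgv⟩
    have h1 := hg (e c)
    rw [he] at h1
    rw [h1]
    change f (e.symm (e c)) = f c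
    rw [e.symm_apply_apply]

end Pool.Agent.Lib.MP_2f3286_ag.GU
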