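import Pool.Agent.Lib.MP_2f3286_ag.GU.GAgree
import Pool.Agent.Lib.MP_2f3286_ag.GU.Final

/-!
# Sections for which a function takes finitely many values: all functions in the ring generated by the units
-/

open IsDedekindDomain NumberField Polynomial

namespace Pool.Agent.Lib.MP_2f3286_ag.GU

open Full

universe u in
/-- If the function `f`, in the ring generated by the units, takes at almost all local points values that are roots of
one polynomial over `k`, then the section comes from a point over a finite extension of `k`, at which all functions in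
the ring generated by the units are rational, with the values at the local points. -/
theorem gu_final2 {k : Type u} [Field k] [NumberField k]
    {K : Type*} [Field K] [Algebra k K]
    (R : Subalgebra k K) (hRn : ∀ y : K, IsIntegral R y → y ∈ R) (hfg : R.FG)
    (f : R) (hf : Transcendental k (f : K))
    [FiniteDimensional (IntermediateField.adjoin k {(f : K)}) K]
    {M : Type*} [Field M] [Algebra K M] [IsGalois K M]
    [Algebra (AlgebraicClosure k) M] [Algebra k M]
    [IsScalarTower k K M] [IsScalarTower k (AlgebraicClosure k) M]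
    (hfU : algebraMap R M f ∈ Subring.closure {b : M | IsIntegral R b ∧ IsIntegral R b⁻¹})
    (hun : ∀ Ψ : integralClosure R M →+* AlgebraicClosure k,
      (∀ (a : AlgebraicClosure k) (b : integralClosure R M), (b : M) = algebraMap _ M a → Ψ b = a) →
      ∀ g ∈ geomGroup K M (AlgebraicClosure k),
        (∀ b b' : integralClosure R M, (b' : M) = g b → Ψ b' = Ψ b) → g = 1)
    (hmax : Pt.IsRadClosed R M (AlgebraicClosure k))
    (s : Gal(AlgebraicClosure k/k) →* Gal(M/K)) (hs : Continuous s)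
    (hsec : ∀ σ a, s σ (algebraMap (AlgebraicClosure k) M a) =
      algebraMap (AlgebraicClosure k) M (σ a))
    (S : Finset (HeightOneSpectrum (𝓞 k)))
    (ι : ∀ v : {v : HeightOneSpectrum (𝓞 k) // v ∉ S},
      AlgebraicClosure k →ₐ[k] AlgebraicClosure (v.1.adicCompletion k))
    (φ : ∀ v : {v : HeightOneSpectrum (𝓞 k) // v ∉ S},
      integralClosure R M →+* AlgebraicClosure (v.1.adicCompletion k))
    (hφ : ∀ v, Respects s (v.1.adicCompletion k)
      (ι v : _ →+* AlgebraicClosure (v.1.adicCompletion k)) (φ v))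
    (S' : Finset (HeightOneSpectrum (𝓞 k))) (hSS' : S ⊆ S') (χ : k[X]) (hχ : χ ≠ 0)
    (hvan : ∀ v : {v : HeightOneSpectrum (𝓞 k) // v ∉ S}, v.1 ∉ S' →
      φ v (algebraMap R (integralClosure R M) (aeval f χ)) = 0) :
    ∃ (Δ : Subgroup Gal(AlgebraicClosure k/k))
      (Ψ : integralClosure R M →+* AlgebraicClosure k),
      IsOpen (Δ : Set Gal(AlgebraicClosure k/k)) ∧
      (∀ (a : AlgebraicClosure k) (b : integralClosure R M), (b : M) = algebraMap _ M a → Ψ b = a) ∧
      (∀ σ ∈ Δ, ∀ b b' : integralClosure R M, (b' : M) = s σ b → Ψ b' = σ (Ψ b)) ∧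
      (∀ r : R, algebraMap R M r ∈ Subring.closure {b : M | IsIntegral R b ∧ IsIntegral R b⁻¹} →
        ∃ c : k, Ψ (algebraMap R _ r) = algebraMap k _ c ∧
          ∀ v, φ v (algebraMap R _ r) = ι v (algebraMap k _ c)) ∧
      (∀ Ψ' : integralClosure R M →+* AlgebraicClosure k,
        (∀ (a : AlgebraicClosure k) (b : integralClosure R M), (b : M) = algebraMap _ M a →
          Ψ' b = a) → (∀ r : R, Ψ' (algebraMap R _ r) = Ψ (algebraMap R _ r)) →
        (∃ Δ' : Subgroup Gal(AlgebraicClosure k/k), IsOpen (Δ' : Set Gal(AlgebraicClosure k/k)) ∧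
          ∀ σ ∈ Δ', ∀ b b' : integralClosure R M, (b' : M) = s σ b → Ψ' b' = σ (Ψ' b)) → Ψ' = Ψ) ∧
      ((∀ r : R, ∃ c : k, Ψ (algebraMap R _ r) = algebraMap k _ c) →
        Respects s k (RingHom.id _) Ψ) ∧
      ((∀ r : R, algebraMap R M r ∈
        Subring.closure {b : M | IsIntegral R b ∧ IsIntegral R b⁻¹}) →
        ∀ Ψ' : integralClosure R M →+* AlgebraicClosure k,
          Respects s k (RingHom.id _) Ψ' → Ψ' = Ψ) := by
  classical
  set kb := AlgebraicClosure k with hkb
  have htr := trdeg_of_finite hf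
  have hUD : ∀ b : M, b ∈ Subring.closure {b : M | IsIntegral R b ∧ IsIntegral R b⁻¹} →
      b ∈ divUnitRing R M := by
    intro b hb
    have h1 : {b : M | IsIntegral R b ∧ IsIntegral R b⁻¹} ⊆ {b : M | IsDivUnit R b} :=
      fun b hb => ⟨hb.1, hb.2, fun n hn => root_of_unit hmax b hb.1 hb.2 n hn⟩
    exact Subring.closure_mono h1 hb
  have hsK : ∀ σ, ∀ r : R, s σ (algebraMap R M r) = algebraMap R M r := by
    intro σ r
    exact AlgEquiv.commutes (s σ) (r : K)
  -- the point on the ring generated by the units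
  let inj : {v : HeightOneSpectrum (𝓞 k) // v ∉ S'} → {v : HeightOneSpectrum (𝓞 k) // v ∉ S} :=
    fun v => ⟨v.1, fun h => v.2 (hSS' h)⟩
  have hh : aeval f χ ≠ 0 := by
    intro h0
    refine hf ⟨χ, hχ, ?_⟩
    have h1 : ((aeval f χ : R) : K) = aeval (f : K) χ := (aeval_algHom_apply R.val f χ).symm
    rw [← h1, h0]; rfl
  obtain ⟨⟨ψ, hψ1, hψ2, hψ3⟩, -⟩ := core_div htr R s hs hsec S' (fun v => ι (inj v))
    (fun v => φ (inj v)) (fun v => hφ (inj v)) (aeval f χ) hh (fun v => hvan (inj v) v.2)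
  obtain ⟨c₀, Δ, Ψ, h1, h2, h3, h4, h5, h6, h7, h8⟩ := gu_final R hRn hfg f hf hfU hun hmax s hs hsec S ι φ hφ
    S' hSS' χ hχ hvan
  refine ⟨Δ, Ψ, h1, h2, h3, fun r hr => ?_, h6, h7, fun h => (h8 h).2⟩
  have hr' := hUD _ hr
  obtain ⟨a, ha⟩ := mem_of_fixed (F := k) (Fb := kb) (y := ψ ⟨algebraMap R M r, hr'⟩) (by
    intro τ
    exact (hψ1.2 τ τ (fun _ => rfl) _ _ (hsK τ r).symm).symm)
  refine ⟨a, ?_, fun v => ?_⟩
  · rw [ha]
    exact global_agree R s hs ψ hψ1 Δ h1 Ψ h2 h3 ⟨algebraMap R M r, hr'⟩ _ rfl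
  · rw [ha]
    exact local_agree R s hs hsec ψ hψ1 v.1 (ι v) (φ v) (hφ v) ⟨algebraMap R M r, hr'⟩ _ rfl

end Pool.Agent.Lib.MP_2f3286_ag.GU
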