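import Pool.Agent.Lib.MP_2f3286_ag.GU.Agree

/-!
# A point of the integral closure over an open subgroup agrees with the point on the divisible units
-/

open IsDedekindDomain NumberField IntermediateField

namespace Pool.Agent.Lib.MP_2f3286_ag.GU

universe u

/-- divisible elements of a number field -/
theorem eq_one_of_divisible_nf {L : Type*} [Field L] [NumberField L] {y : L} (hy : y ≠ 0)
    (h : ∀ n : ℕ, 1 ≤ n → ∃ w : L, w ^ n = y) : y = 1 := by
  obtain ⟨P, hP, hP'⟩ := Ring.not_isField_iff_exists_prime.mp (RingOfIntegers.not_isField L)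
  let W : HeightOneSpectrum (𝓞 L) := ⟨P, hP', hP⟩
  apply (algebraMap L (W.adicCompletion L)).injective
  rw [map_one]
  refine eq_one_of_divisible W ?_ fun n hn => ?_
  · rw [_root_.map_ne_zero]; exact hy
  · obtain ⟨w, hw⟩ := h n hn
    exact ⟨algebraMap L _ w, by rw [← map_pow, hw]⟩

theorem global_agree {k : Type u} [Field k] [NumberField k]
    {K : Type*} [Field K] [Algebra k K] (R : Subalgebra k K)
    {M : Type*} [Field M] [Algebra K M] [Algebra.IsAlgebraic K M]
    [Algebra (AlgebraicClosure k) M] [Algebra k M]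
    [IsScalarTower k K M] [IsScalarTower k (AlgebraicClosure k) M]
    (s : Gal(AlgebraicClosure k/k) →* Gal(M/K)) (hs : Continuous s)
    (ψ : divUnitRing R M →+* AlgebraicClosure k) (hψ : Respects s k (RingHom.id _) ψ)
    (Δ : Subgroup Gal(AlgebraicClosure k/k)) (hΔ : IsOpen (Δ : Set Gal(AlgebraicClosure k/k)))
    (Ψ : integralClosure R M →+* AlgebraicClosure k)
    (hΨ : ∀ (a : AlgebraicClosure k) (b : integralClosure R M), (b : M) = algebraMap _ M a → Ψ b = a)
    (hΨs : ∀ σ ∈ Δ, ∀ b b' : integralClosure R M, (b' : M) = s σ b → Ψ b' = σ (Ψ b))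
    (c : divUnitRing R M) (b : integralClosure R M) (hbc : (b : M) = c) : Ψ b = ψ c := by
  classical
  have hBk : ∀ a : AlgebraicClosure k, IsIntegral R (algebraMap (AlgebraicClosure k) M a) := by
    intro a
    have htow' : IsScalarTower k R M := IsScalarTower.of_algebraMap_eq fun x => by
      rw [IsScalarTower.algebraMap_apply k K M]; rfl
    have h1 : IsIntegral k a := Algebra.IsIntegral.isIntegral a
    have h2 : IsIntegral k (algebraMap (AlgebraicClosure k) M a) := h1.algebraMap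
    exact h2.tower_top
  -- the generators
  have key : ∀ (b₁ : M) (hb₁ : IsDivUnit R b₁), b₁ ≠ 0 →
      Ψ ⟨b₁, hb₁.1⟩ = ψ ⟨b₁, Subring.subset_closure hb₁⟩ := by
    intro b₁ hb₁ hb₁0
    have hopen : {σ : Gal(AlgebraicClosure k/k) | s σ b₁ = b₁} ∈ nhds 1 := by
      have hTalg : IsIntegral K b₁ := hb₁.1.tower_top
      have hfin : FiniteDimensional K K⟮b₁⟯ := adjoin.finiteDimensional hTalg
      have ho := IntermediateField.fixingSubgroup_isOpen (K⟮b₁⟯ : IntermediateField K M)
      have hmem : ((K⟮b₁⟯ : IntermediateField K M).fixingSubgroup : Set Gal(M/K)) ∈ nhds (s 1) := by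
        rw [map_one]
        exact ho.mem_nhds (one_mem _)
      refine Filter.mem_of_superset (hs.continuousAt hmem) fun σ hσ => ?_
      have h7 : s σ ∈ (K⟮b₁⟯ : IntermediateField K M).fixingSubgroup := hσ
      rw [IntermediateField.mem_fixingSubgroup_iff] at h7
      exact h7 b₁ (IntermediateField.mem_adjoin_simple_self _ _)
    obtain ⟨L, hLfin, hLs⟩ := (krullTopology_mem_nhds_one_iff k _ _).mp
      (Filter.inter_mem hopen (hΔ.mem_nhds (one_mem Δ)))
    have hLnf : NumberField L := NumberField.of_module_finite k L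
    have hfix : ∀ σ ∈ L.fixingSubgroup, s σ b₁ = b₁ := fun σ hσ => (hLs hσ).1
    have hLΔ : ∀ σ ∈ L.fixingSubgroup, σ ∈ Δ := fun σ hσ => (hLs hσ).2
    have hψ0 : ∀ (β : M) (hβ : IsDivUnit R β), β ≠ 0 →
        ψ ⟨β, Subring.subset_closure hβ⟩ ≠ 0 := by
      intro β hβ hβ0 h0
      have h6 : ψ (⟨β, Subring.subset_closure hβ⟩ * ⟨β⁻¹, Subring.subset_closure hβ.inv⟩) = 1 := by
        have h7 : ((⟨β, Subring.subset_closure hβ⟩ : divUnitRing R M) *
            ⟨β⁻¹, Subring.subset_closure hβ.inv⟩) = 1 := Subtype.ext (mul_inv_cancel₀ hβ0)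
        rw [h7, map_one]
      rw [map_mul, h0, zero_mul] at h6
      exact zero_ne_one h6
    have hΨ0 : ∀ (β : M) (hβ : IsDivUnit R β), β ≠ 0 → Ψ ⟨β, hβ.1⟩ ≠ 0 := by
      intro β hβ hβ0 h0
      have h6 : Ψ (⟨β, hβ.1⟩ * ⟨β⁻¹, hβ.2.1⟩) = 1 := by
        have h7 : ((⟨β, hβ.1⟩ : integralClosure R M) * ⟨β⁻¹, hβ.2.1⟩) = 1 :=
          Subtype.ext (mul_inv_cancel₀ hβ0)
        rw [h7, map_one]
      rw [map_mul, h0, zero_mul] at h6
      exact zero_ne_one h6
    have hquot : ∀ n : ℕ, 1 ≤ n → ∃ w : L, (w : AlgebraicClosure k) ^ n =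
        Ψ ⟨b₁, hb₁.1⟩ / ψ ⟨b₁, Subring.subset_closure hb₁⟩ := by
      intro n hn
      obtain ⟨β, hβ⟩ := hb₁.2.2 n hn
      have hβ0 : β ≠ 0 := by
        rintro rfl
        rw [zero_pow (by omega)] at hβ
        exact hb₁0 hβ.symm
      have hβD : IsDivUnit R β := IsDivUnit.of_pow (kb := AlgebraicClosure k) hβ0 hn (by
        rw [hβ]; exact hb₁)
      have hmem : Ψ ⟨β, hβD.1⟩ / ψ ⟨β, Subring.subset_closure hβD⟩ ∈ L := by
        apply mem_of_fixed_L
        intro σ hσ
        have h6 : (s σ β / β) ^ n = 1 := by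
          rw [div_pow, ← map_pow, hβ, hfix σ hσ, div_self hb₁0]
        obtain ⟨ζ, hζ⟩ := root_of_unity_mem (AlgebraicClosure k) M hn h6
        have hζ' : s σ β = algebraMap (AlgebraicClosure k) M ζ * β := by rw [hζ, div_mul_cancel₀ _ hβ0]
        have hζ0 : ζ ≠ 0 := by
          rintro rfl
          rw [map_zero, zero_mul, _root_.map_eq_zero] at hζ'
          exact hβ0 hζ'
        have e1 : ζ * ψ ⟨β, Subring.subset_closure hβD⟩ = σ (ψ ⟨β, Subring.subset_closure hβD⟩) := by
          have h7 := hψ.2 σ σ (fun _ => rfl) ⟨β, Subring.subset_closure hβD⟩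
            (⟨algebraMap (AlgebraicClosure k) M ζ, Subring.subset_closure
              (IsDivUnit.const (fun a => hBk a) ζ)⟩ * ⟨β, Subring.subset_closure hβD⟩) hζ'.symm
          rw [← h7, map_mul, hψ.1 ζ ⟨algebraMap (AlgebraicClosure k) M ζ, Subring.subset_closure
            (IsDivUnit.const (fun a => hBk a) ζ)⟩ rfl]
          rfl
        have e2 : ζ * Ψ ⟨β, hβD.1⟩ = σ (Ψ ⟨β, hβD.1⟩) := by
          have h7 := hΨs σ (hLΔ σ hσ) ⟨β, hβD.1⟩
            (⟨algebraMap (AlgebraicClosure k) M ζ, hBk ζ⟩ * ⟨β, hβD.1⟩) hζ'.symm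
          rw [← h7, map_mul, hΨ ζ ⟨algebraMap (AlgebraicClosure k) M ζ, hBk ζ⟩ rfl]
        rw [map_div₀, ← e1, ← e2, mul_div_mul_left _ _ hζ0]
      refine ⟨⟨_, hmem⟩, ?_⟩
      change (Ψ ⟨β, hβD.1⟩ / ψ ⟨β, Subring.subset_closure hβD⟩) ^ n = _
      rw [div_pow, ← map_pow, ← map_pow]
      congr 2
      · exact Subtype.ext hβ
      · exact Subtype.ext hβ
    choose! w hw using hquot
    have hw1 : w 1 = 1 := by
      refine eq_one_of_divisible_nf ?_ fun n hn => ⟨w n, ?_⟩
      · intro h0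
        have h6 := hw 1 le_rfl
        rw [h0, ZeroMemClass.coe_zero, zero_pow one_ne_zero] at h6
        exact div_ne_zero (hΨ0 _ hb₁ hb₁0) (hψ0 _ hb₁ hb₁0) h6.symm
      · apply Subtype.ext
        have h6 := hw 1 le_rfl
        rw [pow_one] at h6
        rw [h6]
        exact hw n hn
    have h6 := hw 1 le_rfl
    rw [hw1, OneMemClass.coe_one, one_pow] at h6
    exact (div_eq_one_iff_eq (hψ0 _ hb₁ hb₁0)).mp h6.symm
  -- all elements
  have hle : divUnitRing R M ≤ (integralClosure R M).toSubring := by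
    rw [divUnitRing, Subring.closure_le]
    intro b hb
    exact hb.1
  let inc : divUnitRing R M →+* integralClosure R M :=
    { toFun := fun c => ⟨c, hle c.2⟩
      map_one' := rfl
      map_mul' := fun _ _ => rfl
      map_zero' := rfl
      map_add' := fun _ _ => rfl }
  have hb : b = inc c := Subtype.ext hbc
  rw [hb]
  obtain ⟨c, hc⟩ := c
  change Ψ (inc ⟨c, hc⟩) = ψ ⟨c, hc⟩
  have hc' := hc
  rw [divUnitRing] at hc'
  clear hb hbc
  induction hc' using Subring.closure_induction with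
  | mem a ha =>
    by_cases ha0 : a = 0
    · subst ha0
      have h1 : (⟨0, hc⟩ : divUnitRing R M) = 0 := rfl
      rw [h1, map_zero, map_zero, map_zero]
    · exact key a ha ha0
  | zero =>
    have h1 : (⟨0, hc⟩ : divUnitRing R M) = 0 := rfl
    rw [h1, map_zero, map_zero, map_zero]
  | one =>
    have h1 : (⟨1, hc⟩ : divUnitRing R M) = 1 := rfl
    rw [h1, map_one, map_one, map_one]
  | add a a' ha ha' iha iha' =>
    have h2 : a ∈ divUnitRing R M := ha
    have h3 : a' ∈ divUnitRing R M := ha'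
    have h1 : (⟨a + a', hc⟩ : divUnitRing R M) = ⟨a, h2⟩ + ⟨a', h3⟩ := rfl
    rw [h1, map_add, map_add, map_add, iha h2, iha' h3]
  | neg a ha iha =>
    have h2 : a ∈ divUnitRing R M := ha
    have h1 : (⟨-a, hc⟩ : divUnitRing R M) = -⟨a, h2⟩ := rfl
    rw [h1, map_neg, map_neg, map_neg, iha h2]
  | mul a a' ha ha' iha iha' =>
    have h2 : a ∈ divUnitRing R M := ha
    have h3 : a' ∈ divUnitRing R M := ha'
    have h1 : (⟨a * a', hc⟩ : divUnitRing R M) = ⟨a, h2⟩ * ⟨a', h3⟩ := rfl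
    rw [h1, map_mul, map_mul, map_mul, iha h2, iha' h3]

end Pool.Agent.Lib.MP_2f3286_ag.GU
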