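import Pool.Agent.Lib.MP_2f3286_ag.GU.LClass

/-!
# The classes of units over `L` at the local points
-/

open IsDedekindDomain NumberField IntermediateField
open scoped TensorProduct

namespace Pool.Agent.Lib.MP_2f3286_ag.GU

universe u w w₁ w₂

/-- `G` are the classes of the values of the units `u` at points over `F` at which the section comes from a point -/
def ClassAt {k : Type u} [Field k] {K : Type*} [Field K] [Algebra k K] (R : Subalgebra k K)
    {M : Type*} [Field M] [Algebra K M] [Algebra (AlgebraicClosure k) M]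
    {L : Type*} [Field L] [Algebra k L] (lam : L →ₐ[k] AlgebraicClosure k)
    {J : Type*} (u : J → (L ⊗[k] R)ˣ)
    (s : Gal(AlgebraicClosure k/k) →* Gal(M/K)) (G : J → ℕ → Lˣ)
    (F : Type w) [Field F] : Prop :=
  ∀ (σ : L →+* F) (y : R →+* F)
    (ι' : AlgebraicClosure k →+* AlgebraicClosure F)
    (φ' : integralClosure R M →+* AlgebraicClosure F),
    Respects s F ι' φ' → (∀ l, ι' (lam l) = algebraMap F _ (σ l)) →
    (∀ r, φ' (algebraMap R (integralClosure R M) r) = algebraMap F _ (y r)) →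
    ∀ X : L ⊗[k] R →+* F, (∀ l, X (l ⊗ₜ 1) = σ l) → (∀ r, X (1 ⊗ₜ r) = y r) →
    ∀ j n, 1 ≤ n → ∃ w : F, σ (G j n) * w ^ n = X (u j)

theorem classAt_of_data {k : Type u} [Field k] [NumberField k]
    {K : Type*} [Field K] [Algebra k K] (R : Subalgebra k K)
    {M : Type*} [Field M] [Algebra K M] [Algebra (AlgebraicClosure k) M] [Algebra k M]
    [IsScalarTower k K M] [IsScalarTower k (AlgebraicClosure k) M]
    {L : Type*} [Field L] [Algebra k L]
    (lam : L →ₐ[k] AlgebraicClosure k)
    {J : Type*} (u : J → (L ⊗[k] R)ˣ)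
    (s : Gal(AlgebraicClosure k/k) →* Gal(M/K))
    (e : L ≃ₐ[k] lam.fieldRange) (he : ∀ l, ((e l : lam.fieldRange) : AlgebraicClosure k) = lam l)
    (T : J → ℕ → M) (hTn : ∀ j n, 1 ≤ n → T j n ^ n = toM R lam (u j : L ⊗[k] R))
    (hTint : ∀ j n, 1 ≤ n → T j n ∈ integralClosure R M)
    (z : J → ℕ → (AlgebraicClosure k)ˣ) (e' : J → ℕ → (lam.fieldRange)ˣ)
    (hz : ∀ i n, 1 ≤ n → (z i n : AlgebraicClosure k) ^ n =
      algebraMap lam.fieldRange (AlgebraicClosure k) (e' i n))
    (hzσ : ∀ i n, 1 ≤ n → ∀ σ ∈ lam.fieldRange.fixingSubgroup, ∀ ζ : AlgebraicClosure k,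
      s σ (T i n) = algebraMap (AlgebraicClosure k) M ζ * T i n → σ (z i n) = ζ * z i n)
    (hζ : ∀ i n, 1 ≤ n → ∀ σ ∈ lam.fieldRange.fixingSubgroup, ∃ ζ : AlgebraicClosure k,
      s σ (T i n) = algebraMap (AlgebraicClosure k) M ζ * T i n)
    (F : Type w) [Field F] [CharZero F] :
    ClassAt R lam u s (fun j n => Units.map (e.symm : lam.fieldRange →* L) (e' j n)) F := by
  have hBk : ∀ a : AlgebraicClosure k, IsIntegral R (algebraMap (AlgebraicClosure k) M a) := by
    intro a
    have htow' : IsScalarTower k R M := IsScalarTower.of_algebraMap_eq fun x => by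
      rw [IsScalarTower.algebraMap_apply k K M]; rfl
    have h1 : IsIntegral k a := Algebra.IsIntegral.isIntegral a
    have h2 : IsIntegral k (algebraMap (AlgebraicClosure k) M a) := h1.algebraMap
    exact h2.tower_top
  intro σ y ι' φ' hres hι hφ X hX1 hX2 j n hn
  have hL : ∀ x : lam.fieldRange, ∃ y : F, algebraMap F (AlgebraicClosure F) y = ι' x := by
    intro x
    refine ⟨σ (e.symm x), ?_⟩
    rw [← hι, ← he, AlgEquiv.apply_symm_apply]
  obtain ⟨w, hw⟩ := quot_mem (B := integralClosure R M) s hBk hres lam.fieldRange hL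
    ⟨T j n, hTint j n hn⟩ (hζ j n hn) (z j n) (hzσ j n hn)
  refine ⟨w, ?_⟩
  apply (algebraMap F (AlgebraicClosure F)).injective
  have hz0 : ι' (z j n) ≠ 0 := by
    rw [_root_.map_ne_zero]; exact (z j n).ne_zero
  rw [map_mul, map_pow, hw, ← hι, eval_eq R lam σ y hres.1 hι hφ X hX1 hX2]
  have h1 : lam ((Units.map (e.symm : lam.fieldRange →* L) (e' j n) : Lˣ) : L) =
      (z j n : AlgebraicClosure k) ^ n := by
    rw [hz j n hn, ← he]
    change ((e (e.symm (e' j n : lam.fieldRange)) : lam.fieldRange) : AlgebraicClosure k) = _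
    rw [AlgEquiv.apply_symm_apply]
    rfl
  rw [h1, map_pow, div_pow, mul_div_cancel₀ _ (pow_ne_zero n hz0), ← map_pow]
  congr 1
  apply Subtype.ext
  exact hTn j n hn

theorem exists_classes_units {k : Type u} [Field k] [NumberField k]
    {K : Type*} [Field K] [Algebra k K] (R : Subalgebra k K)
    {M : Type*} [Field M] [Algebra K M] [Algebra (AlgebraicClosure k) M] [Algebra k M]
    [IsScalarTower k K M] [IsScalarTower k (AlgebraicClosure k) M]
    {L : Type*} [Field L] [Algebra k L] [FiniteDimensional k L]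
    (lam : L →ₐ[k] AlgebraicClosure k)
    {J : Type*} (u : J → (L ⊗[k] R)ˣ)
    (hroots : ∀ j, ∀ n : ℕ, 1 ≤ n → ∃ b : M, b ^ n = toM R lam (u j : L ⊗[k] R))
    (s : Gal(AlgebraicClosure k/k) →* Gal(M/K)) (hs : Continuous s)
    (hsec : ∀ σ a, s σ (algebraMap (AlgebraicClosure k) M a) =
      algebraMap (AlgebraicClosure k) M (σ a)) :
    ∃ G : J → ℕ → Lˣ, (∀ j n m, 1 ≤ n → 1 ≤ m → ∃ w : Lˣ, G j (n * m) = G j n * w ^ n) ∧
      (∀ (F : Type w₁) [Field F] [CharZero F], ClassAt R lam u s G F) ∧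
      ∀ (F : Type w₂) [Field F] [CharZero F], ClassAt R lam u s G F := by
  classical
  let L' : IntermediateField k (AlgebraicClosure k) := lam.fieldRange
  let e : L ≃ₐ[k] L' := AlgEquiv.ofInjectiveField lam
  have he : ∀ l, ((e l : L') : AlgebraicClosure k) = lam l := fun l => rfl
  have hfin : FiniteDimensional k L' := LinearEquiv.finiteDimensional e.toLinearEquiv
  have hU0 : ∀ j, toM R (M := M) lam (u j : L ⊗[k] R) ≠ 0 := fun j =>
    ((u j).isUnit.map (toM R lam)).ne_zero
  choose T hT1 hTn hTc using fun j => exists_roots_compatible (hroots j)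
  have hTint : ∀ j n, 1 ≤ n → T j n ∈ integralClosure R M := fun j n hn =>
    IsIntegral.of_pow hn (by rw [hTn j n hn]; exact toM_integral R lam _)
  have hfix : ∀ σ ∈ L'.fixingSubgroup, ∀ t, s σ (toM R lam t) = toM R (M := M) lam t := by
    intro σ hσ t
    induction t using TensorProduct.induction_on with
    | zero => rw [map_zero, map_zero]
    | tmul l r =>
      rw [toM_tmul, map_mul, hsec]
      have h1 : σ (lam l) = lam l := by
        rw [IntermediateField.mem_fixingSubgroup_iff] at hσ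
        exact hσ (lam l) ⟨l, rfl⟩
      have h2 : s σ (algebraMap R M r) = algebraMap R M r := AlgEquiv.commutes (s σ) (r : K)
      rw [h1, h2]
    | add x y hx hy => rw [map_add, map_add, hx, hy]
  have hRK : ∀ b : M, IsIntegral R b → IsIntegral K b := by
    intro b hb
    exact hb.tower_top
  obtain ⟨z, e', hz, hzσ, hζ, hcompat⟩ := exists_classes_L s hs hsec L'
    (fun j => toM R (M := M) lam (u j : L ⊗[k] R)) hU0 T hTn hTc
    (fun j n hn => hRK _ (hTint j n hn)) (fun σ hσ j => hfix σ hσ _)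
  refine ⟨fun j n => Units.map (e.symm : L' →* L) (e' j n), fun j n m hn hm => ?_, ?_, ?_⟩
  · obtain ⟨w, hw⟩ := hcompat j n m hn hm
    refine ⟨Units.map (e.symm : L' →* L) w, ?_⟩
    beta_reduce
    rw [hw, map_mul, map_pow]
  · intro F _ _
    exact classAt_of_data R lam u s e he T hTn hTint z e' hz hzσ hζ F
  · intro F _ _
    exact classAt_of_data R lam u s e he T hTn hTint z e' hz hzσ hζ F

end Pool.Agent.Lib.MP_2f3286_ag.GU
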