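import Pool.Agent.Lib.MP_2f3286_ag.GU.LocalClass
import Pool.Agent.Lib.MP_2f3286_ag.LG
import Pool.Agent.Lib.MP_2f3286_ag.Local

/-!
# The values of units are units at almost all places
-/

open IsDedekindDomain NumberField Polynomial
open scoped TensorProduct

namespace Pool.Agent.Lib.MP_2f3286_ag.GU

/-- a unit with global classes stays a unit over an extension -/
theorem val_one_of_classes {k L : Type*} [Field k] [NumberField k] [Field L] [NumberField L]
    [Algebra k L] (v : HeightOneSpectrum (𝓞 k)) (w : HeightOneSpectrum (𝓞 L))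
    (hl : w.asIdeal.LiesOver v.asIdeal) (θ : v.adicCompletion k →+* w.adicCompletion L)
    (hθ : ∀ a : k, θ (algebraMap k _ a) = algebraMap L _ (algebraMap k L a))
    (G : ℕ → kˣ) (y : v.adicCompletion k) (hy : Valued.v y = 1)
    (hG : ∀ n, 1 ≤ n → ∃ z : v.adicCompletion k, algebraMap k _ (G n : k) * z ^ n = y) :
    Valued.v (θ y) = 1 := by
  have hy0 : y ≠ 0 := by
    rintro rfl
    rw [map_zero] at hy
    exact zero_ne_one hy
  have hθ0 : θ y ≠ 0 := by
    rw [_root_.map_ne_zero]; exact hy0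
  refine eq_one_of_pow (g := Valued.v (θ y)) ((Valuation.ne_zero_iff _).mpr hθ0) fun n hn => ?_
  obtain ⟨z, hz⟩ := hG n hn
  have hz0 : z ≠ 0 := by
    rintro rfl
    rw [zero_pow (by omega), mul_zero] at hz
    exact hy0 hz.symm
  have hvz0 : Valued.v z ≠ 0 := (Valuation.ne_zero_iff _).mpr hz0
  refine ⟨(Valued.v z)⁻¹ ^ v.asIdeal.ramificationIdx' w.asIdeal * Valued.v (θ z), ?_⟩
  have h1 : v.valuation k (G n : k) = ((Valued.v z)⁻¹) ^ n := by
    have h2 := congrArg Valued.v hz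
    rw [map_mul, map_pow, val_alg, hy] at h2
    rw [inv_pow]
    exact eq_inv_of_mul_eq_one_left h2
  rw [← hz, map_mul, map_pow, hθ, map_mul, map_pow, val_alg,
    ← HeightOneSpectrum.valuation_liesOver L v w, h1, mul_pow, ← pow_mul, ← pow_mul,
    mul_comm (v.asIdeal.ramificationIdx' w.asIdeal) n]

section

variable {k L : Type*} [Field k] [NumberField k] [Field L] [NumberField L] [Algebra k L]
  {R : Type*} [CommRing R] [Algebra k R]

theorem exists_val_le {ι : Type*} (p : ι → Rˣ) (a : R)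
    (ha : a ∈ Algebra.adjoin k (Set.range (fun i => ((p i : Rˣ) : R)) ∪
      Set.range fun i => (((p i)⁻¹ : Rˣ) : R))) :
    ∃ T : Finset (HeightOneSpectrum (𝓞 L)), ∀ w ∉ T, ∀ y : R →+* w.adicCompletion L,
      (∀ a : k, y (algebraMap k R a) = algebraMap L _ (algebraMap k L a)) →
      (∀ i, Valued.v (y (p i)) = 1) → Valued.v (y a) ≤ 1 := by
  classical
  induction ha using Algebra.adjoin_induction with
  | mem a ha =>
    refine ⟨∅, fun w _ y _ hy => ?_⟩
    rcases ha with ⟨i, rfl⟩ | ⟨i, rfl⟩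
    · exact (hy i).le
    · have h1 : y (((p i)⁻¹ : Rˣ) : R) * y (p i) = 1 := by
        rw [← map_mul, Units.inv_mul, map_one]
      have h2 := congrArg Valued.v h1
      rw [map_mul, hy i, mul_one, map_one] at h2
      exact h2.le
  | algebraMap c =>
    rcases eq_or_ne c 0 with rfl | hc
    · exact ⟨∅, fun w _ y _ _ => by rw [map_zero, map_zero, map_zero]; exact zero_le_one⟩
    · have hc' : algebraMap k L c ≠ 0 := by rw [_root_.map_ne_zero]; exact hc
      refine ⟨(finite_val_ne_one hc').toFinset, fun w hw y hy _ => ?_⟩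
      rw [Set.Finite.mem_toFinset, Set.mem_ofPred_eq, not_not] at hw
      rw [hy, val_alg, hw]
  | add a b _ _ ha hb =>
    obtain ⟨T₁, h₁⟩ := ha
    obtain ⟨T₂, h₂⟩ := hb
    refine ⟨T₁ ∪ T₂, fun w hw y hy hp => ?_⟩
    rw [Finset.mem_union, not_or] at hw
    rw [map_add]
    exact (Valuation.map_add _ _ _).trans (max_le (h₁ w hw.1 y hy hp) (h₂ w hw.2 y hy hp))
  | mul a b _ _ ha hb =>
    obtain ⟨T₁, h₁⟩ := ha
    obtain ⟨T₂, h₂⟩ := hb
    refine ⟨T₁ ∪ T₂, fun w hw y hy hp => ?_⟩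
    rw [Finset.mem_union, not_or] at hw
    rw [map_mul, map_mul]
    exact mul_le_one' (h₁ w hw.1 y hy hp) (h₂ w hw.2 y hy hp)

/-- `x` is integral over the `k`-algebra generated by the units `p` and their inverses -/
def IsIntOver (k : Type*) [Field k] {R B : Type*} [CommRing R] [Algebra k R] [CommRing B] (h : R →+* B)
    {ι : Type*} (p : ι → Rˣ) (x : B) : Prop :=
  (h.comp (Algebra.adjoin k (Set.range (fun i => ((p i : Rˣ) : R)) ∪
      Set.range fun i => (((p i)⁻¹ : Rˣ) : R))).val.toRingHom).IsIntegralElem x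

theorem exists_val_le_int {ι : Type*} (p : ι → Rˣ) (t : L ⊗[k] R)
    (ht : IsIntOver k (Algebra.TensorProduct.includeRight : R →ₐ[k] L ⊗[k] R).toRingHom p t) :
    ∃ T : Finset (HeightOneSpectrum (𝓞 L)), ∀ w ∉ T, ∀ X : L ⊗[k] R →+* w.adicCompletion L,
      (∀ l : L, X (l ⊗ₜ 1) = algebraMap L _ l) →
      (∀ i, Valued.v (X (1 ⊗ₜ (p i : R))) = 1) → Valued.v (X t) ≤ 1 := by
  classical
  obtain ⟨q, hq, hqt⟩ := ht
  choose T hT using fun a : Algebra.adjoin k (Set.range (fun i => ((p i : Rˣ) : R)) ∪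
      Set.range fun i => (((p i)⁻¹ : Rˣ) : R)) => exists_val_le (k := k) (L := L) p (a : R) a.2
  refine ⟨(Finset.range (q.natDegree + 1)).biUnion fun i => T (q.coeff i), fun w hw X hX hp => ?_⟩
  rw [Finset.mem_biUnion] at hw
  push Not at hw
  let y : R →+* w.adicCompletion L :=
    X.comp (Algebra.TensorProduct.includeRight : R →ₐ[k] L ⊗[k] R).toRingHom
  have hy : ∀ r, y r = X (1 ⊗ₜ r) := fun r => rfl
  have hyk : ∀ a : k, y (algebraMap k R a) = algebraMap L _ (algebraMap k L a) := by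
    intro a
    rw [hy, ← hX, Algebra.algebraMap_eq_smul_one, Algebra.algebraMap_eq_smul_one,
      TensorProduct.smul_tmul]
  have hco : ∀ i, Valued.v (y (q.coeff i)) ≤ 1 := by
    intro i
    rcases Nat.lt_or_ge q.natDegree i with h | h
    · rw [coeff_eq_zero_of_natDegree_lt h]
      change Valued.v (y 0) ≤ 1
      rw [map_zero, map_zero]; exact zero_le_one
    · exact hT _ w (hw i (Finset.mem_range.mpr (by omega))) y hyk hp
  let O := (Valued.v (R := w.adicCompletion L)).integer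
  let g : Algebra.adjoin k (Set.range (fun i => ((p i : Rˣ) : R)) ∪
      Set.range fun i => (((p i)⁻¹ : Rˣ) : R)) →+* w.adicCompletion L := y.comp (Subalgebra.val _).toRingHom
  have h1 : (q.map g) ∈ Polynomial.lifts (algebraMap O (w.adicCompletion L)) := by
    rw [Polynomial.lifts_iff_coeff_lifts]
    intro n
    rw [coeff_map]
    exact ⟨⟨_, hco n⟩, rfl⟩
  obtain ⟨q', hq'1, -, hq'2⟩ := Polynomial.lifts_and_degree_eq_and_monic h1 (hq.map g)
  have h2 : IsIntegral O (X t) := by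
    refine ⟨q', hq'2, ?_⟩
    rw [← eval_map, hq'1, eval_map]
    have h3 := congrArg X hqt
    rw [map_zero, hom_eval₂] at h3
    exact h3
  exact Valuation.Integers.mem_of_integral (Valuation.integer.integers Valued.v) h2

/-- the values of units are units at almost all places -/
theorem exists_val_one {ι : Type*} (p : ι → Rˣ) (u : (L ⊗[k] R)ˣ)
    (h1 : IsIntOver k (Algebra.TensorProduct.includeRight : R →ₐ[k] L ⊗[k] R).toRingHom p
      (u : L ⊗[k] R))
    (h2 : IsIntOver k (Algebra.TensorProduct.includeRight : R →ₐ[k] L ⊗[k] R).toRingHom p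
      ((u⁻¹ : (L ⊗[k] R)ˣ) : L ⊗[k] R)) :
    ∃ T : Finset (HeightOneSpectrum (𝓞 L)), ∀ w ∉ T, ∀ X : L ⊗[k] R →+* w.adicCompletion L,
      (∀ l : L, X (l ⊗ₜ 1) = algebraMap L _ l) →
      (∀ i, Valued.v (X (1 ⊗ₜ (p i : R))) = 1) → Valued.v (X u) = 1 := by
  classical
  obtain ⟨T₁, h₁⟩ := exists_val_le_int p _ h1
  obtain ⟨T₂, h₂⟩ := exists_val_le_int p _ h2
  refine ⟨T₁ ∪ T₂, fun w hw X hX hp => ?_⟩
  rw [Finset.mem_union, not_or] at hw
  have h3 := h₁ w hw.1 X hX hp
  have h4 := h₂ w hw.2 X hX hp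
  have h5 : Valued.v (X u) * Valued.v (X ((u⁻¹ : (L ⊗[k] R)ˣ) : L ⊗[k] R)) = 1 := by
    rw [← map_mul, ← map_mul, Units.mul_inv, map_one, map_one]
  refine le_antisymm h3 ?_
  rw [← h5]
  exact mul_le_of_le_one_right' h4

end

end Pool.Agent.Lib.MP_2f3286_ag.GU
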