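import Pool.Agent.Lib.MP_2f3286_ag.GU.UMain
import Pool.Agent.Lib.MP_2f3286_ag.Full.FullFinal2

/-!
# Curves with enough units
-/

open IsDedekindDomain NumberField Polynomial
open scoped TensorProduct

namespace Pool.Agent.Lib.MP_2f3286_ag.GU

open Full

universe u w₁

/-- The curve with ring of functions `R` has enough units, integral over the `k`-algebra generated by the `p i` and
their inverses: for units `u j` over an extension `L` of `k` and exponents `n j`, at embeddings of `L` into the complex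
numbers, the products of the conjugates of an `S`-unit of `L` with exponents `n j` lie, up to roots of unity, in the
group generated by one number `ε`, and there are only finitely many families of complex points at which the products of
the conjugates of the `u j` with exponents `n j` have given values, up to powers of one number if `ε` is not `1`. -/
def EnoughUnits (k : Type u) [Field k] [NumberField k] (R : Type*) [CommRing R] [Algebra k R]
    (S : Finset (HeightOneSpectrum (𝓞 k))) {I : Type*} (p : I → Rˣ) : Prop :=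
  ∃ (L : Type w₁) (_ : Field L) (_ : NumberField L) (_ : Algebra k L) (J : Type) (_ : Fintype J)
    (u : J → (L ⊗[k] R)ˣ) (Sg : Finset (L →+* ℂ)) (n : J → (L →+* ℂ) → ℤ) (ε : ℂ),
    Sg.Nonempty ∧ ε ≠ 0 ∧
    (∀ j, IsIntOver k (Algebra.TensorProduct.includeRight : R →ₐ[k] L ⊗[k] R).toRingHom p
      (u j : L ⊗[k] R) ∧
      IsIntOver k (Algebra.TensorProduct.includeRight : R →ₐ[k] L ⊗[k] R).toRingHom p
        (((u j)⁻¹ : (L ⊗[k] R)ˣ) : L ⊗[k] R)) ∧
    (∀ e : Lˣ, (∀ w : HeightOneSpectrum (𝓞 L), (∀ v ∈ S, ¬ w.asIdeal.LiesOver v.asIdeal) →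
      w.valuation L (e : L) = 1) → ∀ j, ∃ ζ : ℂ, (∃ m : ℕ, 0 < m ∧ ζ ^ m = 1) ∧ ∃ m : ℤ,
        ∏ σ ∈ Sg, σ (e : L) ^ n j σ = ζ * ε ^ m) ∧
    ∀ (ρ : J → ℂ) (m : J → ℤ), (∀ j, ρ j ≠ 0) → (ε = 1 → m = 0) →
      {X : Sg → (L ⊗[k] R →+* ℂ) | CFam k R Sg X ∧ ∃ z : ℂ, z ≠ 0 ∧
        ∀ j, ∏ σ : Sg, X σ (u j) ^ n j σ = ρ j * z ^ m j}.Finite

/-- If there are enough units, a function takes at almost all local points of bounded contact values that are roots of
one polynomial over `k`. -/
theorem exists_poly_of_units {k : Type u} [Field k] [NumberField k]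
    {K : Type*} [Field K] [Algebra k K] (R₁ : Subalgebra k K) (hfg : R₁.FG)
    {M : Type*} [Field M] [Algebra K M] [Algebra (AlgebraicClosure k) M] [Algebra k M]
    [IsScalarTower k K M] [IsScalarTower k (AlgebraicClosure k) M]
    (S : Finset (HeightOneSpectrum (𝓞 k))) {I : Type*} [Fintype I] (p : I → R₁ˣ)
    (hU : EnoughUnits.{u, w₁} k R₁ S p)
    (hroots : ∀ b : M, IsIntegral R₁ b → IsIntegral R₁ b⁻¹ → ∀ n : ℕ, 1 ≤ n → ∃ c : M, c ^ n = b)
    (s : Gal(AlgebraicClosure k/k) →* Gal(M/K)) (hs : Continuous s)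
    (hsec : ∀ σ a, s σ (algebraMap (AlgebraicClosure k) M a) =
      algebraMap (AlgebraicClosure k) M (σ a))
    (ι : ∀ v : {v : HeightOneSpectrum (𝓞 k) // v ∉ S},
      AlgebraicClosure k →ₐ[k] AlgebraicClosure (v.1.adicCompletion k))
    (φ : ∀ v : {v : HeightOneSpectrum (𝓞 k) // v ∉ S},
      integralClosure R₁ M →+* AlgebraicClosure (v.1.adicCompletion k))
    (hφ : ∀ v, Respects s (v.1.adicCompletion k)
      (ι v : _ →+* AlgebraicClosure (v.1.adicCompletion k)) (φ v))
    (T : Finset (HeightOneSpectrum (𝓞 k))) (N : ℕ) (hN : 1 ≤ N)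
    (hcont : ∀ v, v.1 ∉ T → ∀ i, ∀ y z : v.1.adicCompletion k,
      φ v (algebraMap R₁ (integralClosure R₁ M) (p i)) = algebraMap _ _ y →
      Valued.v y = Valued.v z ^ N → Valued.v y = 1)
    (f : R₁) :
    ∃ (S' : Finset (HeightOneSpectrum (𝓞 k))) (χ : k[X]), S ⊆ S' ∧ χ ≠ 0 ∧
      ∀ v : {v : HeightOneSpectrum (𝓞 k) // v ∉ S}, v.1 ∉ S' →
        φ v (algebraMap R₁ (integralClosure R₁ M) (aeval f χ)) = 0 := by
  obtain ⟨L, _, _, _, J, _, u, Sg, n, ε, hSg, hε, hint, hchar, hfin⟩ := hU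
  have halg : Algebra.IsAlgebraic k L := Algebra.IsAlgebraic.tower_top (K := ℚ) k
  let lam : L →ₐ[k] AlgebraicClosure k := IsAlgClosed.lift
  choose x hx using fun v => exists_local_point R₁ s v.1 (ι v) (φ v) (hφ v)
  obtain ⟨S', χ, hSS', hχ, h⟩ := values_finite R₁ hfg lam S p u (fun j => (hint j).1)
    (fun j => (hint j).2) Sg n ε hε hchar hfin s hs hsec ι φ hφ x hx (fun i n hn => by
      refine hroots _ isIntegral_algebraMap ?_ n hn
      have h1 : (algebraMap R₁ M (p i : R₁))⁻¹ = algebraMap R₁ M (((p i)⁻¹ : R₁ˣ) : R₁) := by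
        apply inv_eq_of_mul_eq_one_right
        rw [← map_mul, Units.mul_inv, map_one]
      rw [h1]; exact isIntegral_algebraMap)
    (fun j n hn => by
      refine hroots _ (toM_integral R₁ lam _) ?_ n hn
      have h1 : (toM R₁ (M := M) lam (u j : L ⊗[k] R₁))⁻¹ =
          toM R₁ lam (((u j)⁻¹ : (L ⊗[k] R₁)ˣ) : L ⊗[k] R₁) := by
        apply inv_eq_of_mul_eq_one_right
        rw [← map_mul, Units.mul_inv, map_one]
      rw [h1]; exact toM_integral R₁ lam _) T N hN hcont hSg f
  refine ⟨S', χ, hSS', hχ, fun v hv => ?_⟩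
  rw [← hx, ← aeval_algHom_apply, h v.1 v.2 hv, map_zero]

/-- the same for a section and local points of a curve mapping to the one with enough units -/
theorem exists_poly_of_units_sub {k : Type u} [Field k] [NumberField k]
    {K : Type*} [Field K] [Algebra k K] (R₁ R : Subalgebra k K) (hle : R₁ ≤ R) (hfg : R₁.FG)
    {M : Type*} [Field M] [Algebra K M] [Algebra (AlgebraicClosure k) M] [Algebra k M]
    [IsScalarTower k K M] [IsScalarTower k (AlgebraicClosure k) M]
    (S : Finset (HeightOneSpectrum (𝓞 k))) {I : Type*} [Fintype I] (p : I → R₁ˣ)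
    (hU : EnoughUnits.{u, w₁} k R₁ S p)
    (hmax : Pt.IsRadClosed R M (AlgebraicClosure k))
    (s : Gal(AlgebraicClosure k/k) →* Gal(M/K)) (hs : Continuous s)
    (hsec : ∀ σ a, s σ (algebraMap (AlgebraicClosure k) M a) =
      algebraMap (AlgebraicClosure k) M (σ a))
    (ι : ∀ v : {v : HeightOneSpectrum (𝓞 k) // v ∉ S},
      AlgebraicClosure k →ₐ[k] AlgebraicClosure (v.1.adicCompletion k))
    (φ : ∀ v : {v : HeightOneSpectrum (𝓞 k) // v ∉ S},
      integralClosure R M →+* AlgebraicClosure (v.1.adicCompletion k))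
    (hφ : ∀ v, Respects s (v.1.adicCompletion k)
      (ι v : _ →+* AlgebraicClosure (v.1.adicCompletion k)) (φ v))
    (T : Finset (HeightOneSpectrum (𝓞 k))) (N : ℕ) (hN : 1 ≤ N)
    (hcont : ∀ v, v.1 ∉ T → ∀ i, ∀ y z : v.1.adicCompletion k,
      φ v (algebraMap R (integralClosure R M) (Subalgebra.inclusion hle (p i))) = algebraMap _ _ y →
      Valued.v y = Valued.v z ^ N → Valued.v y = 1)
    (f : R₁) :
    ∃ (S' : Finset (HeightOneSpectrum (𝓞 k))) (χ : k[X]), S ⊆ S' ∧ χ ≠ 0 ∧
      ∀ v : {v : HeightOneSpectrum (𝓞 k) // v ∉ S}, v.1 ∉ S' →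
        φ v (algebraMap R (integralClosure R M) (aeval (Subalgebra.inclusion hle f) χ)) = 0 := by
  have hint₁ : ∀ b : M, IsIntegral R₁ b → IsIntegral R b := by
    intro b hb
    let _ : Algebra R₁ R := (Subalgebra.inclusion hle).toAlgebra
    have : IsScalarTower R₁ R M := IsScalarTower.of_algebraMap_eq fun x => rfl
    exact hb.tower_top
  let inc : integralClosure R₁ M →+* integralClosure R M :=
    { toFun := fun b => ⟨b, hint₁ _ b.2⟩
      map_one' := rfl
      map_mul' := fun _ _ => rfl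
      map_zero' := rfl
      map_add' := fun _ _ => rfl }
  have hres : ∀ v, Respects s (v.1.adicCompletion k)
      (ι v : _ →+* AlgebraicClosure (v.1.adicCompletion k)) ((φ v).comp inc) := fun v =>
    ⟨fun a b hb => (hφ v).1 a (inc b) hb, fun σ τ hστ b b' hb => (hφ v).2 σ τ hστ (inc b) (inc b') hb⟩
  have hinc : ∀ r : R₁, inc (algebraMap R₁ (integralClosure R₁ M) r) =
      algebraMap R (integralClosure R M) (Subalgebra.inclusion hle r) := fun r => rfl
  obtain ⟨S', χ, hSS', hχ, h⟩ := exists_poly_of_units R₁ hfg S p hU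
    (fun b hb hb' n hn => root_of_unit hmax _ (hint₁ _ hb) (hint₁ _ hb') n hn) s hs hsec ι
    (fun v => (φ v).comp inc) hres T N hN (fun v hv i y z hy hyz => hcont v hv i y z hy hyz) f
  refine ⟨S', χ, hSS', hχ, fun v hv => ?_⟩
  have h1 := h v hv
  change φ v (inc (algebraMap R₁ (integralClosure R₁ M) (aeval f χ))) = 0 at h1
  rw [hinc] at h1
  rw [aeval_algHom_apply]
  exact h1

end Pool.Agent.Lib.MP_2f3286_ag.GU
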